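import Pool.Agent.ARX.Res0

set_option autoImplicit false

/-!
# ARX: the two final theorems
-/

namespace Pool.Agent.ARX

open Filter Classical Pool.Agent.Helper6 Pool.Agent.Helper8.ArtinLS Pool.Agent.Helper8.ArtinC

/-- the range of `x` -/
def InRange (A τ : ℝ) (N x : ℕ) : Prop :=
  Real.exp ((Real.log N) ^ (1 - τ)) ≤ x ∧ (x : ℝ) ≤ (N : ℝ) ^ A

/-- the share of the primes `p ≤ x` with primitive root `n` -/
noncomputable def share (n : ℤ) (x : ℕ) : ℝ :=
  ((((Finset.range (x + 1)).filter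
    (fun p : ℕ => p.Prime ∧ orderOf (n : ZMod p) = p - 1)).card : ℕ) : ℝ) /
      ((Nat.primeCounting x : ℕ) : ℝ)

/-- the predicted density for squarefree part `n'` -/
noncomputable def dens (n' : ℤ) : ℝ :=
  (if n' % 4 = 1 then 1 - ((ArithmeticFunction.moebius n'.natAbs : ℤ) : ℝ) *
      ∏ q ∈ n'.natAbs.primeFactors, (1 / ((q : ℝ) ^ 2 - (q : ℝ) - 1)) else 1) *
    ∏' p : Nat.Primes, (1 - 1 / (((p : ℕ) : ℝ) * (((p : ℕ) : ℝ) - 1)))

lemma share_eq (n : ℤ) (x : ℕ) : share n x = prm n x / Nat.primeCounting x := by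
  unfold share prm
  congr!

lemma dens_close {n' : ℤ} (hn : Squarefree n') {ε : ℝ} (hε : 0 < ε)
    (h : ⌈2 / ε⌉₊ < n'.natAbs) : |dens n' - CA| ≤ ε / 2 := by
  have hBε : 1 / (n'.natAbs : ℝ) ≤ ε / 2 := by
    have h5 : 2 / ε ≤ (⌈2 / ε⌉₊ : ℝ) := Nat.le_ceil _
    have h6 : (⌈2 / ε⌉₊ : ℝ) ≤ n'.natAbs := by exact_mod_cast h.le
    have h7 : 0 < 2 / ε := by positivity
    calc 1 / (n'.natAbs : ℝ) ≤ 1 / (2 / ε) := by
          apply one_div_le_one_div_of_le h7 (h5.trans h6)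
      _ = ε / 2 := by field_simp
  unfold dens
  split_ifs with h4
  · exact (dlt_close hn h4).trans hBε
  · rw [one_mul]
    have : (∏' p : Nat.Primes, (1 - 1 / (((p : ℕ) : ℝ) * (((p : ℕ) : ℝ) - 1)))) = CA := rfl
    rw [this, sub_self, abs_zero]; positivity

lemma range_mono {A τ τ' : ℝ} (h : τ ≤ τ') {N x : ℕ} (hlogN : 1 ≤ Real.log N)
    (hx : InRange A τ N x) : InRange A τ' N x := by
  refine ⟨le_trans ?_ hx.1, hx.2⟩
  apply Real.exp_le_exp.mpr
  exact Real.rpow_le_rpow_of_exponent_le hlogN (by linarith)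

lemma one_le_log {N : ℕ} (h : 3 ≤ N) : 1 ≤ Real.log N := by
  rw [← Real.log_exp 1]
  apply Real.log_le_log (Real.exp_pos 1)
  have h1 := Real.exp_one_lt_d9
  have h2 : (3:ℝ) ≤ N := by exact_mod_cast h
  linarith

lemma pow_absorb (B c : ℝ) (hB : 0 ≤ B) (hc : 0 ≤ c) (δ : ℝ) (hδ : 0 < δ) :
    ∀ᶠ N : ℕ in atTop, B + c * (N : ℝ) ^ (δ/2) ≤ (N : ℝ) ^ δ := by
  have h3 : Tendsto (fun N : ℕ => (N : ℝ) ^ (δ/2)) atTop atTop :=
    (tendsto_rpow_atTop (by positivity)).comp tendsto_natCast_atTop_atTop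
  filter_upwards [h3.eventually_ge_atTop (B + c + 1), eventually_ge_atTop 1] with N h4 h5
  have hN : (0:ℝ) < N := by exact_mod_cast h5
  have h6 : (N : ℝ) ^ δ = (N : ℝ) ^ (δ/2) * (N : ℝ) ^ (δ/2) := by
    rw [← Real.rpow_add hN]; congr 1; ring
  rw [h6]
  have h7 : 1 ≤ (N : ℝ) ^ (δ/2) := by linarith
  nlinarith

/-- Integers with a given square part: all but `N ^ δ`. -/
theorem square_part :
    ∀ A δ ε : ℝ, 0 < A → 0 < δ → 0 < ε → ∃ τ : ℝ, 0 < τ ∧ τ < 1 ∧ ∃ N₀ : ℕ, ∀ N : ℕ, N₀ ≤ N →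
      ∀ k : ℕ, 1 ≤ k →
        (((Finset.Icc (-(N : ℤ)) N).filter (fun n' : ℤ => Squarefree n' ∧
            (n' * (k : ℤ) ^ 2).natAbs ≤ N ∧
            ¬ (∀ x : ℕ, InRange A τ N x →
              |share (n' * (k : ℤ) ^ 2) x - dens n'| ≤ ε))).card : ℝ) ≤ (N : ℝ) ^ δ := by
  intro A δ ε hA hδ hε
  obtain ⟨τ, hτ, hτ1, N₁, h1⟩ := all_scales 1 le_rfl (fun _ => True) CA CA_bounds.1
    (CA_bounds.2.trans (by norm_num)) main_one A (δ/2) (ε/2) hA (by positivity) (by positivity)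
  set B : ℕ := ⌈2 / ε⌉₊ with hB
  obtain ⟨N₃, hN₃⟩ := eventually_atTop.mp (pow_absorb ((2 * B + 1 : ℕ) : ℝ) 2 (by positivity)
    (by norm_num) δ hδ)
  refine ⟨τ, hτ, hτ1, max N₁ (max N₃ 3), ?_⟩
  intro N hN k hk
  have hN1 : N₁ ≤ N := (le_max_left _ _).trans hN
  have hN3 : N₃ ≤ N := (le_max_left _ _).trans ((le_max_right _ _).trans hN)
  by_cases hkN : N < k ^ 2
  · -- the set is empty
    have hemp : (Finset.Icc (-(N : ℤ)) N).filter (fun n' : ℤ => Squarefree n' ∧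
            (n' * (k : ℤ) ^ 2).natAbs ≤ N ∧
            ¬ (∀ x : ℕ, InRange A τ N x →
              |share (n' * (k : ℤ) ^ 2) x - dens n'| ≤ ε)) = ∅ := by
      apply Finset.filter_false_of_mem
      rintro n' _ ⟨hsq, hle, _⟩
      rw [Int.natAbs_mul, Int.natAbs_pow, Int.natAbs_natCast] at hle
      have h2 : 1 ≤ n'.natAbs := Int.natAbs_pos.2 hsq.ne_zero
      nlinarith
    rw [hemp, Finset.card_empty, Nat.cast_zero]
    positivity
  push Not at hkN
  have hk0 : ((k : ℤ) ^ 2) ≠ 0 := by positivity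
  set E₁ : Finset ℕ := (Finset.Icc 1 N).filter (fun m : ℕ => Squarefree m ∧ ∃ x : ℕ,
    InRange A τ N x ∧ ε / 2 < |prm ((k : ℤ) ^ 2 * (m:ℤ)^1) x / Nat.primeCounting x - CA|) with hE₁
  set E₂ : Finset ℕ := (Finset.Icc 1 N).filter (fun m : ℕ => Squarefree m ∧ ∃ x : ℕ,
    InRange A τ N x ∧ ε / 2 < |prm (-((k : ℤ) ^ 2) * (m:ℤ)^1) x / Nat.primeCounting x - CA|) with hE₂
  have hE₁c : (E₁.card : ℝ) ≤ (N:ℝ)^(δ/2) := by
    apply h1 N hN1 ((k : ℤ) ^ 2) trivial hk0 (by rw [Int.natAbs_pow, Int.natAbs_natCast]; exact hkN) E₁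
    · intro m hm
      rw [hE₁, Finset.mem_filter, Finset.mem_Icc] at hm
      exact ⟨hm.1.1, hm.1.2, hm.2.1⟩
    · intro m hm
      rw [hE₁, Finset.mem_filter] at hm
      obtain ⟨x, hx1, hx3⟩ := hm.2.2
      exact ⟨x, hx1.1, hx1.2, hx3⟩
  have hE₂c : (E₂.card : ℝ) ≤ (N:ℝ)^(δ/2) := by
    apply h1 N hN1 (-((k : ℤ) ^ 2)) trivial (neg_ne_zero.2 hk0)
      (by rw [Int.natAbs_neg, Int.natAbs_pow, Int.natAbs_natCast]; exact hkN) E₂
    · intro m hm
      rw [hE₂, Finset.mem_filter, Finset.mem_Icc] at hm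
      exact ⟨hm.1.1, hm.1.2, hm.2.1⟩
    · intro m hm
      rw [hE₂, Finset.mem_filter] at hm
      obtain ⟨x, hx1, hx3⟩ := hm.2.2
      exact ⟨x, hx1.1, hx1.2, hx3⟩
  set E₃ : Finset ℤ := Finset.Icc (-(B : ℤ)) B with hE₃
  have hE₃c : (E₃.card : ℝ) = ((2 * B + 1 : ℕ) : ℝ) := by
    rw [hE₃, Int.card_Icc]
    congr 1
    omega
  refine le_trans (b := (((E₁.image (fun m : ℕ => (m:ℤ))) ∪ (E₂.image (fun m : ℕ => -(m:ℤ))) ∪ E₃).card : ℝ)) ?_ ?_
  · refine Nat.cast_le.mpr (Finset.card_le_card ?_)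
    intro n hn
    rw [Finset.mem_filter] at hn
    obtain ⟨hnI, hnsq, hnN, hbad⟩ := hn
    rw [Finset.mem_union, Finset.mem_union]
    by_cases hnB : n.natAbs ≤ B
    · right
      rw [hE₃, Finset.mem_Icc]
      omega
    · left
      push Not at hnB
      obtain ⟨x, hx⟩ := not_forall.mp hbad
      obtain ⟨hx1, hx3⟩ := Classical.not_imp.mp hx
      rw [not_le] at hx3
      have hclose := dens_close hnsq hε hnB
      have hkey : ε / 2 < |prm (n * (k : ℤ) ^ 2) x / Nat.primeCounting x - CA| := by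
        rw [share_eq] at hx3
        have h10 := abs_sub_le (prm (n * (k : ℤ) ^ 2) x / Nat.primeCounting x) CA (dens n)
        rw [abs_sub_comm] at hclose
        linarith
      rw [Finset.mem_Icc] at hnI
      rcases lt_trichotomy n 0 with hneg | hz | hpos
      · right
        rw [Finset.mem_image]
        refine ⟨n.natAbs, ?_, by omega⟩
        rw [hE₂, Finset.mem_filter, Finset.mem_Icc]
        refine ⟨by omega, Int.squarefree_natAbs.2 hnsq, x, hx1, ?_⟩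
        have h20 : ((n.natAbs : ℤ)) = -n := by omega
        have : (-((k : ℤ) ^ 2) * (n.natAbs : ℤ) ^ 1) = n * (k : ℤ) ^ 2 := by
          rw [pow_one, h20]; ring
        rw [this]
        exact hkey
      · subst hz
        exact absurd rfl hnsq.ne_zero
      · left
        rw [Finset.mem_image]
        refine ⟨n.natAbs, ?_, by omega⟩
        rw [hE₁, Finset.mem_filter, Finset.mem_Icc]
        refine ⟨by omega, Int.squarefree_natAbs.2 hnsq, x, hx1, ?_⟩
        have h20 : ((n.natAbs : ℤ)) = n := by omega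
        have : ((k : ℤ) ^ 2 * (n.natAbs : ℤ) ^ 1) = n * (k : ℤ) ^ 2 := by
          rw [pow_one, h20]; ring
        rw [this]
        exact hkey
  · calc (((E₁.image (fun m : ℕ => (m:ℤ))) ∪ (E₂.image (fun m : ℕ => -(m:ℤ))) ∪ E₃).card : ℝ)
        ≤ ((E₁.card : ℝ) + E₂.card) + E₃.card := by
          have h11 := Finset.card_union_le ((E₁.image (fun m : ℕ => (m:ℤ))) ∪ (E₂.image (fun m : ℕ => -(m:ℤ)))) E₃
          have h12 := Finset.card_union_le (E₁.image (fun m : ℕ => (m:ℤ))) (E₂.image (fun m : ℕ => -(m:ℤ)))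
          have h13 : (E₁.image (fun m : ℕ => (m:ℤ))).card ≤ E₁.card := Finset.card_image_le
          have h14 : (E₂.image (fun m : ℕ => -(m:ℤ))).card ≤ E₂.card := Finset.card_image_le
          exact_mod_cast (by omega : _ ≤ (E₁.card + E₂.card) + E₃.card)
      _ ≤ ((N:ℝ)^(δ/2) + (N:ℝ)^(δ/2)) + ((2 * B + 1 : ℕ) : ℝ) := by rw [hE₃c]; gcongr
      _ ≤ (N : ℝ) ^ δ := by
          have := hN₃ N hN3
          linarith

/-- Integers: at most `N ^ δ` exceptions with a given square part (in particular among the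
squarefree integers) and `N ^ (1/2 + δ)` in all. -/
theorem integers :
    ∀ A δ ε : ℝ, 0 < A → 0 < δ → 0 < ε → ∃ τ : ℝ, 0 < τ ∧ τ < 1 ∧ ∃ N₀ : ℕ, ∀ N : ℕ, N₀ ≤ N →
      (∀ k : ℕ, 1 ≤ k →
        (((Finset.Icc (-(N : ℤ)) N).filter (fun n' : ℤ => Squarefree n' ∧
            (n' * (k : ℤ) ^ 2).natAbs ≤ N ∧
            ¬ (∀ x : ℕ, InRange A τ N x →
              |share (n' * (k : ℤ) ^ 2) x - dens n'| ≤ ε))).card : ℝ) ≤ (N : ℝ) ^ δ) ∧
      (((Finset.Icc (-(N : ℤ)) N).filter (fun n : ℤ => n ≠ 0 ∧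
          ∃ n' : ℤ, Squarefree n' ∧ (∃ k : ℤ, n = n' * k ^ 2) ∧
            ¬ (∀ x : ℕ, InRange A τ N x → |share n x - dens n'| ≤ ε))).card : ℝ) ≤
        (N : ℝ) ^ (1 / 2 + δ) := by
  intro A δ ε hA hδ hε
  obtain ⟨τ, hτ, hτ1, N₀, h⟩ := square_part A (δ / 2) ε hA (by positivity) hε
  obtain ⟨N₃, hN₃⟩ := eventually_atTop.mp (pow_absorb 0 2 le_rfl (by norm_num) δ hδ)
  refine ⟨τ, hτ, hτ1, max N₀ (max N₃ 3), ?_⟩
  intro N hN
  have hN0 : N₀ ≤ N := (le_max_left _ _).trans hN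
  have hN3 : N₃ ≤ N := (le_max_left _ _).trans ((le_max_right _ _).trans hN)
  have hN3' : 3 ≤ N := (le_max_right _ _).trans ((le_max_right _ _).trans hN)
  have hNr : (1:ℝ) ≤ N := by exact_mod_cast (by omega : 1 ≤ N)
  have hN0' : (0:ℝ) < N := by linarith
  constructor
  · intro k hk
    refine (h N hN0 k hk).trans ?_
    exact Real.rpow_le_rpow_of_exponent_le hNr (by linarith)
  · set S : ℕ → Finset ℤ := fun k => ((Finset.Icc (-(N : ℤ)) N).filter (fun n' : ℤ => Squarefree n' ∧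
            (n' * (k : ℤ) ^ 2).natAbs ≤ N ∧
            ¬ (∀ x : ℕ, InRange A τ N x →
              |share (n' * (k : ℤ) ^ 2) x - dens n'| ≤ ε))) with hS
    have hsub : (Finset.Icc (-(N : ℤ)) N).filter (fun n : ℤ => n ≠ 0 ∧
          ∃ n' : ℤ, Squarefree n' ∧ (∃ k : ℤ, n = n' * k ^ 2) ∧
            ¬ (∀ x : ℕ, InRange A τ N x → |share n x - dens n'| ≤ ε)) ⊆
        (Finset.Icc 1 (Nat.sqrt N)).biUnion (fun k => (S k).image (fun n' => n' * (k : ℤ) ^ 2)) := by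
      intro n hn
      rw [Finset.mem_filter, Finset.mem_Icc] at hn
      obtain ⟨⟨hn1, hn2⟩, hn0, n', hsq, ⟨k, hk⟩, hbad⟩ := hn
      have hk0 : k ≠ 0 := by rintro rfl; rw [hk] at hn0; simp at hn0
      have hkk : k ^ 2 = ((k.natAbs : ℕ) : ℤ) ^ 2 := by rw [Int.natCast_natAbs, sq_abs]
      have hnN : n.natAbs ≤ N := by omega
      have hn'1 : 1 ≤ n'.natAbs := Int.natAbs_pos.2 hsq.ne_zero
      have hprod : n.natAbs = n'.natAbs * k.natAbs ^ 2 := by
        rw [hk, Int.natAbs_mul, Int.natAbs_pow]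
      have hk1 : 1 ≤ k.natAbs := Int.natAbs_pos.2 hk0
      rw [Finset.mem_biUnion]
      refine ⟨k.natAbs, ?_, ?_⟩
      · rw [Finset.mem_Icc]
        refine ⟨hk1, ?_⟩
        rw [Nat.le_sqrt']
        nlinarith
      · rw [Finset.mem_image]
        refine ⟨n', ?_, by rw [hk, hkk]⟩
        simp only [hS, Finset.mem_filter, Finset.mem_Icc]
        refine ⟨?_, hsq, ?_, ?_⟩
        · have : n'.natAbs ≤ N := by nlinarith [Nat.one_le_pow 2 k.natAbs hk1]
          omega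
        · rw [← hkk, ← hk]; exact hnN
        · rw [← hkk, ← hk]; exact hbad
    have hcard : (((Finset.Icc 1 (Nat.sqrt N)).biUnion
        (fun k => (S k).image (fun n' => n' * (k : ℤ) ^ 2))).card : ℝ) ≤
        (Nat.sqrt N : ℝ) * (N : ℝ) ^ (δ / 2) := by
      calc _ ≤ ((∑ k ∈ Finset.Icc 1 (Nat.sqrt N), ((S k).image (fun n' => n' * (k : ℤ) ^ 2)).card : ℕ) : ℝ) := by
            exact_mod_cast Finset.card_biUnion_le
        _ ≤ ∑ k ∈ Finset.Icc 1 (Nat.sqrt N), ((S k).card : ℝ) := by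
            push_cast
            apply Finset.sum_le_sum
            intro k _
            exact_mod_cast Finset.card_image_le
        _ ≤ ∑ k ∈ Finset.Icc 1 (Nat.sqrt N), (N : ℝ) ^ (δ / 2) := by
            apply Finset.sum_le_sum
            intro k hk
            exact h N hN0 k (Finset.mem_Icc.1 hk).1
        _ = _ := by
            rw [Finset.sum_const, Nat.card_Icc, Nat.add_sub_cancel, nsmul_eq_mul]
    have hsqrt : (Nat.sqrt N : ℝ) ≤ (N : ℝ) ^ (1/2 : ℝ) := by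
      rw [← Real.sqrt_eq_rpow]
      exact Real.nat_sqrt_le_real_sqrt
    calc _ ≤ (((Finset.Icc 1 (Nat.sqrt N)).biUnion
        (fun k => (S k).image (fun n' => n' * (k : ℤ) ^ 2))).card : ℝ) := by
          exact_mod_cast Finset.card_le_card hsub
      _ ≤ (Nat.sqrt N : ℝ) * (N : ℝ) ^ (δ / 2) := hcard
      _ ≤ (N : ℝ) ^ (1/2 : ℝ) * (N : ℝ) ^ (δ / 2) := by gcongr
      _ = (N : ℝ) ^ (1/2 + δ/2 : ℝ) := by rw [← Real.rpow_add hN0']
      _ ≤ (N : ℝ) ^ (1 / 2 + δ) := Real.rpow_le_rpow_of_exponent_le hNr (by linarith)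

/-- A fixed square class: at most `M ^ δ` exceptions `k l`, `l` squarefree, for each `k`, and
`M ^ (1/2 + δ)` in all. -/
theorem square_class :
    ∀ b : ℤ, Squarefree b → b % 4 = 1 → b ≠ 1 →
    ∀ A δ ε : ℝ, 0 < A → 0 < δ → 0 < ε → ∃ τ : ℝ, 0 < τ ∧ τ < 1 ∧ ∃ M₀ : ℕ, ∀ M : ℕ, M₀ ≤ M →
      (∀ k : ℕ, 1 ≤ k →
        (((Finset.Icc 1 M).filter (fun l : ℕ => Squarefree l ∧ k * l ≤ M ∧
            ¬ (∀ x : ℕ, InRange A τ M x →
              |share (b * ((k * l : ℕ) : ℤ) ^ 2) x - dens b| ≤ ε))).card : ℝ) ≤ (M : ℝ) ^ δ) ∧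
      (((Finset.Icc 1 M).filter (fun m : ℕ =>
            ¬ (∀ x : ℕ, InRange A τ M x →
              |share (b * (m : ℤ) ^ 2) x - dens b| ≤ ε))).card : ℝ) ≤ (M : ℝ) ^ (1 / 2 + δ) := by
  intro b hb hb4 hb1 A δ ε hA hδ hε
  have hmain := Pool.Agent.Helper7.main_term hb hb4
  have hdl := Pool.Agent.Helper6.delta_bounds (b := b) hmain
  have hdens : dens b = dlt b := by
    unfold dens dlt
    rw [if_pos hb4]
    rfl
  obtain ⟨τ', hτ', hτ'1, N₁, h⟩ := all_scales 2 (by norm_num) (fun c => ∃ k : ℤ, c = b * k ^ 2)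
    (dlt b) hdl.1 hdl.2 (fun ε' τ' hε' _ hτ1 => main_two hb hb4 ε' τ' hε' hτ1) A (δ/6) ε hA
    (by positivity) hε
  -- range conversion
  have hrange : ∀ᶠ M : ℕ in atTop, ∀ x : ℕ, InRange A (τ'/2) M x → InRange A τ' (M^3) x := by
    have h1 : Tendsto (fun M : ℕ => (Real.log M) ^ (τ'/2)) atTop atTop :=
      (tendsto_rpow_atTop (by positivity)).comp
        (Real.tendsto_log_atTop.comp tendsto_natCast_atTop_atTop)
    filter_upwards [h1.eventually_ge_atTop 3, eventually_ge_atTop 3] with M h2 h3 x hx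
    have hlog := one_le_log h3
    have hM1 : (1:ℝ) ≤ M := by exact_mod_cast (by omega : 1 ≤ M)
    constructor
    · refine le_trans ?_ hx.1
      apply Real.exp_le_exp.mpr
      rw [Nat.cast_pow, Real.log_pow]
      calc (((3 : ℕ) : ℝ) * Real.log M) ^ (1 - τ') = (3:ℝ) ^ (1 - τ') * (Real.log M) ^ (1 - τ') := by
            rw [Real.mul_rpow (by norm_num) (by linarith)]; norm_num
        _ ≤ 3 * (Real.log M) ^ (1 - τ') := by
            gcongr
            calc (3:ℝ) ^ (1 - τ') ≤ (3:ℝ) ^ (1:ℝ) :=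
                  Real.rpow_le_rpow_of_exponent_le (by norm_num) (by linarith)
              _ = 3 := Real.rpow_one _
        _ ≤ (Real.log M) ^ (τ'/2) * (Real.log M) ^ (1 - τ') := by
            gcongr
        _ = (Real.log M) ^ (1 - τ'/2) := by
            rw [← Real.rpow_add (by linarith)]; congr 1; ring
    · refine hx.2.trans ?_
      apply Real.rpow_le_rpow (by linarith) _ hA.le
      rw [Nat.cast_pow]
      calc (M:ℝ) = (M:ℝ) ^ 1 := (pow_one _).symm
        _ ≤ (M:ℝ) ^ 3 := pow_le_pow_right₀ hM1 (by norm_num)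
  obtain ⟨M₁, hM₁⟩ := eventually_atTop.mp hrange
  have key : ∀ M : ℕ, max (max N₁ b.natAbs) (max M₁ 3) ≤ M → ∀ k : ℕ, 1 ≤ k →
        (((Finset.Icc 1 M).filter (fun l : ℕ => Squarefree l ∧ k * l ≤ M ∧
            ¬ (∀ x : ℕ, InRange A (τ'/2) M x →
              |share (b * ((k * l : ℕ) : ℤ) ^ 2) x - dens b| ≤ ε))).card : ℝ) ≤ (M : ℝ) ^ (δ/2) := by
    intro M hM k hk
    have hN1 : N₁ ≤ M := (le_max_left _ _).trans ((le_max_left _ _).trans hM)
    have hbM : b.natAbs ≤ M := (le_max_right _ _).trans ((le_max_left _ _).trans hM)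
    have hM1 : M₁ ≤ M := (le_max_left _ _).trans ((le_max_right _ _).trans hM)
    have hM3 : 3 ≤ M := (le_max_right _ _).trans ((le_max_right _ _).trans hM)
    have hMr : (1:ℝ) ≤ M := by exact_mod_cast (by omega : 1 ≤ M)
    by_cases hkM : M < k
    · have hemp : (Finset.Icc 1 M).filter (fun l : ℕ => Squarefree l ∧ k * l ≤ M ∧
            ¬ (∀ x : ℕ, InRange A (τ'/2) M x →
              |share (b * ((k * l : ℕ) : ℤ) ^ 2) x - dens b| ≤ ε)) = ∅ := by
        apply Finset.filter_false_of_mem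
        rintro l hl ⟨_, hle, _⟩
        rw [Finset.mem_Icc] at hl
        nlinarith
      rw [hemp, Finset.card_empty, Nat.cast_zero]
      positivity
    push Not at hkM
    have hpow : ((M ^ 3 : ℕ) : ℝ) ^ (δ/6) = (M : ℝ) ^ (δ/2) := by
      rw [Nat.cast_pow, ← Real.rpow_natCast, ← Real.rpow_mul (by linarith)]
      congr 1; push_cast; ring
    rw [← hpow]
    have hM3' : M ≤ M ^ 3 := Nat.le_self_pow (by norm_num) M
    apply h (M ^ 3) (hN1.trans hM3') (b * (k : ℤ) ^ 2) ⟨(k : ℤ), rfl⟩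
      (mul_ne_zero hb.ne_zero (by positivity)) _
    · intro l hl
      rw [Finset.mem_filter, Finset.mem_Icc] at hl
      exact ⟨hl.1.1, hl.1.2.trans hM3', hl.2.1⟩
    · intro l hl
      rw [Finset.mem_filter] at hl
      obtain ⟨_, _, _, hbad⟩ := hl
      obtain ⟨x, hx⟩ := not_forall.mp hbad
      obtain ⟨hx1, hx3⟩ := Classical.not_imp.mp hx
      rw [not_le, share_eq, hdens] at hx3
      have hx4 := hM₁ M hM1 x hx1
      refine ⟨x, hx4.1, hx4.2, ?_⟩
      have : b * (k : ℤ) ^ 2 * (l : ℤ) ^ 2 = b * ((k * l : ℕ) : ℤ) ^ 2 := by push_cast; ring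
      rw [this]
      exact hx3
    · rw [Int.natAbs_mul, Int.natAbs_pow, Int.natAbs_natCast]
      calc b.natAbs * k ^ 2 ≤ M * M ^ 2 := Nat.mul_le_mul hbM (Nat.pow_le_pow_left hkM 2)
        _ = M ^ 3 := by ring
  refine ⟨τ'/2, by positivity, by linarith, max (max N₁ b.natAbs) (max M₁ 3), ?_⟩
  intro M hM
  have hM3 : 3 ≤ M := (le_max_right _ _).trans ((le_max_right _ _).trans hM)
  have hMr : (1:ℝ) ≤ M := by exact_mod_cast (by omega : 1 ≤ M)
  have hM0' : (0:ℝ) < M := by linarith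
  constructor
  · intro k hk
    exact (key M hM k hk).trans (Real.rpow_le_rpow_of_exponent_le hMr (by linarith))
  · set S : ℕ → Finset ℕ := fun k => (Finset.Icc 1 M).filter (fun l : ℕ => Squarefree l ∧
      k * l ≤ M ∧ ¬ (∀ x : ℕ, InRange A (τ'/2) M x →
              |share (b * ((k * l : ℕ) : ℤ) ^ 2) x - dens b| ≤ ε)) with hS
    have hsub : (Finset.Icc 1 M).filter (fun m : ℕ =>
            ¬ (∀ x : ℕ, InRange A (τ'/2) M x →
              |share (b * (m : ℤ) ^ 2) x - dens b| ≤ ε)) ⊆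
        (Finset.Icc 1 (Nat.sqrt M)).biUnion (fun j => (S (j ^ 2)).image (fun l => j ^ 2 * l)) := by
      intro m hm
      rw [Finset.mem_filter, Finset.mem_Icc] at hm
      obtain ⟨⟨hm1, hm2⟩, hbad⟩ := hm
      obtain ⟨l, j, hlj, hlsq⟩ := Nat.sq_mul_squarefree m
      have hl1 : 1 ≤ l := Nat.pos_of_ne_zero hlsq.ne_zero
      have hj1 : 1 ≤ j := by
        rcases Nat.eq_zero_or_pos j with h0 | h0
        · subst h0; simp at hlj; omega
        · exact h0
      rw [Finset.mem_biUnion]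
      refine ⟨j, ?_, ?_⟩
      · rw [Finset.mem_Icc]
        refine ⟨hj1, ?_⟩
        rw [Nat.le_sqrt']
        nlinarith
      · rw [Finset.mem_image]
        refine ⟨l, ?_, hlj⟩
        simp only [hS, Finset.mem_filter, Finset.mem_Icc]
        refine ⟨⟨hl1, ?_⟩, hlsq, ?_, ?_⟩
        · nlinarith [Nat.one_le_pow 2 j hj1]
        · rw [hlj]; exact hm2
        · rw [hlj]; exact hbad
    have hcard : (((Finset.Icc 1 (Nat.sqrt M)).biUnion
        (fun j => (S (j ^ 2)).image (fun l => j ^ 2 * l))).card : ℝ) ≤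
        (Nat.sqrt M : ℝ) * (M : ℝ) ^ (δ / 2) := by
      calc _ ≤ ((∑ j ∈ Finset.Icc 1 (Nat.sqrt M), ((S (j ^ 2)).image (fun l => j ^ 2 * l)).card : ℕ) : ℝ) := by
            exact_mod_cast Finset.card_biUnion_le
        _ ≤ ∑ j ∈ Finset.Icc 1 (Nat.sqrt M), ((S (j ^ 2)).card : ℝ) := by
            push_cast
            apply Finset.sum_le_sum
            intro k _
            exact_mod_cast Finset.card_image_le
        _ ≤ ∑ j ∈ Finset.Icc 1 (Nat.sqrt M), (M : ℝ) ^ (δ / 2) := by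
            apply Finset.sum_le_sum
            intro j hj
            exact key M hM (j ^ 2) (Nat.one_le_pow _ _ (Finset.mem_Icc.1 hj).1)
        _ = _ := by
            rw [Finset.sum_const, Nat.card_Icc, Nat.add_sub_cancel, nsmul_eq_mul]
    have hsqrt : (Nat.sqrt M : ℝ) ≤ (M : ℝ) ^ (1/2 : ℝ) := by
      rw [← Real.sqrt_eq_rpow]
      exact Real.nat_sqrt_le_real_sqrt
    calc _ ≤ (((Finset.Icc 1 (Nat.sqrt M)).biUnion
        (fun j => (S (j ^ 2)).image (fun l => j ^ 2 * l))).card : ℝ) := by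
          exact_mod_cast Finset.card_le_card hsub
      _ ≤ (Nat.sqrt M : ℝ) * (M : ℝ) ^ (δ / 2) := hcard
      _ ≤ (M : ℝ) ^ (1/2 : ℝ) * (M : ℝ) ^ (δ / 2) := by gcongr
      _ = (M : ℝ) ^ (1/2 + δ/2 : ℝ) := by rw [← Real.rpow_add hM0']
      _ ≤ (M : ℝ) ^ (1 / 2 + δ) := Real.rpow_le_rpow_of_exponent_le hMr (by linarith)

end Pool.Agent.ARX
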