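import Pool.Agent.ARX.Cyc

set_option autoImplicit false

/-!
# ARX module FRB: Frobenius

`l` a prime not dividing `e`, `κ` a homomorphism to a field of characteristic `l`.

* `kappa_frob`: both sides are ring homomorphisms (`x ↦ x ^ l` is `frobenius`), so by `hom_ext`
  look at `zt`: `zt ^ l` and `zt ^ ((l : ZMod e).val)` agree as `zt ^ e = 1`.
* `theta_sig`: for a unit `a` with `a = 1` modulo `q` (`q` divides `e`), `sig a` fixes
  `Theta q α`: reindex the product by `b ↦ a * b`; the exponent `ex e q b` depends only on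
  `b` modulo `q`.
* `theta_frob`: with `f = orderOf (l : ZMod q)`, `κ(Theta q α) ^ (l ^ f) =
  κ(sig (l^f) (Theta q α)) = κ(Theta q α)`.
* `theta_eq_zero_iff`: all exponents `ex e q b` are at least one (`b` is a unit modulo `q`), so
  `κ(Theta q α) = 0` iff some `κ(sig b α) = 0` iff `κ(norm α) = 0` iff `l` divides the norm.
-/

namespace Pool.Agent.ARX

open NumberField

variable (e : ℕ) [NeZero e] (K : Type) [Field K] [NumberField K] [IsCyclotomicExtension {e} ℚ K]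

theorem ex_pos {q : ℕ} (hq : q.Prime) (hqe : q ∣ e) (b : (ZMod e)ˣ) :
    1 ≤ ex e q b ∧ ex e q b ≤ q - 1 := by
  have hlt : (b : ZMod e).val % q < q := Nat.mod_lt _ hq.pos
  have hpos : (b : ZMod e).val % q ≠ 0 := by
    intro h
    have hd : q ∣ (b : ZMod e).val := Nat.dvd_of_mod_eq_zero h
    have hc := ZMod.val_coe_unit_coprime b
    have := Nat.dvd_gcd hd hqe
    rw [hc] at this
    exact hq.one_lt.ne' (Nat.dvd_one.1 this)
  unfold ex
  omega

theorem frb_zt_pow_e : zt e K ^ e = 1 := (zt_prim e K).pow_eq_one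

theorem frb_pow_mod (n : ℕ) {R : Type*} [CommRing R] (κ : 𝓞 K →+* R) :
    κ (zt e K) ^ (n % e) = κ (zt e K) ^ n := by
  have h : κ (zt e K) ^ e = 1 := by
    rw [← map_pow, frb_zt_pow_e, map_one]
  conv_rhs => rw [← Nat.mod_add_div n e, pow_add, pow_mul, h, one_pow, mul_one]

theorem kappa_frob {l : ℕ} (hl : l.Prime) (u : (ZMod e)ˣ) (hu : (u : ZMod e) = (l : ZMod e))
    {k : Type*} [Field k] [CharP k l] (κ : 𝓞 K →+* k) (α : 𝓞 K) :
    κ (sig e K u α) = κ α ^ l := by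
  haveI : Fact l.Prime := ⟨hl⟩
  have h : κ.comp (sig e K u) = (frobenius k l).comp κ := by
    apply hom_ext e K
    simp only [RingHom.comp_apply]
    rw [sig_zt, map_pow, hu, ZMod.val_natCast, frobenius_def, frb_pow_mod]
  have h2 := congrArg (fun f : 𝓞 K →+* k => f α) h
  simpa [frobenius_def] using h2

theorem frb_iter {l : ℕ} (hl : l.Prime) (u : (ZMod e)ˣ) (hu : (u : ZMod e) = (l : ZMod e))
    {k : Type*} [Field k] [CharP k l] (κ : 𝓞 K →+* k) (α : 𝓞 K) (n : ℕ) :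
    κ (sig e K (u ^ n) α) = κ α ^ (l ^ n) := by
  induction n with
  | zero => simp [sig_one]
  | succ n ih =>
    rw [pow_succ', sig_mul, RingHom.comp_apply, kappa_frob e K hl u hu, ih, ← pow_mul, pow_succ]

theorem frb_ex_mul {q : ℕ} (hqe : q ∣ e) (a b : (ZMod e)ˣ)
    (ha : (a : ZMod e).val % q = 1 % q) : ex e q (a * b) = ex e q b := by
  unfold ex
  congr 1
  rw [Units.val_mul, ZMod.val_mul, Nat.mod_mod_of_dvd _ hqe, Nat.mul_mod, ha, ← Nat.mul_mod,
    one_mul]

theorem theta_sig {q : ℕ} (hq : q.Prime) (hqe : q ∣ e) (a : (ZMod e)ˣ)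
    (ha : (a : ZMod e).val % q = 1 % q) (α : 𝓞 K) :
    sig e K a (Theta e K q α) = Theta e K q α := by
  unfold Theta
  rw [map_prod]
  refine (Fintype.prod_equiv (Equiv.mulLeft a) _ _ ?_).symm
  intro b
  rw [map_pow, Equiv.coe_mulLeft, frb_ex_mul e hqe a b ha, ← RingHom.comp_apply, ← sig_mul]
  congr 3
  rw [mul_inv, mul_inv_cancel_left]

theorem theta_frob {q : ℕ} (hq : q.Prime) (hqe : q ∣ e) {l : ℕ} (hl : l.Prime) (hle : ¬ l ∣ e)
    {k : Type*} [Field k] [CharP k l] (κ : 𝓞 K →+* k) (α : 𝓞 K) :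
    κ (Theta e K q α) ^ (l ^ orderOf (l : ZMod q)) = κ (Theta e K q α) := by
  have hc : Nat.Coprime l e := (Nat.Prime.coprime_iff_not_dvd hl).2 hle
  set u : (ZMod e)ˣ := ZMod.unitOfCoprime l hc with hu
  have hu' : (u : ZMod e) = (l : ZMod e) := ZMod.coe_unitOfCoprime l hc
  rw [← frb_iter e K hl u hu' κ]
  congr 1
  apply theta_sig e K hq hqe
  have h1 : ((u ^ orderOf (l : ZMod q) : (ZMod e)ˣ) : ZMod e) =
      ((l ^ orderOf (l : ZMod q) : ℕ) : ZMod e) := by
    rw [Units.val_pow_eq_pow_val, hu']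
    push_cast
    rfl
  rw [h1, ZMod.val_natCast, Nat.mod_mod_of_dvd _ hqe]
  have h2 : ((l ^ orderOf (l : ZMod q) : ℕ) : ZMod q) = ((1 : ℕ) : ZMod q) := by
    push_cast
    exact pow_orderOf_eq_one _
  exact (ZMod.natCast_eq_natCast_iff' _ _ _).1 h2

theorem theta_eq_zero_iff {q : ℕ} (hq : q.Prime) (hqe : q ∣ e) {l : ℕ} (hl : l.Prime)
    {k : Type*} [Field k] [CharP k l] (κ : 𝓞 K →+* k) (α : 𝓞 K) :
    κ (Theta e K q α) = 0 ↔ (l : ℤ) ∣ Algebra.norm ℤ α := by
  have h1 : κ ((Algebra.norm ℤ α : ℤ) : 𝓞 K) = ((Algebra.norm ℤ α : ℤ) : k) := by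
    rw [map_intCast]
  rw [← CharP.intCast_eq_zero_iff k l, ← h1, norm_eq e K, map_prod]
  unfold Theta
  rw [map_prod, Finset.prod_eq_zero_iff, Finset.prod_eq_zero_iff]
  constructor
  · rintro ⟨b, _, hb⟩
    rw [map_pow] at hb
    exact ⟨b⁻¹, Finset.mem_univ _, eq_zero_of_pow_eq_zero hb⟩
  · rintro ⟨b, _, hb⟩
    refine ⟨b⁻¹, Finset.mem_univ _, ?_⟩
    rw [map_pow, inv_inv, hb, zero_pow]
    exact (Nat.one_le_iff_ne_zero.1 (ex_pos e hq hqe b⁻¹).1)

theorem theta_mul (q : ℕ) (α β : 𝓞 K) :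
    Theta e K q (α * β) = Theta e K q α * Theta e K q β := by
  unfold Theta
  rw [← Finset.prod_mul_distrib]
  refine Finset.prod_congr rfl fun b _ => ?_
  rw [map_mul, mul_pow]

/-- the reduction of `Theta` modulo `l` depends only on `α` modulo `l` -/
theorem theta_period (q : ℕ) {l : ℕ} {k : Type*} [Field k] [CharP k l] (κ : 𝓞 K →+* k)
    (α β : 𝓞 K) : κ (Theta e K q (α + (l : 𝓞 K) * β)) = κ (Theta e K q α) := by
  unfold Theta
  rw [map_prod, map_prod]
  refine Finset.prod_congr rfl fun b _ => ?_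
  rw [map_pow, map_pow, map_add, map_mul, map_natCast, map_add, map_mul, map_natCast,
    CharP.cast_eq_zero, zero_mul, add_zero]

end Pool.Agent.ARX
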