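import Pool.Agent.ARX.Jsn
import Pool.Agent.ARX.Frb

set_option autoImplicit false

/-!
# ARX module ABS: absolute values

* `phi_abs`: `Phi = chi(-1) p ∏_{i=1}^{q-2} J_i` and each `J_i * sig(-1) J_i = p`.
* `theta_abs`: `sig (-1) (Theta q α) = ∏_b (sig (-b⁻¹) α)^(ex b)`; reindex `b ↦ -b`;
  `ex e q b + ex e q (-b) = q` when `q` is odd (`<-b> = q - <b>`), and `ex = 1` for `q = 2`, so
  again the sum is `q`.  Then use `norm_eq` (product over all `b`, reindexed by inversion).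
* `norm_nonneg`: for `2 < e`, `-1 ≠ 1` in `(ZMod e)ˣ` and under a complex embedding the norm is
  the product over pairs `{b, -b}` of `|τ(sig b α)|^2`.
-/

namespace Pool.Agent.ARX

open NumberField

variable (e : ℕ) [NeZero e] (K : Type) [Field K] [NumberField K] [IsCyclotomicExtension {e} ℚ K]

theorem phi_abs {q p : ℕ} (hq : q.Prime) (hqe : q ∣ e) (hp : Good e p) :
    Phi e K q p * sig e K (-1) (Phi e K q p) = (p : 𝓞 K) ^ q := by
  have hPhi : Phi e K q p = chiO e K q p (-1) * (p : 𝓞 K) *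
      ∏ i ∈ Finset.Ico 1 (q - 1), Jac e K q p i := rfl
  have hprod : (∏ i ∈ Finset.Ico 1 (q - 1), Jac e K q p i) *
      ∏ i ∈ Finset.Ico 1 (q - 1), sig e K (-1) (Jac e K q p i) = (p : 𝓞 K) ^ (q - 2) := by
    rw [← Finset.prod_mul_distrib, Finset.prod_congr rfl fun i hi => jac_norm e K hq hqe hp hi,
      Finset.prod_const, Nat.card_Ico]
    congr 1
  rw [hPhi, map_mul, map_mul, map_prod, map_natCast]
  have h2 := hq.two_le
  calc chiO e K q p (-1) * (p : 𝓞 K) * (∏ i ∈ Finset.Ico 1 (q - 1), Jac e K q p i) *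
        (sig e K (-1) (chiO e K q p (-1)) * (p : 𝓞 K) *
          ∏ i ∈ Finset.Ico 1 (q - 1), sig e K (-1) (Jac e K q p i))
      = (chiO e K q p (-1) * sig e K (-1) (chiO e K q p (-1))) * (p : 𝓞 K) ^ 2 *
        ((∏ i ∈ Finset.Ico 1 (q - 1), Jac e K q p i) *
          ∏ i ∈ Finset.Ico 1 (q - 1), sig e K (-1) (Jac e K q p i)) := by ring
    _ = (p : 𝓞 K) ^ q := by
        rw [chiO_neg_one e K hq hqe hp, hprod, one_mul, ← pow_add]
        congr 1
        omega

theorem abs_ex_neg {q : ℕ} (hq : q.Prime) (hqe : q ∣ e) (b : (ZMod e)ˣ) :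
    ex e q b + ex e q (-b) = q := by
  have h1 := ex_pos e hq hqe b
  have h2 := ex_pos e hq hqe (-b)
  have h3 : ((b : ZMod e).val + ((-b : (ZMod e)ˣ) : ZMod e).val) % e = 0 := by
    rw [← ZMod.val_add, Units.val_neg, add_neg_cancel, ZMod.val_zero]
  have h4 : ((b : ZMod e).val + ((-b : (ZMod e)ˣ) : ZMod e).val) % q = 0 :=
    Nat.mod_eq_zero_of_dvd (hqe.trans (Nat.dvd_of_mod_eq_zero h3))
  rw [Nat.add_mod] at h4
  have h5 : (b : ZMod e).val % q < q := Nat.mod_lt _ hq.pos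
  have h6 : ((-b : (ZMod e)ˣ) : ZMod e).val % q < q := Nat.mod_lt _ hq.pos
  unfold ex at h1 h2 ⊢
  obtain ⟨c, hc⟩ := Nat.dvd_of_mod_eq_zero h4
  have h7 : c < 2 := by
    by_contra hcon
    push Not at hcon
    have : q * 2 ≤ q * c := Nat.mul_le_mul_left q hcon
    omega
  have h8 : c ≠ 0 := by
    rintro rfl
    omega
  have h9 : c = 1 := by omega
  subst h9
  omega

theorem theta_abs {q : ℕ} (hq : q.Prime) (hqe : q ∣ e) (α : 𝓞 K) :
    Theta e K q α * sig e K (-1) (Theta e K q α) = ((Algebra.norm ℤ α : ℤ) : 𝓞 K) ^ q := by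
  have h1 : sig e K (-1) (Theta e K q α) = ∏ b : (ZMod e)ˣ, (sig e K b⁻¹ α) ^ (ex e q (-b)) := by
    unfold Theta
    rw [map_prod]
    refine Fintype.prod_equiv (Equiv.neg _) _ _ ?_
    intro b
    rw [map_pow, Equiv.neg_apply, neg_neg, ← RingHom.comp_apply, ← sig_mul]
    congr 3
    rw [neg_one_mul]
    ext
    simp [inv_neg]
  rw [h1]
  unfold Theta
  rw [← Finset.prod_mul_distrib, norm_eq e K, ← Finset.prod_pow]
  refine Fintype.prod_equiv (Equiv.inv _) _ _ ?_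
  intro b
  rw [← pow_add, abs_ex_neg e hq hqe, Equiv.inv_apply]

theorem norm_nonneg_of_two_lt (he : 2 < e) (α : 𝓞 K) : 0 ≤ Algebra.norm ℤ α := by
  classical
  obtain ⟨τ0⟩ : Nonempty (K →+* ℂ) := inferInstance
  set τ : 𝓞 K →+* ℂ := τ0.comp (algebraMap (𝓞 K) K) with hτ
  have h1 : τ ((Algebra.norm ℤ α : ℤ) : 𝓞 K) = ((Algebra.norm ℤ α : ℤ) : ℂ) := map_intCast τ _
  rw [norm_eq e K, map_prod] at h1
  have hneg : ∀ b : (ZMod e)ˣ, τ (sig e K (-b) α) = (starRingEnd ℂ) (τ (sig e K b α)) := by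
    intro b
    rw [conj_emb e K, ← RingHom.comp_apply (sig e K (-1)), ← sig_mul, neg_one_mul]
  have hval : ∀ b : (ZMod e)ˣ, ((-b : (ZMod e)ˣ) : ZMod e).val = e - (b : ZMod e).val := by
    intro b
    haveI : Fact (1 < e) := ⟨by omega⟩
    rw [Units.val_neg, ZMod.neg_val, if_neg (Units.ne_zero b)]
  have hne : ∀ b : (ZMod e)ˣ, 2 * (b : ZMod e).val ≠ e := by
    intro b hb
    have hc := ZMod.val_coe_unit_coprime b
    have hd : (b : ZMod e).val ∣ e := ⟨2, by omega⟩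
    have h3 : (b : ZMod e).val = 1 := Nat.Coprime.eq_one_of_dvd hc hd
    omega
  have hlt : ∀ b : (ZMod e)ˣ, (b : ZMod e).val < e := fun b => ZMod.val_lt _
  rw [← Finset.prod_filter_mul_prod_filter_not Finset.univ
    (fun b : (ZMod e)ˣ => 2 * (b : ZMod e).val < e)] at h1
  have h2 : ∏ b ∈ Finset.univ.filter (fun b : (ZMod e)ˣ => ¬ 2 * (b : ZMod e).val < e),
      τ (sig e K b α) = ∏ b ∈ Finset.univ.filter (fun b : (ZMod e)ˣ => 2 * (b : ZMod e).val < e),
      (starRingEnd ℂ) (τ (sig e K b α)) := by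
    refine Finset.prod_nbij' (fun b => -b) (fun b => -b) ?_ ?_ ?_ ?_ ?_
    · intro b hb
      rw [Finset.mem_filter] at hb ⊢
      refine ⟨Finset.mem_univ _, ?_⟩
      rw [hval b]
      have := hne b
      have := hlt b
      omega
    · intro b hb
      rw [Finset.mem_filter] at hb ⊢
      refine ⟨Finset.mem_univ _, ?_⟩
      rw [hval b]
      have := hne b
      have := hlt b
      omega
    · intro b _
      exact neg_neg b
    · intro b _
      exact neg_neg b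
    · intro b _
      rw [hneg, Complex.conj_conj]
  rw [h2, ← map_prod (starRingEnd ℂ), Complex.mul_conj] at h1
  have h3 : ((Complex.normSq (∏ b ∈ Finset.univ.filter
      (fun b : (ZMod e)ˣ => 2 * (b : ZMod e).val < e), τ (sig e K b α)) : ℝ) : ℂ) =
      (((Algebra.norm ℤ α : ℤ) : ℝ) : ℂ) := by
    rw [h1]
    push_cast
    rfl
  have h4 := Complex.ofReal_injective h3
  have h5 : (0 : ℝ) ≤ ((Algebra.norm ℤ α : ℤ) : ℝ) := h4 ▸ Complex.normSq_nonneg _
  exact_mod_cast h5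

/-- the form used later -/
theorem theta_abs' {q : ℕ} (hq : q.Prime) (hqe : q ∣ e) (α : 𝓞 K) :
    Theta e K q α * sig e K (-1) (Theta e K q α) =
      (((Algebra.norm ℤ α).natAbs : ℕ) : 𝓞 K) ^ q := by
  rw [theta_abs e K hq hqe]
  have h0 : (((Algebra.norm ℤ α).natAbs : ℕ) : 𝓞 K) =
      (((Algebra.norm ℤ α).natAbs : ℤ) : 𝓞 K) := (Int.cast_natCast _).symm
  rw [h0]
  rcases lt_or_ge 2 e with he | he
  · rw [Int.natAbs_of_nonneg (norm_nonneg_of_two_lt e K he α)]
  · have hq2 : q = 2 := by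
      have := Nat.le_of_dvd (Nat.pos_of_ne_zero (NeZero.ne e)) hqe
      have := hq.two_le
      omega
    subst hq2
    rw [← Int.cast_pow, ← Int.cast_pow, Int.natAbs_sq]

end Pool.Agent.ARX
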