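import Pool.Agent.ARX.Biq

set_option autoImplicit false

/-!
# ARX module BIQ2: few integers with large index

Parameters.  `k = ⌈4 (A + 1) / δ⌉`, `θ = 1` in `few_representations`, `Q = (log x)^(1+4τ)` in
`big_core`.
-/

namespace Pool.Agent.ARX

open Filter Asymptotics

theorem biq2_growth (C' τ : ℝ) (hτ : 0 < τ) (hC' : 0 < C') (k : ℕ) :
    ∀ᶠ y : ℝ in atTop, C' * (1 + Real.log y) ^ (2 * k) < y ^ (2 * τ) := by
  have h1 : (fun y : ℝ => Real.log y ^ ((2 * k : ℕ) : ℝ)) =o[atTop] fun y => y ^ (2 * τ) :=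
    isLittleO_log_rpow_rpow_atTop _ (by positivity)
  have h2 := h1.def (c := 1 / (2 * (C' * 2 ^ (2 * k)))) (by positivity)
  filter_upwards [h2, eventually_ge_atTop (Real.exp 1)] with y hy hye
  have hy0 : 0 < y := lt_of_lt_of_le (Real.exp_pos 1) hye
  have hl : 1 ≤ Real.log y := by
    rw [Real.le_log_iff_exp_le hy0]; exact hye
  rw [Real.rpow_natCast, Real.norm_of_nonneg (by positivity),
    Real.norm_of_nonneg (by positivity)] at hy
  have h3 : (1 + Real.log y) ^ (2 * k) ≤ 2 ^ (2 * k) * Real.log y ^ (2 * k) := by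
    rw [← mul_pow]
    apply pow_le_pow_left₀ (by linarith)
    linarith
  have hpos : 0 < y ^ (2 * τ) := by positivity
  calc C' * (1 + Real.log y) ^ (2 * k)
      ≤ C' * (2 ^ (2 * k) * Real.log y ^ (2 * k)) := mul_le_mul_of_nonneg_left h3 hC'.le
    _ ≤ C' * (2 ^ (2 * k) * (1 / (2 * (C' * 2 ^ (2 * k))) * y ^ (2 * τ))) := by
        apply mul_le_mul_of_nonneg_left _ hC'.le
        exact mul_le_mul_of_nonneg_left hy (by positivity)
    _ = y ^ (2 * τ) / 2 := by field_simp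
    _ < y ^ (2 * τ) := by linarith

theorem few_big (A δ ε τ : ℝ) (hA : 0 < A) (hδ : 0 < δ) (hε : 0 < ε) (hτ : 0 < τ)
    (hτ1 : τ ≤ 1 / 8) :
    ∃ N₀ : ℕ, ∀ N : ℕ, N₀ ≤ N → ∀ x : ℕ, Real.exp ((Real.log N) ^ (1 - τ)) ≤ x →
      (x : ℝ) ≤ (N : ℝ) ^ A → ∀ E : Finset ℤ, (∀ n ∈ E, n ≠ 0 ∧ n.natAbs ≤ N) →
      (∀ n ∈ E, ε * Nat.primeCounting x ≤ big x ((Real.log x) ^ (1 + 4 * τ)) n) →
      (E.card : ℝ) ≤ (N : ℝ) ^ δ := by
  obtain ⟨C0, hC0, hcore⟩ := big_core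
  obtain ⟨X₁, hX₁3, hX₁⟩ := Pool.Agent.Helper6.pi_lower
  set ε' := min ε 1 with hε'
  have hε'0 : 0 < ε' := lt_min hε one_pos
  have hε'1 : ε' ≤ 1 := min_le_right _ _
  set k := ⌈4 * (A + 1) / δ⌉₊ with hk
  have hkδ : 4 * (A + 1) ≤ δ * k := by
    have := Nat.le_ceil (4 * (A + 1) / δ)
    rw [div_le_iff₀ hδ] at this
    linarith
  have hk1 : 1 ≤ k := by
    rw [hk, Nat.one_le_ceil_iff]
    positivity
  obtain ⟨Cr, hCr, hrep⟩ := few_representations k hk1 1 one_pos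
  set c1 : ℝ := (ε' / 8) * (ε' ^ 2 / (8 * C0)) ^ (2 * k) with hc1
  have hc1pos : 0 < c1 := by positivity
  have hgr := biq2_growth ((k + 2) / c1) τ hτ (by positivity) k
  obtain ⟨Y0, hY0⟩ := eventually_atTop.1 hgr
  -- conditions on `N`
  have ht1 : Tendsto (fun N : ℕ => Real.log (N : ℝ)) atTop atTop :=
    Real.tendsto_log_atTop.comp tendsto_natCast_atTop_atTop
  have ht2 : Tendsto (fun N : ℕ => (Real.log (N : ℝ)) ^ (1 - τ)) atTop atTop :=
    (tendsto_rpow_atTop (by linarith)).comp ht1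
  have ht3 : Tendsto (fun N : ℕ => (N : ℝ) ^ (3 * A + 3)) atTop atTop :=
    (tendsto_rpow_atTop (by linarith)).comp tendsto_natCast_atTop_atTop
  have hev : ∀ᶠ N : ℕ in atTop, max (max Y0 1) (max (X₁ : ℝ) 16) ≤ (Real.log (N : ℝ)) ^ (1 - τ) ∧
      2 * Cr ≤ (N : ℝ) ^ (3 * A + 3) ∧ 1 ≤ Real.log (N : ℝ) ∧ 1 ≤ N :=
    (ht2.eventually_ge_atTop _).and ((ht3.eventually_ge_atTop _).and
      ((ht1.eventually_ge_atTop _).and (eventually_ge_atTop 1)))
  obtain ⟨N₀, hN₀⟩ := eventually_atTop.1 hev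
  refine ⟨N₀, ?_⟩
  intro N hN x hx1 hx2 E hE hbig
  obtain ⟨hc, hNr, hlogN, hN1⟩ := hN₀ N hN
  rw [max_le_iff, max_le_iff, max_le_iff] at hc
  obtain ⟨⟨hcY, hc1'⟩, hcX, hc16⟩ := hc
  have hN1r : (1 : ℝ) ≤ N := by exact_mod_cast hN1
  have hN0r : (0 : ℝ) < N := by linarith
  -- the size of `x`
  have hexp : (Real.log (N : ℝ)) ^ (1 - τ) ≤ Real.exp ((Real.log (N : ℝ)) ^ (1 - τ)) := by
    have := Real.add_one_le_exp ((Real.log (N : ℝ)) ^ (1 - τ))
    linarith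
  have hx16 : 16 ≤ x := by
    have : (16 : ℝ) ≤ x := by linarith
    exact_mod_cast this
  have hxX : X₁ ≤ x := by
    have : (X₁ : ℝ) ≤ x := by linarith
    exact_mod_cast this
  have hx0 : (0 : ℝ) < x := by
    have : (16 : ℝ) ≤ x := by exact_mod_cast hx16
    linarith
  set y := Real.log x with hy
  have hyN : (Real.log (N : ℝ)) ^ (1 - τ) ≤ y := by
    rw [hy, Real.le_log_iff_exp_le hx0]; exact hx1
  have hy1 : 1 ≤ y := by linarith
  have hy0 : 0 < y := by linarith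
  have hlogy : 0 ≤ Real.log y := Real.log_nonneg hy1
  have hgrow := hY0 y (by linarith)
  -- `log N ≤ y ^ (1 + 2 τ)`
  have hlogNy : Real.log (N : ℝ) ≤ y ^ (1 + 2 * τ) := by
    have h1 : Real.log (N : ℝ) = ((Real.log (N : ℝ)) ^ (1 - τ)) ^ (1 / (1 - τ)) := by
      rw [← Real.rpow_mul (by linarith), mul_one_div_cancel (by linarith), Real.rpow_one]
    rw [h1]
    have h2 : ((Real.log (N : ℝ)) ^ (1 - τ)) ^ (1 / (1 - τ)) ≤ y ^ (1 / (1 - τ)) :=
      Real.rpow_le_rpow (by linarith) hyN (by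
        apply one_div_nonneg.2; linarith)
    refine h2.trans (Real.rpow_le_rpow_of_exponent_le hy1 ?_)
    rw [div_le_iff₀ (by linarith)]
    nlinarith
  by_contra hcon
  push Not at hcon
  have hT0 : (0 : ℝ) < E.card := lt_trans (Real.rpow_pos_of_pos hN0r _) hcon
  -- the core inequality
  set R := ⌊Cr * (N : ℝ) ^ (1 : ℝ)⌋₊ with hR
  have hRle : (R : ℝ) ≤ Cr * N := by
    have := Nat.floor_le (show 0 ≤ Cr * (N : ℝ) ^ (1 : ℝ) by positivity)
    rw [Real.rpow_one] at this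
    rw [hR, Real.rpow_one]
    exact this
  have hmain := hcore E N k R x ε' (y ^ (1 + 4 * τ)) hN1 hk1 hx16 hε'0 hε'1
    (Real.one_le_rpow hy1 (by linarith)) hE (by
      intro n hn
      refine le_trans ?_ (hbig n hn)
      exact mul_le_mul_of_nonneg_right (min_le_left _ _) (by positivity)) (by
      intro m hm0 hm
      apply Nat.le_floor
      exact hrep N hN1 E m hm0 hm)
  -- bound of the second term of the right side
  have hTk : 2 * (x : ℝ) * R ≤ (E.card : ℝ) ^ k := by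
    have h1 : ((N : ℝ) ^ δ) ^ k ≤ (E.card : ℝ) ^ k := pow_le_pow_left₀ (by positivity) hcon.le k
    have h2 : ((N : ℝ) ^ δ) ^ k = (N : ℝ) ^ (δ * k) := by
      rw [← Real.rpow_natCast, ← Real.rpow_mul hN0r.le]
    have h3 : (N : ℝ) ^ (4 * (A + 1)) ≤ (N : ℝ) ^ (δ * k) :=
      Real.rpow_le_rpow_of_exponent_le hN1r hkδ
    have h4 : (N : ℝ) ^ (4 * (A + 1)) = (N : ℝ) ^ (3 * A + 3) * ((N : ℝ) ^ A * N) := by
      rw [← Real.rpow_add_one hN0r.ne', ← Real.rpow_add hN0r]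
      congr 1; ring
    have h5 : 2 * (x : ℝ) * R ≤ (2 * Cr) * ((N : ℝ) ^ A * N) := by
      have : 2 * (x : ℝ) * R ≤ 2 * (N : ℝ) ^ A * (Cr * N) := by
        apply mul_le_mul _ hRle (by positivity) (by positivity)
        linarith
      linarith
    calc 2 * (x : ℝ) * R ≤ (2 * Cr) * ((N : ℝ) ^ A * N) := h5
      _ ≤ (N : ℝ) ^ (3 * A + 3) * ((N : ℝ) ^ A * N) :=
          mul_le_mul_of_nonneg_right hNr (by positivity)
      _ = (N : ℝ) ^ (4 * (A + 1)) := h4.symm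
      _ ≤ _ := by rw [← h2] at h3; exact h3.trans h1
  have hT2k : (E.card : ℝ) ^ k * R * (2 * x) ≤ (E.card : ℝ) ^ (2 * k) := by
    have : (E.card : ℝ) ^ (2 * k) = (E.card : ℝ) ^ k * (E.card : ℝ) ^ k := by
      rw [← pow_add]; congr 1; ring
    rw [this, mul_assoc]
    apply mul_le_mul_of_nonneg_left _ (by positivity)
    linarith
  -- the left side
  have hpi := hX₁ x hxX
  have hpi' : 1 / 2 ≤ Nat.primeCounting x * (y / x) := by
    have h1 : (x : ℝ) / (2 * y) * (y / x) = 1 / 2 := by field_simp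
    rw [← h1]
    exact mul_le_mul_of_nonneg_right hpi (by positivity)
  set L := 1 + Real.log y with hL
  have hL1 : 1 ≤ L := by linarith
  have hT2 : (ε' * E.card / (8 * C0 * L / ε')) ^ (2 * k) =
      (ε' ^ 2 / (8 * C0)) ^ (2 * k) * (E.card : ℝ) ^ (2 * k) / L ^ (2 * k) := by
    rw [← mul_pow, ← div_pow]
    congr 1
    field_simp
  rw [hT2] at hmain
  have hT2pos : (0 : ℝ) < (E.card : ℝ) ^ (2 * k) := by positivity
  have hLpos : (0 : ℝ) < L ^ (2 * k) := by positivity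
  have hQpos : (0 : ℝ) < y ^ (1 + 4 * τ) := by positivity
  have hlow : c1 * y ^ (1 + 4 * τ) * (E.card : ℝ) ^ (2 * k) / L ^ (2 * k) ≤
      (ε' / 4) * Nat.primeCounting x *
        ((ε' ^ 2 / (8 * C0)) ^ (2 * k) * (E.card : ℝ) ^ (2 * k) / L ^ (2 * k) *
          y ^ (1 + 4 * τ) * (y / x)) := by
    have h1 : (ε' / 4) * Nat.primeCounting x *
        ((ε' ^ 2 / (8 * C0)) ^ (2 * k) * (E.card : ℝ) ^ (2 * k) / L ^ (2 * k) *
          y ^ (1 + 4 * τ) * (y / x)) =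
        (Nat.primeCounting x * (y / x)) * ((ε' / 4) *
        ((ε' ^ 2 / (8 * C0)) ^ (2 * k) * (E.card : ℝ) ^ (2 * k) / L ^ (2 * k) *
          y ^ (1 + 4 * τ))) := by ring
    rw [h1]
    have h2 : c1 * y ^ (1 + 4 * τ) * (E.card : ℝ) ^ (2 * k) / L ^ (2 * k) =
        (1 / 2) * ((ε' / 4) *
        ((ε' ^ 2 / (8 * C0)) ^ (2 * k) * (E.card : ℝ) ^ (2 * k) / L ^ (2 * k) *
          y ^ (1 + 4 * τ))) := by rw [hc1]; ring
    rw [h2]
    exact mul_le_mul_of_nonneg_right hpi' (by positivity)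
  have hup : (E.card : ℝ) ^ (2 * k) * (k * Real.log N + Real.log 2) +
      (E.card : ℝ) ^ k * R * (2 * x) ≤ (E.card : ℝ) ^ (2 * k) * ((k + 2) * y ^ (1 + 2 * τ)) := by
    have h1 : (E.card : ℝ) ^ (2 * k) * (k * Real.log N + Real.log 2) +
      (E.card : ℝ) ^ k * R * (2 * x) ≤ (E.card : ℝ) ^ (2 * k) * (k * Real.log N + Real.log 2 + 1) := by
      linarith
    refine h1.trans (mul_le_mul_of_nonneg_left ?_ hT2pos.le)
    have h2 : (1 : ℝ) ≤ y ^ (1 + 2 * τ) := Real.one_le_rpow hy1 (by linarith)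
    have h3 := Real.log_two_lt_d9
    have h4 : (k : ℝ) * Real.log N ≤ k * y ^ (1 + 2 * τ) :=
      mul_le_mul_of_nonneg_left hlogNy (by positivity)
    nlinarith
  have hfin := (hlow.trans hmain).trans hup
  -- conclude
  have h1 : c1 * y ^ (1 + 4 * τ) ≤ (k + 2) * y ^ (1 + 2 * τ) * L ^ (2 * k) := by
    rw [div_le_iff₀ hLpos] at hfin
    have h2 : c1 * y ^ (1 + 4 * τ) * (E.card : ℝ) ^ (2 * k) ≤
        ((k + 2) * y ^ (1 + 2 * τ) * L ^ (2 * k)) * (E.card : ℝ) ^ (2 * k) := by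
      linarith
    exact le_of_mul_le_mul_right h2 hT2pos
  have h2 : y ^ (1 + 4 * τ) = y ^ (1 + 2 * τ) * y ^ (2 * τ) := by
    rw [← Real.rpow_add hy0]; congr 1; ring
  rw [h2] at h1
  have hpos : (0 : ℝ) < y ^ (1 + 2 * τ) := by positivity
  have h3 : c1 * y ^ (2 * τ) ≤ (k + 2) * L ^ (2 * k) := by
    have h4 : (c1 * y ^ (2 * τ)) * y ^ (1 + 2 * τ) ≤ ((k + 2) * L ^ (2 * k)) * y ^ (1 + 2 * τ) := by
      linarith
    exact le_of_mul_le_mul_right h4 hpos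
  have h4 : (k + 2) / c1 * L ^ (2 * k) < y ^ (2 * τ) := hgrow
  rw [div_mul_eq_mul_div, div_lt_iff₀ hc1pos] at h4
  linarith

end Pool.Agent.ARX
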