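import Pool.Agent.ARX.Idl

set_option autoImplicit false

/-!
# ARX module OMP: properties of the characters `om`

`om e j p` is multiplicative in the integer `n` when `p` is a good prime for `e` (`q ∣ p - 1` for
`q ∣ e`, `ind_mul`), of absolute value at most one, and equal to one in absolute value if `p ∤ n`.
-/

namespace Pool.Agent.ARX

theorem norm_ee (q a : ℕ) : ‖ee q a‖ = 1 := by
  unfold ee
  have h : (2 * Real.pi * Complex.I * (a : ℂ) / (q : ℂ)) =
      ((2 * Real.pi * a / q : ℝ) : ℂ) * Complex.I := by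
    push_cast
    ring
  rw [h, Complex.norm_exp_ofReal_mul_I]

theorem ee_add (q a b : ℕ) : ee q (a + b) = ee q a * ee q b := by
  unfold ee
  rw [← Complex.exp_add]
  congr 1
  push_cast
  ring

private theorem ee_zero (q : ℕ) : ee q 0 = 1 := by
  unfold ee
  simp

private theorem ee_self_mul (q k : ℕ) : ee q (q * k) = 1 := by
  unfold ee
  rcases Nat.eq_zero_or_pos q with rfl | hq
  · simp
  · have hq' : (q : ℂ) ≠ 0 := by exact_mod_cast hq.ne'
    have h : (2 * Real.pi * Complex.I * ((q * k : ℕ) : ℂ) / (q : ℂ)) =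
        (k : ℂ) * (2 * Real.pi * Complex.I) := by
      push_cast
      field_simp
    rw [h, Complex.exp_nat_mul_two_pi_mul_I]

private theorem ee_mod (q a : ℕ) : ee q a = ee q (a % q) := by
  conv_lhs => rw [← Nat.div_add_mod a q]
  rw [ee_add, ee_self_mul, one_mul]

theorem ee_modEq {q a b : ℕ} (h : a ≡ b [MOD q]) : ee q a = ee q b := by
  rw [ee_mod q a, ee_mod q b, h]

theorem ee_eq_one_iff {q a : ℕ} (hq : 1 ≤ q) : ee q a = 1 ↔ q ∣ a := by
  constructor
  · intro h
    unfold ee at h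
    rw [Complex.exp_eq_one_iff] at h
    obtain ⟨n, hn⟩ := h
    have hq' : (q : ℂ) ≠ 0 := by
      have : q ≠ 0 := by omega
      exact_mod_cast this
    have hpi := Complex.two_pi_I_ne_zero
    have h1 : (a : ℂ) = n * q := by
      field_simp at hn
      have h2 : (2 * Real.pi * Complex.I : ℂ) * a = (2 * Real.pi * Complex.I) * (n * q) := by
        linear_combination (Complex.I * Real.pi * 2) * hn
      exact mul_left_cancel₀ hpi h2
    have h2 : (a : ℤ) = n * q := by exact_mod_cast h1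
    have h3 : (q : ℤ) ∣ a := ⟨n, by rw [h2]; ring⟩
    exact_mod_cast h3
  · rintro ⟨k, rfl⟩
    exact ee_self_mul q k

theorem norm_om_le (e : ℕ) (j : ℕ → ℕ) (p : ℕ) (n : ℤ) : ‖om e j p n‖ ≤ 1 := by
  unfold om
  split_ifs with h
  · simp
  · rw [norm_prod]
    apply le_of_eq
    apply Finset.prod_eq_one
    intro q _
    exact norm_ee _ _

private theorem om_eq {e p : ℕ} (j : ℕ → ℕ) {n : ℤ} (h : (n : ZMod p) ≠ 0) :
    om e j p n = ∏ q ∈ e.primeFactors, ee q (j q * ind p (n : ZMod p)) := by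
  unfold om
  rw [if_neg h]

private theorem om_eq_zero {e p : ℕ} (j : ℕ → ℕ) {n : ℤ} (h : (n : ZMod p) = 0) :
    om e j p n = 0 := by
  unfold om
  rw [if_pos h]

theorem om_mul {e p : ℕ} (hp : Good e p) (j : ℕ → ℕ) (m n : ℤ) :
    om e j p (m * n) = om e j p m * om e j p n := by
  have : Fact p.Prime := ⟨hp.1⟩
  by_cases hm : (m : ZMod p) = 0
  · rw [om_eq_zero j hm, om_eq_zero j (by push_cast; rw [hm, zero_mul]), zero_mul]
  by_cases hn : (n : ZMod p) = 0
  · rw [om_eq_zero j hn, om_eq_zero j (by push_cast; rw [hn, mul_zero]), mul_zero]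
  rw [om_eq j hm, om_eq j hn, om_eq j (by push_cast; exact mul_ne_zero hm hn),
    ← Finset.prod_mul_distrib]
  apply Finset.prod_congr rfl
  intro q hq
  rw [← ee_add, ← mul_add]
  apply ee_modEq
  apply Nat.ModEq.mul_left
  push_cast
  exact (ind_mul hp.1 hm hn).of_dvd ((Nat.dvd_of_mem_primeFactors hq).trans hp.2)

theorem om_one {e p : ℕ} (hp : Good e p) (j : ℕ → ℕ) : om e j p 1 = 1 := by
  have : Fact p.Prime := ⟨hp.1⟩
  have h1 : ((1 : ℤ) : ZMod p) ≠ 0 := by
    push_cast
    exact one_ne_zero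
  have h2 := om_mul hp j 1 1
  rw [mul_one] at h2
  have h3 : om e j p 1 ≠ 0 := by
    rw [om_eq j h1]
    apply Finset.prod_ne_zero_iff.mpr
    intro q _ h0
    have := norm_ee q (j q * ind p ((1 : ℤ) : ZMod p))
    rw [h0, norm_zero] at this
    exact zero_ne_one this
  exact (mul_right_eq_self₀.mp h2.symm).resolve_right h3

/-- multiplicativity over the prime factors of a squarefree number -/
theorem om_prod {e p : ℕ} (hp : Good e p) (j : ℕ → ℕ) {m : ℕ} (hm : Squarefree m) :
    om e j p (m : ℤ) = ∏ l ∈ m.primeFactors, om e j p (l : ℤ) := by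
  have key : ∀ s : Finset ℕ, om e j p ((∏ l ∈ s, l : ℕ) : ℤ) = ∏ l ∈ s, om e j p (l : ℤ) := by
    intro s
    induction s using Finset.induction_on with
    | empty =>
      rw [Finset.prod_empty, Finset.prod_empty, Nat.cast_one]
      exact om_one hp j
    | insert a s ha ih =>
      rw [Finset.prod_insert ha, Finset.prod_insert ha, Nat.cast_mul, om_mul hp, ih]
  have h1 := key m.primeFactors
  rwa [Nat.prod_primeFactors_of_squarefree hm] at h1

private theorem gen_pow_eq {p a b : ℕ} (hp : p.Prime) (h : gen p ^ a = gen p ^ b) :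
    a ≡ b [MOD (p - 1)] := by
  have : Fact p.Prime := ⟨hp⟩
  have hg := gen_ne_zero hp
  have h2 : (Units.mk0 (gen p) hg) ^ a = (Units.mk0 (gen p) hg) ^ b := by
    apply Units.ext
    simpa using h
  have h3 := pow_eq_pow_iff_modEq.1 h2
  rwa [← orderOf_units, Units.val_mk0, (gen_spec hp).1] at h3

/-- being a `q`-th power modulo `p` -/
theorem pow_iff_ind {p q : ℕ} (hp : p.Prime) (hq : q ∣ p - 1) (hq1 : 1 ≤ q) {x : ZMod p}
    (hx : x ≠ 0) : (∃ y : ZMod p, y ^ q = x) ↔ q ∣ ind p x := by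
  have : Fact p.Prime := ⟨hp⟩
  constructor
  · rintro ⟨y, hy⟩
    have hy0 : y ≠ 0 := by
      rintro rfl
      rw [zero_pow (by omega)] at hy
      exact hx hy.symm
    have h1 : gen p ^ ind p x = gen p ^ (ind p y * q) := by
      rw [ind_spec hp hx, pow_mul, ind_spec hp hy0, hy]
    have h2 := (gen_pow_eq hp h1).of_dvd hq
    have h3 : ind p x ≡ 0 [MOD q] := h2.trans (by
      have := (Nat.modEq_zero_iff_dvd (n := q) (a := ind p y * q)).mpr (Dvd.intro_left _ rfl)
      exact this)
    exact Nat.modEq_zero_iff_dvd.mp h3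
  · rintro ⟨k, hk⟩
    refine ⟨gen p ^ k, ?_⟩
    rw [← pow_mul, mul_comm k q, ← hk, ind_spec hp hx]

/-- orthogonality -/
theorem ee_sum {q a : ℕ} (hq : 1 ≤ q) :
    ∑ i ∈ Finset.range q, ee q (i * a) = if q ∣ a then (q : ℂ) else 0 := by
  have hpow : ∀ i : ℕ, ee q (i * a) = ee q a ^ i := by
    intro i
    induction i with
    | zero => rw [zero_mul, ee_zero, pow_zero]
    | succ i ih => rw [add_mul, one_mul, ee_add, ih, pow_succ]
  split_ifs with h
  · have h1 := (ee_eq_one_iff (a := a) hq).mpr h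
    simp only [hpow, h1, one_pow, Finset.sum_const, Finset.card_range, nsmul_eq_mul, mul_one]
  · have h1 : ee q a ≠ 1 := fun h2 => h ((ee_eq_one_iff hq).mp h2)
    simp only [hpow]
    rw [geom_sum_eq h1, ← hpow, ee_self_mul, sub_self, zero_div]

/-- primitive roots -/
theorem prim_iff {p : ℕ} (hp : p.Prime) (x : ZMod p) (hx : x ≠ 0) :
    orderOf x = p - 1 ↔ ∀ q : ℕ, q.Prime → q ∣ p - 1 → ¬ ∃ y : ZMod p, y ^ q = x := by
  have : Fact p.Prime := ⟨hp⟩
  have hp2 := hp.two_le
  have hx1 : x ^ (p - 1) = 1 := ZMod.pow_card_sub_one_eq_one hx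
  constructor
  · rintro h q hq hqd ⟨y, hy⟩
    have hy0 : y ≠ 0 := by
      rintro rfl
      rw [zero_pow hq.ne_zero] at hy
      exact hx hy.symm
    obtain ⟨k, hk⟩ := hqd
    have h1 : x ^ k = 1 := by
      rw [← hy, ← pow_mul, ← hk]
      exact ZMod.pow_card_sub_one_eq_one hy0
    have hk0 : 0 < k := by
      rcases Nat.eq_zero_or_pos k with rfl | h0
      · omega
      · exact h0
    have h2 := Nat.le_of_dvd hk0 (orderOf_dvd_of_pow_eq_one h1)
    rw [h, hk] at h2
    have h3 : 2 * k ≤ q * k := Nat.mul_le_mul_right k hq.two_le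
    omega
  · intro h
    apply orderOf_eq_of_pow_and_pow_div_prime (by omega) hx1
    intro q hq hqd hc
    apply h q hq hqd
    rw [pow_iff_ind hp hqd hq.one_lt.le hx]
    obtain ⟨k, hk⟩ := hqd
    have hk0 : 0 < k := by
      rcases Nat.eq_zero_or_pos k with rfl | h0
      · omega
      · exact h0
    have h1 : (p - 1) / q = k := by
      rw [hk, Nat.mul_div_cancel_left _ hq.pos]
    rw [h1] at hc
    have h2 : gen p ^ (ind p x * k) = gen p ^ 0 := by
      rw [pow_mul, ind_spec hp hx, hc, pow_zero]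
    have h3 := Nat.modEq_zero_iff_dvd.mp (gen_pow_eq hp h2)
    rw [hk] at h3
    exact Nat.dvd_of_mul_dvd_mul_right hk0 h3

end Pool.Agent.ARX
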