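import Pool.Agent.ARX.Def2
import Pool.Agent.ARX.Omp

set_option autoImplicit false

/-!
# ARX module MAC: comparison of the counts

* `count_compare`: `prm n x ≤ 1 + #{p ∣ b m} + ...`: for `p ∈ PR` (`p ∤ n`), by `prim_iff`, `n` is a
  primitive root iff it is not a `q`-th power for all primes `q ∣ p - 1`; so
  `cnt - #{p ∈ PR : prim} ≤ #{p ∈ PR : n is a q-th power for some q > η, q ∣ p - 1}` and `≥ 0`;
  split `η < q ≤ Q1`, `Q1 < q ≤ Q2`, `q > Q2`.  For `p ∉ PR`, `p ≤ x` prime: `p = 2` or `p ∣ b m`.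
-/

namespace Pool.Agent.ARX

open Classical in
private lemma mem_PR {b : ℤ} {m x p : ℕ} :
    p ∈ PR b m x ↔ p ≤ x ∧ p.Prime ∧ p ≠ 2 ∧ ¬ ((p : ℤ) ∣ b * m) := by
  unfold PR
  rw [Finset.mem_filter, Finset.mem_range, Nat.lt_succ_iff]

private lemma ne_zero_of_mem_PR {b : ℤ} {m x p t : ℕ} (h : p ∈ PR b m x) :
    ((b * (m : ℤ) ^ t : ℤ) : ZMod p) ≠ 0 := by
  rw [mem_PR] at h
  obtain ⟨-, hp, -, hd⟩ := h
  have hpi : Prime (p : ℤ) := Nat.prime_iff_prime_int.mp hp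
  intro h0
  rw [ZMod.intCast_zmod_eq_zero_iff_dvd] at h0
  apply hd
  rcases hpi.dvd_or_dvd h0 with h1 | h1
  · exact Dvd.dvd.mul_right h1 _
  · exact Dvd.dvd.mul_left (hpi.dvd_of_dvd_pow h1) _

theorem count_compare (b : ℤ) (t η m x : ℕ) (Q1 Q2 : ℝ) (hb : b ≠ 0) (ht : 1 ≤ t) (hm : 1 ≤ m) :
    |prm (b * (m : ℤ) ^ t) x - cnt b t η m x| ≤
      (1 + (b.natAbs.primeFactors.card + m.primeFactors.card)) +
      smc b t η m x Q1 + midc x Q1 Q2 + big x Q2 (b * (m : ℤ) ^ t) := by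
  classical
  set n : ℤ := b * (m : ℤ) ^ t with hn
  set P : Finset ℕ := (Finset.range (x + 1)).filter
    (fun p : ℕ => p.Prime ∧ orderOf (n : ZMod p) = p - 1) with hP
  set C : Finset ℕ := (PR b m x).filter (fun p : ℕ => ∀ q : ℕ, q.Prime → q ≤ η → q ∣ p - 1 →
    ¬ ∃ y : ZMod p, y ^ q = (n : ZMod p)) with hC
  set S1 : Finset ℕ := (PR b m x).filter (fun p : ℕ => ∃ q : ℕ, q.Prime ∧ η < q ∧
    (q : ℝ) ≤ Q1 ∧ q ∣ p - 1 ∧ ∃ y : ZMod p, y ^ q = (n : ZMod p)) with hS1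
  set S2 : Finset ℕ := (Finset.range (x + 1)).filter (fun p : ℕ => p.Prime ∧ ∃ q : ℕ, q.Prime ∧
    q ∣ p - 1 ∧ Q1 < (q : ℝ) ∧ (q : ℝ) ≤ Q2) with hS2
  set S3 : Finset ℕ := (Finset.range (x + 1)).filter (fun p : ℕ => p.Prime ∧ (n : ZMod p) ≠ 0 ∧
    ∃ q : ℕ, q.Prime ∧ q ∣ p - 1 ∧ Q2 < (q : ℝ) ∧ ∃ y : ZMod p, y ^ q = (n : ZMod p)) with hS3
  have e1 : prm n x = (P.card : ℝ) := by
    rw [hP]; unfold prm; congr!
  have e2 : cnt b t η m x = (C.card : ℝ) := by
    rw [hC]; unfold cnt; congr!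
  have e3 : smc b t η m x Q1 = (S1.card : ℝ) := by
    rw [hS1]; unfold smc; congr!
  have e4 : midc x Q1 Q2 = (S2.card : ℝ) := by
    rw [hS2]; unfold midc; congr!
  have e5 : big x Q2 n = (S3.card : ℝ) := by
    rw [hS3]; unfold big; congr!
  rw [e1, e2, e3, e4, e5]
  have h1 : P \ C ⊆ ({2} : Finset ℕ) ∪ (b.natAbs.primeFactors ∪ m.primeFactors) := by
    intro p hp
    rw [Finset.mem_sdiff] at hp
    obtain ⟨hpP, hpC⟩ := hp
    rw [hP, Finset.mem_filter, Finset.mem_range] at hpP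
    obtain ⟨hpx, hpp, hord⟩ := hpP
    by_contra hcon
    rw [Finset.mem_union, Finset.mem_union, not_or, not_or, Finset.mem_singleton] at hcon
    obtain ⟨h2, hpb, hpm⟩ := hcon
    apply hpC
    have hPR : p ∈ PR b m x := by
      rw [mem_PR]
      refine ⟨Nat.lt_succ_iff.mp hpx, hpp, h2, ?_⟩
      intro hd
      have hpi : Prime (p : ℤ) := Nat.prime_iff_prime_int.mp hpp
      rcases hpi.dvd_or_dvd hd with h | h
      · apply hpb
        rw [Nat.mem_primeFactors]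
        exact ⟨hpp, Int.natCast_dvd.mp h, by simpa using hb⟩
      · apply hpm
        rw [Nat.mem_primeFactors]
        exact ⟨hpp, by exact_mod_cast h, by omega⟩
    rw [hC, Finset.mem_filter]
    refine ⟨hPR, ?_⟩
    intro q hq _ hqd
    exact (prim_iff hpp _ (ne_zero_of_mem_PR hPR)).mp hord q hq hqd
  have h2 : C \ P ⊆ S1 ∪ (S2 ∪ S3) := by
    intro p hp
    rw [Finset.mem_sdiff] at hp
    obtain ⟨hpC, hpP⟩ := hp
    rw [hC, Finset.mem_filter] at hpC
    obtain ⟨hPR, hpow⟩ := hpC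
    have hPR' := mem_PR.mp hPR
    obtain ⟨hpx, hpp, hp2, hd⟩ := hPR'
    have hn0 : (n : ZMod p) ≠ 0 := ne_zero_of_mem_PR hPR
    have hnot : ¬ orderOf (n : ZMod p) = p - 1 := by
      intro h
      apply hpP
      rw [hP, Finset.mem_filter, Finset.mem_range]
      exact ⟨Nat.lt_succ_iff.mpr hpx, hpp, h⟩
    rw [prim_iff hpp _ hn0] at hnot
    push Not at hnot
    obtain ⟨q, hq, hqd, y, hy⟩ := hnot
    have hqη : η < q := by
      by_contra hle
      push Not at hle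
      exact hpow q hq hle hqd ⟨y, hy⟩
    rw [Finset.mem_union, Finset.mem_union]
    by_cases hq1 : (q : ℝ) ≤ Q1
    · left
      rw [hS1, Finset.mem_filter]
      exact ⟨hPR, q, hq, hqη, hq1, hqd, y, hy⟩
    · right
      push Not at hq1
      by_cases hq2 : (q : ℝ) ≤ Q2
      · left
        rw [hS2, Finset.mem_filter, Finset.mem_range]
        exact ⟨Nat.lt_succ_iff.mpr hpx, hpp, q, hq, hqd, hq1, hq2⟩
      · right
        push Not at hq2
        rw [hS3, Finset.mem_filter, Finset.mem_range]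
        exact ⟨Nat.lt_succ_iff.mpr hpx, hpp, hn0, q, hq, hqd, hq2, y, hy⟩
  have c1 : ((P \ C).card : ℝ) ≤ 1 + (b.natAbs.primeFactors.card + m.primeFactors.card) := by
    have h3 := (Finset.card_le_card h1).trans ((Finset.card_union_le _ _).trans
      (Nat.add_le_add_left (Finset.card_union_le _ _) _))
    rw [Finset.card_singleton] at h3
    exact_mod_cast h3
  have c2 : ((C \ P).card : ℝ) ≤ S1.card + (S2.card + S3.card) := by
    have h3 := (Finset.card_le_card h2).trans ((Finset.card_union_le _ _).trans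
      (Nat.add_le_add_left (Finset.card_union_le _ _) _))
    exact_mod_cast h3
  have c3 : (P.card : ℝ) = (P \ C).card + (P ∩ C).card := by
    exact_mod_cast (Finset.card_sdiff_add_card_inter P C).symm
  have c4 : (C.card : ℝ) = (C \ P).card + (P ∩ C).card := by
    rw [Finset.inter_comm]
    exact_mod_cast (Finset.card_sdiff_add_card_inter C P).symm
  have n1 : (0 : ℝ) ≤ (P \ C).card := Nat.cast_nonneg _
  have n2 : (0 : ℝ) ≤ (C \ P).card := Nat.cast_nonneg _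
  have n3 : (0 : ℝ) ≤ S1.card := Nat.cast_nonneg _
  have n4 : (0 : ℝ) ≤ S2.card := Nat.cast_nonneg _
  have n5 : (0 : ℝ) ≤ S3.card := Nat.cast_nonneg _
  have n6 : (0 : ℝ) ≤ b.natAbs.primeFactors.card := Nat.cast_nonneg _
  have n7 : (0 : ℝ) ≤ m.primeFactors.card := Nat.cast_nonneg _
  rw [abs_le]
  constructor <;> linarith

end Pool.Agent.ARX
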