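import Mathlib
import Pool.Agent.Helper35.Primes

set_option autoImplicit false

/-!
# ARX module SQP: sums of reciprocals of primes

* `sum_inv_interval`: `≤ C (log (log Q2 / log Q1) + 1 / log Q1)`.
* `sum_inv_all`: `∑_{q ≤ x} 1/q ≤ C (1 + log log x)` for `x ≥ 3`.
* `sum_inv_sq`: `∑_{q > η} 1/q^2 ≤ 1/η` over all integers (any finite range).
-/

namespace Pool.Agent.ARX

open Pool.Agent.Helper35 in
theorem sqp_nat (n : ℕ) : ∀ m : ℕ, 2 ≤ m → m ≤ n →
    ∑ p ∈ prm m n, 1 / (p : ℝ) ≤
      2 * Real.log (Real.log n / Real.log m) + 10 / Real.log m := by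
  -- induction on `n - m`
  have key : ∀ d m : ℕ, n - m ≤ d → 2 ≤ m → m ≤ n →
      ∑ p ∈ prm m n, 1 / (p : ℝ) ≤
        2 * Real.log (Real.log n / Real.log m) + 10 / Real.log m := by
    intro d
    induction d with
    | zero =>
      intro m hd hm hmn
      have hmn' : m = n := by omega
      subst hmn'
      have hlog : 0 < Real.log m := Real.log_pos (by exact_mod_cast (by omega : 1 < m))
      have h1 : prm m m = ∅ := by
        ext p
        rw [mem_prm]
        constructor
        · rintro ⟨⟨h1, h2⟩, -⟩; omega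
        · intro h; simp at h
      rw [h1, Finset.sum_empty, div_self hlog.ne', Real.log_one]
      positivity
    | succ d ih =>
      intro m hd hm hmn
      have hlog : 0 < Real.log m := Real.log_pos (by exact_mod_cast (by omega : 1 < m))
      have hm0 : (0 : ℝ) < m := by exact_mod_cast (by omega : 0 < m)
      have hn0 : (0 : ℝ) < n := by exact_mod_cast (by omega : 0 < n)
      have hlmn : Real.log m ≤ Real.log n := Real.log_le_log hm0 (by exact_mod_cast hmn)
      rcases le_or_gt n (m ^ 2) with hle | hgt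
      · have h1 := recip_upper hm hmn
        have h2 : Real.log n ≤ 2 * Real.log m := by
          rw [← Real.log_rpow hm0]
          apply Real.log_le_log hn0
          have : (n : ℝ) ≤ (m : ℝ) ^ 2 := by exact_mod_cast hle
          rwa [← Real.rpow_natCast] at this
        -- `r - 1 ≤ 2 log r` for `1 ≤ r ≤ 2`
        set r := Real.log n / Real.log m with hr
        have hr1 : 1 ≤ r := by rw [hr, le_div_iff₀ hlog]; linarith
        have hr2 : r ≤ 2 := by rw [hr, div_le_iff₀ hlog]; exact h2
        have h3 : r - 1 ≤ 2 * Real.log r := by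
          have h4 := Real.one_sub_inv_le_log_of_pos (by linarith : 0 < r)
          have h5 : (r - 1) / 2 ≤ 1 - r⁻¹ := by
            have h6 : 1 - r⁻¹ = (r - 1) / r := by field_simp
            rw [h6]
            exact div_le_div_of_nonneg_left (by linarith) (by linarith) hr2
          linarith
        have h4 : (Real.log n - Real.log m + 5) / Real.log m = r - 1 + 5 / Real.log m := by
          rw [hr]; field_simp
        rw [h4] at h1
        have h5 : 5 / Real.log m ≤ 10 / Real.log m :=
          div_le_div_of_nonneg_right (by norm_num) hlog.le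
        linarith
      · have hm2 : m < m ^ 2 := by nlinarith
        have h1 := recip_upper hm hm2.le
        have h2 := ih (m ^ 2) (by omega) (by nlinarith) hgt.le
        have h3 : Real.log ((m ^ 2 : ℕ) : ℝ) = 2 * Real.log m := by
          push_cast
          rw [Real.log_pow]; norm_num
        rw [h3] at h1 h2
        have h4 : ∑ p ∈ prm m n, 1 / (p : ℝ) =
            ∑ p ∈ prm m (m ^ 2), 1 / (p : ℝ) + ∑ p ∈ prm (m ^ 2) n, 1 / (p : ℝ) := by
          rw [prm_sum_sub (fun p => 1 / (p : ℝ)) hmn,
            prm_sum_sub (fun p => 1 / (p : ℝ)) hm2.le,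
            prm_sum_sub (fun p => 1 / (p : ℝ)) hgt.le]
          ring
        rw [h4]
        have hln : 0 < Real.log n := lt_of_lt_of_le hlog hlmn
        have h5 : Real.log (Real.log n / (2 * Real.log m)) =
            Real.log (Real.log n / Real.log m) - Real.log 2 := by
          rw [Real.log_div hln.ne' (by positivity), Real.log_div hln.ne' hlog.ne',
            Real.log_mul (by norm_num) hlog.ne']
          ring
        rw [h5] at h2
        have h6 : (2 * Real.log m - Real.log m + 5) / Real.log m = 1 + 5 / Real.log m := by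
          field_simp; ring
        rw [h6] at h1
        have h7 : 10 / (2 * Real.log m) = 5 / Real.log m := by field_simp; norm_num
        rw [h7] at h2
        have h8 : 10 / Real.log m = 5 / Real.log m + 5 / Real.log m := by ring
        rw [h8]
        have h9 := Real.log_two_gt_d9
        linarith
  intro m hm hmn
  exact key (n - m) m le_rfl hm hmn

theorem sum_inv_interval : ∃ C : ℝ, 1 ≤ C ∧ ∀ Q1 Q2 : ℝ, 2 ≤ Q1 → Q1 ≤ Q2 →
    ∑ q ∈ (Finset.range (⌊Q2⌋₊ + 1)).filter (fun q : ℕ => q.Prime ∧ Q1 < (q : ℝ)), (1 : ℝ) / q ≤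
      C * (Real.log (Real.log Q2 / Real.log Q1) + 1 / Real.log Q1) := by
  refine ⟨24, by norm_num, ?_⟩
  intro Q1 Q2 h1 h2
  set m := ⌊Q1⌋₊ with hm
  set n := ⌊Q2⌋₊ with hn
  have hm2 : 2 ≤ m := Nat.le_floor (by exact_mod_cast h1)
  have hmn : m ≤ n := Nat.floor_le_floor h2
  have hmQ : (m : ℝ) ≤ Q1 := Nat.floor_le (by linarith)
  have hmQ' : Q1 < m + 1 := Nat.lt_floor_add_one Q1
  have hnQ : (n : ℝ) ≤ Q2 := Nat.floor_le (by linarith)
  have hm0 : (2 : ℝ) ≤ m := by exact_mod_cast hm2
  have hn0 : (2 : ℝ) ≤ n := by exact_mod_cast hm2.trans hmn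
  have hlm : 0 < Real.log m := Real.log_pos (by linarith)
  have hlQ1 : 0 < Real.log Q1 := Real.log_pos (by linarith)
  have hlQ2 : 0 < Real.log Q2 := Real.log_pos (by linarith)
  have hln : 0 < Real.log n := Real.log_pos (by linarith)
  have hle : ∑ q ∈ (Finset.range (n + 1)).filter (fun q : ℕ => q.Prime ∧ Q1 < (q : ℝ)),
      (1 : ℝ) / q ≤ ∑ p ∈ Pool.Agent.Helper35.prm m n, 1 / (p : ℝ) := by
    apply Finset.sum_le_sum_of_subset_of_nonneg
    · intro q hq
      rw [Finset.mem_filter, Finset.mem_range] at hq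
      rw [Pool.Agent.Helper35.mem_prm]
      refine ⟨⟨?_, by omega⟩, hq.2.1⟩
      have : (m : ℝ) < q := lt_of_le_of_lt hmQ hq.2.2
      exact_mod_cast this
    · intro q _ _
      positivity
  refine hle.trans ((sqp_nat n m hm2 hmn).trans ?_)
  -- compare the logarithms
  have hA : Real.log Q1 ≤ Real.log m + 1 / m := by
    have h3 : Real.log Q1 ≤ Real.log ((m : ℝ) * (1 + 1 / m)) := by
      apply Real.log_le_log (by linarith)
      have : (m : ℝ) * (1 + 1 / m) = m + 1 := by field_simp
      rw [this]; exact hmQ'.le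
    rw [Real.log_mul (by linarith) (by positivity)] at h3
    have h4 : Real.log (1 + 1 / (m : ℝ)) ≤ 1 / m := by
      have := Real.log_le_sub_one_of_pos (show 0 < 1 + 1 / (m : ℝ) by positivity)
      linarith
    linarith
  have hinv : 1 / (m : ℝ) ≤ 1 / 2 := one_div_le_one_div_of_le (by norm_num) hm0
  have hlm2 : Real.log 2 ≤ Real.log m := Real.log_le_log (by norm_num) hm0
  have hl2 := Real.log_two_gt_d9
  have hB : Real.log Q1 ≤ 2 * Real.log m := by linarith
  have hC : 1 / Real.log m ≤ 2 * (1 / Real.log Q1) := by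
    rw [mul_one_div, div_le_div_iff₀ hlm hlQ1]
    linarith
  have hD : Real.log (Real.log Q1 / Real.log m) ≤ 1 / Real.log m := by
    have h3 := Real.log_le_sub_one_of_pos (show 0 < Real.log Q1 / Real.log m by positivity)
    have h4 : Real.log Q1 / Real.log m - 1 ≤ 1 / Real.log m := by
      rw [div_sub_one hlm.ne']
      apply div_le_div_of_nonneg_right _ hlm.le
      linarith
    linarith
  have hE : Real.log (Real.log n / Real.log m) ≤
      Real.log (Real.log Q2 / Real.log Q1) + Real.log (Real.log Q1 / Real.log m) := by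
    rw [← Real.log_mul (by positivity) (by positivity)]
    apply Real.log_le_log (by positivity)
    rw [div_mul_div_cancel₀ hlQ1.ne']
    apply div_le_div_of_nonneg_right _ hlm.le
    exact Real.log_le_log (by linarith) hnQ
  have hF : 0 ≤ Real.log (Real.log Q2 / Real.log Q1) := by
    apply Real.log_nonneg
    rw [le_div_iff₀ hlQ1, one_mul]
    exact Real.log_le_log (by linarith) h2
  have h10 : 10 / Real.log m = 10 * (1 / Real.log m) := by ring
  rw [h10]
  nlinarith [hF, hC, hD, hE]

theorem sum_inv_all : ∃ C : ℝ, 1 ≤ C ∧ ∀ x : ℕ, 3 ≤ x →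
    ∑ q ∈ (Finset.range (x + 1)).filter (fun q : ℕ => q.Prime), (1 : ℝ) / q ≤
      C * (1 + Real.log (Real.log x)) := by
  refine ⟨30, by norm_num, ?_⟩
  intro x hx
  have hx3 : (3 : ℝ) ≤ x := by exact_mod_cast hx
  have h1 := sqp_nat x 2 le_rfl (by omega)
  have hl2 := Real.log_two_gt_d9
  have hl2' := Real.log_two_lt_d9
  have hlx : 1 ≤ Real.log x := by
    rw [Real.le_log_iff_exp_le (by linarith)]
    have := Real.exp_one_lt_d9
    linarith
  have hle : ∑ q ∈ (Finset.range (x + 1)).filter (fun q : ℕ => q.Prime), (1 : ℝ) / q ≤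
      1 / 2 + ∑ p ∈ Pool.Agent.Helper35.prm 2 x, 1 / (p : ℝ) := by
    have hsub : (Finset.range (x + 1)).filter (fun q : ℕ => q.Prime) ⊆
        insert 2 (Pool.Agent.Helper35.prm 2 x) := by
      intro q hq
      rw [Finset.mem_filter, Finset.mem_range] at hq
      rw [Finset.mem_insert, Pool.Agent.Helper35.mem_prm]
      have := hq.2.two_le
      rcases this.lt_or_eq with h | h
      · right; exact ⟨⟨h, by omega⟩, hq.2⟩
      · left; exact h.symm
    refine (Finset.sum_le_sum_of_subset_of_nonneg hsub (fun q _ _ => by positivity)).trans ?_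
    rw [Finset.sum_insert (by
      rw [Pool.Agent.Helper35.mem_prm]
      rintro ⟨⟨h, -⟩, -⟩
      omega)]
    norm_num
  refine hle.trans ?_
  push_cast at h1
  have h2 : Real.log (Real.log x / Real.log 2) ≤ Real.log (Real.log x) + 1 := by
    rw [Real.log_div (by linarith) (by linarith)]
    have h3 := Real.one_sub_inv_le_log_of_pos (show 0 < Real.log 2 by linarith)
    have h4 : (Real.log 2)⁻¹ ≤ 2 := by
      rw [inv_le_comm₀ (by linarith) (by norm_num)]
      linarith
    linarith
  have h3 : 10 / Real.log 2 ≤ 15 := by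
    rw [div_le_iff₀ (by linarith)]
    linarith
  have h4 : 0 ≤ Real.log (Real.log x) := Real.log_nonneg hlx
  linarith

theorem sum_inv_sq (η x : ℕ) (hη : 1 ≤ η) :
    ∑ q ∈ (Finset.range (x + 1)).filter (fun q : ℕ => η < q), (1 : ℝ) / (q : ℝ) ^ 2 ≤ 1 / η := by
  have hη0 : (0 : ℝ) < η := by exact_mod_cast hη
  rcases le_or_gt η x with h | h
  · have h1 : (Finset.range (x + 1)).filter (fun q : ℕ => η < q) = Finset.Ioc η x := by
      ext q
      simp only [Finset.mem_filter, Finset.mem_range, Finset.mem_Ioc]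
      omega
    rw [h1]
    have h2 := sum_Ioc_inv_sq_le_sub (α := ℝ) (k := η) (n := x) (by omega) h
    have h3 : (0 : ℝ) ≤ (x : ℝ)⁻¹ := by positivity
    calc ∑ q ∈ Finset.Ioc η x, (1 : ℝ) / (q : ℝ) ^ 2 = ∑ q ∈ Finset.Ioc η x, ((q : ℝ) ^ 2)⁻¹ := by
          apply Finset.sum_congr rfl; intro q _; rw [one_div]
      _ ≤ 1 / η := by rw [one_div]; linarith
  · have h1 : (Finset.range (x + 1)).filter (fun q : ℕ => η < q) = ∅ := by
      rw [Finset.filter_eq_empty_iff]
      intro q hq
      rw [Finset.mem_range] at hq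
      omega
    rw [h1, Finset.sum_empty]
    positivity

end Pool.Agent.ARX
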