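import Pool.Agent.ARX.Btp
import Pool.Agent.ARX.Sqp

set_option autoImplicit false

/-!
# ARX module VQP: averages over `p ≤ x` of sums over `q ∣ p - 1`

Write `P(x)` for the primes `p ≤ x`.  Exchange the sums:
`∑_{p ≤ x} ∑_{q ∣ p-1} w(q) = ∑_q w(q) piq q x`.  For `q^2 ≤ x` use `brun_titchmarsh'`; there is at
most one prime `q ∣ p - 1` with `q^2 > x ≥ p` (two of them would have product `> p - 1`).
* `sum_card_factors`: `w = 1`: `∑_{p≤x} ω(p-1) ≤ C π(x) (1 + log log x)`.
* `tail_inv`: `w = 1/q`, `q > η`: `≤ C π(x) (1/η + 1/√x)`.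
-/

namespace Pool.Agent.ARX

/-- At most one prime factor of `p - 1` is larger than `√x` when `p ≤ x`. -/
private theorem vqp_large_card (p x : ℕ) (hp : 2 ≤ p) (hpx : p ≤ x) :
    ((p - 1).primeFactors.filter (fun q => ¬ q ^ 2 ≤ x)).card ≤ 1 := by
  rw [Finset.card_le_one]
  intro a ha b hb
  by_contra hab
  rw [Finset.mem_filter, Nat.mem_primeFactors] at ha hb
  obtain ⟨⟨hap, had, -⟩, ha2⟩ := ha
  obtain ⟨⟨hbp, hbd, -⟩, hb2⟩ := hb
  have hcop : Nat.Coprime a b := (Nat.coprime_primes hap hbp).2 hab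
  have hdvd : a * b ∣ p - 1 := hcop.mul_dvd_of_dvd_of_dvd had hbd
  have hle : a * b ≤ p - 1 := Nat.le_of_dvd (by omega) hdvd
  have h1 : a * b < x := by omega
  push Not at ha2 hb2
  have h2 : x * x < a ^ 2 * b ^ 2 := by
    have := Nat.mul_lt_mul'' ha2 hb2
    exact this
  have h3 : a ^ 2 * b ^ 2 = (a * b) * (a * b) := by ring
  have h4 : (a * b) * (a * b) ≤ x * x := Nat.mul_le_mul h1.le h1.le
  omega

/-- The general bound: exchange of the sums for the small primes, at most one large prime. -/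
private theorem vqp_general (C : ℝ) (hC : ∀ q x : ℕ, q.Prime → q ^ 2 ≤ x →
    piq q x ≤ C * (Nat.primeCounting x : ℝ) / q) (w : ℕ → ℝ) (hw : ∀ q, 0 ≤ w q) (x : ℕ) (B : ℝ)
    (hB0 : 0 ≤ B) (hB : ∀ q : ℕ, q.Prime → ¬ q ^ 2 ≤ x → w q ≤ B) (hC0 : 0 ≤ C) :
    ∑ p ∈ (Finset.range (x + 1)).filter (fun p : ℕ => p.Prime),
      ∑ q ∈ (p - 1).primeFactors, w q ≤
      C * Nat.primeCounting x *
        (∑ q ∈ (Finset.range (x + 1)).filter (fun q : ℕ => q.Prime), w q / q) +
        Nat.primeCounting x * B := by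
  classical
  set P := (Finset.range (x + 1)).filter (fun p : ℕ => p.Prime) with hP
  have hPcard : (P.card : ℝ) = Nat.primeCounting x := by
    rw [Nat.primeCounting, Nat.primeCounting', Nat.count_eq_card_filter_range]
  have hsplit : ∀ p ∈ P, ∑ q ∈ (p - 1).primeFactors, w q ≤
      (∑ q ∈ P.filter (fun q => q ^ 2 ≤ x), (if q ∣ p - 1 then w q else 0)) + B := by
    intro p hp
    rw [hP, Finset.mem_filter, Finset.mem_range] at hp
    rw [← Finset.sum_filter_add_sum_filter_not (p - 1).primeFactors (fun q => q ^ 2 ≤ x)]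
    refine add_le_add ?_ ?_
    · rw [← Finset.sum_filter]
      refine Finset.sum_le_sum_of_subset_of_nonneg ?_ (fun q _ _ => hw q)
      intro q hq
      rw [Finset.mem_filter, Nat.mem_primeFactors] at hq
      obtain ⟨⟨hqp, hqd, hq0⟩, hq2⟩ := hq
      have hqle : q ≤ p - 1 := Nat.le_of_dvd (by have := hp.2.two_le; omega) hqd
      rw [Finset.mem_filter, Finset.mem_filter, hP, Finset.mem_filter, Finset.mem_range]
      exact ⟨⟨⟨by omega, hqp⟩, hq2⟩, hqd⟩
    · calc ∑ q ∈ (p - 1).primeFactors.filter (fun q => ¬ q ^ 2 ≤ x), w q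
          ≤ ∑ q ∈ (p - 1).primeFactors.filter (fun q => ¬ q ^ 2 ≤ x), B := by
            refine Finset.sum_le_sum ?_
            intro q hq
            rw [Finset.mem_filter, Nat.mem_primeFactors] at hq
            exact hB q hq.1.1 hq.2
        _ = (((p - 1).primeFactors.filter (fun q => ¬ q ^ 2 ≤ x)).card : ℝ) * B := by
            rw [Finset.sum_const, nsmul_eq_mul]
        _ ≤ 1 * B := by
            refine mul_le_mul_of_nonneg_right ?_ hB0
            exact_mod_cast vqp_large_card p x hp.2.two_le (by omega)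
        _ = B := one_mul B
  calc ∑ p ∈ P, ∑ q ∈ (p - 1).primeFactors, w q
      ≤ ∑ p ∈ P, ((∑ q ∈ P.filter (fun q => q ^ 2 ≤ x), (if q ∣ p - 1 then w q else 0)) + B) :=
        Finset.sum_le_sum hsplit
    _ = (∑ q ∈ P.filter (fun q => q ^ 2 ≤ x), ∑ p ∈ P, (if q ∣ p - 1 then w q else 0)) +
        Nat.primeCounting x * B := by
        rw [Finset.sum_add_distrib, Finset.sum_comm, Finset.sum_const, nsmul_eq_mul, hPcard]
    _ ≤ (∑ q ∈ P.filter (fun q => q ^ 2 ≤ x), C * Nat.primeCounting x * (w q / q)) +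
        Nat.primeCounting x * B := by
        refine add_le_add ?_ le_rfl
        refine Finset.sum_le_sum ?_
        intro q hq
        rw [Finset.mem_filter, hP, Finset.mem_filter] at hq
        have h1 : ∑ p ∈ P, (if q ∣ p - 1 then w q else 0) = w q * piq q x := by
          rw [← Finset.sum_filter, Finset.sum_const, nsmul_eq_mul, piq, mul_comm]
          congr 2
          rw [hP, Finset.filter_filter]
        rw [h1]
        calc w q * piq q x ≤ w q * (C * (Nat.primeCounting x : ℝ) / q) :=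
              mul_le_mul_of_nonneg_left (hC q x hq.1.2 hq.2) (hw q)
          _ = C * Nat.primeCounting x * (w q / q) := by ring
    _ ≤ C * Nat.primeCounting x * (∑ q ∈ P, w q / q) + Nat.primeCounting x * B := by
        refine add_le_add ?_ le_rfl
        rw [← Finset.mul_sum]
        refine mul_le_mul_of_nonneg_left ?_ (by positivity)
        refine Finset.sum_le_sum_of_subset_of_nonneg (Finset.filter_subset _ _) ?_
        intro q _ _
        exact div_nonneg (hw q) (Nat.cast_nonneg q)

theorem sum_card_factors : ∃ C : ℝ, 1 ≤ C ∧ ∀ x : ℕ, 3 ≤ x →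
    ∑ p ∈ (Finset.range (x + 1)).filter (fun p : ℕ => p.Prime), ((p - 1).primeFactors.card : ℝ) ≤
      C * Nat.primeCounting x * (1 + Real.log (Real.log x)) := by
  obtain ⟨C1, hC1, hBT⟩ := brun_titchmarsh'
  obtain ⟨C2, hC2, hS⟩ := sum_inv_all
  refine ⟨C1 * C2 + 1, by nlinarith, ?_⟩
  intro x hx
  have hgen := vqp_general C1 hBT (fun _ => 1) (fun _ => zero_le_one) x 1 zero_le_one
    (fun _ _ _ => le_rfl) (by linarith)
  have hloglog : 0 ≤ Real.log (Real.log x) := by
    apply Real.log_nonneg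
    have h3 : (3 : ℝ) ≤ x := by exact_mod_cast hx
    have : Real.exp 1 ≤ x := by
      have := Real.exp_one_lt_d9
      linarith
    rw [Real.le_log_iff_exp_le (by linarith)]
    exact this
  have hsum : ∑ p ∈ (Finset.range (x + 1)).filter (fun p : ℕ => p.Prime),
      ((p - 1).primeFactors.card : ℝ) =
      ∑ p ∈ (Finset.range (x + 1)).filter (fun p : ℕ => p.Prime),
        ∑ q ∈ (p - 1).primeFactors, (1 : ℝ) := by
    refine Finset.sum_congr rfl ?_
    intro p _
    rw [Finset.sum_const, nsmul_eq_mul, mul_one]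
  rw [hsum]
  refine hgen.trans ?_
  have hpi : (0 : ℝ) ≤ Nat.primeCounting x := Nat.cast_nonneg _
  have h1 : C1 * Nat.primeCounting x *
        (∑ q ∈ (Finset.range (x + 1)).filter (fun q : ℕ => q.Prime), (1 : ℝ) / q) ≤
      C1 * Nat.primeCounting x * (C2 * (1 + Real.log (Real.log x))) :=
    mul_le_mul_of_nonneg_left (hS x hx) (by positivity)
  have h2 : (Nat.primeCounting x : ℝ) * 1 ≤ Nat.primeCounting x * (1 + Real.log (Real.log x)) :=
    mul_le_mul_of_nonneg_left (by linarith) hpi
  calc C1 * Nat.primeCounting x *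
        (∑ q ∈ (Finset.range (x + 1)).filter (fun q : ℕ => q.Prime), (1 : ℝ) / q) +
        Nat.primeCounting x * 1
      ≤ C1 * Nat.primeCounting x * (C2 * (1 + Real.log (Real.log x))) +
        Nat.primeCounting x * (1 + Real.log (Real.log x)) := add_le_add h1 h2
    _ = (C1 * C2 + 1) * Nat.primeCounting x * (1 + Real.log (Real.log x)) := by ring

theorem tail_inv : ∃ C : ℝ, 1 ≤ C ∧ ∀ η x : ℕ, 1 ≤ η → 3 ≤ x →
    ∑ p ∈ (Finset.range (x + 1)).filter (fun p : ℕ => p.Prime),
      ∑ q ∈ (p - 1).primeFactors.filter (fun q => η < q), (1 : ℝ) / q ≤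
      C * Nat.primeCounting x * (1 / η + 1 / Real.sqrt x) := by
  obtain ⟨C1, hC1, hBT⟩ := brun_titchmarsh'
  refine ⟨C1, hC1, ?_⟩
  intro η x hη hx
  have hx0 : (0 : ℝ) < x := by
    have : (3 : ℝ) ≤ x := by exact_mod_cast hx
    linarith
  have hsx : 0 < Real.sqrt x := Real.sqrt_pos.2 hx0
  have hgen := vqp_general C1 hBT (fun q => if η < q then (1 : ℝ) / q else 0)
    (fun q => by positivity) x (1 / Real.sqrt x) (by positivity)
    (by
      intro q hq hq2
      have hsq : Real.sqrt x ≤ q := by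
        rw [Real.sqrt_le_left (Nat.cast_nonneg q)]
        push Not at hq2
        exact_mod_cast hq2.le
      have h1 : (1 : ℝ) / q ≤ 1 / Real.sqrt x := one_div_le_one_div_of_le hsx hsq
      show (if η < q then (1 : ℝ) / q else 0) ≤ 1 / Real.sqrt x
      split_ifs
      · exact h1
      · positivity)
    (by linarith)
  have hsum : ∑ p ∈ (Finset.range (x + 1)).filter (fun p : ℕ => p.Prime),
      ∑ q ∈ (p - 1).primeFactors.filter (fun q => η < q), (1 : ℝ) / q =
      ∑ p ∈ (Finset.range (x + 1)).filter (fun p : ℕ => p.Prime),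
        ∑ q ∈ (p - 1).primeFactors, (if η < q then (1 : ℝ) / q else 0) := by
    refine Finset.sum_congr rfl ?_
    intro p _
    rw [Finset.sum_filter]
  rw [hsum]
  refine hgen.trans ?_
  have hpi : (0 : ℝ) ≤ Nat.primeCounting x := Nat.cast_nonneg _
  have h1 : ∑ q ∈ (Finset.range (x + 1)).filter (fun q : ℕ => q.Prime),
      (if η < q then (1 : ℝ) / q else 0) / q ≤ 1 / η := by
    refine le_trans ?_ (sum_inv_sq η x hη)
    rw [Finset.sum_filter, Finset.sum_filter]
    refine Finset.sum_le_sum ?_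
    intro q _
    by_cases h : η < q
    · simp only [h, if_true]
      split_ifs
      · rw [div_div, pow_two]
      · positivity
    · simp only [h, if_false, zero_div, ite_self, le_refl]
  have h2 : (Nat.primeCounting x : ℝ) * (1 / Real.sqrt x) ≤
      C1 * Nat.primeCounting x * (1 / Real.sqrt x) := by
    refine mul_le_mul_of_nonneg_right ?_ (by positivity)
    nlinarith
  have h3 : C1 * Nat.primeCounting x * (∑ q ∈ (Finset.range (x + 1)).filter
      (fun q : ℕ => q.Prime), (if η < q then (1 : ℝ) / q else 0) / q) ≤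
      C1 * Nat.primeCounting x * (1 / η) :=
    mul_le_mul_of_nonneg_left h1 (by positivity)
  calc C1 * Nat.primeCounting x * (∑ q ∈ (Finset.range (x + 1)).filter
      (fun q : ℕ => q.Prime), (if η < q then (1 : ℝ) / q else 0) / q) +
        Nat.primeCounting x * (1 / Real.sqrt x)
      ≤ C1 * Nat.primeCounting x * (1 / η) + C1 * Nat.primeCounting x * (1 / Real.sqrt x) :=
        add_le_add h3 h2
    _ = C1 * Nat.primeCounting x * (1 / η + 1 / Real.sqrt x) := by ring

end Pool.Agent.ARX
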