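import Pool.Agent.ARX.Def2
import Pool.Agent.ARX.Omp
import Pool.Agent.ARX.Vqp

set_option autoImplicit false

/-!
# ARX module MAI: comparison of the main terms

* `main_compare`: `0 ≤ uu ≤ 1`; for `p ∈ PR`, `∏_{q ≤ η} uu - ∏_q uu` is between `0` and
  `∑_{q > η, q ∣ p-1} 1/q` (`1 - ∏ (1 - a_q) ≤ ∑ a_q`; here `q > η ≥ t` so `uu = 1 - 1/q`); sum over
  `p` and use `tail_inv`; the primes dividing `b m` contribute at most their number
  (`≤ b.natAbs.primeFactors.card + m.primeFactors.card`).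
-/

namespace Pool.Agent.ARX

private lemma uu_nonneg' (b : ℤ) (t p q : ℕ) : 0 ≤ uu b t p q := by
  unfold uu
  split_ifs
  · exact le_rfl
  · exact zero_le_one
  · rcases Nat.eq_zero_or_pos q with rfl | hq
    · simp
    · have : (1 : ℝ) / q ≤ 1 := by
        rw [div_le_one (by exact_mod_cast hq)]
        exact_mod_cast hq
      linarith

private lemma uu_le_one' (b : ℤ) (t p q : ℕ) : uu b t p q ≤ 1 := by
  unfold uu
  split_ifs
  · exact zero_le_one
  · exact le_rfl
  · have : (0 : ℝ) ≤ 1 / q := by positivity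
    linarith

private lemma one_sub_prod_le' (S : Finset ℕ) (u : ℕ → ℝ) (h0 : ∀ q, 0 ≤ u q)
    (h1 : ∀ q, u q ≤ 1) : 1 - ∏ q ∈ S, u q ≤ ∑ q ∈ S, (1 - u q) := by
  classical
  induction S using Finset.induction_on with
  | empty => simp
  | insert a S ha ih =>
    rw [Finset.prod_insert ha, Finset.sum_insert ha]
    have h2 : 0 ≤ ∏ q ∈ S, u q := Finset.prod_nonneg fun q _ => h0 q
    have h3 : ∏ q ∈ S, u q ≤ 1 := Finset.prod_le_one (fun q _ => h0 q) (fun q _ => h1 q)
    nlinarith [h0 a, h1 a]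

theorem main_compare : ∃ C : ℝ, 1 ≤ C ∧ ∀ (b : ℤ) (t η m x : ℕ), b ≠ 0 → 1 ≤ t → t ≤ η → 1 ≤ m →
    3 ≤ x →
    |mnt b t η m x - mnf b t x| ≤ C * Nat.primeCounting x * (1 / η + 1 / Real.sqrt x) +
      (b.natAbs.primeFactors.card + m.primeFactors.card) := by
  classical
  obtain ⟨C, hC, hT⟩ := tail_inv
  refine ⟨C, hC, ?_⟩
  intro b t η m x hb ht htη hm hx
  have hη : 1 ≤ η := ht.trans htη
  have hTx := hT η x hη hx
  set A : ℕ → ℝ := fun p => ∏ q ∈ (p - 1).primeFactors.filter (fun q => q ≤ η), uu b t p q with hA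
  set F : ℕ → ℝ := fun p => ∏ q ∈ (p - 1).primeFactors, uu b t p q with hF
  set T : ℕ → ℝ := fun p => ∑ q ∈ (p - 1).primeFactors.filter (fun q => η < q), (1 : ℝ) / q with hTdef
  have hF0 : ∀ p, 0 ≤ F p := fun p => Finset.prod_nonneg fun q _ => uu_nonneg' b t p q
  have hF1 : ∀ p, F p ≤ 1 := fun p =>
    Finset.prod_le_one (fun q _ => uu_nonneg' b t p q) (fun q _ => uu_le_one' b t p q)
  have hA0 : ∀ p, 0 ≤ A p := fun p => Finset.prod_nonneg fun q _ => uu_nonneg' b t p q
  have hA1 : ∀ p, A p ≤ 1 := fun p =>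
    Finset.prod_le_one (fun q _ => uu_nonneg' b t p q) (fun q _ => uu_le_one' b t p q)
  have hT0 : ∀ p, 0 ≤ T p := fun p => Finset.sum_nonneg fun q _ => by positivity
  have hsplit : ∀ p, F p = A p * ∏ q ∈ (p - 1).primeFactors.filter (fun q => ¬ q ≤ η),
      uu b t p q := by
    intro p
    simp only [hF, hA]
    rw [Finset.prod_filter_mul_prod_filter_not]
  have hAF0 : ∀ p, 0 ≤ A p - F p := by
    intro p
    rw [hsplit p]
    have h3 : ∏ q ∈ (p - 1).primeFactors.filter (fun q => ¬ q ≤ η), uu b t p q ≤ 1 :=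
      Finset.prod_le_one (fun q _ => uu_nonneg' b t p q) (fun q _ => uu_le_one' b t p q)
    nlinarith [hA0 p]
  have hAF1 : ∀ p, A p - F p ≤ T p := by
    intro p
    rw [hsplit p]
    have h2 := one_sub_prod_le' ((p - 1).primeFactors.filter (fun q => ¬ q ≤ η))
      (fun q => uu b t p q) (fun q => uu_nonneg' b t p q) (fun q => uu_le_one' b t p q)
    have h3 : ∏ q ∈ (p - 1).primeFactors.filter (fun q => ¬ q ≤ η), uu b t p q ≤ 1 :=
      Finset.prod_le_one (fun q _ => uu_nonneg' b t p q) (fun q _ => uu_le_one' b t p q)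
    have h4 : ∑ q ∈ (p - 1).primeFactors.filter (fun q => ¬ q ≤ η), (1 - uu b t p q) = T p := by
      simp only [hTdef]
      have : (p - 1).primeFactors.filter (fun q => ¬ q ≤ η)
          = (p - 1).primeFactors.filter (fun q => η < q) := by
        ext q; simp
      rw [this]
      refine Finset.sum_congr rfl fun q hq => ?_
      have hq2 := (Finset.mem_filter.1 hq).2
      have hnd : ¬ q ∣ t := fun hd => by
        have := Nat.le_of_dvd (by omega) hd
        omega
      unfold uu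
      rw [if_neg hnd]
      ring
    rw [h4] at h2
    nlinarith [hA0 p, hA1 p, hT0 p]
  -- the sum over PR
  have hPRsub : PR b m x ⊆ (Finset.range (x + 1)).filter (fun p : ℕ => p.Prime ∧ p ≠ 2) := by
    intro p hp
    unfold PR at hp
    simp only [Finset.mem_filter] at hp ⊢
    exact ⟨hp.1, hp.2.1, hp.2.2.1⟩
  have h1 : mnt b t η m x - ∑ p ∈ PR b m x, F p = ∑ p ∈ PR b m x, (A p - F p) := by
    rw [Finset.sum_sub_distrib]
    rfl
  have h2 : 0 ≤ ∑ p ∈ PR b m x, (A p - F p) := Finset.sum_nonneg fun p _ => hAF0 p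
  have h3 : ∑ p ∈ PR b m x, (A p - F p) ≤ C * Nat.primeCounting x * (1 / η + 1 / Real.sqrt x) := by
    calc ∑ p ∈ PR b m x, (A p - F p) ≤ ∑ p ∈ PR b m x, T p := Finset.sum_le_sum fun p _ => hAF1 p
      _ ≤ ∑ p ∈ (Finset.range (x + 1)).filter (fun p : ℕ => p.Prime), T p := by
          refine Finset.sum_le_sum_of_subset_of_nonneg ?_ (fun p _ _ => hT0 p)
          intro p hp
          have := hPRsub hp
          simp only [Finset.mem_filter] at this ⊢
          exact ⟨this.1, this.2.1⟩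
      _ ≤ _ := hTx
  have h4 : mnf b t x = ∑ p ∈ PR b m x, F p
      + ∑ p ∈ (Finset.range (x + 1)).filter (fun p : ℕ => p.Prime ∧ p ≠ 2) \ PR b m x, F p := by
    unfold mnf
    rw [add_comm (∑ p ∈ PR b m x, F p), Finset.sum_sdiff hPRsub]
  have h5 : 0 ≤ ∑ p ∈ (Finset.range (x + 1)).filter (fun p : ℕ => p.Prime ∧ p ≠ 2) \ PR b m x,
      F p := Finset.sum_nonneg fun p _ => hF0 p
  have h6 : ∑ p ∈ (Finset.range (x + 1)).filter (fun p : ℕ => p.Prime ∧ p ≠ 2) \ PR b m x, F p
      ≤ b.natAbs.primeFactors.card + m.primeFactors.card := by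
    calc _ ≤ ∑ p ∈ (Finset.range (x + 1)).filter (fun p : ℕ => p.Prime ∧ p ≠ 2) \ PR b m x,
          (1 : ℝ) := Finset.sum_le_sum fun p _ => hF1 p
      _ = (((Finset.range (x + 1)).filter (fun p : ℕ => p.Prime ∧ p ≠ 2) \ PR b m x).card : ℝ) := by
          simp
      _ ≤ ((b.natAbs.primeFactors ∪ m.primeFactors).card : ℝ) := by
          refine Nat.cast_le.2 (Finset.card_le_card ?_)
          intro p hp
          unfold PR at hp
          simp only [Finset.mem_sdiff, Finset.mem_filter, not_and, not_not] at hp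
          obtain ⟨⟨hpx, hpp, hp2⟩, hd⟩ := hp
          have hd := hd hpx hpp hp2
          have hpI : Prime (p : ℤ) := Nat.prime_iff_prime_int.1 hpp
          rcases hpI.dvd_or_dvd hd with h | h
          · refine Finset.mem_union_left _ (Nat.mem_primeFactors.2 ⟨hpp, ?_, by simpa using hb⟩)
            exact Int.natCast_dvd.1 h
          · refine Finset.mem_union_right _ (Nat.mem_primeFactors.2 ⟨hpp, ?_, by omega⟩)
            exact Int.natCast_dvd_natCast.1 h
      _ ≤ _ := by exact_mod_cast Finset.card_union_le _ _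
  rw [abs_le]
  constructor
  · have : (0 : ℝ) ≤ C * Nat.primeCounting x * (1 / η + 1 / Real.sqrt x) := h2.trans h3
    linarith
  · have : (0 : ℝ) ≤ (b.natAbs.primeFactors.card : ℝ) + m.primeFactors.card := by positivity
    linarith

end Pool.Agent.ARX
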