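import Pool.Agent.ARX.Btp
import Pool.Agent.ARX.Sqp

set_option autoImplicit false

/-!
# ARX module MDQ: the middle range

The count is at most `∑_{Q1 < q ≤ Q2} piq q x ≤ C π(x) ∑ 1/q` (`brun_titchmarsh'`, `q^2 ≤ Q2^2 ≤ x`) and
`sum_inv_interval`.
-/

namespace Pool.Agent.ARX

theorem mdq_count (x : ℕ) (Q1 Q2 : ℝ) :
    midc x Q1 Q2 ≤ ∑ q ∈ (Finset.range (⌊Q2⌋₊ + 1)).filter (fun q : ℕ => q.Prime ∧ Q1 < (q : ℝ)),
      piq q x := by
  classical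
  unfold midc piq
  rw [← Nat.cast_sum, Nat.cast_le]
  refine le_trans (Finset.card_le_card ?_) Finset.card_biUnion_le
  intro p hp
  rw [Finset.mem_filter] at hp
  obtain ⟨hpx, hp, q, hq, hqp, h1, h2⟩ := hp
  rw [Finset.mem_biUnion]
  refine ⟨q, ?_, ?_⟩
  · rw [Finset.mem_filter, Finset.mem_range]
    exact ⟨Nat.lt_succ_of_le (Nat.le_floor h2), hq, h1⟩
  · rw [Finset.mem_filter]
    exact ⟨hpx, hp, hqp⟩

theorem mid_range : ∃ C : ℝ, 1 ≤ C ∧ ∀ (x : ℕ) (Q1 Q2 : ℝ), 3 ≤ x → 2 ≤ Q1 → Q1 ≤ Q2 →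
    Q2 ^ 2 ≤ x →
    midc x Q1 Q2 ≤
      C * Nat.primeCounting x * (Real.log (Real.log Q2 / Real.log Q1) + 1 / Real.log Q1) := by
  obtain ⟨C1, hC1, h1⟩ := brun_titchmarsh'
  obtain ⟨C2, hC2, h2⟩ := sum_inv_interval
  refine ⟨C1 * C2, by nlinarith, fun x Q1 Q2 hx hQ1 hQ12 hQ2 => ?_⟩
  have h3 := h2 Q1 Q2 hQ1 hQ12
  have h0 : 0 ≤ C1 * (Nat.primeCounting x : ℝ) := by positivity
  calc midc x Q1 Q2
      ≤ ∑ q ∈ (Finset.range (⌊Q2⌋₊ + 1)).filter (fun q : ℕ => q.Prime ∧ Q1 < (q : ℝ)), piq q x :=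
        mdq_count x Q1 Q2
    _ ≤ ∑ q ∈ (Finset.range (⌊Q2⌋₊ + 1)).filter (fun q : ℕ => q.Prime ∧ Q1 < (q : ℝ)),
          C1 * (Nat.primeCounting x : ℝ) * ((1 : ℝ) / q) := by
        refine Finset.sum_le_sum fun q hq => ?_
        rw [Finset.mem_filter, Finset.mem_range] at hq
        have hqQ : (q : ℝ) ≤ Q2 := by
          have h4 : q ≤ ⌊Q2⌋₊ := Nat.le_of_lt_succ hq.1
          exact (Nat.cast_le.2 h4).trans (Nat.floor_le (by linarith))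
        have hqx : q ^ 2 ≤ x := by
          have h5 : ((q ^ 2 : ℕ) : ℝ) ≤ (x : ℝ) := by
            push_cast
            refine le_trans ?_ hQ2
            gcongr
          exact_mod_cast h5
        refine (h1 q x hq.2.1 hqx).trans (le_of_eq ?_)
        ring
    _ = C1 * (Nat.primeCounting x : ℝ) *
          ∑ q ∈ (Finset.range (⌊Q2⌋₊ + 1)).filter (fun q : ℕ => q.Prime ∧ Q1 < (q : ℝ)),
            (1 : ℝ) / q := by rw [Finset.mul_sum]
    _ ≤ C1 * (Nat.primeCounting x : ℝ) *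
          (C2 * (Real.log (Real.log Q2 / Real.log Q1) + 1 / Real.log Q1)) :=
        mul_le_mul_of_nonneg_left h3 h0
    _ = _ := by ring

end Pool.Agent.ARX
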