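import Pool.Agent.ARX.Defs

set_option autoImplicit false

/-!
# ARX module LMB: the size of `Lam e`

`D = φ(e) ≤ e`; `log (D^D + 1) ≤ e log e + 1`; `Nat.log 2 (D^D) ≤ D log D / log 2`, so the second
factor contributes at most `(e log e)(log e)/log 2`; `e.primeFactors.card ≤ log2 e ≤ log e / log 2`, so
the third contributes at most `(log e / log 2)(log 2 + log e)`.  Everything is at most
`10 e (1 + log e)^2` (`1/log 2 ≤ 3/2`, `log e ≤ e`).
-/

namespace Pool.Agent.ARX

theorem Lam_pos (e : ℕ) (he : 1 < e) : 1 ≤ Lam e := by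
  have hD : 0 < Nat.totient e := Nat.totient_pos.2 (by omega)
  unfold Lam
  have h : 0 < ((Nat.totient e) ^ (Nat.totient e) + 1) *
    ((Nat.totient e) ^ (Nat.log 2 ((Nat.totient e) ^ (Nat.totient e))) *
      (2 * e) ^ (e.primeFactors.card)) := by positivity
  exact h

theorem log_Lam_le (e : ℕ) (he : 1 < e) :
    Real.log (Lam e) ≤ 10 * e * (1 + Real.log e) ^ 2 := by
  have hD : 0 < Nat.totient e := Nat.totient_pos.2 (by omega)
  have hDe : Nat.totient e ≤ e := Nat.totient_le e
  set D := Nat.totient e with hDdef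
  set n := Nat.log 2 (D ^ D) with hn
  set k := e.primeFactors.card with hk
  set L := Real.log e with hL
  have he2 : (2 : ℝ) ≤ e := by exact_mod_cast he
  have hD1 : (1 : ℝ) ≤ D := by exact_mod_cast hD
  have hDe' : (D : ℝ) ≤ e := by exact_mod_cast hDe
  have hlog2 : (2 : ℝ) / 3 ≤ Real.log 2 := by
    have := Real.log_two_gt_d9
    linarith
  have hlog2' : Real.log 2 ≤ 1 := by
    have := Real.log_two_lt_d9
    linarith
  have hL0 : 0 ≤ L := Real.log_nonneg (by linarith)
  have hlD0 : 0 ≤ Real.log D := Real.log_nonneg hD1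
  have hlDL : Real.log D ≤ L := Real.log_le_log (by linarith) hDe'
  -- first factor
  have h1 : Real.log ((D : ℝ) ^ D + 1) ≤ 1 + e * L := by
    have h2 : (D : ℝ) ^ D + 1 ≤ 2 * (D : ℝ) ^ D := by
      have := one_le_pow₀ hD1 (n := D)
      linarith
    calc Real.log ((D : ℝ) ^ D + 1) ≤ Real.log (2 * (D : ℝ) ^ D) :=
          Real.log_le_log (by positivity) h2
      _ = Real.log 2 + D * Real.log D := by
          rw [Real.log_mul (by norm_num) (by positivity), Real.log_pow]
      _ ≤ 1 + e * L := add_le_add hlog2' (mul_le_mul hDe' hlDL hlD0 (by linarith))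
  -- second factor
  have h2 : (n : ℝ) * Real.log D ≤ 3 / 2 * e * L ^ 2 := by
    have h3 : 2 ^ n ≤ D ^ D := Nat.pow_log_le_self 2 (by positivity)
    have h4 : (2 : ℝ) ^ n ≤ (D : ℝ) ^ D := by exact_mod_cast h3
    have h5 := Real.log_le_log (by positivity) h4
    rw [Real.log_pow, Real.log_pow] at h5
    have h6 : (n : ℝ) * (2 / 3) ≤ e * L :=
      (mul_le_mul_of_nonneg_left hlog2 (Nat.cast_nonneg n)).trans
        (h5.trans (mul_le_mul hDe' hlDL hlD0 (by linarith)))
    have h7 : (n : ℝ) ≤ 3 / 2 * (e * L) := by linarith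
    calc (n : ℝ) * Real.log D ≤ 3 / 2 * (e * L) * L :=
          mul_le_mul h7 hlDL hlD0 (by positivity)
      _ = 3 / 2 * e * L ^ 2 := by ring
  -- third factor
  have h3 : (k : ℝ) * Real.log (2 * e) ≤ 3 / 2 * L * (1 + L) := by
    have h4 : 2 ^ k ≤ e := by
      calc 2 ^ k ≤ ∏ p ∈ e.primeFactors, p :=
            Finset.pow_card_le_prod _ _ _ fun p hp => (Nat.prime_of_mem_primeFactors hp).two_le
        _ ≤ e := Nat.le_of_dvd (by omega) (Nat.prod_primeFactors_dvd e)
    have h5 : (2 : ℝ) ^ k ≤ e := by exact_mod_cast h4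
    have h6 := Real.log_le_log (by positivity) h5
    rw [Real.log_pow] at h6
    have h7 : (k : ℝ) * (2 / 3) ≤ L :=
      (mul_le_mul_of_nonneg_left hlog2 (Nat.cast_nonneg k)).trans h6
    have h8 : Real.log (2 * e) ≤ 1 + L := by
      rw [Real.log_mul (by norm_num) (by positivity)]
      linarith
    have h9 : 0 ≤ Real.log (2 * e) := Real.log_nonneg (by linarith)
    calc (k : ℝ) * Real.log (2 * e) ≤ 3 / 2 * L * (1 + L) :=
          mul_le_mul (by linarith) h8 h9 (by positivity)
      _ = _ := rfl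
  have h4 : Real.log (Lam e) = Real.log ((D : ℝ) ^ D + 1) + ((n : ℝ) * Real.log D +
      (k : ℝ) * Real.log (2 * e)) := by
    unfold Lam
    rw [← hDdef, ← hn, ← hk]
    push_cast
    rw [Real.log_mul (by positivity) (by positivity), Real.log_mul (by positivity) (by positivity),
      Real.log_pow, Real.log_pow]
  rw [h4]
  have h5 : 3 / 2 * L * (1 + L) ≤ e * (L * (1 + L)) := by nlinarith [mul_nonneg hL0 (by linarith : 0 ≤ 1 + L)]
  nlinarith [mul_nonneg (by linarith : (0 : ℝ) ≤ e) hL0, mul_nonneg (by linarith : (0 : ℝ) ≤ e) (sq_nonneg L)]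

end Pool.Agent.ARX
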