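import Pool.Agent.ARX.Lsf
import Pool.Agent.ARX.Lmb
import Pool.Agent.Helper6.ArtinBounds

set_option autoImplicit false

/-!
# ARX module PAR: parameters in the large values bound

`y = log x`, `LL = log N`, `y ≥ LL^(1-τ)`, `y ≤ A LL`.  `D = φ(e) ≤ e ≤ y^(1-4τ)`.
`k = ⌈D (log D + 3 LL + 1) / y⌉₊` (at least one), `Y = ⌊exp(k y / D)⌋₊`: then
`x^k < (Y+1)^D`, `Y^D ≤ x^k`, `D N^3 ≤ 2Y+1`; `σ = π(x) / y^2`, `|P| ≤ π(x)`.
`σ^k ≥ k^2 π(x)^(k-1)` because `π(x) ≥ √x` beats `k^2 y^(2k)`: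
`k ≤ y^(-4τ)(log y + 3 LL + 1) + 1`, `LL ≤ y^(1/(1-τ)) ≤ y^(1+2τ)`, so `k ≤ 5 y^(1-2τ)` and
`2 k log y + 2 log k = o(y)`.
`large_values`: `|MM| ≤ 8 k! π^k Lam (e D^D) (3Y)^D y^(4k) / π^(2k)
≤ 8 Lam e D^D 3^D k^k (x/π(x))^k y^(4k)` with `x/π(x) ≤ 4 y`.
Logarithm: `log Lam + D log D + D log 3 + log e ≤ C y^(1-4τ) (log y)^2 ≤ (δ/4) LL` and
`k (log k + 5 log y + log 4) ≤ C (y^(-4τ) LL + 1) log LL ≤ (δ/4) LL` for `N` large
(`y^(-4τ) ≤ LL^(-4τ(1-τ))`).
-/

namespace Pool.Agent.ARX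

open Filter Asymptotics in
theorem ev_log (a b : ℝ) {c r : ℝ} (hc : 0 < c) (hr : 0 < r) :
    ∀ᶠ y : ℝ in atTop, a * Real.log y + b ≤ c * y ^ r := by
  have h1 : (fun y : ℝ => a * Real.log y) =o[atTop] fun y => y ^ r :=
    (isLittleO_log_rpow_atTop hr).const_mul_left a
  have h2 : (fun _ : ℝ => b) =o[atTop] fun y : ℝ => y ^ r :=
    isLittleO_const_left.2 (Or.inr (tendsto_norm_atTop_atTop.comp (tendsto_rpow_atTop hr)))
  have h3 := (h1.add h2).def hc
  filter_upwards [h3, eventually_ge_atTop 0] with y hy hy0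
  have h4 := le_trans (le_abs_self _) hy
  rwa [Real.norm_eq_abs, abs_of_nonneg (Real.rpow_nonneg hy0 r)] at h4

/-- the algebra in the large values bound -/
theorem par_alg {M' π y x D3 : ℝ} {k D Y : ℕ} {Pc L e : ℝ} (hy : 0 < y) (hπ : 0 < π)
    (hPc0 : 0 ≤ Pc) (hPc : Pc ≤ π) (hL : 0 ≤ L) (he : 0 ≤ e) (hx0 : 0 ≤ x) (hY1 : 1 ≤ Y)
    (hY : (Y : ℝ) ^ D ≤ x ^ k) (hx : x ≤ 2 * y * π) (hD3 : D3 = (3 * (D : ℝ)) ^ D)
    (h : M' * (π / y ^ 2) ^ (2 * k) ≤ 8 * (k.factorial : ℝ) * Pc ^ k * L *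
      (e * (D : ℝ) ^ D) * (2 * (Y : ℝ) + 1) ^ D) :
    M' ≤ 8 * L * e * D3 * (2 * k * y ^ 5) ^ k := by
  have h1 : (k.factorial : ℝ) ≤ (k : ℝ) ^ k := by exact_mod_cast Nat.factorial_le_pow k
  have h2 : Pc ^ k ≤ π ^ k := pow_le_pow_left₀ hPc0 hPc k
  have hY1' : (1 : ℝ) ≤ Y := by exact_mod_cast hY1
  have h3 : (2 * (Y : ℝ) + 1) ^ D ≤ 3 ^ D * x ^ k := by
    calc (2 * (Y : ℝ) + 1) ^ D ≤ (3 * (Y : ℝ)) ^ D :=
          pow_le_pow_left₀ (by positivity) (by linarith) D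
      _ = 3 ^ D * (Y : ℝ) ^ D := mul_pow _ _ _
      _ ≤ 3 ^ D * x ^ k := by gcongr
  have h4 : x ^ k ≤ (2 * y * π) ^ k := pow_le_pow_left₀ hx0 hx k
  have h5 : M' * (π / y ^ 2) ^ (2 * k) ≤ 8 * (k : ℝ) ^ k * π ^ k * L *
      (e * (D : ℝ) ^ D) * (3 ^ D * (2 * y * π) ^ k) := by
    refine h.trans ?_
    have h6 : (2 * (Y : ℝ) + 1) ^ D ≤ 3 ^ D * (2 * y * π) ^ k := h3.trans (by gcongr)
    gcongr
  have hpos : 0 < (π / y ^ 2) ^ (2 * k) := by positivity
  refine le_of_mul_le_mul_right (h5.trans (le_of_eq ?_)) hpos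
  rw [hD3, div_pow, mul_pow 3 (D : ℝ) D]
  have hyk : (y ^ 2) ^ (2 * k) = y ^ (4 * k) := by rw [← pow_mul]; ring_nf
  rw [hyk]
  field_simp
  ring

theorem par_k {τ y L D : ℝ} {k : ℕ} (hτ : 0 < τ) (hτ1 : τ ≤ 1 / 8) (hy1 : 1 ≤ y) (hL1 : 1 ≤ L)
    (hD1 : 1 ≤ D) (hD : D ≤ y ^ (1 - 4 * τ)) (hk : k = ⌈D * (Real.log D + 3 * L + 1) / y⌉₊) :
    (k : ℝ) ≤ y ^ (-(4 * τ)) * (Real.log y + 3 * L + 1) + 1 := by
  have hy0 : 0 < y := by linarith
  have hlD : Real.log D ≤ Real.log y := by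
    refine Real.log_le_log (by linarith) (hD.trans ?_)
    calc y ^ (1 - 4 * τ) ≤ y ^ (1 : ℝ) := Real.rpow_le_rpow_of_exponent_le hy1 (by linarith)
      _ = y := Real.rpow_one y
  have hlD0 : 0 ≤ Real.log D := Real.log_nonneg hD1
  have h0 : 0 ≤ D * (Real.log D + 3 * L + 1) / y := by positivity
  have h1 := (Nat.ceil_lt_add_one h0).le
  rw [← hk] at h1
  refine h1.trans (add_le_add_left ?_ 1)
  have h2 : y ^ (-(4 * τ)) = y ^ (1 - 4 * τ) / y := by
    rw [Real.rpow_sub hy0, Real.rpow_one, Real.rpow_neg hy0.le]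
    field_simp
  rw [h2, div_mul_eq_mul_div]
  gcongr

theorem few_large_values (A δ τ : ℝ) (hA : 0 < A) (hδ : 0 < δ) (hτ : 0 < τ) (hτ1 : τ ≤ 1 / 8) :
    ∃ N₀ : ℕ, ∀ N : ℕ, N₀ ≤ N → ∀ x : ℕ, Real.exp ((Real.log N) ^ (1 - τ)) ≤ x →
      (x : ℝ) ≤ (N : ℝ) ^ A → ∀ e : ℕ, Squarefree e → 1 < e →
      (e : ℝ) ≤ (Real.log x) ^ (1 - 4 * τ) → ∀ j : ℕ → ℕ, (∀ q ∈ e.primeFactors, ¬ q ∣ j q) →
      ∀ c : ℕ → ℂ, (∀ p, ‖c p‖ ≤ 1) → ∀ P : Finset ℕ, (∀ p ∈ P, Good e p ∧ p ≤ x) →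
      ∀ MM : Finset ℕ, (∀ m ∈ MM, 1 ≤ m ∧ m ≤ N ∧ Squarefree m) →
      (∀ m ∈ MM, Nat.primeCounting x / (Real.log x) ^ 2 ≤
        ‖∑ p ∈ P, c p * om e j p (m : ℤ)‖) →
      (MM.card : ℝ) ≤ (N : ℝ) ^ δ := by
  obtain ⟨X₁, hX3, hX⟩ := Helper6.pi_lower
  set c := min 1 (δ / (48 * A)) with hc
  have hc0 : 0 < c := lt_min one_pos (by positivity)
  have ha := ev_log 1 1 (c := 1 / 24) (r := 2 * τ) (by norm_num) (by positivity)
  have hb1 := ev_log 1 1 (c := c) (r := τ) hc0 hτ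
  have hb2 := ev_log 1 (Real.log 8) (c := δ / (4 * A)) (r := 1) (by positivity) one_pos
  have hcc := ev_log 6 (Real.log 12) (c := δ / 20) (r := 4 * τ) (by positivity) (by positivity)
  have hd := ev_log 6 (Real.log 12) (c := δ / (4 * A)) (r := 1) (by positivity) one_pos
  have hf := ev_log A 0 (c := 1) (r := 1) one_pos one_pos
  obtain ⟨y₀, hy₀⟩ := Filter.eventually_atTop.1 (ha.and (hb1.and (hb2.and (hcc.and (hd.and
    (hf.and ((Filter.eventually_ge_atTop A).and ((Filter.eventually_ge_atTop 16).and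
      (Filter.eventually_ge_atTop (X₁ : ℝ))))))))))
  have hτ' : 0 < 1 - τ := by linarith
  have hlim : Filter.Tendsto (fun N : ℕ => (Real.log N) ^ (1 - τ)) Filter.atTop Filter.atTop :=
    (tendsto_rpow_atTop hτ').comp (Real.tendsto_log_atTop.comp tendsto_natCast_atTop_atTop)
  obtain ⟨N₀, hN₀⟩ := Filter.eventually_atTop.1
    ((hlim.eventually_ge_atTop y₀).and (Filter.eventually_ge_atTop 2))
  refine ⟨N₀, fun N hN x hx1 hx2 e he he1 hey j hj cc hcc1 P hP MM hMM hbad => ?_⟩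
  obtain ⟨hN1, hN2⟩ := hN₀ N hN
  have hNpos : (0 : ℝ) < N := by
    have : 0 < N := by omega
    exact_mod_cast this
  have hxpos : (0 : ℝ) < x := lt_of_lt_of_le (Real.exp_pos _) hx1
  set L := Real.log N with hL
  set y := Real.log x with hy
  have hyL : L ^ (1 - τ) ≤ y := by
    rw [hy, Real.le_log_iff_exp_le hxpos]
    exact hx1
  have hyAL : y ≤ A * L := by
    have := Real.log_le_log hxpos hx2
    rwa [Real.log_rpow hNpos] at this
  obtain ⟨h1, h2, h3, h4, h5, h6, h7, h8, h9⟩ := hy₀ y (hN1.trans hyL)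
  rw [Real.rpow_one] at h3 h5 h6
  have hy1 : (1 : ℝ) ≤ y := by linarith
  have hy0 : (0 : ℝ) < y := by linarith
  have hL0 : 0 < L := by
    have : 0 < A * L := lt_of_lt_of_le hy0 hyAL
    exact (mul_pos_iff_of_pos_left hA).1 this
  have hL1 : 1 ≤ L := by
    have : A * 1 ≤ A * L := by linarith
    exact le_of_mul_le_mul_left this hA
  have hlogy0 : 0 ≤ Real.log y := Real.log_nonneg hy1
  have hlogyL : Real.log y ≤ L := by
    have : A * Real.log y ≤ A * L := by linarith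
    exact le_of_mul_le_mul_left this hA
  have hlogyy : Real.log y ≤ y := (Real.log_le_sub_one_of_pos hy0).trans (by linarith)
  -- the degree
  set D := Nat.totient e with hD
  have hD1 : 1 ≤ D := Nat.totient_pos.2 (by omega)
  have hDe : (D : ℝ) ≤ e := by exact_mod_cast Nat.totient_le e
  have hDy : (D : ℝ) ≤ y ^ (1 - 4 * τ) := hDe.trans hey
  have hD1' : (1 : ℝ) ≤ D := by exact_mod_cast hD1
  have hD0' : (0 : ℝ) < D := by linarith
  have hlD0 : 0 ≤ Real.log D := Real.log_nonneg hD1'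
  set k := ⌈(D : ℝ) * (Real.log D + 3 * L + 1) / y⌉₊ with hk
  have hkb := par_k hτ hτ1 hy1 hL1 hD1' hDy hk
  have hk1 : 1 ≤ k := by
    rw [hk, Nat.one_le_ceil_iff]
    positivity
  have hk1' : (1 : ℝ) ≤ k := by exact_mod_cast hk1
  have hky : (D : ℝ) * (Real.log D + 3 * L + 1) ≤ k * y := by
    have := Nat.le_ceil ((D : ℝ) * (Real.log D + 3 * L + 1) / y)
    rw [← hk, div_le_iff₀ hy0] at this
    exact this
  -- k ≤ 6 y^(1-2τ)
  have hLy : L ≤ y ^ (1 + 2 * τ) := by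
    calc L = (L ^ (1 - τ)) ^ (1 / (1 - τ)) := by
          rw [← Real.rpow_mul hL0.le, mul_one_div_cancel hτ'.ne', Real.rpow_one]
      _ ≤ y ^ (1 / (1 - τ)) := Real.rpow_le_rpow (Real.rpow_nonneg hL0.le _) hyL (by positivity)
      _ ≤ y ^ (1 + 2 * τ) := by
          refine Real.rpow_le_rpow_of_exponent_le hy1 ?_
          rw [div_le_iff₀ hτ']
          have e1 : (1 + 2 * τ) * (1 - τ) - 1 = τ * (1 - 2 * τ) := by ring
          have e2 : 0 ≤ τ * (1 - 2 * τ) := mul_nonneg hτ.le (by linarith)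
          linarith
  have hyy : y ≤ y ^ (1 + 2 * τ) := by
    calc y = y ^ (1 : ℝ) := (Real.rpow_one y).symm
      _ ≤ y ^ (1 + 2 * τ) := Real.rpow_le_rpow_of_exponent_le hy1 (by linarith)
  have hk6 : (k : ℝ) ≤ 6 * y ^ (1 - 2 * τ) := by
    have e1 : y ^ (-(4 * τ)) * y ^ (1 + 2 * τ) = y ^ (1 - 2 * τ) := by
      rw [← Real.rpow_add hy0]
      congr 1
      ring
    have e2 : (1 : ℝ) ≤ y ^ (1 - 2 * τ) := Real.one_le_rpow hy1 (by linarith)
    have e3 : Real.log y + 3 * L + 1 ≤ 5 * y ^ (1 + 2 * τ) := by linarith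
    have e4 : 0 ≤ y ^ (-(4 * τ)) := Real.rpow_nonneg hy0.le _
    calc (k : ℝ) ≤ y ^ (-(4 * τ)) * (Real.log y + 3 * L + 1) + 1 := hkb
      _ ≤ y ^ (-(4 * τ)) * (5 * y ^ (1 + 2 * τ)) + y ^ (1 - 2 * τ) :=
          add_le_add (mul_le_mul_of_nonneg_left e3 e4) e2
      _ = 5 * (y ^ (-(4 * τ)) * y ^ (1 + 2 * τ)) + y ^ (1 - 2 * τ) := by ring
      _ = 6 * y ^ (1 - 2 * τ) := by rw [e1]; ring
  have hk6y : (k : ℝ) ≤ 6 * y := by
    refine hk6.trans ?_
    have : y ^ (1 - 2 * τ) ≤ y ^ (1 : ℝ) := Real.rpow_le_rpow_of_exponent_le hy1 (by linarith)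
    rw [Real.rpow_one] at this
    linarith
  -- the number of primes
  have hxX : X₁ ≤ x := by
    have : (X₁ : ℝ) ≤ x := by
      have e1 : y ≤ x := by
        rw [hy]
        exact (Real.log_le_sub_one_of_pos hxpos).trans (by linarith)
      linarith
    exact_mod_cast this
  have hpi := hX x hxX
  rw [← hy] at hpi
  set π := (Nat.primeCounting x : ℝ) with hπ
  have hxπ : (x : ℝ) ≤ 2 * y * π := by
    rw [div_le_iff₀ (by positivity)] at hpi
    linarith
  have hπ0 : 0 < π := lt_of_lt_of_le (by positivity) hpi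
  have hexpx : Real.exp y = x := Real.exp_log hxpos
  have hsqrt : Real.exp (y / 2) ≤ π := by
    have e1 : 2 * y ≤ Real.exp (y / 2) := by
      have e0 := Real.quadratic_le_exp_of_nonneg (x := y / 2) (by positivity)
      have e00 : 16 * y ≤ y * y := mul_le_mul_of_nonneg_right h8 hy0.le
      have e01 : (y / 2) ^ 2 / 2 = y * y / 8 := by ring
      rw [e01] at e0
      linarith
    have e2 : Real.exp (y / 2) * Real.exp (y / 2) = x := by
      rw [← Real.exp_add, ← hexpx]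
      congr 1
      ring
    refine le_trans ?_ hpi
    rw [le_div_iff₀ (by positivity), ← e2]
    exact mul_le_mul_of_nonneg_left e1 (Real.exp_pos _).le
  have hPc : (P.card : ℝ) ≤ π := by
    rw [hπ, Nat.primeCounting, Nat.primeCounting', Nat.count_eq_card_filter_range]
    have : P ⊆ (Finset.range (x + 1)).filter Nat.Prime := by
      intro p hp
      obtain ⟨h1, h2⟩ := hP p hp
      exact Finset.mem_filter.2 ⟨Finset.mem_range.2 (by omega), h1.1⟩
    exact_mod_cast Finset.card_le_card this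
  -- the parameter Y
  set Z := Real.exp (k * y / D) with hZ
  set Y := ⌊Z⌋₊ with hY
  have hZD : Z ^ D = (x : ℝ) ^ k := by
    rw [hZ, ← Real.exp_nat_mul, ← hexpx, ← Real.exp_nat_mul]
    congr 1
    field_simp
  have hZ1 : (D : ℝ) * (N : ℝ) ^ 3 * 2 ≤ Z := by
    have e1 : Real.log D + 3 * L + 1 ≤ k * y / D := by
      rw [le_div_iff₀ hD0']
      linarith
    have e2 : (D : ℝ) * (N : ℝ) ^ 3 = Real.exp (Real.log D + 3 * L) := by
      rw [Real.exp_add, Real.exp_log hD0', show (3 : ℝ) * L = ((3 : ℕ) : ℝ) * L by norm_num,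
        Real.exp_nat_mul, hL, Real.exp_log hNpos]
    have e3 : (2 : ℝ) ≤ Real.exp 1 := by
      have := Real.add_one_le_exp (1 : ℝ)
      linarith
    calc (D : ℝ) * (N : ℝ) ^ 3 * 2 ≤ Real.exp (Real.log D + 3 * L) * Real.exp 1 := by
          rw [e2]
          gcongr
      _ = Real.exp (Real.log D + 3 * L + 1) := by rw [Real.exp_add (Real.log D + 3 * L) 1]
      _ ≤ Z := Real.exp_le_exp.2 e1
  have hYle : (Y : ℝ) ≤ Z := Nat.floor_le (Real.exp_pos _).le
  have hYlt : Z < (Y : ℝ) + 1 := Nat.lt_floor_add_one Z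
  have hN3 : (1 : ℝ) ≤ (N : ℝ) ^ 3 := by
    have : 1 ≤ N ^ 3 := Nat.one_le_pow _ _ (by omega)
    exact_mod_cast this
  have hDN : D * N ^ 3 < Y + 1 := by
    have h0 : 0 ≤ (D : ℝ) * (N : ℝ) ^ 3 := by positivity
    have : (D : ℝ) * (N : ℝ) ^ 3 < (Y : ℝ) + 1 := by linarith
    exact_mod_cast this
  have hY1 : 1 ≤ Y := by
    have : 1 ≤ D * N ^ 3 := Nat.mul_pos hD1 (Nat.pow_pos (by omega))
    omega
  have hYx : x ^ k < (Y + 1) ^ D := by
    have : (x : ℝ) ^ k < ((Y : ℝ) + 1) ^ D := by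
      rw [← hZD]
      exact pow_lt_pow_left₀ hYlt (Real.exp_pos _).le (by omega)
    exact_mod_cast this
  have hYx' : (Y : ℝ) ^ D ≤ (x : ℝ) ^ k := by
    rw [← hZD]
    exact pow_le_pow_left₀ (Nat.cast_nonneg _) hYle _
  -- the size of σ
  have hσ : (k : ℝ) ^ 2 * (P.card : ℝ) ^ (k - 1) ≤ (π / y ^ 2) ^ k := by
    have e1 : (k : ℝ) ^ 2 * y ^ (2 * k) ≤ π := by
      refine le_trans ?_ hsqrt
      have e2 : (k : ℝ) ^ 2 * y ^ (2 * k) =
          Real.exp (2 * Real.log k + 2 * k * Real.log y) := by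
        rw [Real.exp_add, show (2 : ℝ) * Real.log k = ((2 : ℕ) : ℝ) * Real.log k by norm_num,
          Real.exp_nat_mul, Real.exp_log (by linarith),
          show 2 * (k : ℝ) * Real.log y = ((2 * k : ℕ) : ℝ) * Real.log y by push_cast; ring,
          Real.exp_nat_mul, Real.exp_log hy0]
      rw [e2, Real.exp_le_exp]
      have e3 : Real.log k ≤ k := (Real.log_le_sub_one_of_pos (by linarith)).trans (by linarith)
      have e4 : y ^ (1 - 2 * τ) * y ^ (2 * τ) = y := by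
        rw [← Real.rpow_add hy0]
        simp
      have e5 : 0 ≤ y ^ (1 - 2 * τ) := Real.rpow_nonneg hy0.le _
      calc 2 * Real.log k + 2 * k * Real.log y ≤ 2 * k * (1 * Real.log y + 1) := by linarith
        _ ≤ 2 * (6 * y ^ (1 - 2 * τ)) * (1 / 24 * y ^ (2 * τ)) := by gcongr
        _ = (y ^ (1 - 2 * τ) * y ^ (2 * τ)) / 2 := by ring
        _ = y / 2 := by rw [e4]
    have e6 : (P.card : ℝ) ^ (k - 1) ≤ π ^ (k - 1) :=
      pow_le_pow_left₀ (Nat.cast_nonneg _) hPc _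
    have e7 : π ^ k = π ^ (k - 1) * π := by rw [← pow_succ, Nat.sub_add_cancel hk1]
    rw [div_pow, le_div_iff₀ (by positivity), e7, ← pow_mul]
    calc (k : ℝ) ^ 2 * (P.card : ℝ) ^ (k - 1) * y ^ (2 * k)
        = (P.card : ℝ) ^ (k - 1) * ((k : ℝ) ^ 2 * y ^ (2 * k)) := by ring
      _ ≤ π ^ (k - 1) * π := by gcongr
  have hmain := large_values e he he1 j hj N Y x k (by omega) hk1 (by rw [← hD]; omega)
    (by rw [← hD]; exact hYx) P hP cc hcc1 (π / y ^ 2) (by positivity) hσ MM hMM hbad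
  rw [← hD] at hmain
  have hbound := par_alg (M' := (MM.card : ℝ)) hy0 hπ0 (Nat.cast_nonneg _) hPc
    (Nat.cast_nonneg _) (Nat.cast_nonneg _) hxpos.le hY1 hYx' hxπ rfl hmain
  -- logarithms
  rcases Nat.eq_zero_or_pos MM.card with h0 | h0
  · rw [h0, Nat.cast_zero]
    exact Real.rpow_nonneg hNpos.le _
  have hMpos : (0 : ℝ) < MM.card := by exact_mod_cast h0
  have hLam1 : (1 : ℝ) ≤ Lam e := by exact_mod_cast Lam_pos e he1
  have hLam0 : (0 : ℝ) < Lam e := by linarith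
  have he0 : (0 : ℝ) < e := by linarith
  have hlog : Real.log (MM.card : ℝ) ≤ δ * L := by
    have g1 := Real.log_le_log hMpos hbound
    have g2 : Real.log (8 * (Lam e : ℝ) * (e : ℝ) * (3 * (D : ℝ)) ^ D * (2 * k * y ^ 5) ^ k) =
        Real.log 8 + Real.log (Lam e) + Real.log e + D * (Real.log 3 + Real.log D) +
          k * (Real.log 2 + Real.log k + 5 * Real.log y) := by
      have hk0 : (k : ℝ) ≠ 0 := by linarith
      rw [Real.log_mul (by positivity) (by positivity), Real.log_mul (by positivity) (by positivity),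
        Real.log_mul (by positivity) (by positivity), Real.log_mul (by positivity) (by positivity),
        Real.log_pow, Real.log_pow, Real.log_mul (by positivity) (by positivity),
        Real.log_mul (by positivity) (by positivity), Real.log_mul (by positivity) (by positivity),
        Real.log_pow]
      push_cast
      ring
    rw [g2] at g1
    have hley : Real.log e ≤ Real.log y := by
      refine Real.log_le_log he0 (hey.trans ?_)
      calc y ^ (1 - 4 * τ) ≤ y ^ (1 : ℝ) := Real.rpow_le_rpow_of_exponent_le hy1 (by linarith)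
        _ = y := Real.rpow_one y
    have hle0 : 0 ≤ Real.log e := Real.log_nonneg (by linarith)
    have hlDy : Real.log D ≤ Real.log y := (Real.log_le_log hD0' hDe).trans hley
    have hE0 : 0 ≤ y ^ (1 - 4 * τ) := Real.rpow_nonneg hy0.le _
    -- log Lam
    have g3 : Real.log (Lam e) ≤ 10 * c * y := by
      have e0 := log_Lam_le e he1
      have e1 : y ^ (1 - 4 * τ) * (y ^ τ) ^ 2 ≤ y := by
        rw [← Real.rpow_natCast, ← Real.rpow_mul hy0.le, ← Real.rpow_add hy0]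
        calc y ^ (1 - 4 * τ + τ * (2 : ℕ)) ≤ y ^ (1 : ℝ) :=
              Real.rpow_le_rpow_of_exponent_le hy1 (by push_cast; linarith)
          _ = y := Real.rpow_one y
      have e2 : 1 + Real.log e ≤ c * y ^ τ := by linarith
      have e3 : c * c ≤ c := mul_le_of_le_one_right hc0.le (min_le_left _ _)
      have e4 : 0 ≤ y ^ (1 - 4 * τ) * (y ^ τ) ^ 2 := by positivity
      calc Real.log (Lam e) ≤ 10 * e * (1 + Real.log e) ^ 2 := e0
        _ ≤ 10 * y ^ (1 - 4 * τ) * (c * y ^ τ) ^ 2 := by gcongr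
        _ = 10 * (c * c) * (y ^ (1 - 4 * τ) * (y ^ τ) ^ 2) := by ring
        _ ≤ 10 * c * y := by gcongr
    have g4 : D * (Real.log 3 + Real.log D) ≤ 2 * c * y := by
      have e0 : Real.log 3 ≤ 2 := by
        have := Real.log_le_sub_one_of_pos (x := 3) (by norm_num)
        linarith
      have e1 : y ^ (1 - 4 * τ) * y ^ τ ≤ y := by
        rw [← Real.rpow_add hy0]
        calc y ^ (1 - 4 * τ + τ) ≤ y ^ (1 : ℝ) :=
              Real.rpow_le_rpow_of_exponent_le hy1 (by linarith)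
          _ = y := Real.rpow_one y
      have e2 : Real.log 3 + Real.log D ≤ 2 * (c * y ^ τ) := by linarith
      have e3 : 0 ≤ Real.log 3 := Real.log_nonneg (by norm_num)
      calc D * (Real.log 3 + Real.log D) ≤ y ^ (1 - 4 * τ) * (2 * (c * y ^ τ)) := by gcongr
        _ = 2 * c * (y ^ (1 - 4 * τ) * y ^ τ) := by ring
        _ ≤ 2 * c * y := by gcongr
    have g5 : 12 * c * y ≤ δ / 4 * L := by
      have e1 : c ≤ δ / (48 * A) := min_le_right _ _
      calc 12 * c * y ≤ 12 * (δ / (48 * A)) * (A * L) := by gcongr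
        _ = δ / 4 * L := by field_simp; ring
    have g6 : Real.log 8 + Real.log e ≤ δ / 4 * L := by
      calc Real.log 8 + Real.log e ≤ δ / (4 * A) * y := by linarith
        _ ≤ δ / (4 * A) * (A * L) := by gcongr
        _ = δ / 4 * L := by field_simp
    -- the term with k
    have g7 : Real.log 2 + Real.log k + 5 * Real.log y ≤ 6 * Real.log y + Real.log 12 := by
      have e1 : Real.log k ≤ Real.log 6 + Real.log y := by
        rw [← Real.log_mul (by norm_num) hy0.ne']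
        exact Real.log_le_log (by linarith) hk6y
      have e2 : Real.log 12 = Real.log 2 + Real.log 6 := by
        rw [← Real.log_mul (by norm_num) (by norm_num)]
        norm_num
      linarith
    have g8 : (k : ℝ) ≤ y ^ (-(4 * τ)) * (5 * L) + 1 := by
      refine hkb.trans ?_
      have : Real.log y + 3 * L + 1 ≤ 5 * L := by linarith
      have e4 : 0 ≤ y ^ (-(4 * τ)) := Real.rpow_nonneg hy0.le _
      gcongr
    have g9 : k * (Real.log 2 + Real.log k + 5 * Real.log y) ≤ δ / 2 * L := by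
      have e1 : y ^ (-(4 * τ)) * y ^ (4 * τ) = 1 := by
        rw [← Real.rpow_add hy0]
        simp
      have e3 : 0 ≤ 6 * Real.log y + Real.log 12 := by
        have := Real.log_nonneg (x := 12) (by norm_num)
        positivity
      have e4 : 0 ≤ y ^ (-(4 * τ)) := Real.rpow_nonneg hy0.le _
      calc k * (Real.log 2 + Real.log k + 5 * Real.log y)
          ≤ (y ^ (-(4 * τ)) * (5 * L) + 1) * (6 * Real.log y + Real.log 12) := by gcongr
        _ = 5 * L * (y ^ (-(4 * τ)) * (6 * Real.log y + Real.log 12)) +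
            (6 * Real.log y + Real.log 12) := by ring
        _ ≤ 5 * L * (y ^ (-(4 * τ)) * (δ / 20 * y ^ (4 * τ))) + δ / (4 * A) * (A * L) := by
            have e5 : 6 * Real.log y + Real.log 12 ≤ δ / (4 * A) * (A * L) :=
              h5.trans (by gcongr)
            gcongr
        _ = 5 * L * (δ / 20 * (y ^ (-(4 * τ)) * y ^ (4 * τ))) + δ / (4 * A) * (A * L) := by ring
        _ = δ / 2 * L := by rw [e1]; field_simp; ring
    linarith
  calc (MM.card : ℝ) = Real.exp (Real.log (MM.card : ℝ)) := (Real.exp_log hMpos).symm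
    _ ≤ Real.exp (δ * L) := Real.exp_le_exp.2 hlog
    _ = (N : ℝ) ^ δ := by rw [Real.rpow_def_of_pos hNpos, hL, mul_comm]

end Pool.Agent.ARX
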