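import Pool.Agent.ARX.Def2
import Pool.Agent.Helper4.ST.Selberg
import Pool.Agent.Helper6.ArtinBounds

set_option autoImplicit false

/-!
# ARX module BTP: Brun-Titchmarsh for `p = 1` modulo a prime `q`

Selberg weights `wt R n` of `Pool.Agent.Helper4.ST.Selberg`.
For a residue `r` prime to the prime `q`:
`∑_{n ≤ X, n = r (q)} wt R n = (X/q) F + O(R^4)`, with the same `F` for all `r`.  Summing over the
`q - 1` residues `r ≠ 0` and letting `X → ∞`: `F ≤ (q/(q-1)) / L R ≤ 2 / L R`.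
-/

namespace Pool.Agent.ARX

open Finset Pool.Agent.Helper4.ST

/-- the number of multiples of `l` up to `X` in the residue class `r` modulo `q` -/
lemma count_class {q l r : ℕ} (hq : q.Prime) (hl : 1 ≤ l) (hql : ¬ q ∣ l) (hr : r < q) (X : ℕ) :
    |(((Icc 1 X).filter (fun n => l ∣ n ∧ n % q = r)).card : ℝ) - (X : ℝ) / (l * q)| ≤ 1 := by
  have hcop : Nat.Coprime l q := ((Nat.Prime.coprime_iff_not_dvd hq).2 hql).symm
  obtain ⟨v, hv1, hv2⟩ := Nat.chineseRemainder hcop 0 r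
  have hlq : 0 < l * q := Nat.mul_pos hl hq.pos
  have hiff : ∀ n : ℕ, (l ∣ n ∧ n % q = r) ↔ n ≡ v [MOD (l * q)] := by
    intro n
    rw [← Nat.modEq_and_modEq_iff_modEq_mul hcop]
    constructor
    · rintro ⟨h1, h2⟩
      refine ⟨(Nat.modEq_zero_iff_dvd.2 h1).trans hv1.symm, ?_⟩
      have : n ≡ r [MOD q] := by
        unfold Nat.ModEq; rw [h2, Nat.mod_eq_of_lt hr]
      exact this.trans hv2.symm
    · rintro ⟨h1, h2⟩
      refine ⟨Nat.modEq_zero_iff_dvd.1 (h1.trans hv1), ?_⟩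
      have h3 : n ≡ r [MOD q] := h2.trans hv2
      unfold Nat.ModEq at h3
      rw [h3, Nat.mod_eq_of_lt hr]
  have h1 : (Icc 1 X).filter (fun n => l ∣ n ∧ n % q = r) =
      (Ioc 0 X).filter (fun n => n ≡ v [MOD (l * q)]) := by
    ext n
    simp only [Finset.mem_filter, Finset.mem_Icc, Finset.mem_Ioc, hiff]
    constructor
    · rintro ⟨⟨a, b⟩, c⟩; exact ⟨⟨by omega, b⟩, c⟩
    · rintro ⟨⟨a, b⟩, c⟩; exact ⟨⟨by omega, b⟩, c⟩
  rw [h1]
  have h2 := Nat.Ioc_filter_modEq_card 0 X hlq v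
  have h3 : (((Ioc 0 X).filter (fun n => n ≡ v [MOD (l * q)])).card : ℤ) =
      max (⌊((X : ℝ) - v) / ((l * q : ℕ) : ℝ)⌋ - ⌊((0 : ℝ) - v) / ((l * q : ℕ) : ℝ)⌋) 0 := by
    have := Nat.Ioc_filter_modEq_card 0 X hlq v
    have h4 : ∀ y : ℕ, ⌊((y : ℝ) - v) / ((l * q : ℕ) : ℝ)⌋ = ⌊((y : ℚ) - v) / ((l * q : ℕ) : ℚ)⌋ := by
      intro y
      rw [Int.floor_eq_iff]
      have h5 := Int.floor_le (((y : ℚ) - v) / ((l * q : ℕ) : ℚ))
      have h6 := Int.lt_floor_add_one (((y : ℚ) - v) / ((l * q : ℕ) : ℚ))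
      constructor
      · have : ((⌊((y : ℚ) - v) / ((l * q : ℕ) : ℚ)⌋ : ℚ) : ℝ) ≤ ((((y : ℚ) - v) / ((l * q : ℕ) : ℚ) : ℚ) : ℝ) := by
          exact_mod_cast h5
        push_cast at this ⊢
        exact this
      · have : ((((y : ℚ) - v) / ((l * q : ℕ) : ℚ) : ℚ) : ℝ) < ((⌊((y : ℚ) - v) / ((l * q : ℕ) : ℚ)⌋ : ℚ) : ℝ) + 1 := by
          exact_mod_cast h6
        push_cast at this ⊢
        exact this
    rw [this]
    have e1 := h4 X
    have e2 := h4 0
    push_cast at e1 e2 ⊢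
    rw [e1, e2]
  have hlq' : (0:ℝ) < ((l * q : ℕ) : ℝ) := by exact_mod_cast hlq
  set u : ℝ := ((X : ℝ) - v) / ((l * q : ℕ) : ℝ) with hu
  set w : ℝ := ((0 : ℝ) - v) / ((l * q : ℕ) : ℝ) with hw
  have huw : u - w = (X : ℝ) / (l * q) := by
    rw [hu, hw, ← sub_div]; push_cast; ring
  have huw0 : w ≤ u := by
    have : 0 ≤ (X : ℝ) / (l * q) := by positivity
    linarith
  have hfl : ⌊w⌋ ≤ ⌊u⌋ := Int.floor_le_floor huw0
  rw [max_eq_left (by linarith)] at h3
  have h7 : ((((Ioc 0 X).filter (fun n => n ≡ v [MOD (l * q)])).card : ℕ) : ℝ) = (⌊u⌋ : ℝ) - ⌊w⌋ := by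
    exact_mod_cast h3
  rw [h7, ← huw, abs_le]
  have a1 := Int.floor_le u
  have a2 := Int.lt_floor_add_one u
  have a3 := Int.floor_le w
  have a4 := Int.lt_floor_add_one w
  constructor <;> linarith

/-- the main term -/
noncomputable def FF (R q : ℕ) : ℝ := ∑ a ∈ Icc 1 R, ∑ b ∈ Icc 1 R,
  if q ∣ Nat.lcm a b then 0 else Selberg.lam R a * Selberg.lam R b / (Nat.lcm a b : ℝ)

lemma class_sum {R q r : ℕ} (hR : 1 ≤ R) (hq : q.Prime) (hr : r < q) (hr0 : r ≠ 0) (X : ℕ) :
    |∑ n ∈ (Icc 1 X).filter (fun n => n % q = r), Selberg.wt R n - (X : ℝ) / q * FF R q| ≤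
      (R : ℝ) ^ 4 := by
  have h1 : ∑ n ∈ (Icc 1 X).filter (fun n => n % q = r), Selberg.wt R n =
      ∑ a ∈ Icc 1 R, ∑ b ∈ Icc 1 R, Selberg.lam R a * Selberg.lam R b *
        (((Icc 1 X).filter (fun n => Nat.lcm a b ∣ n ∧ n % q = r)).card : ℝ) := by
    rw [Finset.sum_congr rfl fun n _ => Selberg.wt_expand R n, Finset.sum_comm]
    refine Finset.sum_congr rfl fun a ha => ?_
    rw [Finset.sum_comm]
    refine Finset.sum_congr rfl fun b hb => ?_
    rw [← Finset.sum_filter, Finset.sum_const, nsmul_eq_mul, mul_comm, Finset.filter_filter]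
    congr 3
    ext n
    simp only [Finset.mem_filter]
    tauto
  rw [h1]
  unfold FF
  rw [Finset.mul_sum, ← Finset.sum_sub_distrib]
  refine (Finset.abs_sum_le_sum_abs _ _).trans ?_
  refine le_trans ?_ (Selberg.abs_sum_lam hR)
  refine Finset.sum_le_sum fun a ha => ?_
  rw [Finset.mul_sum, ← Finset.sum_sub_distrib]
  refine (Finset.abs_sum_le_sum_abs _ _).trans ?_
  refine Finset.sum_le_sum fun b hb => ?_
  have hl : 0 < Nat.lcm a b := Nat.lcm_pos (Finset.mem_Icc.1 ha).1 (Finset.mem_Icc.1 hb).1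
  by_cases hql : q ∣ Nat.lcm a b
  · rw [if_pos hql, mul_zero, sub_zero]
    have h2 : (Icc 1 X).filter (fun n => Nat.lcm a b ∣ n ∧ n % q = r) = ∅ := by
      apply Finset.filter_false_of_mem
      rintro n _ ⟨h3, h4⟩
      apply hr0
      rw [← h4]
      exact Nat.mod_eq_zero_of_dvd (hql.trans h3)
    rw [h2, Finset.card_empty, Nat.cast_zero, mul_zero, abs_zero]
    positivity
  · rw [if_neg hql]
    have h3 := count_class hq hl hql hr X
    have h4 : Selberg.lam R a * Selberg.lam R b *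
        (((Icc 1 X).filter (fun n => Nat.lcm a b ∣ n ∧ n % q = r)).card : ℝ) -
        (X : ℝ) / q * (Selberg.lam R a * Selberg.lam R b / (Nat.lcm a b : ℝ)) =
        (Selberg.lam R a * Selberg.lam R b) *
        ((((Icc 1 X).filter (fun n => Nat.lcm a b ∣ n ∧ n % q = r)).card : ℝ) -
          (X : ℝ) / (Nat.lcm a b * q)) := by
      have hl' : (Nat.lcm a b : ℝ) ≠ 0 := by exact_mod_cast hl.ne'
      have hq' : (q : ℝ) ≠ 0 := by exact_mod_cast hq.ne_zero
      field_simp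
    rw [h4, abs_mul]
    calc |Selberg.lam R a * Selberg.lam R b| * _ ≤ |Selberg.lam R a * Selberg.lam R b| * 1 := by
          gcongr
      _ = _ := mul_one _

lemma FF_le {R q : ℕ} (hR : 1 ≤ R) (hq : q.Prime) : FF R q ≤ 2 / Selberg.L R := by
  have hL := Selberg.L_pos hR
  have hq2 : (2:ℝ) ≤ q := by exact_mod_cast hq.two_le
  -- inequality for every X
  have key : ∀ X : ℕ, ((q:ℝ) - 1) * ((X : ℝ) / q * FF R q - (R:ℝ)^4) ≤ X / Selberg.L R + (R:ℝ)^4 := by
    intro X
    have h1 : ∑ r ∈ Finset.Ico 1 q, ∑ n ∈ (Icc 1 X).filter (fun n => n % q = r), Selberg.wt R n ≤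
        ∑ n ∈ Icc 1 X, Selberg.wt R n := by
      rw [← Finset.sum_biUnion]
      · apply Finset.sum_le_sum_of_subset_of_nonneg
        · intro n hn
          rw [Finset.mem_biUnion] at hn
          obtain ⟨r, _, hr⟩ := hn
          exact (Finset.mem_filter.1 hr).1
        · intro n _ _
          exact Selberg.wt_nonneg R n
      · intro a _ b _ hab
        rw [Function.onFun, Finset.disjoint_left]
        intro n hn hn'
        exact hab ((Finset.mem_filter.1 hn).2.symm.trans (Finset.mem_filter.1 hn').2)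
    have h2 : ∀ r ∈ Finset.Ico 1 q, (X : ℝ) / q * FF R q - (R:ℝ)^4 ≤
        ∑ n ∈ (Icc 1 X).filter (fun n => n % q = r), Selberg.wt R n := by
      intro r hr
      rw [Finset.mem_Ico] at hr
      have := (abs_le.1 (class_sum hR hq hr.2 (by omega) X)).1
      linarith
    have h3 := Finset.card_nsmul_le_sum _ _ _ h2
    rw [Nat.card_Ico, nsmul_eq_mul, Nat.cast_sub hq.one_le, Nat.cast_one] at h3
    exact h3.trans (h1.trans (Selberg.sum_wt_le hR X))
  by_contra hcon
  push Not at hcon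
  set d : ℝ := FF R q - 2 / Selberg.L R with hd
  have hd0 : 0 < d := by rw [hd]; linarith
  obtain ⟨X, hX⟩ := exists_nat_gt ((q : ℝ) * (R:ℝ)^4 * 2 / d)
  have hX0 : (0:ℝ) < X := lt_of_le_of_lt (by positivity) hX
  have h4 := key X
  rw [div_lt_iff₀ hd0] at hX
  have h5 : FF R q = 2 / Selberg.L R + d := by rw [hd]; ring
  rw [h5] at h4
  have hq0 : (0:ℝ) < q := by linarith
  have h6 : ((q:ℝ) - 1) * ((X : ℝ) / q * (2 / Selberg.L R + d) - (R:ℝ)^4) =
      (2 * ((q:ℝ) - 1) / q) * (X / Selberg.L R) + (((q:ℝ) - 1)/q) * (X * d) - ((q:ℝ) - 1) * (R:ℝ)^4 := by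
    field_simp
  rw [h6] at h4
  have h7 : 1 ≤ 2 * ((q:ℝ) - 1) / q := by
    rw [le_div_iff₀ hq0]; linarith
  have h8 : 1/2 ≤ ((q:ℝ) - 1) / q := by
    rw [le_div_iff₀ hq0]; linarith
  have h9 : 0 ≤ (X:ℝ) / Selberg.L R := by positivity
  have h10 : (X / Selberg.L R) ≤ (2 * ((q:ℝ) - 1) / q) * (X / Selberg.L R) := by
    nlinarith
  have h11 : 1/2 * (X * d) ≤ (((q:ℝ) - 1)/q) * (X * d) := by
    apply mul_le_mul_of_nonneg_right h8 (by positivity)
  nlinarith

theorem brun_titchmarsh : ∃ C : ℝ, 1 ≤ C ∧ ∀ q x : ℕ, q.Prime → q ^ 2 ≤ x →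
    piq q x ≤ C * x / (q * Real.log x) := by
  refine ⟨68, by norm_num, ?_⟩
  intro q x hq hx
  have hq2 := hq.two_le
  have hx4 : 4 ≤ x := by nlinarith
  have hq0 : (0:ℝ) < q := by exact_mod_cast hq.pos
  have hx0 : (0:ℝ) < x := by exact_mod_cast (by omega : 0 < x)
  have hqx : (q:ℝ)^2 ≤ x := by exact_mod_cast hx
  have hlogx : 0 < Real.log x := Real.log_pos (by exact_mod_cast (by omega : 1 < x))
  set y : ℝ := (x : ℝ) / q with hy
  have hyq : (q:ℝ) ≤ y := by rw [hy, le_div_iff₀ hq0]; nlinarith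
  have hy2 : (2:ℝ) ≤ y := le_trans (by exact_mod_cast hq2) hyq
  have hy0 : 0 < y := by linarith
  have hyx : (x:ℝ) ≤ y ^ 2 := by
    have h1 : (x:ℝ) = y * q := by rw [hy]; field_simp
    rw [h1]
    nlinarith
  have hlogy : 0 < Real.log y := Real.log_pos (by linarith)
  have hlogxy : Real.log x ≤ 2 * Real.log y := by
    have h1 := Real.log_le_log hx0 hyx
    rw [Real.log_pow] at h1
    exact_mod_cast h1
  set z : ℝ := y ^ (1/8 : ℝ) with hz
  have hz1 : 1 ≤ z := Real.one_le_rpow (by linarith) (by norm_num)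
  have hlogz : Real.log z = 1/8 * Real.log y := Real.log_rpow hy0 _
  have hz8 : z ^ 8 = y := by
    rw [hz, ← Real.rpow_natCast, ← Real.rpow_mul hy0.le]
    norm_num
  set R : ℕ := ⌊z⌋₊ with hRdef
  have hR : 1 ≤ R := by
    rw [hRdef]; exact Nat.le_floor (by simpa using hz1)
  have hRz : (R:ℝ) ≤ z := Nat.floor_le (by linarith)
  have hzR : z < R + 1 := Nat.lt_floor_add_one z
  have hL := Selberg.L_pos hR
  have hLge : 1/32 * Real.log x ≤ Selberg.L R := by
    have h1 := Selberg.L_ge R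
    have h2 : Real.log z ≤ Real.log (R + 1) := Real.log_le_log (by linarith) hzR.le
    rw [hlogz] at h2
    linarith
  -- counting
  have hcount : piq q x ≤ R + ∑ n ∈ (Icc 1 x).filter (fun n => n % q = 1), Selberg.wt R n := by
    unfold piq
    have h1 : (Finset.range (x + 1)).filter (fun p : ℕ => p.Prime ∧ q ∣ p - 1) ⊆
        (Icc 1 R) ∪ ((Icc 1 x).filter (fun n => n % q = 1)).filter (fun p => p.Prime ∧ R < p) := by
      intro p hp
      rw [Finset.mem_filter, Finset.mem_range] at hp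
      obtain ⟨hpx, hpp, hqp⟩ := hp
      rw [Finset.mem_union, Finset.mem_Icc, Finset.mem_filter, Finset.mem_filter, Finset.mem_Icc]
      by_cases h : p ≤ R
      · exact Or.inl ⟨hpp.one_le, h⟩
      · right
        refine ⟨⟨⟨hpp.one_le, by omega⟩, ?_⟩, hpp, by omega⟩
        have h2 : 1 ≡ p [MOD q] := (Nat.modEq_iff_dvd' hpp.one_le).2 hqp
        have h3 : p % q = 1 % q := h2.symm
        rw [h3, Nat.mod_eq_of_lt (by omega)]
    have h2 : (((Icc 1 R) ∪ ((Icc 1 x).filter (fun n => n % q = 1)).filter (fun p => p.Prime ∧ R < p)).card : ℝ) ≤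
        R + (((Icc 1 x).filter (fun n => n % q = 1)).filter (fun p => p.Prime ∧ R < p)).card := by
      have := Finset.card_union_le (Icc 1 R) (((Icc 1 x).filter (fun n => n % q = 1)).filter (fun p => p.Prime ∧ R < p))
      rw [Nat.card_Icc, Nat.add_sub_cancel] at this
      exact_mod_cast this
    have h3 : ((((Icc 1 x).filter (fun n => n % q = 1)).filter (fun p => p.Prime ∧ R < p)).card : ℝ) ≤
        ∑ n ∈ (Icc 1 x).filter (fun n => n % q = 1), Selberg.wt R n := by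
      rw [Finset.card_filter]
      push_cast
      apply Finset.sum_le_sum
      intro n _
      split_ifs with h
      · rw [Selberg.wt_prime hR h.1 h.2]
      · exact Selberg.wt_nonneg R n
    calc _ ≤ (((Icc 1 R) ∪ ((Icc 1 x).filter (fun n => n % q = 1)).filter (fun p => p.Prime ∧ R < p)).card : ℝ) := by
          exact_mod_cast Finset.card_le_card h1
      _ ≤ _ := by linarith
  have hcl := (abs_le.1 (class_sum hR hq (show 1 < q by omega) one_ne_zero x)).2
  have hF := FF_le hR hq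
  have h1 : (x:ℝ) / q * FF R q ≤ y * (2 / Selberg.L R) := by
    rw [← hy]
    exact mul_le_mul_of_nonneg_left hF hy0.le
  have h2 : 2 / Selberg.L R ≤ 64 / Real.log x := by
    rw [div_le_div_iff₀ hL hlogx]
    linarith
  have h3 : (R:ℝ)^4 ≤ Real.sqrt y := by
    apply Real.le_sqrt_of_sq_le
    calc ((R:ℝ)^4)^2 = (R:ℝ)^8 := by ring
      _ ≤ z ^ 8 := by gcongr
      _ = y := hz8
  have h4 : (R:ℝ) ≤ (R:ℝ)^4 := by
    have : (1:ℝ) ≤ R := by exact_mod_cast hR
    calc (R:ℝ) = R ^ 1 := (pow_one _).symm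
      _ ≤ R ^ 4 := pow_le_pow_right₀ this (by norm_num)
  have h5 : Real.sqrt y * Real.log x ≤ 2 * y := by
    have h6 : Real.log y ≤ Real.sqrt y := by
      have h7 : Real.log y = 2 * Real.log (Real.sqrt y) := by
        rw [Real.log_sqrt hy0.le]; ring
      have h8 : 0 < Real.sqrt y := Real.sqrt_pos.2 hy0
      have h9 := Real.log_le_sub_one_of_pos (show 0 < Real.sqrt y / 2 by positivity)
      rw [Real.log_div h8.ne' (by norm_num)] at h9
      have h10 := Real.log_two_lt_d9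
      rw [h7]
      linarith
    have h7 : Real.sqrt y * Real.sqrt y = y := Real.mul_self_sqrt hy0.le
    have h8 : 0 ≤ Real.sqrt y := Real.sqrt_nonneg _
    nlinarith
  have h6 : Real.sqrt y ≤ 2 * y / Real.log x := by
    rw [le_div_iff₀ hlogx]; exact h5
  have h7 : 68 * (x:ℝ) / (q * Real.log x) = 68 * (y / Real.log x) := by
    rw [hy]; field_simp
  rw [h7]
  calc piq q x ≤ R + (x / q * FF R q + (R:ℝ)^4) := by linarith
    _ ≤ 2 * Real.sqrt y + y * (64 / Real.log x) := by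
        have : y * (2 / Selberg.L R) ≤ y * (64 / Real.log x) := mul_le_mul_of_nonneg_left h2 hy0.le
        linarith
    _ ≤ 2 * (2 * y / Real.log x) + y * (64 / Real.log x) := by linarith
    _ = 68 * (y / Real.log x) := by ring

/-- Chebyshev lower bound -/
lemma div_log_le_pi {x : ℕ} (hx : 4 ≤ x) : (x : ℝ) / Real.log x ≤ 10 * Nat.primeCounting x := by
  have hx' : (4:ℝ) ≤ x := by exact_mod_cast hx
  have hlogx : 0 < Real.log x := Real.log_pos (by linarith)
  have h1 := Chebyshev.pi_ge x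
  have h2 : Real.log ((x:ℝ) + 1) ≤ x * (Real.log 2 - 1/10) := by
    have h3 := Real.log_le_sub_one_of_pos (show (0:ℝ) < ((x:ℝ) + 1) / 8 by positivity)
    rw [Real.log_div (by positivity) (by norm_num)] at h3
    have h4 : Real.log 8 = 3 * Real.log 2 := by
      rw [show (8:ℝ) = 2 ^ 3 by norm_num, Real.log_pow]; norm_num
    have h5 := Real.log_two_gt_d9
    have h6 := Real.log_two_lt_d9
    nlinarith
  have h3 : (x:ℝ) / 10 / Real.log x ≤ Nat.primeCounting x := by
    refine le_trans ?_ h1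
    apply div_le_div_of_nonneg_right _ hlogx.le
    linarith
  calc (x : ℝ) / Real.log x = 10 * ((x:ℝ) / 10 / Real.log x) := by ring
    _ ≤ _ := by linarith

/-- the same in terms of the number of primes -/
theorem brun_titchmarsh' : ∃ C : ℝ, 1 ≤ C ∧ ∀ q x : ℕ, q.Prime → q ^ 2 ≤ x →
    piq q x ≤ C * (Nat.primeCounting x : ℝ) / q := by
  obtain ⟨C, hC, h⟩ := brun_titchmarsh
  refine ⟨C * 10, by linarith, ?_⟩
  intro q x hq hx
  have hq2 := hq.two_le
  have hx4 : 4 ≤ x := by nlinarith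
  have hq0 : (0:ℝ) < q := by exact_mod_cast hq.pos
  refine (h q x hq hx).trans ?_
  have h1 := div_log_le_pi hx4
  calc C * x / (q * Real.log x) = C * (x / Real.log x) / q := by field_simp
    _ ≤ C * (10 * Nat.primeCounting x) / q := by gcongr
    _ = _ := by ring

end Pool.Agent.ARX
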