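import Pool.Agent.ARX.Def2
import Pool.Agent.ARX.Omp
import Pool.Agent.ARX.Btp
import Pool.Agent.ARX.Sqp

set_option autoImplicit false

/-!
# ARX module SMQ: small prime factors of the index

For a prime `q > η ≥ t` (so `q ∤ t`), by `pow_iff_ind` and `ee_sum` the number of `p ∈ PR b m x`
with `q ∣ p - 1` and `n` a `q`-th power is
`(1/q) ∑_p ∑_{i<q} ee q (i * ind n) ≤ (1/q) piq q x + (1/q) ∑_{i=1}^{q-1} |S_{q,i}|`,
`S_{q,i} = ∑_{p ≤ x, q ∣ p-1} c(p) om q (fun _ => t * i) p m`, `c(p) = ee q (i * ind b)` for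
`p ∤ 2b`, `0` otherwise.  If all `|S_{q,i}| ≤ W` the count is at most `piq q x / q + W`.
Sum over the primes `η < q ≤ Q1` with `Q1^2 ≤ x`: `brun_titchmarsh'` and `sum_inv_sq` give
`C π(x) / η + Q1 W`.
-/

namespace Pool.Agent.ARX

/-- the coefficients -/
noncomputable def cq (b : ℤ) (q i p : ℕ) : ℂ := by
  classical
  exact if p = 2 ∨ (p : ℤ) ∣ b then 0 else ee q (i * ind p (b : ZMod p))

theorem norm_cq_le (b : ℤ) (q i p : ℕ) : ‖cq b q i p‖ ≤ 1 := by
  unfold cq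
  split_ifs
  · simp
  · rw [norm_ee]

theorem smq_ind {p : ℕ} (hp : p.Prime) {β μ : ZMod p} (hβ : β ≠ 0) (hμ : μ ≠ 0) (t : ℕ) :
    ind p (β * μ ^ t) ≡ ind p β + t * ind p μ [MOD (p - 1)] := by
  have : Fact p.Prime := ⟨hp⟩
  induction t with
  | zero => rw [pow_zero, mul_one, zero_mul, add_zero]
  | succ t ih =>
    have h1 : β * μ ^ (t + 1) = (β * μ ^ t) * μ := by ring
    rw [h1]
    refine (ind_mul hp (mul_ne_zero hβ (pow_ne_zero t hμ)) hμ).trans ?_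
    have h2 : ind p β + (t + 1) * ind p μ = (ind p β + t * ind p μ) + ind p μ := by ring
    rw [h2]
    exact ih.add_right _

theorem smq_term {p q : ℕ} (hp : p.Prime) (hq : q.Prime) (hqp : q ∣ p - 1) (b : ℤ) (m t i : ℕ)
    (hp2 : p ≠ 2) (hb : ¬ (p : ℤ) ∣ b) (hm : ¬ (p : ℤ) ∣ m) :
    cq b q i p * om q (fun _ => t * i) p (m : ℤ) =
      ee q (i * ind p ((b * (m : ℤ) ^ t : ℤ) : ZMod p)) := by
  have : Fact p.Prime := ⟨hp⟩
  have hb' : ((b : ℤ) : ZMod p) ≠ 0 := fun h => hb ((ZMod.intCast_zmod_eq_zero_iff_dvd b p).1 h)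
  have hm' : (((m : ℕ) : ℤ) : ZMod p) ≠ 0 :=
    fun h => hm ((ZMod.intCast_zmod_eq_zero_iff_dvd (m : ℤ) p).1 h)
  have h1 : cq b q i p = ee q (i * ind p (b : ZMod p)) := by
    unfold cq
    rw [if_neg]
    rintro (h | h)
    · exact hp2 h
    · exact hb h
  have h2 : om q (fun _ => t * i) p (m : ℤ) = ee q (t * i * ind p (((m : ℕ) : ℤ) : ZMod p)) := by
    unfold om
    rw [if_neg hm', hq.primeFactors, Finset.prod_singleton]
  rw [h1, h2, ← ee_add]
  apply ee_modEq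
  have h3 := smq_ind hp hb' hm' t
  have h4 : ind p ((b : ZMod p) * (((m : ℕ) : ℤ) : ZMod p) ^ t) ≡
      ind p (b : ZMod p) + t * ind p (((m : ℕ) : ℤ) : ZMod p) [MOD q] := h3.of_dvd hqp
  have h5 : ((b * (m : ℤ) ^ t : ℤ) : ZMod p) = (b : ZMod p) * (((m : ℕ) : ℤ) : ZMod p) ^ t := by
    push_cast
    ring
  rw [h5]
  have h6 := (h4.mul_left i).symm
  have h7 : i * ind p (b : ZMod p) + t * i * ind p (((m : ℕ) : ℤ) : ZMod p) =
      i * (ind p (b : ZMod p) + t * ind p (((m : ℕ) : ℤ) : ZMod p)) := by ring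
  rw [h7]
  exact h6

open Classical in
/-- the count for one prime `q` -/
theorem smq_one {q : ℕ} (hq : q.Prime) (b : ℤ) (t m x : ℕ) (W : ℝ)
    (hW : ∀ i ∈ Finset.Ico 1 q,
      ‖∑ p ∈ (Finset.range (x + 1)).filter (fun p : ℕ => p.Prime ∧ q ∣ p - 1),
        cq b q i p * om q (fun _ => t * i) p (m : ℤ)‖ ≤ W) (hW0 : 0 ≤ W) :
    (((PR b m x).filter (fun p : ℕ => q ∣ p - 1 ∧
      ∃ y : ZMod p, y ^ q = ((b * (m : ℤ) ^ t : ℤ) : ZMod p))).card : ℝ) ≤
      piq q x / q + W := by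
  have hq0 : (0 : ℝ) < q := by exact_mod_cast hq.pos
  set T : Finset ℕ := (PR b m x).filter (fun p : ℕ => q ∣ p - 1) with hT
  set X : ∀ p : ℕ, ZMod p := fun p => ((b * (m : ℤ) ^ t : ℤ) : ZMod p) with hX
  have hTp : ∀ p ∈ T, p.Prime ∧ p ≠ 2 ∧ ¬ (p : ℤ) ∣ b ∧ ¬ (p : ℤ) ∣ m ∧ q ∣ p - 1 ∧ p < x + 1 := by
    intro p hp
    simp only [hT, PR, Finset.mem_filter, Finset.mem_range] at hp
    obtain ⟨⟨h1, h2, h3, h4⟩, h5⟩ := hp
    exact ⟨h2, h3, fun h => h4 (Dvd.dvd.mul_right h _), fun h => h4 (Dvd.dvd.mul_left h _), h5, h1⟩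
  have hXne : ∀ p ∈ T, X p ≠ 0 := by
    intro p hp h
    obtain ⟨h1, h2, h3, h4, h5, h6⟩ := hTp p hp
    have h7 := (ZMod.intCast_zmod_eq_zero_iff_dvd (b * (m : ℤ) ^ t) p).1 h
    have h8 : Prime (p : ℤ) := Nat.prime_iff_prime_int.1 h1
    rcases h8.dvd_or_dvd h7 with h9 | h9
    · exact h3 h9
    · exact h4 (h8.dvd_of_dvd_pow h9)
  have hS : ∀ i, ∑ p ∈ (Finset.range (x + 1)).filter (fun p : ℕ => p.Prime ∧ q ∣ p - 1),
        cq b q i p * om q (fun _ => t * i) p (m : ℤ) = ∑ p ∈ T, ee q (i * ind p (X p)) := by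
    intro i
    symm
    have h1 : ∑ p ∈ T, ee q (i * ind p (X p)) =
        ∑ p ∈ T, cq b q i p * om q (fun _ => t * i) p (m : ℤ) := by
      refine Finset.sum_congr rfl fun p hp => ?_
      obtain ⟨h1, h2, h3, h4, h5, h6⟩ := hTp p hp
      rw [smq_term h1 hq h5 b m t i h2 h3 h4]
    rw [h1]
    apply Finset.sum_subset
    · intro p hp
      obtain ⟨h1, h2, h3, h4, h5, h6⟩ := hTp p hp
      rw [Finset.mem_filter, Finset.mem_range]
      exact ⟨h6, h1, h5⟩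
    · intro p hp hpT
      rw [Finset.mem_filter, Finset.mem_range] at hp
      obtain ⟨h1, h2, h3⟩ := hp
      have : Fact p.Prime := ⟨h2⟩
      by_cases h4 : p = 2
      · unfold cq
        rw [if_pos (Or.inl h4), zero_mul]
      by_cases h5 : (p : ℤ) ∣ b
      · unfold cq
        rw [if_pos (Or.inr h5), zero_mul]
      by_cases h6 : (p : ℤ) ∣ m
      · have h7 : (((m : ℕ) : ℤ) : ZMod p) = 0 :=
          (ZMod.intCast_zmod_eq_zero_iff_dvd (m : ℤ) p).2 h6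
        unfold om
        rw [if_pos h7, mul_zero]
      · exfalso
        apply hpT
        simp only [hT, PR, Finset.mem_filter, Finset.mem_range]
        refine ⟨⟨h1, h2, h4, ?_⟩, h3⟩
        intro h7
        have h8 : Prime (p : ℤ) := Nat.prime_iff_prime_int.1 h2
        rcases h8.dvd_or_dvd h7 with h9 | h9
        · exact h5 h9
        · exact h6 h9
  have hcard : ((PR b m x).filter (fun p : ℕ => q ∣ p - 1 ∧
      ∃ y : ZMod p, y ^ q = ((b * (m : ℤ) ^ t : ℤ) : ZMod p))) =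
      T.filter (fun p => ∃ y : ZMod p, y ^ q = X p) := by
    rw [hT, Finset.filter_filter]
  rw [hcard]
  have hid : ((T.filter (fun p => ∃ y : ZMod p, y ^ q = X p)).card : ℂ) * q =
      T.card + ∑ i ∈ Finset.Ico 1 q, ∑ p ∈ T, ee q (i * ind p (X p)) := by
    have h1 : ((T.filter (fun p => ∃ y : ZMod p, y ^ q = X p)).card : ℂ) * q =
        ∑ p ∈ T, ∑ i ∈ Finset.range q, ee q (i * ind p (X p)) := by
      rw [Finset.card_filter, Nat.cast_sum, Finset.sum_mul]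
      refine Finset.sum_congr rfl fun p hp => ?_
      obtain ⟨h1, h2, h3, h4, h5, h6⟩ := hTp p hp
      have h7 := pow_iff_ind h1 h5 hq.one_le (hXne p hp)
      rw [ee_sum hq.one_le]
      by_cases h8 : q ∣ ind p (X p)
      · rw [if_pos h8, if_pos (h7.2 h8)]
        simp
      · rw [if_neg h8, if_neg (fun h => h8 (h7.1 h))]
        simp
    rw [h1, Finset.sum_comm, Finset.range_eq_Ico, Finset.sum_eq_sum_Ico_succ_bot hq.pos]
    congr 1
    have h2 : ∀ p, ee q (0 * ind p (X p)) = 1 := by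
      intro p
      rw [zero_mul, ee_eq_one_iff hq.one_le]
      exact dvd_zero q
    simp only [h2, Finset.sum_const, nsmul_eq_mul, mul_one]
  have hn : ((T.filter (fun p => ∃ y : ZMod p, y ^ q = X p)).card : ℝ) * q ≤
      T.card + (q - 1) * W := by
    have h1 : ‖((T.filter (fun p => ∃ y : ZMod p, y ^ q = X p)).card : ℂ) * q‖ =
        ((T.filter (fun p => ∃ y : ZMod p, y ^ q = X p)).card : ℝ) * q := by
      rw [norm_mul, Complex.norm_natCast, Complex.norm_natCast]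
    rw [← h1, hid]
    refine (norm_add_le _ _).trans ?_
    rw [Complex.norm_natCast]
    gcongr
    refine (norm_sum_le _ _).trans ?_
    calc ∑ i ∈ Finset.Ico 1 q, ‖∑ p ∈ T, ee q (i * ind p (X p))‖
        ≤ ∑ _i ∈ Finset.Ico 1 q, W := by
          refine Finset.sum_le_sum fun i hi => ?_
          rw [← hS i]
          exact hW i hi
      _ = (q - 1) * W := by
          rw [Finset.sum_const, Nat.card_Ico, nsmul_eq_mul, Nat.cast_sub hq.one_le, Nat.cast_one]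
  have hTcard : (T.card : ℝ) ≤ piq q x := by
    unfold piq
    have h1 : T ⊆ (Finset.range (x + 1)).filter (fun p : ℕ => p.Prime ∧ q ∣ p - 1) := by
      intro p hp
      obtain ⟨h1, h2, h3, h4, h5, h6⟩ := hTp p hp
      rw [Finset.mem_filter, Finset.mem_range]
      exact ⟨h6, h1, h5⟩
    exact_mod_cast Finset.card_le_card h1
  have h3 : ((T.filter (fun p => ∃ y : ZMod p, y ^ q = X p)).card : ℝ) * q ≤
      (piq q x / q + W) * q := by
    have h4 : (piq q x / q + W) * q = piq q x + q * W := by field_simp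
    rw [h4]
    nlinarith
  exact le_of_mul_le_mul_right h3 hq0

theorem small_q : ∃ C : ℝ, 1 ≤ C ∧ ∀ (b : ℤ) (t η m x : ℕ) (Q1 W : ℝ), b ≠ 0 → 1 ≤ t → t ≤ η →
    1 ≤ m → 3 ≤ x → 0 ≤ W → 1 ≤ Q1 → Q1 ^ 2 ≤ x →
    (∀ q : ℕ, q.Prime → η < q → (q : ℝ) ≤ Q1 → ∀ i ∈ Finset.Ico 1 q,
      ‖∑ p ∈ (Finset.range (x + 1)).filter (fun p : ℕ => p.Prime ∧ q ∣ p - 1),
        cq b q i p * om q (fun _ => t * i) p (m : ℤ)‖ ≤ W) →
    smc b t η m x Q1 ≤
      C * Nat.primeCounting x / η + Q1 * W := by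
  classical
  obtain ⟨C, hC1, hC⟩ := brun_titchmarsh'
  refine ⟨C, hC1, ?_⟩
  intro b t η m x Q1 W hb ht htη hm hx hW0 hQ1 hQx hW
  have hη : 1 ≤ η := ht.trans htη
  set QQ : Finset ℕ := (Finset.range (⌊Q1⌋₊ + 1)).filter (fun q : ℕ => q.Prime ∧ η < q) with hQQ
  have hQQm : ∀ q ∈ QQ, q.Prime ∧ η < q ∧ (q : ℝ) ≤ Q1 := by
    intro q hq
    rw [hQQ, Finset.mem_filter, Finset.mem_range] at hq
    refine ⟨hq.2.1, hq.2.2, ?_⟩
    have h1 : q ≤ ⌊Q1⌋₊ := by omega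
    exact (Nat.cast_le.2 h1).trans (Nat.floor_le (by linarith))
  set N : ℕ → Finset ℕ := fun q => (PR b m x).filter (fun p : ℕ => q ∣ p - 1 ∧
      ∃ y : ZMod p, y ^ q = ((b * (m : ℤ) ^ t : ℤ) : ZMod p)) with hN
  have h1 : smc b t η m x Q1 ≤ ∑ q ∈ QQ, ((N q).card : ℝ) := by
    unfold smc
    have h2 : (PR b m x).filter (fun p : ℕ => ∃ q : ℕ, q.Prime ∧ η < q ∧ (q : ℝ) ≤ Q1 ∧
        q ∣ p - 1 ∧ ∃ y : ZMod p, y ^ q = ((b * (m : ℤ) ^ t : ℤ) : ZMod p)) ⊆ QQ.biUnion N := by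
      intro p hp
      rw [Finset.mem_filter] at hp
      obtain ⟨hp1, q, hq1, hq2, hq3, hq4, hq5⟩ := hp
      rw [Finset.mem_biUnion]
      refine ⟨q, ?_, ?_⟩
      · rw [hQQ, Finset.mem_filter, Finset.mem_range]
        exact ⟨Nat.lt_succ_of_le (Nat.le_floor hq3), hq1, hq2⟩
      · rw [hN]
        simp only [Finset.mem_filter]
        exact ⟨hp1, hq4, hq5⟩
    have h3 := (Finset.card_le_card h2).trans Finset.card_biUnion_le
    exact_mod_cast h3
  have h2 : ∀ q ∈ QQ, ((N q).card : ℝ) ≤ C * Nat.primeCounting x * (1 / (q : ℝ) ^ 2) + W := by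
    intro q hq
    obtain ⟨hq1, hq2, hq3⟩ := hQQm q hq
    have hq0 : (0 : ℝ) < q := by exact_mod_cast hq1.pos
    have h3 := smq_one hq1 b t m x W (hW q hq1 hq2 hq3) hW0
    have h4 : q ^ 2 ≤ x := by
      have h5 : (q : ℝ) ^ 2 ≤ Q1 ^ 2 := by gcongr
      exact_mod_cast h5.trans hQx
    have h5 := hC q x hq1 h4
    have h6 : piq q x / q ≤ C * Nat.primeCounting x * (1 / (q : ℝ) ^ 2) := by
      rw [div_le_iff₀ hq0]
      calc piq q x ≤ C * (Nat.primeCounting x : ℝ) / q := h5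
        _ = C * Nat.primeCounting x * (1 / (q : ℝ) ^ 2) * q := by field_simp
    have h7 : ((N q).card : ℝ) ≤ piq q x / q + W := h3
    linarith
  have h3 : ∑ q ∈ QQ, (1 : ℝ) / (q : ℝ) ^ 2 ≤ 1 / η := by
    refine le_trans ?_ (sum_inv_sq η ⌊Q1⌋₊ hη)
    apply Finset.sum_le_sum_of_subset_of_nonneg
    · intro q hq
      rw [hQQ, Finset.mem_filter] at hq
      rw [Finset.mem_filter]
      exact ⟨hq.1, hq.2.2⟩
    · intro q _ _
      positivity
  have h4 : (QQ.card : ℝ) ≤ Q1 := by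
    have h5 : QQ ⊆ Finset.Icc 1 ⌊Q1⌋₊ := by
      intro q hq
      rw [hQQ, Finset.mem_filter, Finset.mem_range] at hq
      rw [Finset.mem_Icc]
      exact ⟨hq.2.1.one_le, by omega⟩
    have h6 := Finset.card_le_card h5
    rw [Nat.card_Icc, Nat.add_sub_cancel] at h6
    exact (Nat.cast_le.2 h6).trans (Nat.floor_le (by linarith))
  calc smc b t η m x Q1 ≤ ∑ q ∈ QQ, ((N q).card : ℝ) := h1
    _ ≤ ∑ q ∈ QQ, (C * Nat.primeCounting x * (1 / (q : ℝ) ^ 2) + W) := Finset.sum_le_sum h2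
    _ = C * Nat.primeCounting x * (∑ q ∈ QQ, 1 / (q : ℝ) ^ 2) + QQ.card * W := by
        rw [Finset.sum_add_distrib, ← Finset.mul_sum, Finset.sum_const, nsmul_eq_mul]
    _ ≤ C * Nat.primeCounting x * (1 / η) + Q1 * W := by
        have : (0 : ℝ) ≤ C * Nat.primeCounting x := by positivity
        gcongr
    _ = C * Nat.primeCounting x / η + Q1 * W := by ring

end Pool.Agent.ARX
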