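import Pool.Agent.ARX.Exn
import Pool.Agent.ARX.Smq
import Pool.Agent.ARX.Mai
import Pool.Agent.ARX.Mac
import Pool.Agent.ARX.Mdq
import Pool.Agent.ARX.Par
import Pool.Agent.ARX.Biq2

set_option autoImplicit false

/-!
# ARX module ASM: one scale

Given `b, t, A, δ, ε`.  Choose `η ≥ t` with `C/η ≤ ε/20` for the constants `C` of `main_compare`,
`small_q`; `τ ≤ 1/16` with `C log((1+4τ)/(1-4τ)) ≤ ε/20` for the constant of `mid_range`
(`Q1 = y^(1-4τ)`, `Q2 = y^(1+4τ)`, `y = log x`, `log Q2 / log Q1 = (1+4τ)/(1-4τ)`,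
`1/log Q1 → 0`).  `expansion b t η` gives finitely many characters.

A natural number `m ≤ N`, squarefree, is bad at `x` if one of these fails:
(i) all the sums of `expansion` are `< π(x)/y^2`;
(ii) for each prime `η < q ≤ Q1`, `1 ≤ i < q` the sum `S_{q,i}` of `small_q` is `< π(x)/y^2`;
(iii) `big x Q2 (b m^t) < (ε/20) π(x)`.
If none fails, then `|prm - mnf| ≤ ε π(x)` by `count_compare`, `expansion` (`r π(x)/y^2`),
`small_q` with `W = π(x)/y^2` (`Q1 W ≤ π(x)/y`), `mid_range`, `main_compare`, and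
`b.natAbs.primeFactors.card + m.primeFactors.card ≤ C + 2 log N ≤ (ε/20) π(x)` (as
`π(x) ≥ √x ≥ exp((log N)^(1-τ)/2)`).
The number of `m ≤ N` failing (i) or (ii) is at most `(r + Q1^2) N^(δ/4)` by `few_large_values`
(with `δ/4`; `ed s ≤ y^(1-4τ)` for `N` large), failing (iii) at most `N^(δ/4)`-type by `few_big`
applied with `|b| N^t ≤ N^(t+1)` in the place of `N` (exponents `A`, `δ/(8(t+1))`; the map
`m ↦ b m^t` is injective on `m ≥ 1`; the condition `exp((log N')^(1-τ')) ≤ x` for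
`N' = N^(t+1)` holds with `τ'` slightly bigger than `τ`: apply `few_big` with `τ' = 2τ`... the
threshold there is `y^(1+8τ)`, so simply use `Q2 = y^(1+8τ)` everywhere).
-/

namespace Pool.Agent.ARX

open Filter Topology

private lemma asm_y (r : ℕ) (E0 X1 C2 C3 ε τ : ℝ) (hε : 0 < ε) (hτ : 0 < τ)
    (hτ1 : τ ≤ 1 / 16) :
    ∃ Y0 : ℝ, 1 ≤ Y0 ∧ ∀ y : ℝ, Y0 ≤ y →
      (3 ≤ Real.exp y ∧ 2 ≤ y ^ (1 - 4 * τ) ∧ (y ^ (1 + 8 * τ)) ^ 2 ≤ Real.exp y ∧
      E0 ≤ y ^ (1 - 4 * τ)) ∧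
      (1 + 8 * y ^ 2 ≤ ε / 20 * Real.exp (y / 2) ∧
      C3 * (1 / Real.log (y ^ (1 - 4 * τ))) ≤ ε / 20) ∧
      ((r + y ^ (1 - 4 * τ)) / y ^ 2 ≤ ε / 20 ∧ C2 * (1 / Real.sqrt (Real.exp y)) ≤ ε / 20) ∧
      X1 ≤ Real.exp y ∧ Real.exp (y / 2) ≤ Real.exp y / (2 * y) := by
  have h14 : 0 < 1 - 4 * τ := by linarith
  have hr : Tendsto (fun y : ℝ => y ^ (1 - 4 * τ)) atTop atTop := tendsto_rpow_atTop h14
  have hlr : Tendsto (fun y : ℝ => Real.log (y ^ (1 - 4 * τ))) atTop atTop :=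
    Real.tendsto_log_atTop.comp hr
  have e1 : ∀ᶠ y : ℝ in atTop, 3 ≤ Real.exp y := Real.tendsto_exp_atTop.eventually_ge_atTop 3
  have e2 : ∀ᶠ y : ℝ in atTop, 2 ≤ y ^ (1 - 4 * τ) := hr.eventually_ge_atTop 2
  have e3 : ∀ᶠ y : ℝ in atTop, 1 ≤ Real.exp y / y ^ 3 :=
    (Real.tendsto_exp_div_pow_atTop 3).eventually_ge_atTop 1
  have e4 : ∀ᶠ y : ℝ in atTop, E0 ≤ y ^ (1 - 4 * τ) := hr.eventually_ge_atTop E0
  have hhalf : Tendsto (fun y : ℝ => y / 2) atTop atTop :=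
    tendsto_id.atTop_div_const (by norm_num)
  have e5 : ∀ᶠ y : ℝ in atTop, (33 : ℝ) * 20 / ε ≤ Real.exp (y / 2) / (y / 2) ^ 2 :=
    ((Real.tendsto_exp_div_pow_atTop 2).comp hhalf).eventually_ge_atTop _
  have e6 : ∀ᶠ y : ℝ in atTop, C3 * (1 / Real.log (y ^ (1 - 4 * τ))) ≤ ε / 20 := by
    have h : Tendsto (fun y : ℝ => C3 * (1 / Real.log (y ^ (1 - 4 * τ)))) atTop (𝓝 (C3 * 0)) := by
      apply Tendsto.const_mul
      exact hlr.const_div_atTop 1
    rw [mul_zero] at h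
    have := h.eventually (gt_mem_nhds (show (0:ℝ) < ε / 20 by positivity))
    filter_upwards [this] with y hy
    exact le_of_lt hy
  have e7 : ∀ᶠ y : ℝ in atTop, C2 * (1 / Real.sqrt (Real.exp y)) ≤ ε / 20 := by
    have h : Tendsto (fun y : ℝ => C2 * (1 / Real.sqrt (Real.exp y))) atTop (𝓝 (C2 * 0)) := by
      apply Tendsto.const_mul
      exact (Real.tendsto_sqrt_atTop.comp Real.tendsto_exp_atTop).const_div_atTop 1
    rw [mul_zero] at h
    have := h.eventually (gt_mem_nhds (show (0:ℝ) < ε / 20 by positivity))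
    filter_upwards [this] with y hy
    exact le_of_lt hy
  have e8 : ∀ᶠ y : ℝ in atTop, X1 ≤ Real.exp y := Real.tendsto_exp_atTop.eventually_ge_atTop X1
  have e9 : ∀ᶠ y : ℝ in atTop, 4 ≤ Real.exp (y / 2) / (y / 2) ^ 1 :=
    ((Real.tendsto_exp_div_pow_atTop 1).comp hhalf).eventually_ge_atTop _
  obtain ⟨Y, hY⟩ := eventually_atTop.mp (((e1.and e2).and (e3.and e4)).and ((e5.and e6).and
    ((e7.and e8).and e9)))
  refine ⟨max Y (max 2 (20 * (r + 1) / ε)), le_trans (by norm_num)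
    (le_trans (le_max_left _ _) (le_max_right _ _)), ?_⟩
  intro y hy
  have hyY : Y ≤ y := (le_max_left _ _).trans hy
  have hy2 : 2 ≤ y := (le_max_left _ _).trans ((le_max_right _ _).trans hy)
  have hy3 : 20 * (r + 1) / ε ≤ y := (le_max_right _ _).trans ((le_max_right _ _).trans hy)
  obtain ⟨⟨⟨a1, a2⟩, a3, a4⟩, ⟨a5, a6⟩, ⟨a7, a8⟩, a9⟩ := hY y hyY
  have hy0 : 0 < y := by linarith
  have hy1 : 1 ≤ y := by linarith
  refine ⟨⟨a1, a2, ?_, a4⟩, ⟨?_, a6⟩, ⟨?_, a7⟩, a8, ?_⟩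
  · rw [one_le_div (by positivity)] at a3
    refine le_trans ?_ a3
    rw [← Real.rpow_natCast (y ^ (1 + 8 * τ)) 2, ← Real.rpow_mul hy0.le,
      ← Real.rpow_natCast y 3]
    apply Real.rpow_le_rpow_of_exponent_le hy1
    push_cast
    linarith
  · rw [div_le_div_iff₀ hε (by positivity)] at a5
    have h1 : 1 + 8 * y ^ 2 ≤ 33 * (y / 2) ^ 2 := by
      have h4 : 1 ≤ (y / 2) ^ 2 := by nlinarith
      nlinarith
    have h5 : 33 * (y / 2) ^ 2 * 20 ≤ Real.exp (y / 2) * ε := by linarith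
    nlinarith
  · rw [div_le_iff₀ hε] at hy3
    rw [div_le_iff₀ (by positivity)]
    have h1 : y ^ (1 - 4 * τ) ≤ y := by
      calc y ^ (1 - 4 * τ) ≤ y ^ (1:ℝ) := Real.rpow_le_rpow_of_exponent_le hy1 (by linarith)
        _ = y := Real.rpow_one y
    have h2 : (r : ℝ) ≤ r * y := by
      have : (0:ℝ) ≤ r := Nat.cast_nonneg r
      nlinarith
    have h3 : (r + 1 : ℝ) * y ≤ ε / 20 * y ^ 2 := by nlinarith
    linarith
  · rw [pow_one, le_div_iff₀ (by positivity)] at a9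
    rw [le_div_iff₀ (by positivity)]
    have h1 : Real.exp y = Real.exp (y / 2) * Real.exp (y / 2) := by
      rw [← Real.exp_add]; congr 1; ring
    rw [h1]
    apply mul_le_mul_of_nonneg_left _ (Real.exp_pos _).le
    linarith

private lemma asm_N (r : ℕ) (t : ℕ) (Y0 A δ τ : ℝ) (hA : 0 < A) (hδ : 0 < δ) (hτ : 0 < τ)
    (hτ1 : τ ≤ 1 / 16) :
    ∃ N3 : ℕ, 2 ≤ N3 ∧ ∀ N : ℕ, N3 ≤ N →
      (Y0 ≤ (Real.log N) ^ (1 - τ) ∧ 1 ≤ Real.log N) ∧
      (r + (A * Real.log N + 1) ^ 2) * (N : ℝ) ^ (δ / 4) + (N : ℝ) ^ (δ / 2) ≤ (N : ℝ) ^ δ ∧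
      ((t + 1 : ℝ) * Real.log N) ^ (1 - 2 * τ) ≤ (Real.log N) ^ (1 - τ) := by
  have hL : Tendsto (fun N : ℕ => Real.log (N : ℝ)) atTop atTop :=
    Real.tendsto_log_atTop.comp tendsto_natCast_atTop_atTop
  have e1 : ∀ᶠ N : ℕ in atTop, Y0 ≤ (Real.log N) ^ (1 - τ) :=
    ((tendsto_rpow_atTop (show 0 < 1 - τ by linarith)).comp hL).eventually_ge_atTop Y0
  have e2 : ∀ᶠ N : ℕ in atTop, 1 ≤ Real.log N := hL.eventually_ge_atTop 1
  have e3 : ∀ᶠ N : ℕ in atTop, (t + 1 : ℝ) ≤ (Real.log N) ^ τ :=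
    ((tendsto_rpow_atTop hτ).comp hL).eventually_ge_atTop _
  have hδL : Tendsto (fun N : ℕ => δ / 2 * Real.log (N : ℝ)) atTop atTop :=
    hL.const_mul_atTop (by positivity)
  have e4 : ∀ᶠ N : ℕ in atTop, (r + 1 + (A + 1) ^ 2) * (2 / δ) ^ 2 ≤
      Real.exp (δ / 2 * Real.log N) / (δ / 2 * Real.log N) ^ 2 :=
    ((Real.tendsto_exp_div_pow_atTop 2).comp hδL).eventually_ge_atTop _
  obtain ⟨M, hM⟩ := eventually_atTop.mp ((e1.and e2).and (e3.and e4))
  refine ⟨max M 2, le_max_right _ _, ?_⟩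
  intro N hN
  have hNM : M ≤ N := (le_max_left _ _).trans hN
  have hN2 : 2 ≤ N := (le_max_right _ _).trans hN
  obtain ⟨⟨a1, a2⟩, a3, a4⟩ := hM N hNM
  have hN0 : (0:ℝ) < N := by exact_mod_cast (by omega : 0 < N)
  have hN1 : (1:ℝ) ≤ N := by exact_mod_cast (by omega : 1 ≤ N)
  have hL0 : 0 < Real.log N := by linarith
  refine ⟨⟨a1, a2⟩, ?_, ?_⟩
  · have h1 : (N : ℝ) ^ (δ / 2) = Real.exp (δ / 2 * Real.log N) := by
      rw [Real.rpow_def_of_pos hN0, mul_comm]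
    have h2 : (N : ℝ) ^ δ = (N : ℝ) ^ (δ / 2) * (N : ℝ) ^ (δ / 2) := by
      rw [← Real.rpow_add hN0]; congr 1; ring
    have h3 : (N : ℝ) ^ (δ / 4) ≤ (N : ℝ) ^ (δ / 2) :=
      Real.rpow_le_rpow_of_exponent_le hN1 (by linarith)
    have h4 : (r : ℝ) + 1 + (A * Real.log N + 1) ^ 2 ≤ (N : ℝ) ^ (δ / 2) := by
      rw [← h1, le_div_iff₀ (by positivity)] at a4
      have h5 : (r + 1 + (A + 1) ^ 2) * (2 / δ) ^ 2 * (δ / 2 * Real.log N) ^ 2 =
          (r + 1 + (A + 1) ^ 2) * (Real.log N) ^ 2 := by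
        field_simp
      rw [h5] at a4
      refine le_trans ?_ a4
      have hr0 : (0:ℝ) ≤ r := Nat.cast_nonneg r
      have h6 : 1 ≤ (Real.log N) ^ 2 := one_le_pow₀ a2
      have h7 : A * Real.log N + 1 ≤ (A + 1) * Real.log N := by linarith
      have h8 : (A * Real.log N + 1) ^ 2 ≤ ((A + 1) * Real.log N) ^ 2 := by
        apply pow_le_pow_left₀ (by positivity) h7
      have h9 : (r + 1 : ℝ) ≤ (r + 1) * (Real.log N) ^ 2 := by nlinarith
      nlinarith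
    have h5 : 0 ≤ (r : ℝ) + (A * Real.log N + 1) ^ 2 := by positivity
    have h6 : 0 < (N : ℝ) ^ (δ / 2) := by positivity
    calc (r + (A * Real.log N + 1) ^ 2) * (N : ℝ) ^ (δ / 4) + (N : ℝ) ^ (δ / 2)
        ≤ (r + (A * Real.log N + 1) ^ 2) * (N : ℝ) ^ (δ / 2) + (N : ℝ) ^ (δ / 2) := by
          gcongr
      _ = (r + 1 + (A * Real.log N + 1) ^ 2) * (N : ℝ) ^ (δ / 2) := by ring
      _ ≤ (N : ℝ) ^ (δ / 2) * (N : ℝ) ^ (δ / 2) := by gcongr
      _ = (N : ℝ) ^ δ := h2.symm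
  · have ht0 : (0:ℝ) < t + 1 := by positivity
    rw [Real.mul_rpow ht0.le hL0.le]
    have h1 : (t + 1 : ℝ) ^ (1 - 2 * τ) ≤ (Real.log N) ^ τ := by
      refine le_trans ?_ a3
      calc (t + 1 : ℝ) ^ (1 - 2 * τ) ≤ (t + 1 : ℝ) ^ (1:ℝ) := by
            apply Real.rpow_le_rpow_of_exponent_le _ (by linarith)
            have : (0:ℝ) ≤ t := Nat.cast_nonneg t
            linarith
        _ = t + 1 := Real.rpow_one _
    calc (t + 1 : ℝ) ^ (1 - 2 * τ) * (Real.log N) ^ (1 - 2 * τ)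
        ≤ (Real.log N) ^ τ * (Real.log N) ^ (1 - 2 * τ) := by gcongr
      _ = (Real.log N) ^ (1 - τ) := by
        rw [← Real.rpow_add hL0]; congr 1; ring

private lemma omega_le (m N : ℕ) (hm : 1 ≤ m) (hmN : m ≤ N) :
    (m.primeFactors.card : ℝ) ≤ 2 * Real.log N := by
  have h1 : 2 ^ m.primeFactors.card ≤ m := by
    calc 2 ^ m.primeFactors.card = ∏ p ∈ m.primeFactors, 2 := by rw [Finset.prod_const]
      _ ≤ ∏ p ∈ m.primeFactors, p := by
        apply Finset.prod_le_prod (fun _ _ => by norm_num)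
        intro p hp
        exact (Nat.prime_of_mem_primeFactors hp).two_le
      _ ≤ m := Nat.le_of_dvd (by omega) (Nat.prod_primeFactors_dvd m)
  have h2 : ((2:ℝ)) ^ m.primeFactors.card ≤ N := by exact_mod_cast h1.trans hmN
  have h3 : (m.primeFactors.card : ℝ) * Real.log 2 ≤ Real.log N := by
    rw [← Real.log_pow]
    exact Real.log_le_log (by positivity) h2
  have h4 : (1:ℝ) / 2 ≤ Real.log 2 := by
    have := Real.log_two_gt_d9; linarith
  have h5 : (0:ℝ) ≤ m.primeFactors.card := Nat.cast_nonneg _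
  nlinarith

private lemma asm_good {ε C1 C2 C3 τ y π' L : ℝ} {prmv cntv mntv mnfv smcv midv bigv SS wb wm η r : ℝ}
    (hε : 0 < ε) (hπ : 0 < π')
    (h1 : |prmv - cntv| ≤ (1 + (wb + wm)) + smcv + midv + bigv)
    (h2 : |cntv - mntv| ≤ SS) (h3 : |mntv - mnfv| ≤ C2 * π' * (1 / η + 1 / Real.sqrt (Real.exp y)) + (wb + wm))
    (hSS : SS ≤ r * (π' / y ^ 2))
    (hsmc : smcv ≤ C1 * π' / η + y ^ (1 - 4 * τ) * (π' / y ^ 2))
    (hmid : midv ≤ C3 * π' * (Real.log (Real.log (y ^ (1 + 8 * τ)) / Real.log (y ^ (1 - 4 * τ))) +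
      1 / Real.log (y ^ (1 - 4 * τ))))
    (hbig : bigv ≤ ε / 10 * π')
    (hη : (C1 + C2) / η ≤ ε / 10)
    (hlog : C3 * Real.log (Real.log (y ^ (1 + 8 * τ)) / Real.log (y ^ (1 - 4 * τ))) ≤ ε / 10)
    (b1 : 1 + 8 * y ^ 2 ≤ ε / 20 * π')
    (b2 : C3 * (1 / Real.log (y ^ (1 - 4 * τ))) ≤ ε / 20)
    (b3 : (r + y ^ (1 - 4 * τ)) / y ^ 2 ≤ ε / 20)
    (b4 : C2 * (1 / Real.sqrt (Real.exp y)) ≤ ε / 20)
    (hwb : wb ≤ 2 * L) (hwm : wm ≤ 2 * L) (hL : L ≤ y ^ 2) :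
    |prmv - mnfv| ≤ ε * π' := by
  have t1 : |prmv - mnfv| ≤ |prmv - cntv| + |cntv - mntv| + |mntv - mnfv| := by
    have e : prmv - mnfv = (prmv - cntv) + (cntv - mntv) + (mntv - mnfv) := by ring
    rw [e]
    exact (abs_add_le _ _).trans (by linarith [abs_add_le (prmv - cntv) (cntv - mntv)])
  have t2 : C1 * π' / η + C2 * π' * (1 / η) ≤ ε / 10 * π' := by
    have e : C1 * π' / η + C2 * π' * (1 / η) = (C1 + C2) / η * π' := by ring
    rw [e]; gcongr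
  have t3 : C3 * π' * (Real.log (Real.log (y ^ (1 + 8 * τ)) / Real.log (y ^ (1 - 4 * τ))) +
      1 / Real.log (y ^ (1 - 4 * τ))) ≤ (ε / 10 + ε / 20) * π' := by
    have e : C3 * π' * (Real.log (Real.log (y ^ (1 + 8 * τ)) / Real.log (y ^ (1 - 4 * τ))) +
      1 / Real.log (y ^ (1 - 4 * τ))) =
      (C3 * Real.log (Real.log (y ^ (1 + 8 * τ)) / Real.log (y ^ (1 - 4 * τ))) +
        C3 * (1 / Real.log (y ^ (1 - 4 * τ)))) * π' := by ring
    rw [e]; gcongr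
  have t4 : y ^ (1 - 4 * τ) * (π' / y ^ 2) + r * (π' / y ^ 2) ≤ ε / 20 * π' := by
    have e : y ^ (1 - 4 * τ) * (π' / y ^ 2) + r * (π' / y ^ 2) =
      (r + y ^ (1 - 4 * τ)) / y ^ 2 * π' := by ring
    rw [e]; gcongr
  have t5 : C2 * π' * (1 / Real.sqrt (Real.exp y)) ≤ ε / 20 * π' := by
    have e : C2 * π' * (1 / Real.sqrt (Real.exp y)) = C2 * (1 / Real.sqrt (Real.exp y)) * π' := by
      ring
    rw [e]; gcongr
  have t6 : C2 * π' * (1 / η + 1 / Real.sqrt (Real.exp y)) =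
    C2 * π' * (1 / η) + C2 * π' * (1 / Real.sqrt (Real.exp y)) := by ring
  have t7 : 0 < ε * π' := by positivity
  rw [t6] at h3
  linarith

theorem one_scale (t : ℕ) (ht : 1 ≤ t) (A δ ε : ℝ) (hA : 0 < A) (hδ : 0 < δ)
    (hε : 0 < ε) :
    ∃ τ₀ : ℝ, 0 < τ₀ ∧ τ₀ ≤ 1 / 16 ∧ ∀ τ : ℝ, 0 < τ → τ ≤ τ₀ →
      ∃ N₀ : ℕ, ∀ N : ℕ, N₀ ≤ N → ∀ b : ℤ, b ≠ 0 → b.natAbs ≤ N → ∀ x : ℕ,
      Real.exp ((Real.log N) ^ (1 - τ)) ≤ x → (x : ℝ) ≤ (N : ℝ) ^ A →
      ∀ MM : Finset ℕ, (∀ m ∈ MM, 1 ≤ m ∧ m ≤ N ∧ Squarefree m) →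
      (∀ m ∈ MM, ε * Nat.primeCounting x < |prm (b * (m : ℤ) ^ t) x - mnf b t x|) →
      (MM.card : ℝ) ≤ (N : ℝ) ^ δ := by
  classical
  obtain ⟨C1, hC1, hsm⟩ := small_q
  obtain ⟨C2, hC2, hmc⟩ := main_compare
  obtain ⟨C3, hC3, hmid⟩ := mid_range
  obtain ⟨X1, hX1, hpi⟩ := Pool.Agent.Helper6.pi_lower
  obtain ⟨η, hηt, hη⟩ : ∃ η : ℕ, t ≤ η ∧ (C1 + C2) / (η : ℝ) ≤ ε / 10 := by
    refine ⟨max t (⌈10 * (C1 + C2) / ε⌉₊), le_max_left _ _, ?_⟩
    have h1 : 10 * (C1 + C2) / ε ≤ (max t (⌈10 * (C1 + C2) / ε⌉₊) : ℕ) := by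
      refine (Nat.le_ceil _).trans ?_
      exact_mod_cast le_max_right _ _
    have h2 : 0 < 10 * (C1 + C2) / ε := by positivity
    have h3 : (0:ℝ) < (max t (⌈10 * (C1 + C2) / ε⌉₊) : ℕ) := lt_of_lt_of_le h2 h1
    rw [div_le_iff₀ hε] at h1
    rw [div_le_iff₀ h3]
    linarith
  have hη0 : (0:ℝ) < η := by exact_mod_cast (by omega : 0 < η)
  obtain ⟨r, ed, jd, hed, hexp0⟩ := expansion t ht η
  obtain ⟨τ₀, hτ00, hτ01, hτ02⟩ : ∃ τ : ℝ, 0 < τ ∧ τ ≤ 1 / 16 ∧ C3 * (16 * τ) ≤ ε / 10 := by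
    refine ⟨min (1 / 16) (ε / (160 * C3)), lt_min (by norm_num) (by positivity), min_le_left _ _, ?_⟩
    have h1 : min (1 / 16) (ε / (160 * C3)) ≤ ε / (160 * C3) := min_le_right _ _
    have h2 : C3 * (16 * (ε / (160 * C3))) = ε / 10 := by field_simp; ring
    rw [← h2]
    gcongr
  refine ⟨τ₀, hτ00, hτ01, ?_⟩
  intro τ hτ0 hττ
  have hτ1 : τ ≤ 1 / 16 := hττ.trans hτ01
  have hτ2 : C3 * (16 * τ) ≤ ε / 10 := by
    refine le_trans ?_ hτ02
    have hC30 : 0 ≤ C3 := by linarith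
    exact mul_le_mul_of_nonneg_left (by linarith) hC30
  obtain ⟨E0, hE0⟩ : ∃ E0 : ℝ, ∀ s < r, (ed s : ℝ) ≤ E0 := by
    refine ⟨∑ s ∈ Finset.range r, (ed s : ℝ), fun s hs => ?_⟩
    exact Finset.single_le_sum (f := fun s => (ed s : ℝ)) (fun i _ => Nat.cast_nonneg _)
      (Finset.mem_range.mpr hs)
  obtain ⟨Y0, hY0, hY⟩ := asm_y r E0 X1 C2 C3 ε τ hε hτ0 hτ1
  obtain ⟨N1, hN1⟩ := few_large_values A (δ / 4) τ hA (by positivity) hτ0 (by linarith)
  obtain ⟨N2, hN2⟩ := few_big A (δ / (2 * (t + 1))) (ε / 10) (2 * τ) hA (by positivity)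
    (by positivity) (by linarith) (by linarith)
  obtain ⟨N3, hN32, hN3⟩ := asm_N r t Y0 A δ τ hA hδ hτ0 hτ1
  refine ⟨max (max N1 N2) N3, ?_⟩
  intro N hN b hb n4 x hx1 hx2 MM hMM hbad
  obtain ⟨cd, hcd, hexp⟩ := hexp0 b hb
  have hNN1 : N1 ≤ N := (le_max_left _ _).trans ((le_max_left _ _).trans hN)
  have hNN2 : N2 ≤ N := (le_max_right _ _).trans ((le_max_left _ _).trans hN)
  have hNN3 : N3 ≤ N := (le_max_right _ _).trans hN
  have hN2' : 2 ≤ N := hN32.trans hNN3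
  have hNr : (1:ℝ) ≤ N := by exact_mod_cast (by omega : 1 ≤ N)
  have hNr0 : (0:ℝ) < N := by linarith
  obtain ⟨⟨n1, n2⟩, n3, n5⟩ := hN3 N hNN3
  have hx0 : (0:ℝ) < x := lt_of_lt_of_le (Real.exp_pos _) hx1
  obtain ⟨y, hy⟩ : ∃ y : ℝ, y = Real.log x := ⟨_, rfl⟩
  have hyx : Real.exp y = x := by rw [hy, Real.exp_log hx0]
  have hyL : (Real.log N) ^ (1 - τ) ≤ y := by
    rw [hy, Real.le_log_iff_exp_le hx0]; exact hx1
  have hyA : y ≤ A * Real.log N := by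
    rw [hy, ← Real.log_rpow hNr0]
    exact Real.log_le_log hx0 hx2
  have hyY0 : Y0 ≤ y := n1.trans hyL
  have hy1 : 1 ≤ y := hY0.trans hyY0
  have hy0 : 0 < y := by linarith
  obtain ⟨⟨c1, c2, c3, c4⟩, ⟨c5, c6⟩, ⟨c7, c8⟩, c9, c10⟩ := hY y hyY0
  have hL2 : Real.log N ≤ y ^ 2 := by
    have h1 : ((Real.log N) ^ (1 - τ)) ^ 2 ≤ y ^ 2 :=
      pow_le_pow_left₀ (by positivity) hyL 2
    refine le_trans ?_ h1
    rw [← Real.rpow_natCast, ← Real.rpow_mul (by linarith)]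
    calc Real.log N = (Real.log N) ^ (1:ℝ) := (Real.rpow_one _).symm
      _ ≤ (Real.log N) ^ ((1 - τ) * ((2:ℕ):ℝ)) := by
        apply Real.rpow_le_rpow_of_exponent_le n2
        push_cast; linarith
  have hx3 : 3 ≤ x := by
    have : (3:ℝ) ≤ x := by rw [← hyx]; exact c1
    exact_mod_cast this
  obtain ⟨π', hπ'⟩ : ∃ π' : ℝ, π' = Nat.primeCounting x := ⟨_, rfl⟩
  have hX1x : X1 ≤ x := by
    have : (X1:ℝ) ≤ x := by rw [← hyx]; exact c9
    exact_mod_cast this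
  have hπy : Real.exp (y / 2) ≤ π' := by
    refine c10.trans ?_
    rw [hyx, hy, hπ']
    exact hpi x hX1x
  have hπ0 : 0 < π' := lt_of_lt_of_le (Real.exp_pos _) hπy
  have hW0 : 0 ≤ π' / y ^ 2 := by positivity
  have hc5 : 1 + 8 * y ^ 2 ≤ ε / 20 * π' :=
    c5.trans (by gcongr)
  -- powers
  have hQ1y : y ^ (1 - 4 * τ) ≤ y := by
    calc y ^ (1 - 4 * τ) ≤ y ^ (1:ℝ) := Real.rpow_le_rpow_of_exponent_le hy1 (by linarith)
      _ = y := Real.rpow_one y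
  have hQ12 : y ^ (1 - 4 * τ) ≤ y ^ (1 + 8 * τ) :=
    Real.rpow_le_rpow_of_exponent_le hy1 (by linarith)
  have hQ10 : 0 < y ^ (1 - 4 * τ) := by positivity
  have hQ1x : (y ^ (1 - 4 * τ)) ^ 2 ≤ x := by
    rw [← hyx]
    exact (pow_le_pow_left₀ hQ10.le hQ12 2).trans c3
  have hQ2x : (y ^ (1 + 8 * τ)) ^ 2 ≤ x := by rw [← hyx]; exact c3
  have hlog : C3 * Real.log (Real.log (y ^ (1 + 8 * τ)) / Real.log (y ^ (1 - 4 * τ))) ≤ ε / 10 := by
    refine le_trans ?_ hτ2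
    have hly : 0 < Real.log y := by
      have h2 : 0 < Real.log (y ^ (1 - 4 * τ)) := Real.log_pos (by linarith)
      rw [Real.log_rpow hy0] at h2
      exact pos_of_mul_pos_right h2 (by linarith)
    rw [Real.log_rpow hy0, Real.log_rpow hy0]
    have h14 : 0 < 1 - 4 * τ := by linarith
    have e : (1 + 8 * τ) * Real.log y / ((1 - 4 * τ) * Real.log y) = (1 + 8 * τ) / (1 - 4 * τ) := by
      field_simp
    rw [e]
    have h3 : Real.log ((1 + 8 * τ) / (1 - 4 * τ)) ≤ (1 + 8 * τ) / (1 - 4 * τ) - 1 :=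
      Real.log_le_sub_one_of_pos (by positivity)
    have h4 : (1 + 8 * τ) / (1 - 4 * τ) - 1 ≤ 16 * τ := by
      rw [sub_le_iff_le_add, div_le_iff₀ h14]
      nlinarith
    have h5 : 0 ≤ C3 := by linarith
    exact mul_le_mul_of_nonneg_left (h3.trans h4) h5
  -- the exceptional sets
  set Sd : ℕ → ℕ → ℝ := fun s m =>
    ‖∑ p ∈ (Finset.range (x + 1)).filter (fun p : ℕ => p.Prime ∧ ed s ∣ p - 1),
      cd s p * om (ed s) (jd s) p (m : ℤ)‖ with hSd
  set Sq : ℕ → ℕ → ℕ → ℝ := fun q i m =>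
    ‖∑ p ∈ (Finset.range (x + 1)).filter (fun p : ℕ => p.Prime ∧ q ∣ p - 1),
        cq b q i p * om q (fun _ => t * i) p (m : ℤ)‖ with hSq
  set M1 : ℕ → Finset ℕ := fun s => MM.filter (fun m => π' / y ^ 2 ≤ Sd s m) with hM1
  set M2 : ℕ → ℕ → Finset ℕ := fun q i => MM.filter (fun m => π' / y ^ 2 ≤ Sq q i m) with hM2
  set M3 : Finset ℕ := MM.filter (fun m => ε / 10 * π' ≤
    big x (y ^ (1 + 8 * τ)) (b * (m : ℤ) ^ t)) with hM3
  set QS : Finset ℕ := (Finset.range (⌊y ^ (1 - 4 * τ)⌋₊ + 1)).filter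
    (fun q => q.Prime ∧ η < q) with hQS
  have hcov : MM ⊆ (Finset.range r).biUnion M1 ∪
      (QS.biUnion (fun q => (Finset.Ico 1 q).biUnion (fun i => M2 q i)) ∪ M3) := by
    intro m hm
    by_contra hcon
    simp only [Finset.mem_union, Finset.mem_biUnion, not_or, not_exists, not_and] at hcon
    obtain ⟨k1, k2, k3⟩ := hcon
    obtain ⟨hm1, hmN, -⟩ := hMM m hm
    have g1 : ∀ s < r, Sd s m ≤ π' / y ^ 2 := by
      intro s hs
      have := k1 s (Finset.mem_range.mpr hs)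
      rw [hM1] at this
      simp only [Finset.mem_filter, not_and, not_le] at this
      exact (this hm).le
    have g2 : ∀ q : ℕ, q.Prime → η < q → (q : ℝ) ≤ y ^ (1 - 4 * τ) → ∀ i ∈ Finset.Ico 1 q,
        Sq q i m ≤ π' / y ^ 2 := by
      intro q hq hηq hqQ i hi
      have hqS : q ∈ QS := by
        rw [hQS, Finset.mem_filter, Finset.mem_range]
        exact ⟨Nat.lt_succ_of_le (Nat.le_floor hqQ), hq, hηq⟩
      have := k2 q hqS i hi
      rw [hM2] at this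
      simp only [Finset.mem_filter, not_and, not_le] at this
      exact (this hm).le
    have g3 : big x (y ^ (1 + 8 * τ)) (b * (m : ℤ) ^ t) ≤ ε / 10 * π' := by
      rw [hM3] at k3
      simp only [Finset.mem_filter, not_and, not_le] at k3
      exact (k3 hm).le
    have hgood := asm_good (ε := ε) (C1 := C1) (C2 := C2) (C3 := C3) (τ := τ) (y := y) (π' := π')
      (L := Real.log N) (prmv := prm (b * (m : ℤ) ^ t) x) (cntv := cnt b t η m x)
      (mntv := mnt b t η m x) (mnfv := mnf b t x) (smcv := smc b t η m x (y ^ (1 - 4 * τ)))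
      (midv := midc x (y ^ (1 - 4 * τ)) (y ^ (1 + 8 * τ)))
      (bigv := big x (y ^ (1 + 8 * τ)) (b * (m : ℤ) ^ t))
      (SS := ∑ s ∈ Finset.range r, Sd s m)
      (wb := (b.natAbs.primeFactors.card : ℝ)) (wm := (m.primeFactors.card : ℝ)) (η := (η : ℝ))
      (r := (r : ℝ)) hε hπ0
      (count_compare b t η m x (y ^ (1 - 4 * τ)) (y ^ (1 + 8 * τ)) hb ht hm1)
      (hexp m x hm1)
      (by
        rw [hyx, hπ']
        exact hmc b t η m x hb ht hηt hm1 hx3)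
      (by
        calc ∑ s ∈ Finset.range r, Sd s m ≤ ∑ s ∈ Finset.range r, π' / y ^ 2 :=
              Finset.sum_le_sum (fun s hs => g1 s (Finset.mem_range.mp hs))
          _ = r * (π' / y ^ 2) := by rw [Finset.sum_const, Finset.card_range, nsmul_eq_mul])
      (by
        have := hsm b t η m x (y ^ (1 - 4 * τ)) (π' / y ^ 2) hb ht hηt hm1 hx3 hW0 (by linarith)
          hQ1x g2
        rw [← hπ'] at this
        exact this)
      (by
        have := hmid x (y ^ (1 - 4 * τ)) (y ^ (1 + 8 * τ)) hx3 c2 hQ12 hQ2x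
        rw [← hπ'] at this
        exact this)
      g3 hη hlog hc5 c6 c7 c8
      (omega_le b.natAbs N (Nat.one_le_iff_ne_zero.mpr (Int.natAbs_ne_zero.mpr hb)) n4)
      (omega_le m N hm1 hmN) hL2
    have := hbad m hm
    rw [← hπ'] at this
    linarith
  -- the number of exceptional integers
  have hc1 : ∀ s ∈ Finset.range r, ((M1 s).card : ℝ) ≤ (N : ℝ) ^ (δ / 4) := by
    intro s hs
    have hs' := Finset.mem_range.mp hs
    obtain ⟨h1, h2, h3⟩ := hed s hs'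
    refine hN1 N hNN1 x hx1 hx2 (ed s) h2 h1 ?_ (jd s) h3 (cd s) (hcd s)
      ((Finset.range (x + 1)).filter (fun p : ℕ => p.Prime ∧ ed s ∣ p - 1)) ?_ (M1 s) ?_ ?_
    · rw [← hy]
      exact (hE0 s hs').trans c4
    · intro p hp
      rw [Finset.mem_filter, Finset.mem_range] at hp
      exact ⟨hp.2, Nat.lt_succ_iff.mp hp.1⟩
    · intro m hm
      exact hMM m (Finset.mem_filter.mp hm).1
    · intro m hm
      rw [← hy, ← hπ']
      exact (Finset.mem_filter.mp hm).2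
  have hc2 : ∀ q ∈ QS, ∀ i ∈ Finset.Ico 1 q, ((M2 q i).card : ℝ) ≤ (N : ℝ) ^ (δ / 4) := by
    intro q hq i hi
    rw [hQS, Finset.mem_filter, Finset.mem_range] at hq
    obtain ⟨hq1, hq2, hq3⟩ := hq
    rw [Finset.mem_Ico] at hi
    have hqQ : (q : ℝ) ≤ y ^ (1 - 4 * τ) :=
      (Nat.le_floor_iff hQ10.le).mp (Nat.lt_succ_iff.mp hq1)
    refine hN1 N hNN1 x hx1 hx2 q hq2.squarefree hq2.one_lt ?_ (fun _ => t * i) ?_ (cq b q i)
      (norm_cq_le b q i) ((Finset.range (x + 1)).filter (fun p : ℕ => p.Prime ∧ q ∣ p - 1)) ?_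
      (M2 q i) ?_ ?_
    · rw [← hy]
      exact hqQ
    · intro q' hq'
      rw [Nat.Prime.primeFactors hq2, Finset.mem_singleton] at hq'
      subst hq'
      intro hdvd
      rcases hq2.dvd_mul.mp hdvd with h | h
      · exact absurd (Nat.le_of_dvd (by omega) h) (by omega)
      · exact absurd (Nat.le_of_dvd (by omega) h) (by omega)
    · intro p hp
      rw [Finset.mem_filter, Finset.mem_range] at hp
      exact ⟨hp.2, Nat.lt_succ_iff.mp hp.1⟩
    · intro m hm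
      exact hMM m (Finset.mem_filter.mp hm).1
    · intro m hm
      rw [← hy, ← hπ']
      exact (Finset.mem_filter.mp hm).2
  have hc3 : (M3.card : ℝ) ≤ (N : ℝ) ^ (δ / 2) := by
    have hinj : Set.InjOn (fun m : ℕ => b * (m : ℤ) ^ t) (M3 : Set ℕ) := by
      intro m hm m' hm' he
      simp only at he
      have h1 : (m : ℤ) ^ t = (m' : ℤ) ^ t := mul_left_cancel₀ hb he
      have h2 : m ^ t = m' ^ t := by exact_mod_cast h1
      exact Nat.pow_left_injective (by omega) h2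
    rw [← Finset.card_image_of_injOn hinj]
    have hbN : b.natAbs ≠ 0 := Int.natAbs_ne_zero.mpr hb
    have hN' : N ≤ b.natAbs * N ^ t := by
      calc N = 1 * N ^ 1 := by ring
        _ ≤ b.natAbs * N ^ t := by
          apply Nat.mul_le_mul (by omega) (Nat.pow_le_pow_right (by omega) ht)
    have hN'' : ((b.natAbs * N ^ t : ℕ) : ℝ) ≤ (N : ℝ) ^ (t + 1) := by
      have : b.natAbs * N ^ t ≤ N ^ (t + 1) := by
        rw [pow_succ, mul_comm]
        exact Nat.mul_le_mul_left _ n4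
      exact_mod_cast this
    have hN'r : (N : ℝ) ≤ ((b.natAbs * N ^ t : ℕ) : ℝ) := by exact_mod_cast hN'
    have hmain := hN2 (b.natAbs * N ^ t) (hNN2.trans hN') x ?_ ?_
      (M3.image (fun m : ℕ => b * (m : ℤ) ^ t)) ?_ ?_
    · refine hmain.trans ?_
      calc ((b.natAbs * N ^ t : ℕ) : ℝ) ^ (δ / (2 * (t + 1)))
          ≤ ((N : ℝ) ^ (t + 1)) ^ (δ / (2 * (t + 1))) :=
            Real.rpow_le_rpow (Nat.cast_nonneg _) hN'' (by positivity)
        _ = (N : ℝ) ^ (δ / 2) := by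
          rw [← Real.rpow_natCast (N : ℝ) (t + 1), ← Real.rpow_mul hNr0.le]
          congr 1
          push_cast
          field_simp
    · refine le_trans ?_ hx1
      apply Real.exp_le_exp.mpr
      refine le_trans ?_ n5
      apply Real.rpow_le_rpow
      · exact Real.log_nonneg (hNr.trans hN'r)
      · calc Real.log ((b.natAbs * N ^ t : ℕ) : ℝ) ≤ Real.log ((N : ℝ) ^ (t + 1)) :=
              Real.log_le_log (lt_of_lt_of_le hNr0 hN'r) hN''
          _ = (t + 1) * Real.log N := by rw [Real.log_pow]; push_cast; ring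
      · linarith
    · exact hx2.trans (Real.rpow_le_rpow hNr0.le hN'r hA.le)
    · intro n hn
      rw [Finset.mem_image] at hn
      obtain ⟨m, hm, rfl⟩ := hn
      obtain ⟨hm1, hmN, -⟩ := hMM m (Finset.mem_filter.mp hm).1
      constructor
      · apply mul_ne_zero hb
        apply pow_ne_zero
        exact_mod_cast (by omega : m ≠ 0)
      · rw [Int.natAbs_mul, Int.natAbs_pow, Int.natAbs_natCast]
        exact Nat.mul_le_mul_left _ (Nat.pow_le_pow_left hmN t)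
    · intro n hn
      rw [Finset.mem_image] at hn
      obtain ⟨m, hm, rfl⟩ := hn
      have e : (1 + 4 * (2 * τ)) = 1 + 8 * τ := by ring
      rw [← hy, ← hπ', e]
      exact (Finset.mem_filter.mp hm).2
  -- conclusion
  have hk1 : (((Finset.range r).biUnion M1).card : ℝ) ≤ r * (N : ℝ) ^ (δ / 4) := by
    calc (((Finset.range r).biUnion M1).card : ℝ) ≤ ∑ s ∈ Finset.range r, ((M1 s).card : ℝ) := by
          exact_mod_cast Finset.card_biUnion_le
      _ ≤ ∑ s ∈ Finset.range r, (N : ℝ) ^ (δ / 4) := Finset.sum_le_sum hc1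
      _ = r * (N : ℝ) ^ (δ / 4) := by rw [Finset.sum_const, Finset.card_range, nsmul_eq_mul]
  have hD0 : 0 ≤ (N : ℝ) ^ (δ / 4) := by positivity
  have hk2 : ((QS.biUnion (fun q => (Finset.Ico 1 q).biUnion (fun i => M2 q i))).card : ℝ) ≤
      (A * Real.log N + 1) ^ 2 * (N : ℝ) ^ (δ / 4) := by
    calc ((QS.biUnion (fun q => (Finset.Ico 1 q).biUnion (fun i => M2 q i))).card : ℝ)
        ≤ ∑ q ∈ QS, (((Finset.Ico 1 q).biUnion (fun i => M2 q i)).card : ℝ) := by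
          exact_mod_cast Finset.card_biUnion_le
      _ ≤ ∑ q ∈ QS, y * (N : ℝ) ^ (δ / 4) := by
          apply Finset.sum_le_sum
          intro q hq
          have hq' := hq
          rw [hQS, Finset.mem_filter, Finset.mem_range] at hq'
          have hqQ : (q : ℝ) ≤ y ^ (1 - 4 * τ) :=
            (Nat.le_floor_iff hQ10.le).mp (Nat.lt_succ_iff.mp hq'.1)
          calc (((Finset.Ico 1 q).biUnion (fun i => M2 q i)).card : ℝ)
              ≤ ∑ i ∈ Finset.Ico 1 q, ((M2 q i).card : ℝ) := by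
                exact_mod_cast Finset.card_biUnion_le
            _ ≤ ∑ i ∈ Finset.Ico 1 q, (N : ℝ) ^ (δ / 4) := Finset.sum_le_sum (hc2 q hq)
            _ = ((q - 1 : ℕ) : ℝ) * (N : ℝ) ^ (δ / 4) := by
              rw [Finset.sum_const, Nat.card_Ico, nsmul_eq_mul]
            _ ≤ y * (N : ℝ) ^ (δ / 4) := by
              apply mul_le_mul_of_nonneg_right _ hD0
              calc ((q - 1 : ℕ) : ℝ) ≤ (q : ℝ) := by exact_mod_cast Nat.sub_le _ _
                _ ≤ y := hqQ.trans hQ1y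
      _ = QS.card * (y * (N : ℝ) ^ (δ / 4)) := by rw [Finset.sum_const, nsmul_eq_mul]
      _ ≤ (y + 1) * (y * (N : ℝ) ^ (δ / 4)) := by
          apply mul_le_mul_of_nonneg_right _ (by positivity)
          have h1 : QS.card ≤ ⌊y ^ (1 - 4 * τ)⌋₊ + 1 := by
            rw [hQS]
            exact (Finset.card_filter_le _ _).trans (by rw [Finset.card_range])
          have h2 : (QS.card : ℝ) ≤ (⌊y ^ (1 - 4 * τ)⌋₊ : ℝ) + 1 := by exact_mod_cast h1
          have h3 : (⌊y ^ (1 - 4 * τ)⌋₊ : ℝ) ≤ y ^ (1 - 4 * τ) := Nat.floor_le hQ10.le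
          linarith
      _ ≤ (A * Real.log N + 1) ^ 2 * (N : ℝ) ^ (δ / 4) := by
          have h1 : (y + 1) * (y * (N : ℝ) ^ (δ / 4)) = ((y + 1) * y) * (N : ℝ) ^ (δ / 4) := by ring
          rw [h1]
          apply mul_le_mul_of_nonneg_right _ hD0
          nlinarith
  have hcard : (MM.card : ℝ) ≤ (((Finset.range r).biUnion M1).card : ℝ) +
      (((QS.biUnion (fun q => (Finset.Ico 1 q).biUnion (fun i => M2 q i))).card : ℝ) +
        (M3.card : ℝ)) := by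
    have h1 := Finset.card_le_card hcov
    have h2 := Finset.card_union_le ((Finset.range r).biUnion M1)
      (QS.biUnion (fun q => (Finset.Ico 1 q).biUnion (fun i => M2 q i)) ∪ M3)
    have h3 := Finset.card_union_le
      (QS.biUnion (fun q => (Finset.Ico 1 q).biUnion (fun i => M2 q i))) M3
    exact_mod_cast (by omega : MM.card ≤ ((Finset.range r).biUnion M1).card +
      ((QS.biUnion (fun q => (Finset.Ico 1 q).biUnion (fun i => M2 q i))).card + M3.card))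
  calc (MM.card : ℝ) ≤ _ := hcard
    _ ≤ r * (N : ℝ) ^ (δ / 4) + ((A * Real.log N + 1) ^ 2 * (N : ℝ) ^ (δ / 4) +
        (N : ℝ) ^ (δ / 2)) := by linarith
    _ = (r + (A * Real.log N + 1) ^ 2) * (N : ℝ) ^ (δ / 4) + (N : ℝ) ^ (δ / 2) := by ring
    _ ≤ (N : ℝ) ^ δ := n3

end Pool.Agent.ARX
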