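import Pool.Agent.Helper8.DivBound

set_option autoImplicit false

/-!
# ARX module RDB: few representations as k-fold products

If `∏ v i = m` then each `v i` is a divisor of `m`: `|v i|` is one of the `d(|m|)` divisors and the
sign has two choices, so there are at most `(2 d(|m|))^k` such `v`; and `d(|m|) ≤ C |m|^κ ≤
C N^(k κ)` (`Pool.Agent.Helper8.ArtinLS.divisor_bound`), with `κ = θ / k^2`.
-/

namespace Pool.Agent.ARX

theorem few_representations (k : ℕ) (hk : 1 ≤ k) (θ : ℝ) (hθ : 0 < θ) :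
    ∃ C : ℝ, 1 ≤ C ∧ ∀ N : ℕ, 1 ≤ N → ∀ E : Finset ℤ, ∀ m : ℤ, m ≠ 0 → m.natAbs ≤ N ^ k →
      ((((Fintype.piFinset (fun _ : Fin k => E)).filter
        (fun v => ∏ i, v i = m)).card : ℕ) : ℝ) ≤ C * (N : ℝ) ^ θ := by
  classical
  have hkpos : (0 : ℝ) < (k : ℝ) := by exact_mod_cast hk
  have hκ : 0 < θ / (k : ℝ) ^ 2 := by positivity
  obtain ⟨C, hC1, hC⟩ := Pool.Agent.Helper8.ArtinLS.divisor_bound (θ / (k : ℝ) ^ 2) hκ
  have hC0 : (0 : ℝ) ≤ C := by linarith
  refine ⟨(2 * C) ^ k, one_le_pow₀ (by linarith), ?_⟩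
  intro N hN E m hm hmN
  have hN0 : (0 : ℝ) ≤ (N : ℝ) := Nat.cast_nonneg N
  set D : Finset ℤ := (m.natAbs.divisors).image (fun d : ℕ => (d : ℤ)) ∪
    (m.natAbs.divisors).image (fun d : ℕ => -(d : ℤ)) with hD
  have hDcard : D.card ≤ 2 * m.natAbs.divisors.card := by
    have h1 := Finset.card_union_le ((m.natAbs.divisors).image (fun d : ℕ => (d : ℤ)))
      ((m.natAbs.divisors).image (fun d : ℕ => -(d : ℤ)))
    have h2 : ((m.natAbs.divisors).image (fun d : ℕ => (d : ℤ))).card ≤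
        m.natAbs.divisors.card := Finset.card_image_le
    have h3 : ((m.natAbs.divisors).image (fun d : ℕ => -(d : ℤ))).card ≤
        m.natAbs.divisors.card := Finset.card_image_le
    rw [← hD] at h1
    omega
  have hsub : ((Fintype.piFinset (fun _ : Fin k => E)).filter
      (fun v => ∏ i, v i = m)) ⊆ Fintype.piFinset (fun _ : Fin k => D) := by
    intro v hv
    rw [Finset.mem_filter] at hv
    rw [Fintype.mem_piFinset]
    intro i
    have hdvd : v i ∣ m := by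
      rw [← hv.2]
      exact Finset.dvd_prod_of_mem _ (Finset.mem_univ i)
    have hnat : (v i).natAbs ∈ m.natAbs.divisors := by
      rw [Nat.mem_divisors]
      exact ⟨Int.natAbs_dvd_natAbs.mpr hdvd, Int.natAbs_ne_zero.mpr hm⟩
    rw [hD, Finset.mem_union, Finset.mem_image, Finset.mem_image]
    rcases Int.natAbs_eq (v i) with h | h
    · exact Or.inl ⟨(v i).natAbs, hnat, h.symm⟩
    · exact Or.inr ⟨(v i).natAbs, hnat, h.symm⟩
  have hcard : ((Fintype.piFinset (fun _ : Fin k => E)).filter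
      (fun v => ∏ i, v i = m)).card ≤ D.card ^ k := by
    refine (Finset.card_le_card hsub).trans ?_
    rw [Fintype.card_piFinset]
    simp
  have hmpos : 1 ≤ m.natAbs := Nat.one_le_iff_ne_zero.mpr (Int.natAbs_ne_zero.mpr hm)
  have hdiv := hC m.natAbs hmpos
  have hmle : (m.natAbs : ℝ) ≤ (N : ℝ) ^ k := by exact_mod_cast hmN
  have hpow : (m.natAbs : ℝ) ^ (θ / (k : ℝ) ^ 2) ≤ (N : ℝ) ^ (θ / (k : ℝ)) := by
    calc (m.natAbs : ℝ) ^ (θ / (k : ℝ) ^ 2) ≤ ((N : ℝ) ^ k) ^ (θ / (k : ℝ) ^ 2) :=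
          Real.rpow_le_rpow (Nat.cast_nonneg _) hmle hκ.le
      _ = (N : ℝ) ^ (θ / (k : ℝ)) := by
          rw [← Real.rpow_natCast, ← Real.rpow_mul hN0]
          congr 1
          field_simp
  have hNp0 : (0 : ℝ) ≤ (N : ℝ) ^ (θ / (k : ℝ)) := Real.rpow_nonneg hN0 _
  have hDreal : (D.card : ℝ) ≤ 2 * C * (N : ℝ) ^ (θ / (k : ℝ)) := by
    have h1 : (D.card : ℝ) ≤ 2 * (m.natAbs.divisors.card : ℝ) := by exact_mod_cast hDcard
    have h2 : C * (m.natAbs : ℝ) ^ (θ / (k : ℝ) ^ 2) ≤ C * (N : ℝ) ^ (θ / (k : ℝ)) :=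
      mul_le_mul_of_nonneg_left hpow hC0
    nlinarith [h1, h2, hdiv]
  calc ((((Fintype.piFinset (fun _ : Fin k => E)).filter
        (fun v => ∏ i, v i = m)).card : ℕ) : ℝ) ≤ (D.card : ℝ) ^ k := by exact_mod_cast hcard
    _ ≤ (2 * C * (N : ℝ) ^ (θ / (k : ℝ))) ^ k :=
        pow_le_pow_left₀ (Nat.cast_nonneg _) hDreal k
    _ = (2 * C) ^ k * (N : ℝ) ^ θ := by
        rw [mul_pow]
        congr 1
        rw [← Real.rpow_natCast, ← Real.rpow_mul hN0]
        congr 1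
        field_simp

end Pool.Agent.ARX
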