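import Pool.Agent.ARX.Gls
import Pool.Agent.ARX.Rdb
import Pool.Agent.ARX.Vqp

set_option autoImplicit false

/-!
# ARX module BIQ: large prime factors of the index

`big x Q n` is the number of primes `p ≤ x`, `p ∤ n`, such that `n` is a `q`-th power modulo `p`
for some prime `q ∣ p - 1`, `q > Q`.

Core inequality (`big_core`).  `E` a finite set of non zero integers, `|n| ≤ N`, `big x Q n ≥ ε π(x)`
for `n ∈ E`, `T = |E|`.  For `p ≤ x` let `t' p = #{n ∈ E : p counted for n}`.  `∑_p t' p ≥ ε π T`, so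
`P1 = {p ≤ x : t' p ≥ ε T / 2}` has at least `(ε/2) π(x)` elements.  By `sum_card_factors`
(constant `C0`) at most `(ε/4) π(x)` primes `p ≤ x` have `ω(p-1) > V := 4 C0 (1 + log log x) / ε`.
So `P2 = {p ∈ P1 : ω(p-1) ≤ V}` has at least `(ε/4) π(x)` elements; for `p ∈ P2` some prime
`q p ∣ p - 1`, `q p > Q`, has `#{n ∈ E : n is a (q p)-th power ≠ 0} ≥ ε T / (2 V) =: t`.
`larger_sieve_products` on `P2`: each summand of the left side is
`≥ t^(2k) Q log p / (p-1) ≥ t^(2k) Q (log x) / x` (`log p / (p - 1)` decreasing for `p ≥ 2`, i.e.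
`log p/(p-1) ≥ log x / x`), so
`(ε/4) π(x) t^(2k) Q (log x)/x ≤ T^(2k) (k log N + log 2) + T^k R θ(x)`, `θ(x) ≤ log 4 * x`.
-/

namespace Pool.Agent.ARX

theorem Biq_theta (x : ℕ) :
    ∑ p ∈ (Finset.range (x + 1)).filter (fun p : ℕ => p.Prime), Real.log p ≤ 2 * x := by
  have h1 := Chebyshev.theta_le_log4_mul_x (x := (x : ℝ)) (Nat.cast_nonneg x)
  have h2 : Real.log 4 ≤ 2 := by
    have h3 : Real.log 4 = 2 * Real.log 2 := by
      rw [show (4 : ℝ) = 2 ^ 2 by norm_num, Real.log_pow]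
      norm_num
    rw [h3]
    have := Real.log_two_lt_d9
    linarith
  have h4 : ∑ p ∈ (Finset.range (x + 1)).filter (fun p : ℕ => p.Prime), Real.log p =
      Chebyshev.theta (x : ℝ) := by
    rw [Chebyshev.theta_eq_sum_Icc, Nat.floor_natCast]
    apply Finset.sum_congr _ (fun _ _ => rfl)
    ext p
    simp only [Finset.mem_filter, Finset.mem_range, Finset.mem_Icc]
    constructor
    · rintro ⟨h, hp⟩
      exact ⟨⟨Nat.zero_le _, by omega⟩, hp⟩
    · rintro ⟨h, hp⟩
      exact ⟨by omega, hp⟩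
  rw [h4]
  refine h1.trans ?_
  exact mul_le_mul_of_nonneg_right h2 (Nat.cast_nonneg x)

theorem Biq_log (p x : ℕ) (hp : 3 ≤ p) (hpx : p ≤ x) :
    Real.log x / x ≤ Real.log p / ((p : ℝ) - 1) := by
  have hp' : (3 : ℝ) ≤ p := by exact_mod_cast hp
  have hpx' : (p : ℝ) ≤ x := by exact_mod_cast hpx
  have he : Real.exp 1 ≤ 3 := by
    have := Real.exp_one_lt_d9
    linarith
  have h1 : Real.log x / x ≤ Real.log p / p :=
    Real.log_div_self_antitoneOn (a := (p : ℝ)) (b := (x : ℝ))
      (by rw [Set.mem_Ici]; linarith) (by rw [Set.mem_Ici]; linarith) hpx'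
  refine h1.trans ?_
  apply div_le_div_of_nonneg_left
  · exact Real.log_nonneg (by linarith)
  · linarith
  · linarith

/-- the condition on `n` and `p` -/
def BiqW (Q : ℝ) (n : ℤ) (p : ℕ) : Prop :=
  (n : ZMod p) ≠ 0 ∧
    ∃ q : ℕ, q.Prime ∧ q ∣ p - 1 ∧ Q < (q : ℝ) ∧ ∃ y : ZMod p, y ^ q = (n : ZMod p)

open Classical in
theorem Biq_big (x : ℕ) (Q : ℝ) (n : ℤ) : big x Q n =
    ((((Finset.range (x + 1)).filter (fun p : ℕ => p.Prime)).filter
      (fun p => BiqW Q n p)).card : ℝ) := by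
  unfold big
  rw [Finset.filter_filter, Nat.cast_inj]
  congr 1
  ext p
  simp only [Finset.mem_filter, BiqW]

open Classical in
/-- the choice of the prime `q` -/
theorem Biq_q (E : Finset ℤ) (Q : ℝ) (p : ℕ) (hp : p.Prime) (a V : ℝ) (ha : 0 < a)
    (h1 : a ≤ ((E.filter (fun n => BiqW Q n p)).card : ℝ))
    (h2 : ((p - 1).primeFactors.card : ℝ) ≤ V) (hV : 0 < V) :
    ∃ q : ℕ, q.Prime ∧ q ∣ p - 1 ∧ Q < (q : ℝ) ∧ a / V ≤ ((hpow E q p).card : ℝ) := by
  by_contra hn
  push Not at hn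
  have hp1 : p - 1 ≠ 0 := by
    have := hp.two_le
    omega
  set F := (p - 1).primeFactors.filter (fun q : ℕ => Q < (q : ℝ)) with hF
  have hsub : E.filter (fun n => BiqW Q n p) ⊆ F.biUnion (fun q => hpow E q p) := by
    intro n hn'
    rw [Finset.mem_filter] at hn'
    obtain ⟨hnE, hn0, q, hq, hqp, hQq, hy⟩ := hn'
    rw [Finset.mem_biUnion]
    refine ⟨q, ?_, ?_⟩
    · rw [hF, Finset.mem_filter, Nat.mem_primeFactors]
      exact ⟨⟨hq, hqp, hp1⟩, hQq⟩
    · unfold hpow
      rw [Finset.mem_filter]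
      exact ⟨hnE, hn0, hy⟩
  have h3 : ((E.filter (fun n => BiqW Q n p)).card : ℝ) ≤ ∑ q ∈ F, ((hpow E q p).card : ℝ) := by
    have := (Finset.card_le_card hsub).trans Finset.card_biUnion_le
    exact_mod_cast this
  have hFc : (F.card : ℝ) ≤ V := by
    refine le_trans ?_ h2
    exact_mod_cast Finset.card_le_card (Finset.filter_subset _ _)
  have hne : F.Nonempty := by
    rw [Finset.nonempty_iff_ne_empty]
    intro h0
    rw [h0, Finset.sum_empty] at h3
    linarith
  have h4 : ∑ q ∈ F, ((hpow E q p).card : ℝ) < ∑ q ∈ F, a / V := by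
    apply Finset.sum_lt_sum_of_nonempty hne
    intro q hq
    rw [hF, Finset.mem_filter, Nat.mem_primeFactors] at hq
    exact hn q hq.1.1 hq.1.2.1 hq.2
  rw [Finset.sum_const, nsmul_eq_mul] at h4
  have h5 : (F.card : ℝ) * (a / V) ≤ V * (a / V) :=
    mul_le_mul_of_nonneg_right hFc (div_pos ha hV).le
  have h6 : V * (a / V) = a := mul_div_cancel₀ a hV.ne'
  linarith

open Classical in
/-- many primes are counted for many elements of `E` -/
theorem Biq_P1 (E : Finset ℤ) (x : ℕ) (ε Q : ℝ) (hε : 0 < ε) (hT : 0 < E.card)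
    (hbig : ∀ n ∈ E, ε * Nat.primeCounting x ≤ big x Q n) :
    (ε / 2) * Nat.primeCounting x ≤
      ((((Finset.range (x + 1)).filter (fun p : ℕ => p.Prime)).filter
        (fun p => ε * E.card / 2 ≤ ((E.filter (fun n => BiqW Q n p)).card : ℝ))).card : ℝ) := by
  set PX := (Finset.range (x + 1)).filter (fun p : ℕ => p.Prime) with hPX
  have hpi : (PX.card : ℝ) = Nat.primeCounting x := by
    rw [hPX, Nat.primeCounting, Nat.primeCounting', Nat.count_eq_card_filter_range]
  have hT' : (0 : ℝ) < E.card := by exact_mod_cast hT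
  have h1 : ε * Nat.primeCounting x * E.card ≤
      ∑ p ∈ PX, ((E.filter (fun n => BiqW Q n p)).card : ℝ) := by
    have h2 : ∑ p ∈ PX, ((E.filter (fun n => BiqW Q n p)).card : ℝ) = ∑ n ∈ E, big x Q n := by
      simp_rw [Biq_big, ← hPX, Finset.card_filter, Nat.cast_sum]
      exact Finset.sum_comm
    rw [h2]
    calc ε * Nat.primeCounting x * E.card = ∑ n ∈ E, ε * Nat.primeCounting x := by
          rw [Finset.sum_const, nsmul_eq_mul]; ring
      _ ≤ ∑ n ∈ E, big x Q n := Finset.sum_le_sum hbig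
  have h2 : ∑ p ∈ PX, ((E.filter (fun n => BiqW Q n p)).card : ℝ) ≤
      (E.card : ℝ) * ((PX.filter (fun p => ε * E.card / 2 ≤
        ((E.filter (fun n => BiqW Q n p)).card : ℝ))).card : ℝ) +
      ε * E.card / 2 * PX.card := by
    have h3 : ∀ p ∈ PX, ((E.filter (fun n => BiqW Q n p)).card : ℝ) ≤
        (E.card : ℝ) * (if ε * E.card / 2 ≤ ((E.filter (fun n => BiqW Q n p)).card : ℝ)
          then 1 else 0) + ε * E.card / 2 := by
      intro p _
      split_ifs with hc
      · have : ((E.filter (fun n => BiqW Q n p)).card : ℝ) ≤ E.card := by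
          exact_mod_cast Finset.card_le_card (Finset.filter_subset _ _)
        have h0 : 0 ≤ ε * E.card / 2 := by positivity
        linarith
      · rw [not_le] at hc
        linarith
    refine (Finset.sum_le_sum h3).trans (le_of_eq ?_)
    have h4 : ((PX.filter (fun p => ε * E.card / 2 ≤
        ((E.filter (fun n => BiqW Q n p)).card : ℝ))).card : ℝ) =
        ∑ p ∈ PX, if ε * E.card / 2 ≤ ((E.filter (fun n => BiqW Q n p)).card : ℝ)
          then (1 : ℝ) else 0 := by
      rw [Finset.card_filter, Nat.cast_sum]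
      apply Finset.sum_congr rfl
      intro p _
      split_ifs <;> simp
    rw [Finset.sum_add_distrib, ← Finset.mul_sum, Finset.sum_const, nsmul_eq_mul, h4]
    ring
  rw [hpi] at h2
  have h3 : (E.card : ℝ) * ((ε / 2) * Nat.primeCounting x) ≤
      (E.card : ℝ) * ((PX.filter (fun p => ε * E.card / 2 ≤
        ((E.filter (fun n => BiqW Q n p)).card : ℝ))).card : ℝ) := by
    have := h1.trans h2
    linarith
  exact le_of_mul_le_mul_left h3 hT'

/-- few primes with many prime factors of `p - 1` -/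
theorem Biq_P3 (x : ℕ) (C0 L ε : ℝ) (hC0 : 0 < C0) (hL : 0 < L) (hε : 0 < ε)
    (hS : ∑ p ∈ (Finset.range (x + 1)).filter (fun p : ℕ => p.Prime),
      ((p - 1).primeFactors.card : ℝ) ≤ C0 * Nat.primeCounting x * L) :
    ((((Finset.range (x + 1)).filter (fun p : ℕ => p.Prime)).filter
        (fun p => ¬ ((p - 1).primeFactors.card : ℝ) ≤ 4 * C0 * L / ε)).card : ℝ) ≤
      (ε / 4) * Nat.primeCounting x := by
  set PX := (Finset.range (x + 1)).filter (fun p : ℕ => p.Prime) with hPX
  set B := PX.filter (fun p => ¬ ((p - 1).primeFactors.card : ℝ) ≤ 4 * C0 * L / ε) with hB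
  have h1 : (B.card : ℝ) * (4 * C0 * L / ε) ≤ C0 * Nat.primeCounting x * L := by
    calc (B.card : ℝ) * (4 * C0 * L / ε) = ∑ p ∈ B, 4 * C0 * L / ε := by
          rw [Finset.sum_const, nsmul_eq_mul]
      _ ≤ ∑ p ∈ B, ((p - 1).primeFactors.card : ℝ) := by
          apply Finset.sum_le_sum
          intro p hp
          rw [hB, Finset.mem_filter, not_le] at hp
          exact hp.2.le
      _ ≤ ∑ p ∈ PX, ((p - 1).primeFactors.card : ℝ) :=
          Finset.sum_le_sum_of_subset_of_nonneg (Finset.filter_subset _ _)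
            (fun _ _ _ => Nat.cast_nonneg _)
      _ ≤ _ := hS
  have h2 : (4 * C0 * L / ε) * (B.card : ℝ) ≤
      (4 * C0 * L / ε) * ((ε / 4) * Nat.primeCounting x) := by
    have : (4 * C0 * L / ε) * ((ε / 4) * Nat.primeCounting x) =
        C0 * Nat.primeCounting x * L := by
      field_simp
    rw [this]
    linarith
  exact le_of_mul_le_mul_left h2 (by positivity)

theorem big_core : ∃ C0 : ℝ, 1 ≤ C0 ∧ ∀ (E : Finset ℤ) (N k R x : ℕ) (ε Q : ℝ), 1 ≤ N → 1 ≤ k →
    16 ≤ x → 0 < ε → ε ≤ 1 → 1 ≤ Q → (∀ n ∈ E, n ≠ 0 ∧ n.natAbs ≤ N) →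
    (∀ n ∈ E, ε * Nat.primeCounting x ≤ big x Q n) →
    (∀ m : ℤ, m ≠ 0 → m.natAbs ≤ N ^ k →
      ((Fintype.piFinset (fun _ : Fin k => E)).filter (fun v => ∏ i, v i = m)).card ≤ R) →
    (ε / 4) * Nat.primeCounting x *
        ((ε * E.card / (8 * C0 * (1 + Real.log (Real.log x)) / ε)) ^ (2 * k) *
          Q * (Real.log x / x)) ≤
      (E.card : ℝ) ^ (2 * k) * (k * Real.log N + Real.log 2) +
        (E.card : ℝ) ^ k * R * (2 * x) := by
  classical
  obtain ⟨C0, hC0, hS⟩ := sum_card_factors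
  refine ⟨C0, hC0, ?_⟩
  intro E N k R x ε Q hN hk hx hε hε1 hQ hE hbig hR
  have hS' := hS x (by omega)
  set L := 1 + Real.log (Real.log x) with hLdef
  have hx' : (16 : ℝ) ≤ x := by exact_mod_cast hx
  have hlogx : 1 ≤ Real.log x := by
    rw [Real.le_log_iff_exp_le (by linarith)]
    have := Real.exp_one_lt_d9
    linarith
  have hL : 1 ≤ L := by
    have := Real.log_nonneg hlogx
    linarith
  rcases Nat.eq_zero_or_pos E.card with hT | hT
  · rw [hT, Nat.cast_zero, mul_zero, zero_div, zero_pow (by omega), zero_pow (by omega)]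
    simp
  have hT' : (0 : ℝ) < E.card := by exact_mod_cast hT
  set PX := (Finset.range (x + 1)).filter (fun p : ℕ => p.Prime) with hPX
  set V := 4 * C0 * L / ε with hV
  have hVpos : 0 < V := by positivity
  set P1 := PX.filter (fun p => ε * E.card / 2 ≤ ((E.filter (fun n => BiqW Q n p)).card : ℝ))
    with hP1
  set P2 := P1.filter (fun p => ((p - 1).primeFactors.card : ℝ) ≤ V) with hP2
  have h1 := Biq_P1 E x ε Q hε hT hbig
  have h3 := Biq_P3 x C0 L ε (by linarith) (by linarith) hε hS'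
  rw [← hPX, ← hP1] at h1
  rw [← hPX, ← hV] at h3
  have hP2c : (ε / 4) * Nat.primeCounting x ≤ (P2.card : ℝ) := by
    have h4 : P1.card = P2.card +
        (P1.filter (fun p => ¬ ((p - 1).primeFactors.card : ℝ) ≤ V)).card :=
      (Finset.card_filter_add_card_filter_not _).symm
    have h5 : (P1.filter (fun p => ¬ ((p - 1).primeFactors.card : ℝ) ≤ V)).card ≤
        (PX.filter (fun p => ¬ ((p - 1).primeFactors.card : ℝ) ≤ V)).card :=
      Finset.card_le_card (Finset.filter_subset_filter _ (Finset.filter_subset _ _))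
    have h6 : (P1.card : ℝ) ≤ (P2.card : ℝ) +
        ((PX.filter (fun p => ¬ ((p - 1).primeFactors.card : ℝ) ≤ V)).card : ℝ) := by
      rw [h4]
      push_cast
      have : ((P1.filter (fun p => ¬ ((p - 1).primeFactors.card : ℝ) ≤ V)).card : ℝ) ≤
        ((PX.filter (fun p => ¬ ((p - 1).primeFactors.card : ℝ) ≤ V)).card : ℝ) := by
        exact_mod_cast h5
      linarith
    linarith
  set t : ℝ := ε * E.card / (8 * C0 * L / ε) with ht
  have ht' : t = (ε * E.card / 2) / V := by
    rw [ht, hV]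
    field_simp
    ring
  have htpos : 0 < t := by positivity
  have hq : ∀ p ∈ P2, ∃ q : ℕ, q.Prime ∧ q ∣ p - 1 ∧ Q < (q : ℝ) ∧
      t ≤ ((hpow E q p).card : ℝ) := by
    intro p hp
    rw [hP2, Finset.mem_filter, hP1, Finset.mem_filter, hPX, Finset.mem_filter] at hp
    rw [ht']
    exact Biq_q E Q p hp.1.1.2 (ε * E.card / 2) V (by positivity) hp.1.2 hp.2 hVpos
  choose! q hq1 hq2 hq3 hq4 using hq
  have hPprime : ∀ p ∈ P2, p.Prime ∧ p ≤ x := by
    intro p hp
    rw [hP2, Finset.mem_filter, hP1, Finset.mem_filter, hPX, Finset.mem_filter,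
      Finset.mem_range] at hp
    exact ⟨hp.1.1.2, by omega⟩
  have hmain := larger_sieve_products E N hN hE k hk P2 q
    (fun p hp => ⟨(hPprime p hp).1, (hq1 p hp).one_le, hq2 p hp⟩) R hR (fun _ => t)
    (fun _ _ => htpos.le) (fun p hp => hq4 p hp)
  have hlow : ∀ p ∈ P2, t ^ (2 * k) * Q * (Real.log x / x) ≤
      Real.log p * (t ^ (2 * k) * (q p : ℝ) / ((p : ℝ) - 1)) := by
    intro p hp
    obtain ⟨hpp, hpx⟩ := hPprime p hp
    have hp3 : 3 ≤ p := by
      have h2 := hpp.two_le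
      by_contra hcon
      have : p = 2 := by omega
      subst this
      have hd := hq2 2 hp
      have := Nat.le_of_dvd (by norm_num) hd
      have := (hq1 2 hp).two_le
      omega
    have hb := Biq_log p x hp3 hpx
    have hlx : 0 ≤ Real.log x / x := div_nonneg (by linarith) (by linarith)
    calc t ^ (2 * k) * Q * (Real.log x / x)
        ≤ t ^ (2 * k) * (q p : ℝ) * (Real.log p / ((p : ℝ) - 1)) := by
          apply mul_le_mul _ hb hlx
          · positivity
          · exact mul_le_mul_of_nonneg_left (hq3 p hp).le (by positivity)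
      _ = Real.log p * (t ^ (2 * k) * (q p : ℝ) / ((p : ℝ) - 1)) := by ring
  have hsum : ∑ p ∈ P2, Real.log p ≤ 2 * x := by
    refine le_trans ?_ (Biq_theta x)
    apply Finset.sum_le_sum_of_subset_of_nonneg
    · intro p hp
      rw [Finset.mem_filter, Finset.mem_range]
      obtain ⟨hpp, hpx⟩ := hPprime p hp
      exact ⟨by omega, hpp⟩
    · intro p _ _
      exact Real.log_natCast_nonneg p
  have hX : 0 ≤ t ^ (2 * k) * Q * (Real.log x / x) := by
    have hlx : 0 ≤ Real.log x / x := div_nonneg (by linarith) (by linarith)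
    have : 0 ≤ Q := by linarith
    positivity
  calc (ε / 4) * Nat.primeCounting x * (t ^ (2 * k) * Q * (Real.log x / x))
      ≤ (P2.card : ℝ) * (t ^ (2 * k) * Q * (Real.log x / x)) :=
        mul_le_mul_of_nonneg_right hP2c hX
    _ = ∑ p ∈ P2, t ^ (2 * k) * Q * (Real.log x / x) := by rw [Finset.sum_const, nsmul_eq_mul]
    _ ≤ ∑ p ∈ P2, Real.log p * (t ^ (2 * k) * (q p : ℝ) / ((p : ℝ) - 1)) :=
        Finset.sum_le_sum hlow
    _ ≤ _ := hmain
    _ ≤ _ := by
        have hR0 : (0 : ℝ) ≤ (E.card : ℝ) ^ k * R := by positivity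
        have := mul_le_mul_of_nonneg_left hsum hR0
        linarith

end Pool.Agent.ARX
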