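import Mathlib

set_option autoImplicit false

/-!
# ARX module BXC: sums of periodic functions over boxes (pure analysis)

`G` periodic modulo `M0` in each coordinate, `|G| ≤ 1`, with complete sum zero.  Write
`2Y+1 = M0 t + r`, `0 ≤ r < M0`.  The sub-box with all coordinates in `[-Y, -Y + M0 t)` is a
disjoint union of `t^D` complete systems of residues, so the sum over it vanishes; the remaining
points number `(2Y+1)^D - (M0 t)^D ≤ D (2Y+1)^(D-1) r ≤ D (2Y+1)^(D-1) M0`.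
(Alternatively induct on the dimension.)
-/

namespace Pool.Agent.ARX

/-- the sum over a shifted complete system of residues -/
private theorem bxc_shift {D : ℕ} (M0 : ℕ) (hM0 : 1 ≤ M0) (G : (Fin D → ℤ) → ℂ)
    (hper : ∀ x y : Fin D → ℤ, G (x + (M0 : ℤ) • y) = G x) (c : Fin D → ℤ) :
    ∑ x ∈ Fintype.piFinset (fun _ : Fin D => Finset.Ico (0 : ℤ) (M0 : ℤ)), G (c + x) =
      ∑ x ∈ Fintype.piFinset (fun _ : Fin D => Finset.Ico (0 : ℤ) (M0 : ℤ)), G x := by
  have hM : (0 : ℤ) < (M0 : ℤ) := by exact_mod_cast hM0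
  have hM' : (M0 : ℤ) ≠ 0 := hM.ne'
  apply Finset.sum_nbij' (i := fun x => fun i => (c i + x i) % (M0 : ℤ))
    (j := fun x => fun i => (x i - c i) % (M0 : ℤ))
  · intro x _
    rw [Fintype.mem_piFinset]
    intro i
    rw [Finset.mem_Ico]
    exact ⟨Int.emod_nonneg _ hM', Int.emod_lt_of_pos _ hM⟩
  · intro x _
    rw [Fintype.mem_piFinset]
    intro i
    rw [Finset.mem_Ico]
    exact ⟨Int.emod_nonneg _ hM', Int.emod_lt_of_pos _ hM⟩
  · intro x hx
    rw [Fintype.mem_piFinset] at hx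
    funext i
    have h1 := Finset.mem_Ico.mp (hx i)
    have h2 : ((c i + x i) % (M0 : ℤ) - c i) % (M0 : ℤ) = x i % (M0 : ℤ) := by
      rw [Int.emod_sub_emod]
      congr 1
      ring
    show ((c i + x i) % (M0 : ℤ) - c i) % (M0 : ℤ) = x i
    rw [h2, Int.emod_eq_of_lt h1.1 h1.2]
  · intro x hx
    rw [Fintype.mem_piFinset] at hx
    funext i
    have h1 := Finset.mem_Ico.mp (hx i)
    have h2 : (c i + (x i - c i) % (M0 : ℤ)) % (M0 : ℤ) = x i % (M0 : ℤ) := by
      rw [Int.add_emod_emod]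
      congr 1
      ring
    show (c i + (x i - c i) % (M0 : ℤ)) % (M0 : ℤ) = x i
    rw [h2, Int.emod_eq_of_lt h1.1 h1.2]
  · intro x _
    rw [← hper (fun i => (c i + x i) % (M0 : ℤ)) (fun i => (c i + x i) / (M0 : ℤ))]
    congr 1
    funext i
    simp only [Pi.add_apply, Pi.smul_apply, smul_eq_mul]
    exact (Int.emod_add_mul_ediv _ _).symm

/-- the sum over a union of complete systems vanishes -/
private theorem bxc_union {D : ℕ} (M0 : ℕ) (hM0 : 1 ≤ M0) (G : (Fin D → ℤ) → ℂ)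
    (hper : ∀ x y : Fin D → ℤ, G (x + (M0 : ℤ) • y) = G x)
    (h0 : ∑ x ∈ Fintype.piFinset (fun _ : Fin D => Finset.Ico (0 : ℤ) (M0 : ℤ)), G x = 0)
    (Y t : ℕ) :
    ∑ x ∈ Fintype.piFinset (fun _ : Fin D => Finset.Ico (-(Y : ℤ)) (-(Y : ℤ) + M0 * t)), G x
      = 0 := by
  have hM : (0 : ℤ) < (M0 : ℤ) := by exact_mod_cast hM0
  have hM' : (M0 : ℤ) ≠ 0 := hM.ne'
  have key : ∑ x ∈ Fintype.piFinset (fun _ : Fin D => Finset.Ico (-(Y : ℤ)) (-(Y : ℤ) + M0 * t)),
      G x = ∑ z ∈ (Fintype.piFinset (fun _ : Fin D => Finset.Ico (0 : ℤ) (t : ℤ))) ×ˢ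
        (Fintype.piFinset (fun _ : Fin D => Finset.Ico (0 : ℤ) (M0 : ℤ))),
        G ((fun _ => -(Y : ℤ)) + z.2) := by
    apply Finset.sum_nbij'
      (i := fun x => ((fun i => (x i + Y) / (M0 : ℤ)), (fun i => (x i + Y) % (M0 : ℤ))))
      (j := fun z => fun i => -(Y : ℤ) + (M0 : ℤ) * z.1 i + z.2 i)
    · intro x hx
      rw [Fintype.mem_piFinset] at hx
      rw [Finset.mem_product, Fintype.mem_piFinset, Fintype.mem_piFinset]
      constructor
      · intro i
        have h1 := Finset.mem_Ico.mp (hx i)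
        rw [Finset.mem_Ico]
        constructor
        · exact Int.ediv_nonneg (by linarith) hM.le
        · apply Int.ediv_lt_of_lt_mul hM
          linarith
      · intro i
        rw [Finset.mem_Ico]
        exact ⟨Int.emod_nonneg _ hM', Int.emod_lt_of_pos _ hM⟩
    · intro z hz
      rw [Finset.mem_product, Fintype.mem_piFinset, Fintype.mem_piFinset] at hz
      rw [Fintype.mem_piFinset]
      intro i
      have h1 := Finset.mem_Ico.mp (hz.1 i)
      have h2 := Finset.mem_Ico.mp (hz.2 i)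
      rw [Finset.mem_Ico]
      constructor
      · have := mul_nonneg hM.le h1.1
        linarith [h2.1]
      · have h3 : (M0 : ℤ) * z.1 i ≤ M0 * (t - 1) :=
          mul_le_mul_of_nonneg_left (by linarith [h1.2]) hM.le
        linarith [h2.2]
    · intro x _
      funext i
      show -(Y : ℤ) + (M0 : ℤ) * ((x i + Y) / (M0 : ℤ)) + (x i + Y) % (M0 : ℤ) = x i
      have := Int.mul_ediv_add_emod (x i + Y) (M0 : ℤ)
      linarith
    · intro z hz
      rw [Finset.mem_product, Fintype.mem_piFinset, Fintype.mem_piFinset] at hz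
      apply Prod.ext
      · funext i
        have h2 := Finset.mem_Ico.mp (hz.2 i)
        show (-(Y : ℤ) + (M0 : ℤ) * z.1 i + z.2 i + Y) / (M0 : ℤ) = z.1 i
        have h3 : -(Y : ℤ) + (M0 : ℤ) * z.1 i + z.2 i + Y = z.2 i + (M0 : ℤ) * z.1 i := by ring
        rw [h3, Int.add_mul_ediv_left _ _ hM', Int.ediv_eq_zero_of_lt h2.1 h2.2, zero_add]
      · funext i
        have h2 := Finset.mem_Ico.mp (hz.2 i)
        show (-(Y : ℤ) + (M0 : ℤ) * z.1 i + z.2 i + Y) % (M0 : ℤ) = z.2 i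
        have h3 : -(Y : ℤ) + (M0 : ℤ) * z.1 i + z.2 i + Y = z.2 i + (M0 : ℤ) * z.1 i := by ring
        rw [h3, Int.add_mul_emod_self_left, Int.emod_eq_of_lt h2.1 h2.2]
    · intro x _
      rw [← hper ((fun _ => -(Y : ℤ)) + fun i => (x i + Y) % (M0 : ℤ))
        (fun i => (x i + Y) / (M0 : ℤ))]
      congr 1
      funext i
      simp only [Pi.add_apply, Pi.smul_apply, smul_eq_mul]
      have := Int.mul_ediv_add_emod (x i + Y) (M0 : ℤ)
      linarith
  rw [key, Finset.sum_product]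
  apply Finset.sum_eq_zero
  intro k _
  rw [bxc_shift M0 hM0 G hper, h0]

private theorem bxc_pow (D : ℕ) (a b : ℝ) (hb : 0 ≤ b) (hab : b ≤ a) :
    a ^ D - b ^ D ≤ (D : ℝ) * a ^ (D - 1) * (a - b) := by
  rw [← geom_sum₂_mul]
  apply mul_le_mul_of_nonneg_right _ (by linarith)
  have h1 : ∀ i ∈ Finset.range D, a ^ i * b ^ (D - 1 - i) ≤ a ^ (D - 1) := by
    intro i hi
    have hi' := Finset.mem_range.mp hi
    calc a ^ i * b ^ (D - 1 - i) ≤ a ^ i * a ^ (D - 1 - i) :=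
          mul_le_mul_of_nonneg_left (pow_le_pow_left₀ hb hab _) (pow_nonneg (hb.trans hab) _)
      _ = a ^ (D - 1) := by
          rw [← pow_add]
          congr 1
          omega
  refine (Finset.sum_le_sum h1).trans ?_
  simp

theorem box_sum {D : ℕ} (hD : 1 ≤ D) (M0 : ℕ) (hM0 : 1 ≤ M0) (G : (Fin D → ℤ) → ℂ)
    (hG : ∀ x, ‖G x‖ ≤ 1) (hper : ∀ x y : Fin D → ℤ, G (x + (M0 : ℤ) • y) = G x)
    (h0 : ∑ x ∈ Fintype.piFinset (fun _ : Fin D => Finset.Ico (0 : ℤ) (M0 : ℤ)), G x = 0)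
    (Y : ℕ) :
    ‖∑ x ∈ Fintype.piFinset (fun _ : Fin D => Finset.Icc (-(Y : ℤ)) (Y : ℤ)), G x‖ ≤
      (D : ℝ) * M0 * (2 * (Y : ℝ) + 1) ^ (D - 1) := by
  classical
  set t := (2 * Y + 1) / M0 with ht
  have hdm : M0 * t + (2 * Y + 1) % M0 = 2 * Y + 1 := Nat.div_add_mod _ _
  have hlt : (2 * Y + 1) % M0 < M0 := Nat.mod_lt _ hM0
  set B := Fintype.piFinset (fun _ : Fin D => Finset.Icc (-(Y : ℤ)) (Y : ℤ)) with hB
  set B' := Fintype.piFinset
    (fun _ : Fin D => Finset.Ico (-(Y : ℤ)) (-(Y : ℤ) + M0 * t)) with hB'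
  have hle : (M0 : ℤ) * t ≤ 2 * Y + 1 := by
    have : M0 * t ≤ 2 * Y + 1 := by omega
    exact_mod_cast this
  have hsub : B' ⊆ B := by
    intro x hx
    rw [hB', Fintype.mem_piFinset] at hx
    rw [hB, Fintype.mem_piFinset]
    intro i
    have h1 := Finset.mem_Ico.mp (hx i)
    rw [Finset.mem_Icc]
    constructor
    · exact h1.1
    · have := h1.2
      linarith
  have hsum : ∑ x ∈ B, G x = ∑ x ∈ B \ B', G x := by
    rw [← Finset.sum_sdiff hsub, hB', bxc_union M0 hM0 G hper h0 Y t, add_zero]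
  have hcB : B.card = (2 * Y + 1) ^ D := by
    rw [hB, Fintype.card_piFinset]
    simp only [Int.card_Icc, Finset.prod_const, Finset.card_univ, Fintype.card_fin]
    congr 1
    omega
  have hcB' : B'.card = (M0 * t) ^ D := by
    rw [hB', Fintype.card_piFinset]
    simp only [Int.card_Ico, Finset.prod_const, Finset.card_univ, Fintype.card_fin]
    congr 1
    rw [add_sub_cancel_left]
    exact_mod_cast Int.toNat_natCast (M0 * t)
  have hcard : ((B \ B').card : ℝ) = (2 * (Y : ℝ) + 1) ^ D - ((M0 : ℝ) * t) ^ D := by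
    rw [Finset.cast_card_sdiff hsub, hcB, hcB']
    push_cast
    ring
  rw [hsum]
  have h1 : ‖∑ x ∈ B \ B', G x‖ ≤ ((B \ B').card : ℝ) := by
    refine (norm_sum_le _ _).trans ?_
    refine (Finset.sum_le_sum (fun x _ => hG x)).trans ?_
    simp
  have hle' : (M0 : ℝ) * t ≤ 2 * (Y : ℝ) + 1 := by exact_mod_cast hle
  have h2 := bxc_pow D (2 * (Y : ℝ) + 1) ((M0 : ℝ) * t) (by positivity) hle'
  have h3 : 2 * (Y : ℝ) + 1 - (M0 : ℝ) * t ≤ M0 := by
    have h4 : (2 * (Y : ℝ) + 1) ≤ (M0 : ℝ) * t + M0 := by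
      have : 2 * Y + 1 ≤ M0 * t + M0 := by omega
      exact_mod_cast this
    linarith
  rw [hcard] at h1
  refine (h1.trans h2).trans ?_
  calc (D : ℝ) * (2 * (Y : ℝ) + 1) ^ (D - 1) * (2 * (Y : ℝ) + 1 - (M0 : ℝ) * t)
      ≤ (D : ℝ) * (2 * (Y : ℝ) + 1) ^ (D - 1) * M0 :=
        mul_le_mul_of_nonneg_left h3 (by positivity)
    _ = (D : ℝ) * M0 * (2 * (Y : ℝ) + 1) ^ (D - 1) := by ring

end Pool.Agent.ARX
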