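import Mathlib

set_option autoImplicit false

/-!
# ARX module CEX (pure arithmetic)

`q` prime, `q ∤ c`.  `i ↦ (c * i) % q` is a bijection from `[1, q-1]` to itself; `i = q - 1` is sent
to `q - c % q`.  So on `[1, q-2]` the values are all of `[1, q-1]` except `q - c % q`, and the
condition `(c * i) % q < q - c % q` holds for exactly `q - 1 - c % q` values.
Also `c % q + (c * i) % q ≠ q` for `1 ≤ i ≤ q - 2` (else `q ∣ c (i+1)`).
-/

namespace Pool.Agent.ARX

private lemma cex_not_dvd {q : ℕ} (c : ℕ) (hc : 1 ≤ c % q) : ¬ q ∣ c := fun h => by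
  rw [Nat.mod_eq_zero_of_dvd h] at hc
  omega

theorem residue_ne {q : ℕ} (hq : q.Prime) (c : ℕ) (hc : 1 ≤ c % q) {i : ℕ}
    (hi : i ∈ Finset.Ico 1 (q - 1)) : c % q + (c * i) % q ≠ q ∧ 1 ≤ (c * i) % q := by
  rw [Finset.mem_Ico] at hi
  have hn := cex_not_dvd c hc
  constructor
  · intro h
    have h1 : q ∣ c * (i + 1) := by
      have h2 : (c + c * i) % q = 0 := by
        rw [Nat.add_mod, h, Nat.mod_self]
      have h3 : c * (i + 1) = c + c * i := by ring
      rw [h3]
      exact Nat.dvd_of_mod_eq_zero h2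
    rcases (hq.dvd_mul).1 h1 with h2 | h2
    · exact hn h2
    · have := Nat.le_of_dvd (by omega) h2
      omega
  · by_contra h
    have h1 : q ∣ c * i := Nat.dvd_of_mod_eq_zero (by omega)
    rcases (hq.dvd_mul).1 h1 with h2 | h2
    · exact hn h2
    · have := Nat.le_of_dvd (by omega) h2
      omega

theorem card_exponent {q : ℕ} (hq : q.Prime) (c : ℕ) (hc : 1 ≤ c % q) :
    1 + ((Finset.Ico 1 (q - 1)).filter (fun i => c % q + (c * i) % q < q)).card = q - c % q := by
  have hq0 : 0 < q := hq.pos
  have hcq : c % q < q := Nat.mod_lt _ hq0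
  have hn := cex_not_dvd c hc
  have hcop : Nat.Coprime c q := ((Nat.Prime.coprime_iff_not_dvd hq).2 hn).symm
  have key : ((Finset.Ico 1 (q - 1)).filter (fun i => c % q + (c * i) % q < q)).card =
      (Finset.Ico 1 (q - c % q)).card := by
    refine Finset.card_bij (fun i _ => (c * i) % q) ?_ ?_ ?_
    · intro i hi
      rw [Finset.mem_filter] at hi
      have h1 := (residue_ne hq c hc hi.1).2
      rw [Finset.mem_Ico]
      omega
    · intro i hi j hj hij
      rw [Finset.mem_filter, Finset.mem_Ico] at hi hj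
      have h1 : c * i ≡ c * j [MOD q] := hij
      have h2 : i ≡ j [MOD q] := Nat.ModEq.cancel_left_of_coprime (by
        rw [Nat.gcd_comm]; exact hcop) h1
      exact Nat.ModEq.eq_of_lt_of_lt h2 (by omega) (by omega)
    · intro v hv
      rw [Finset.mem_Ico] at hv
      have : Fact q.Prime := ⟨hq⟩
      have : NeZero q := ⟨hq.ne_zero⟩
      have hc0 : (c : ZMod q) ≠ 0 := by
        rw [Ne, ZMod.natCast_eq_zero_iff]
        exact hn
      set i : ℕ := ((c : ZMod q)⁻¹ * (v : ZMod q)).val with hi
      have hiq : i < q := ZMod.val_lt _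
      have hci : (c * i) % q = v := by
        have h1 : ((c * i : ℕ) : ZMod q) = (v : ZMod q) := by
          rw [Nat.cast_mul, hi, ZMod.natCast_val, ZMod.cast_id', id, mul_inv_cancel_left₀ hc0]
        have h2 := (ZMod.natCast_eq_natCast_iff _ _ _).1 h1
        have h3 : (c * i) % q = v % q := h2
        rw [h3, Nat.mod_eq_of_lt (by omega)]
      have hi0 : i ≠ 0 := by
        intro h0
        rw [h0, Nat.mul_zero, Nat.zero_mod] at hci
        omega
      have hi1 : i ≠ q - 1 := by
        intro h0
        have h1 : (c % q + (c * i) % q) % q = 0 := by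
          rw [← Nat.add_mod]
          have h2 : c + c * i = c * q := by
            rw [h0]
            have : c * q = c * ((q - 1) + 1) := by rw [Nat.sub_add_cancel hq0]
            rw [this]; ring
          rw [h2, Nat.mul_mod_left]
        rw [hci, Nat.mod_eq_of_lt (by omega)] at h1
        omega
      refine ⟨i, ?_, hci⟩
      rw [Finset.mem_filter, Finset.mem_Ico]
      refine ⟨⟨by omega, by omega⟩, ?_⟩
      rw [hci]
      omega
  rw [key, Nat.card_Ico]
  omega

end Pool.Agent.ARX
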