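import Mathlib

set_option autoImplicit false

/-!
# ARX module CNT: counting ideals of given norm

`a(c)`, the number of ideals of absolute norm `c`, is at most `D ^ (log2 c)`, `D` the degree.
Induction on `c`.  `c = 1`: only `⊤`.  `c > 1`: take a prime `l ∣ c`; an ideal `I` of norm `c` is
contained in a prime ideal `P` over `l` (otherwise `I` is prime to `l`; e.g. `absNorm I ∈ I`,
`I ≠ ⊤`, all primes containing `I` lie over primes dividing `c`, and by multiplicativity of the
norm some prime factor of `I` lies over `l`), `I = P * I'`, `absNorm I' = c / absNorm P`,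
`absNorm P = l ^ g` with `g ≥ 1`, so `absNorm I' ≤ c / 2`.  There are at most `D` primes over `l`
(`∑ e_P f_P = D`).  So `a(c) ≤ D * D ^ (log2 (c/2)) ≤ D ^ (log2 c)`.
-/

namespace Pool.Agent.ARX

open NumberField

set_option linter.deprecated false in
/-- the prime ideals over a prime number are at most as many as the degree -/
private theorem cnt_over (K : Type) [Field K] [NumberField K] (l : ℕ) (hl : l.Prime) :
    ∃ Q : Finset (Ideal (𝓞 K)), Q.card ≤ Module.finrank ℚ K ∧
      (∀ P ∈ Q, P ≠ ⊤) ∧ ∀ I : Ideal (𝓞 K), l ∣ Ideal.absNorm I → ∃ P ∈ Q, P ∣ I := by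
  classical
  have hl' : Prime (l : ℤ) := Nat.prime_iff_prime_int.mp hl
  have hp0 : (Ideal.span {(l : ℤ)} : Ideal ℤ) ≠ ⊥ := by
    rw [Ne, Ideal.span_singleton_eq_bot]
    exact hl'.ne_zero
  have hpm : (Ideal.span {(l : ℤ)} : Ideal ℤ).IsMaximal :=
    ((Ideal.span_singleton_prime hl'.ne_zero).mpr hl').isMaximal hp0
  refine ⟨IsDedekindDomain.primesOverFinset (Ideal.span {(l : ℤ)}) (𝓞 K),
    Ideal.card_primesOverFinset_le_finrank (𝓞 K) ℚ K hp0, ?_, ?_⟩
  · intro P hP
    exact ((IsDedekindDomain.mem_primesOverFinset_iff hp0 _).mp hP).1.ne_top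
  · intro I hI
    obtain ⟨P, hPm, hPu, hPI⟩ := Ideal.exists_isMaximal_dvd_of_dvd_absNorm' hl I hI
    exact ⟨P, (IsDedekindDomain.mem_primesOverFinset_iff hp0 _).mpr
      ⟨hPm.isPrime, ⟨hPu.symm⟩⟩, hPI⟩

theorem ideal_count (K : Type) [Field K] [NumberField K] (c : ℕ) (hc : 1 ≤ c)
    (T : Finset (Ideal (𝓞 K))) (hT : ∀ I ∈ T, Ideal.absNorm I = c) :
    T.card ≤ (Module.finrank ℚ K) ^ (Nat.log 2 c) := by
  classical
  induction c using Nat.strong_induction_on generalizing T with
  | _ c ih =>
    by_cases hc1 : c = 1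
    · subst hc1
      have hsub : T ⊆ {⊤} := fun I hI =>
        Finset.mem_singleton.2 (Ideal.absNorm_eq_one_iff.1 (hT I hI))
      calc T.card ≤ ({⊤} : Finset (Ideal (𝓞 K))).card := Finset.card_le_card hsub
        _ = 1 := Finset.card_singleton _
        _ ≤ _ := by simp
    · have hc2 : 2 ≤ c := by omega
      set D := Module.finrank ℚ K with hD
      have hD1 : 1 ≤ D := Module.finrank_pos
      obtain ⟨Q, hQc, hQt, hQ⟩ := cnt_over K c.minFac (Nat.minFac_prime hc1)
      have hcov : T ⊆ Q.biUnion (fun P => T.filter (fun I => P ∣ I)) := by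
        intro I hI
        have h1 : c.minFac ∣ Ideal.absNorm I := by
          rw [hT I hI]
          exact Nat.minFac_dvd c
        obtain ⟨P, hPQ, hPI⟩ := hQ I h1
        exact Finset.mem_biUnion.2 ⟨P, hPQ, Finset.mem_filter.2 ⟨hI, hPI⟩⟩
      have hbound : ∀ P ∈ Q, (T.filter (fun I => P ∣ I)).card ≤ D ^ (Nat.log 2 c - 1) := by
        intro P hP
        rcases (T.filter (fun I => P ∣ I)).eq_empty_or_nonempty with he | ⟨I0, hI0⟩
        · rw [he, Finset.card_empty]
          exact Nat.zero_le _
        · obtain ⟨hI0T, J0, hJ0⟩ := Finset.mem_filter.1 hI0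
          have hm0 : Ideal.absNorm P * Ideal.absNorm J0 = c := by
            rw [← map_mul, ← hJ0, hT I0 hI0T]
          have hmpos : 0 < Ideal.absNorm P := by
            rcases Nat.eq_zero_or_pos (Ideal.absNorm P) with h | h
            · rw [h, zero_mul] at hm0; omega
            · exact h
          have hm1 : Ideal.absNorm P ≠ 1 := fun h =>
            hQt P hP (Ideal.absNorm_eq_one_iff.1 h)
          have hm2 : 2 ≤ Ideal.absNorm P := by omega
          let g : Ideal (𝓞 K) → Ideal (𝓞 K) := fun I => if h : P ∣ I then h.choose else ⊥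
          have hg : ∀ I, P ∣ I → P * g I = I := by
            intro I h
            simp only [g, dif_pos h]
            exact h.choose_spec.symm
          have hinj : Set.InjOn g (T.filter (fun I => P ∣ I) : Finset (Ideal (𝓞 K))) := by
            intro I hI J hJ hIJ
            rw [← hg I (Finset.mem_filter.1 (Finset.mem_coe.1 hI)).2, hIJ,
              hg J (Finset.mem_filter.1 (Finset.mem_coe.1 hJ)).2]
          rw [← Finset.card_image_of_injOn hinj]
          have hdiv : c / Ideal.absNorm P ≤ c / 2 := Nat.div_le_div_left hm2 (by norm_num)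
          have hdvd : Ideal.absNorm P ∣ c := ⟨_, hm0.symm⟩
          have hpos : 1 ≤ c / Ideal.absNorm P :=
            Nat.div_pos (Nat.le_of_dvd (by omega) hdvd) hmpos
          have hlt : c / Ideal.absNorm P < c :=
            lt_of_le_of_lt hdiv (Nat.div_lt_self (by omega) (by norm_num))
          refine (ih (c / Ideal.absNorm P) hlt hpos _ ?_).trans ?_
          · intro J hJ
            obtain ⟨I, hI, rfl⟩ := Finset.mem_image.1 hJ
            obtain ⟨hIT, hPI⟩ := Finset.mem_filter.1 hI
            have h2 := congrArg Ideal.absNorm (hg I hPI)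
            rw [map_mul, hT I hIT] at h2
            rw [← h2, Nat.mul_div_cancel_left _ hmpos]
          · refine Nat.pow_le_pow_right hD1 ?_
            rw [← Nat.log_div_base]
            exact Nat.log_mono_right hdiv
      have hlog : 1 ≤ Nat.log 2 c := Nat.log_pos (by norm_num) hc2
      calc T.card ≤ (Q.biUnion (fun P => T.filter (fun I => P ∣ I))).card :=
            Finset.card_le_card hcov
        _ ≤ ∑ P ∈ Q, (T.filter (fun I => P ∣ I)).card := Finset.card_biUnion_le
        _ ≤ ∑ _P ∈ Q, D ^ (Nat.log 2 c - 1) := Finset.sum_le_sum hbound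
        _ = Q.card * D ^ (Nat.log 2 c - 1) := by rw [Finset.sum_const, smul_eq_mul]
        _ ≤ D * D ^ (Nat.log 2 c - 1) := Nat.mul_le_mul_right _ hQc
        _ = D ^ (Nat.log 2 c) := by
            rw [← pow_succ']
            congr 1
            omega

end Pool.Agent.ARX
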