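import Pool.Agent.ARX.Defs

set_option autoImplicit false

/-!
# ARX module CYC: basic facts on the cyclotomic ring

Everything comes from Mathlib: `IsCyclotomicExtension.zeta_spec`, `IsPrimitiveRoot.toInteger`,
`IsPrimitiveRoot.integralPowerBasis` (for every order), `IsCyclotomicExtension.Rat.galEquivZMod`,
`IsCyclotomicExtension.Rat.galEquivZMod_smul_of_pow_eq`, `Algebra.norm_eq_prod_automorphisms`.

* `hom_ext`: two ring homomorphisms agreeing at `zt` agree (the power basis).
* `exists_hom`: `PowerBasis.lift` with `IsPrimitiveRoot.isRoot_cyclotomic`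
  (`minpoly ℤ zt = cyclotomic e ℤ`).
* `norm_eq`: product over the Galois group (`Algebra.norm_eq_prod_automorphisms` for `K/ℚ`, or
  `Algebra.norm_eq_prod_embeddings`).
* `conj_emb`: both sides are ring homomorphisms in `α`, so by `hom_ext` look at `zt` only:
  `τ zt` is a root of unity, so its conjugate is its inverse, and `sig (-1) zt` is the inverse
  of `zt`.
-/

namespace Pool.Agent.ARX

open NumberField

/-- the cyclotomic field exists (already proved) -/
theorem exists_cyc (e : ℕ) [NeZero e] : ∃ (K : Type) (_ : Field K) (_ : NumberField K),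
    IsCyclotomicExtension {e} ℚ K := by
  refine ⟨CyclotomicField e ℚ, inferInstance, ?_, ?_⟩
  · convert (inferInstance : @NumberField (CyclotomicField e ℚ) _)
  · have h := CyclotomicField.isCyclotomicExtension e ℚ
    have h2 : (DivisionRing.toRatAlgebra : Algebra ℚ (CyclotomicField e ℚ)) =
      CyclotomicField.algebra e ℚ := Subsingleton.elim _ _
    rw [h2]
    exact h

variable (e : ℕ) [NeZero e] (K : Type) [Field K] [NumberField K] [IsCyclotomicExtension {e} ℚ K]

theorem zt_prim : IsPrimitiveRoot (zt e K) e :=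
  (IsCyclotomicExtension.zeta_spec e ℚ K).toInteger_isPrimitiveRoot

theorem sig_zt (b : (ZMod e)ˣ) : sig e K b (zt e K) = zt e K ^ (b : ZMod e).val := by
  have h := IsCyclotomicExtension.Rat.galEquivZMod_smul_of_pow_eq e K
    ((IsCyclotomicExtension.Rat.galEquivZMod e K).symm b) (zt_prim e K).pow_eq_one
  rw [MulEquiv.apply_symm_apply] at h
  exact h

private noncomputable def cyc_pb : PowerBasis ℤ (𝓞 K) :=
  (IsCyclotomicExtension.zeta_spec e ℚ K).integralPowerBasis

private theorem cyc_pb_gen : (cyc_pb e K).gen = zt e K :=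
  (IsCyclotomicExtension.zeta_spec e ℚ K).integralPowerBasis_gen

private theorem cyc_pb_dim : (cyc_pb e K).dim = Nat.totient e :=
  (IsCyclotomicExtension.zeta_spec e ℚ K).integralPowerBasis_dim

theorem hom_ext {R : Type*} [CommRing R] (f g : 𝓞 K →+* R) (h : f (zt e K) = g (zt e K)) :
    f = g := by
  have hh : f.toIntAlgHom = g.toIntAlgHom := by
    apply (cyc_pb e K).algHom_ext
    rw [cyc_pb_gen]
    exact h
  ext x
  exact DFunLike.congr_fun hh x

theorem sig_one : sig e K 1 = RingHom.id (𝓞 K) := by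
  apply hom_ext e K
  rw [sig_zt, RingHom.id_apply]
  rcases Nat.lt_or_ge 1 e with h | h
  · have : Fact (1 < e) := ⟨h⟩
    rw [Units.val_one, ZMod.val_one, pow_one]
  · have he : e = 1 := le_antisymm h (Nat.one_le_iff_ne_zero.2 (NeZero.ne e))
    have h1 : zt e K = 1 := by
      have := (zt_prim e K).pow_eq_one
      have h2 : zt e K ^ e = zt e K ^ 1 := by rw [← he]
      rw [h2, pow_one] at this
      exact this
    rw [h1, one_pow]

theorem sig_mul (a b : (ZMod e)ˣ) : sig e K (a * b) = (sig e K a).comp (sig e K b) := by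
  ext x
  simp only [sig, map_mul, RingHom.comp_apply]
  rw [MulSemiringAction.toRingHom_apply, MulSemiringAction.toRingHom_apply,
    MulSemiringAction.toRingHom_apply, mul_smul]

/-- `sig b` is bijective, with inverse `sig b⁻¹`. -/
theorem sig_inv_apply (b : (ZMod e)ˣ) (α : 𝓞 K) :
    sig e K b (sig e K b⁻¹ α) = α ∧ sig e K b⁻¹ (sig e K b α) = α := by
  constructor
  · rw [← RingHom.comp_apply, ← sig_mul, mul_inv_cancel, sig_one, RingHom.id_apply]
  · rw [← RingHom.comp_apply, ← sig_mul, inv_mul_cancel, sig_one, RingHom.id_apply]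

theorem exists_hom {R : Type*} [CommRing R] [IsDomain R] (r : R) (hr : IsPrimitiveRoot r e) :
    ∃ f : 𝓞 K →+* R, f (zt e K) = r := by
  have hm : minpoly ℤ (cyc_pb e K).gen = Polynomial.cyclotomic e ℤ := by
    have hK := (IsCyclotomicExtension.zeta_spec e ℚ K)
    have h0 := Polynomial.cyclotomic_eq_minpoly hK (NeZero.pos e)
    rw [h0, cyc_pb_gen]
    exact (minpoly.algebraMap_eq (A := ℤ) (B := 𝓞 K) (B' := K)
      RingOfIntegers.coe_injective (zt e K)).symm
  have hz : Polynomial.aeval r (minpoly ℤ (cyc_pb e K).gen) = 0 := by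
    rw [hm]
    have h1 := hr.isRoot_cyclotomic (NeZero.pos e)
    rw [Polynomial.IsRoot.def] at h1
    rw [Polynomial.aeval_def, ← Polynomial.eval_map, algebraMap_int_eq, Polynomial.map_cyclotomic]
    exact h1
  refine ⟨((cyc_pb e K).lift r hz).toRingHom, ?_⟩
  have h2 := (cyc_pb e K).lift_gen r hz
  rw [cyc_pb_gen] at h2
  exact h2

theorem ofc_bijective : Function.Bijective (ofc e K) := by
  have key : ∀ x : Fin (Nat.totient e) → ℤ, ofc e K x =
      (((cyc_pb e K).basis.reindex (finCongr (cyc_pb_dim e K))).equivFun.symm x) := by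
    intro x
    rw [Module.Basis.equivFun_symm_apply]
    unfold ofc
    apply Finset.sum_congr rfl
    intro i _
    rw [Module.Basis.reindex_apply, PowerBasis.basis_eq_pow, cyc_pb_gen, zsmul_eq_mul]
    rfl
  have h2 : ofc e K =
      (((cyc_pb e K).basis.reindex (finCongr (cyc_pb_dim e K))).equivFun.symm) := funext key
  rw [h2]
  exact LinearEquiv.bijective _

theorem norm_eq (α : 𝓞 K) :
    ((Algebra.norm ℤ α : ℤ) : 𝓞 K) = ∏ b : (ZMod e)ˣ, sig e K b α := by
  have : IsGalois ℚ K := IsCyclotomicExtension.isGalois {e} ℚ K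
  apply RingOfIntegers.coe_injective
  have h1 := Algebra.norm_eq_prod_automorphisms (K := ℚ) (L := K) (α : K)
  rw [← Algebra.coe_norm_int] at h1
  rw [map_prod]
  have h2 : ∏ σ : Gal(K/ℚ), σ (α : K) = ∏ b : (ZMod e)ˣ, ((sig e K b α : 𝓞 K) : K) := by
    apply Fintype.prod_equiv (IsCyclotomicExtension.Rat.galEquivZMod e K).toEquiv
    intro σ
    have h3 : sig e K ((IsCyclotomicExtension.Rat.galEquivZMod e K).toEquiv σ) α = σ • α := by
      unfold sig
      rw [MulSemiringAction.toRingHom_apply]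
      congr 1
      exact MulEquiv.symm_apply_apply _ σ
    rw [h3]
    rfl
  rw [← h2, ← h1]
  simp

theorem conj_emb (τ : 𝓞 K →+* ℂ) (α : 𝓞 K) :
    (starRingEnd ℂ) (τ α) = τ (sig e K (-1) α) := by
  have h : (starRingEnd ℂ).comp τ = τ.comp (sig e K (-1)) := by
    apply hom_ext e K
    rw [RingHom.comp_apply, RingHom.comp_apply, sig_zt, map_pow]
    have h1 : τ (zt e K) ^ e = 1 := by
      rw [← map_pow, (zt_prim e K).pow_eq_one, map_one]
    have h2 : (starRingEnd ℂ) (τ (zt e K)) = (τ (zt e K))⁻¹ := by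
      have h3 : ‖τ (zt e K)‖ = 1 := Complex.norm_eq_one_of_pow_eq_one h1 (NeZero.ne e)
      rw [Complex.inv_def, Complex.normSq_eq_norm_sq, h3]
      simp
    rw [h2]
    have h4 : τ (zt e K) ≠ 0 := by
      intro h0
      rw [h0, zero_pow (NeZero.ne e)] at h1
      exact zero_ne_one h1
    have h5 : (((-1 : (ZMod e)ˣ) : ZMod e).val + 1) % e = 0 := by
      have h6 : ((((-1 : (ZMod e)ˣ) : ZMod e).val + 1 : ℕ) : ZMod e) = 0 := by
        push_cast
        rw [ZMod.natCast_zmod_val]
        simp
      exact Nat.mod_eq_zero_of_dvd ((ZMod.natCast_eq_zero_iff _ _).1 h6)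
    have h7 : τ (zt e K) * τ (zt e K) ^ ((-1 : (ZMod e)ˣ) : ZMod e).val = 1 := by
      rw [← pow_succ', ← Nat.div_add_mod (((-1 : (ZMod e)ˣ) : ZMod e).val + 1) e, h5, add_zero,
        pow_mul, h1, one_pow]
    exact inv_eq_of_mul_eq_one_right h7
  exact RingHom.congr_fun h α

end Pool.Agent.ARX
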