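import Pool.Agent.ARX.Defs

set_option autoImplicit false

/-!
# ARX: definitions for the assembly

`n = b m^t`, `b ≠ 0`, `m ≥ 1` squarefree, `t ≥ 1` (used with `t = 1` and `t = 2`).
-/

namespace Pool.Agent.ARX

open Classical in
/-- the primes `p ≤ x`, `p ≠ 2`, not dividing `b m` -/
noncomputable def PR (b : ℤ) (m x : ℕ) : Finset ℕ :=
  (Finset.range (x + 1)).filter (fun p : ℕ => p.Prime ∧ p ≠ 2 ∧ ¬ ((p : ℤ) ∣ b * m))

open Classical in
/-- number of `p` in `PR` such that `n = b m^t` is not a `q`-th power modulo `p` for all primes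
`q ≤ η`, `q ∣ p - 1` -/
noncomputable def cnt (b : ℤ) (t η m x : ℕ) : ℝ :=
  (((PR b m x).filter (fun p : ℕ => ∀ q : ℕ, q.Prime → q ≤ η → q ∣ p - 1 →
    ¬ ∃ y : ZMod p, y ^ q = ((b * (m : ℤ) ^ t : ℤ) : ZMod p))).card : ℝ)

open Classical in
/-- the local factor: the probability that `n` is not a `q`-th power modulo `p` -/
noncomputable def uu (b : ℤ) (t p q : ℕ) : ℝ :=
  if q ∣ t then (if ∃ y : ZMod p, y ^ q = (b : ZMod p) then 0 else 1) else 1 - 1 / (q : ℝ)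

/-- the truncated main term -/
noncomputable def mnt (b : ℤ) (t η m x : ℕ) : ℝ :=
  ∑ p ∈ PR b m x, ∏ q ∈ (p - 1).primeFactors.filter (fun q => q ≤ η), uu b t p q

/-- the full main term -/
noncomputable def mnf (b : ℤ) (t x : ℕ) : ℝ :=
  ∑ p ∈ (Finset.range (x + 1)).filter (fun p : ℕ => p.Prime ∧ p ≠ 2),
    ∏ q ∈ (p - 1).primeFactors, uu b t p q

/-- the number of primes `p ≤ x` with primitive root `n` -/
noncomputable def prm (n : ℤ) (x : ℕ) : ℝ :=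
  (((Finset.range (x + 1)).filter
    (fun p : ℕ => p.Prime ∧ orderOf (n : ZMod p) = p - 1)).card : ℝ)

/-- The number of primes `p ≤ x` with `p = 1` modulo `q`. -/
noncomputable def piq (q x : ℕ) : ℝ :=
  (((Finset.range (x + 1)).filter (fun p : ℕ => p.Prime ∧ q ∣ p - 1)).card : ℝ)

open Classical in
/-- the elements of `E` which are non zero `q`-th powers modulo `p` -/
noncomputable def hpow (E : Finset ℤ) (q p : ℕ) : Finset ℤ :=
  E.filter (fun n : ℤ => (n : ZMod p) ≠ 0 ∧ ∃ y : ZMod p, y ^ q = (n : ZMod p))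

open Classical in
/-- the number of primes `p ≤ x`, `p ∤ n`, with `n` a `q`-th power modulo `p` for some prime
`q ∣ p - 1`, `q > Q` -/
noncomputable def big (x : ℕ) (Q : ℝ) (n : ℤ) : ℝ :=
  (((Finset.range (x + 1)).filter (fun p : ℕ => p.Prime ∧ (n : ZMod p) ≠ 0 ∧
    ∃ q : ℕ, q.Prime ∧ q ∣ p - 1 ∧ Q < (q : ℝ) ∧ ∃ y : ZMod p, y ^ q = (n : ZMod p))).card : ℝ)

open Classical in
/-- the number of primes `p ≤ x` with a prime `q ∣ p - 1`, `Q1 < q ≤ Q2` -/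
noncomputable def midc (x : ℕ) (Q1 Q2 : ℝ) : ℝ :=
  (((Finset.range (x + 1)).filter (fun p : ℕ => p.Prime ∧ ∃ q : ℕ, q.Prime ∧ q ∣ p - 1 ∧
    Q1 < (q : ℝ) ∧ (q : ℝ) ≤ Q2)).card : ℝ)

open Classical in
/-- the number of `p` in `PR` such that `n = b m^t` is a `q`-th power modulo `p` for some prime
`q ∣ p - 1`, `η < q ≤ Q1` -/
noncomputable def smc (b : ℤ) (t η m x : ℕ) (Q1 : ℝ) : ℝ :=
  (((PR b m x).filter (fun p : ℕ => ∃ q : ℕ, q.Prime ∧ η < q ∧ (q : ℝ) ≤ Q1 ∧ q ∣ p - 1 ∧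
    ∃ y : ZMod p, y ^ q = ((b * (m : ℤ) ^ t : ℤ) : ZMod p))).card : ℝ)

end Pool.Agent.ARX
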