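import Mathlib

set_option autoImplicit false

/-!
# ARX: definitions

`K` is a cyclotomic field of order `e`, `zt e K` the primitive root of unity in its ring of
integers, `sig e K b` the automorphism with `zt` to `zt ^ b`, `ofc e K x` the element with
coordinates `x` in the power basis.  `gen p` is a fixed generator modulo the prime `p`, `ind p x`
the index of `x`.  `om e j p n` is the value at `n` of the character of order `e` modulo `p` with
exponents `j q`.
-/

namespace Pool.Agent.ARX

open NumberField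

/-- A fixed generator modulo the prime `p` (for other `p` the value is irrelevant). -/
noncomputable def gen (p : ℕ) : ZMod p := by
  classical
  exact if h : ∃ g : ZMod p, orderOf g = p - 1 ∧ ∀ x : ZMod p, x ≠ 0 → ∃ k : ℕ, g ^ k = x
    then h.choose else 0

/-- The index of `x` modulo `p` with respect to `gen p`. -/
noncomputable def ind (p : ℕ) (x : ZMod p) : ℕ := by
  classical
  exact if h : ∃ k : ℕ, gen p ^ k = x then Nat.find h else 0

/-- The additive character `exp(2 pi i a / q)`. -/
noncomputable def ee (q a : ℕ) : ℂ := Complex.exp (2 * Real.pi * Complex.I * (a : ℂ) / (q : ℂ))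

/-- The character of order `e` modulo `p` with exponents `j q` (`q` the primes dividing `e`). -/
noncomputable def om (e : ℕ) (j : ℕ → ℕ) (p : ℕ) (n : ℤ) : ℂ := by
  classical
  exact if (n : ZMod p) = 0 then 0 else
    ∏ q ∈ e.primeFactors, ee q (j q * ind p (n : ZMod p))

/-- `p` is a prime with `p = 1` modulo `e`. -/
def Good (e p : ℕ) : Prop := p.Prime ∧ e ∣ p - 1

/-- The bound for the number of labels. -/
def Lam (e : ℕ) : ℕ :=
  ((Nat.totient e) ^ (Nat.totient e) + 1) *
    ((Nat.totient e) ^ (Nat.log 2 ((Nat.totient e) ^ (Nat.totient e))) *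
      (2 * e) ^ (e.primeFactors.card))

/-- The box in coordinate space. -/
noncomputable def Box (e Y : ℕ) : Finset (Fin (Nat.totient e) → ℤ) :=
  Fintype.piFinset (fun _ => Finset.Icc (-(Y : ℤ)) (Y : ℤ))

/-- The exponents `q - <b>`. -/
def ex (e q : ℕ) (b : (ZMod e)ˣ) : ℕ := q - ((b : ZMod e).val % q)

section cyc

variable (e : ℕ) [NeZero e] (K : Type) [Field K] [NumberField K] [IsCyclotomicExtension {e} ℚ K]

/-- The primitive root of unity of order `e`. -/
noncomputable def zt : 𝓞 K := (IsCyclotomicExtension.zeta_spec e ℚ K).toInteger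

/-- The automorphism sending `zt` to `zt ^ b`. -/
noncomputable def sig (b : (ZMod e)ˣ) : 𝓞 K →+* 𝓞 K :=
  MulSemiringAction.toRingHom (Gal(K/ℚ)) (𝓞 K)
    ((IsCyclotomicExtension.Rat.galEquivZMod e K).symm b)

/-- The element with coordinates `x` in the power basis. -/
noncomputable def ofc (x : Fin (Nat.totient e) → ℤ) : 𝓞 K :=
  ∑ i, (x i : 𝓞 K) * zt e K ^ (i : ℕ)

/-- The ideal `P_p`, kernel of the homomorphism to `ZMod p` with `zt` to `gen p ^ ((p-1)/e)`. -/
noncomputable def PI (p : ℕ) : Ideal (𝓞 K) := by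
  classical
  exact if h : ∃ f : 𝓞 K →+* ZMod p, f (zt e K) = gen p ^ ((p - 1) / e)
    then RingHom.ker h.choose else ⊤

/-- The character of order `q` modulo `p` with values in `𝓞 K`. -/
noncomputable def chiO (q p : ℕ) (x : ZMod p) : 𝓞 K := by
  classical
  exact if x = 0 then 0 else zt e K ^ ((e / q) * ind p x)

/-- The `q`-th power of the Gauss sum, written with Jacobi sums. -/
noncomputable def Phi (q p : ℕ) : 𝓞 K :=
  chiO e K q p (-1) * (p : 𝓞 K) *
    ∏ i ∈ Finset.Ico 1 (q - 1),
      ∑ a ∈ Finset.range p, chiO e K q p (a : ZMod p) * (chiO e K q p (1 - (a : ZMod p))) ^ i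

/-- The Stickelberger map on elements. -/
noncomputable def Theta (q : ℕ) (α : 𝓞 K) : 𝓞 K := ∏ b : (ZMod e)ˣ, (sig e K b⁻¹ α) ^ (ex e q b)

/-- The Stickelberger map on ideals. -/
noncomputable def ThetaI (q : ℕ) (I : Ideal (𝓞 K)) : Ideal (𝓞 K) :=
  ∏ b : (ZMod e)ˣ, (Ideal.comap (sig e K b) I) ^ (ex e q b)

end cyc

end Pool.Agent.ARX
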