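import Pool.Agent.ARX.Ort

set_option autoImplicit false

/-!
# ARX module DUO: the quadratic form over the box

Expand the square; the diagonal gives at most `|Box| ∑ |b m|^2`, the off diagonal terms at most
`∑_{m ≠ m'} |b m| |b m'| D M^2 (2Y+1)^(D-1) ≤ D M^2 (2Y+1)^(D-1) M ∑ |b m|^2 ≤ (2Y+1)^D ∑ |b m|^2`
(`(∑ |b m|)^2 ≤ M ∑ |b m|^2`, `D M^3 ≤ 2Y+1`).  `card (Box e Y) = (2Y+1)^D`.
-/

namespace Pool.Agent.ARX

open NumberField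

variable (e : ℕ) [NeZero e] (K : Type) [Field K] [NumberField K] [IsCyclotomicExtension {e} ℚ K]

theorem card_Box (Y : ℕ) : (Box e Y).card = (2 * Y + 1) ^ (Nat.totient e) := by
  unfold Box
  rw [Fintype.card_piFinset_const]
  congr 1
  rw [Int.card_Icc]
  omega

theorem box_form (F : ℕ → 𝓞 K → ℂ) (hF : ∀ l : ℕ, l.Prime → ¬ l ∣ e → SymProps K l (F l))
    (M Y : ℕ) (hM : 1 ≤ M) (hY : Nat.totient e * M ^ 3 ≤ 2 * Y + 1) (MM : Finset ℕ)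
    (hMM : ∀ m ∈ MM, 1 ≤ m ∧ m ≤ M ∧ Squarefree m ∧ m.Coprime e) (b : ℕ → ℂ) :
    ∑ x ∈ Box e Y, ‖∑ m ∈ MM, b m * fm K F m (ofc e K x)‖ ^ 2 ≤
      2 * (2 * (Y : ℝ) + 1) ^ (Nat.totient e) * ∑ m ∈ MM, ‖b m‖ ^ 2 := by
  classical
  have hFm : ∀ m ∈ MM, ∀ l ∈ m.primeFactors, SymProps K l (F l) := by
    intro m hm p hp
    have hpp := Nat.prime_of_mem_primeFactors hp
    refine hF p hpp fun h => ?_
    have hme := (hMM m hm).2.2.2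
    exact hpp.one_lt.ne' (Nat.dvd_one.mp (hme ▸ Nat.dvd_gcd (Nat.dvd_of_mem_primeFactors hp) h))
  set D := Nat.totient e with hD
  have hD1 : 1 ≤ D := Nat.totient_pos.mpr (Nat.pos_of_ne_zero (NeZero.ne e))
  set f : ℕ → (Fin D → ℤ) → ℂ := fun m x => fm K F m (ofc e K x) with hf
  set S : ℕ → ℕ → ℂ := fun m m' => ∑ x ∈ Box e Y, f m x * (starRingEnd ℂ) (f m' x) with hS
  set P : ℝ := 2 * (Y : ℝ) + 1 with hP
  have hP1 : 1 ≤ P := by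
    have : (0 : ℝ) ≤ Y := Nat.cast_nonneg _
    rw [hP]; linarith
  have hP0 : 0 ≤ P := by linarith
  -- expansion
  have hexp : ((∑ x ∈ Box e Y, ‖∑ m ∈ MM, b m * f m x‖ ^ 2 : ℝ) : ℂ) =
      ∑ m ∈ MM, ∑ m' ∈ MM, b m * (starRingEnd ℂ) (b m') * S m m' := by
    rw [Complex.ofReal_sum]
    have h1 : ∀ x ∈ Box e Y, ((‖∑ m ∈ MM, b m * f m x‖ ^ 2 : ℝ) : ℂ) =
        ∑ m ∈ MM, ∑ m' ∈ MM, b m * (starRingEnd ℂ) (b m') * (f m x * (starRingEnd ℂ) (f m' x)) := by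
      intro x _
      rw [Complex.ofReal_pow, ← Complex.mul_conj', map_sum, Finset.sum_mul_sum]
      refine Finset.sum_congr rfl fun m _ => Finset.sum_congr rfl fun m' _ => ?_
      rw [map_mul]; ring
    rw [Finset.sum_congr rfl h1, Finset.sum_comm]
    refine Finset.sum_congr rfl fun m _ => ?_
    rw [Finset.sum_comm]
    refine Finset.sum_congr rfl fun m' _ => ?_
    rw [hS, Finset.mul_sum]
  have hdiag : ∀ m ∈ MM, ∀ m' ∈ MM, ‖S m m'‖ ≤ P ^ D := by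
    intro m hm m' hm'
    calc ‖S m m'‖ ≤ ∑ x ∈ Box e Y, ‖f m x * (starRingEnd ℂ) (f m' x)‖ := norm_sum_le _ _
      _ ≤ ∑ x ∈ Box e Y, (1 : ℝ) := by
          refine Finset.sum_le_sum fun x _ => ?_
          rw [norm_mul, RCLike.norm_conj]
          exact mul_le_one₀ (ort_fm_le K (hFm m hm) _) (norm_nonneg _) (ort_fm_le K (hFm m' hm') _)
      _ = P ^ D := by
          rw [Finset.sum_const, card_Box, nsmul_eq_mul, mul_one]
          push_cast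
          rfl
  have hMr : (1 : ℝ) ≤ M := by exact_mod_cast hM
  have hoff : ∀ m ∈ MM, ∀ m' ∈ MM, m ≠ m' → ‖S m m'‖ ≤ (D : ℝ) * M ^ 2 * P ^ (D - 1) := by
    intro m hm m' hm' hne
    have h1 := near_orth e K F hF (hMM m hm).2.2.1 (hMM m' hm').2.2.1 (hMM m hm).2.2.2
      (hMM m' hm').2.2.2 hne Y
    refine h1.trans ?_
    apply mul_le_mul_of_nonneg_right _ (pow_nonneg hP0 _)
    apply mul_le_mul_of_nonneg_left _ (Nat.cast_nonneg _)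
    have h2 : (m : ℝ) ≤ M := by exact_mod_cast (hMM m hm).2.1
    have h3 : (m' : ℝ) ≤ M := by exact_mod_cast (hMM m' hm').2.1
    rw [pow_two]
    exact mul_le_mul h2 h3 (Nat.cast_nonneg _) (by linarith)
  have hcard : (MM.card : ℝ) ≤ M := by
    have h1 : MM ⊆ Finset.Icc 1 M := by
      intro m hm
      rw [Finset.mem_Icc]
      exact ⟨(hMM m hm).1, (hMM m hm).2.1⟩
    have h2 := Finset.card_le_card h1
    rw [Nat.card_Icc] at h2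
    have h3 : MM.card ≤ M := by omega
    exact_mod_cast h3
  have hbound : ∀ m ∈ MM, ∀ m' ∈ MM, ‖b m * (starRingEnd ℂ) (b m') * S m m'‖ ≤
      (if m = m' then ‖b m‖ ^ 2 * P ^ D else 0) +
        ‖b m‖ * ‖b m'‖ * ((D : ℝ) * M ^ 2 * P ^ (D - 1)) := by
    intro m hm m' hm'
    rw [norm_mul, norm_mul, RCLike.norm_conj]
    have hnn : 0 ≤ ‖b m‖ * ‖b m'‖ * ((D : ℝ) * M ^ 2 * P ^ (D - 1)) := by positivity
    split_ifs with h
    · subst h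
      have := mul_le_mul_of_nonneg_left (hdiag m hm m hm) (mul_nonneg (norm_nonneg (b m))
        (norm_nonneg (b m)))
      nlinarith
    · rw [zero_add]
      exact mul_le_mul_of_nonneg_left (hoff m hm m' hm' h)
        (mul_nonneg (norm_nonneg _) (norm_nonneg _))
  have hmain : ∑ x ∈ Box e Y, ‖∑ m ∈ MM, b m * f m x‖ ^ 2 ≤
      P ^ D * ∑ m ∈ MM, ‖b m‖ ^ 2 + (∑ m ∈ MM, ‖b m‖) ^ 2 * ((D : ℝ) * M ^ 2 * P ^ (D - 1)) := by
    have h0 : 0 ≤ ∑ x ∈ Box e Y, ‖∑ m ∈ MM, b m * f m x‖ ^ 2 :=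
      Finset.sum_nonneg fun x _ => sq_nonneg _
    calc ∑ x ∈ Box e Y, ‖∑ m ∈ MM, b m * f m x‖ ^ 2
        = ‖((∑ x ∈ Box e Y, ‖∑ m ∈ MM, b m * f m x‖ ^ 2 : ℝ) : ℂ)‖ := by
          rw [Complex.norm_real, Real.norm_of_nonneg h0]
      _ = ‖∑ m ∈ MM, ∑ m' ∈ MM, b m * (starRingEnd ℂ) (b m') * S m m'‖ := by rw [hexp]
      _ ≤ ∑ m ∈ MM, ∑ m' ∈ MM, ‖b m * (starRingEnd ℂ) (b m') * S m m'‖ :=
          (norm_sum_le _ _).trans (Finset.sum_le_sum fun m _ => norm_sum_le _ _)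
      _ ≤ ∑ m ∈ MM, ∑ m' ∈ MM, ((if m = m' then ‖b m‖ ^ 2 * P ^ D else 0) +
            ‖b m‖ * ‖b m'‖ * ((D : ℝ) * M ^ 2 * P ^ (D - 1))) :=
          Finset.sum_le_sum fun m hm => Finset.sum_le_sum fun m' hm' => hbound m hm m' hm'
      _ = P ^ D * ∑ m ∈ MM, ‖b m‖ ^ 2 +
            (∑ m ∈ MM, ‖b m‖) ^ 2 * ((D : ℝ) * M ^ 2 * P ^ (D - 1)) := by
          simp only [Finset.sum_add_distrib]
          congr 1
          · rw [Finset.mul_sum]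
            refine Finset.sum_congr rfl fun m hm => ?_
            rw [Finset.sum_ite_eq, if_pos hm]
            ring
          · rw [pow_two (∑ m ∈ MM, ‖b m‖), Finset.sum_mul_sum, Finset.sum_mul]
            refine Finset.sum_congr rfl fun m _ => ?_
            rw [Finset.sum_mul]
  have hCS : (∑ m ∈ MM, ‖b m‖) ^ 2 ≤ M * ∑ m ∈ MM, ‖b m‖ ^ 2 := by
    have h1 := sq_sum_le_card_mul_sum_sq (s := MM) (f := fun m => ‖b m‖)
    refine h1.trans ?_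
    exact mul_le_mul_of_nonneg_right hcard (Finset.sum_nonneg fun _ _ => sq_nonneg _)
  have hYr : (D : ℝ) * M ^ 3 ≤ P := by
    rw [hP]; exact_mod_cast hY
  have hPD : P ^ D = P ^ (D - 1) * P := by
    rw [← pow_succ]; congr 1; omega
  have hB0 : 0 ≤ ∑ m ∈ MM, ‖b m‖ ^ 2 := Finset.sum_nonneg fun _ _ => sq_nonneg _
  calc ∑ x ∈ Box e Y, ‖∑ m ∈ MM, b m * f m x‖ ^ 2
      ≤ P ^ D * ∑ m ∈ MM, ‖b m‖ ^ 2 + (∑ m ∈ MM, ‖b m‖) ^ 2 *
          ((D : ℝ) * M ^ 2 * P ^ (D - 1)) := hmain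
    _ ≤ P ^ D * ∑ m ∈ MM, ‖b m‖ ^ 2 + (M * ∑ m ∈ MM, ‖b m‖ ^ 2) *
          ((D : ℝ) * M ^ 2 * P ^ (D - 1)) := by
        gcongr
    _ = P ^ D * ∑ m ∈ MM, ‖b m‖ ^ 2 + (P ^ (D - 1) * ((D : ℝ) * M ^ 3)) *
          ∑ m ∈ MM, ‖b m‖ ^ 2 := by ring
    _ ≤ P ^ D * ∑ m ∈ MM, ‖b m‖ ^ 2 + (P ^ (D - 1) * P) * ∑ m ∈ MM, ‖b m‖ ^ 2 := by
        gcongr
    _ = 2 * P ^ D * ∑ m ∈ MM, ‖b m‖ ^ 2 := by rw [hPD]; ring

end Pool.Agent.ARX
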