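import Pool.Agent.ARX.Str
import Pool.Agent.ARX.Duo
import Pool.Agent.ARX.Omp

set_option autoImplicit false
set_option linter.unusedSectionVars false

/-!
# ARX module DLS: the dual large sieve

`D = φ(e)`.  Take `F`, and for `SS`, `Y` the data of `structure_thm`.  For a label `i` put
`ci = c i ≤ D^D` and split `MM` according to `g = gcd(m, e * ci)` (a divisor of `e ci`: at most
`e D^D` groups).  `m = g m''` with `m''` squarefree, coprime to `e ci` and to `g`.  For `lab S = i`,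
with `om_S(m) = ∏_{p∈S} om e j p m` (completely multiplicative, `om_mul`, `om_prod`),
`om_S(m) = om_S(g) om_S(m'')` and `om_S(m'') = ∏_{l ∣ m''} (F l (ofc (x S)) * H i l)`
`= fm F m'' (ofc (x S)) * h(m'')`, `|h(m'')| ≤ 1`.  So
`|∑_m b m om_S(m)|^2 ≤ (#groups) ∑_g |∑_{m: gcd = g} b m h(m'') fm F m'' (ofc (x S))|^2`.
Sum over `S` with `lab S = i` (`x` injective there, values in the box): `box_form` for the set of
the `m''` (the map `m ↦ m''` is injective on a group) gives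
`≤ e D^D * 2 (2Y+1)^D ∑_m |b m|^2`.  Sum over the labels `i < Lam e`.
-/

namespace Pool.Agent.ARX

open NumberField

theorem Dls_arith {m n : ℕ} (hm : Squarefree m) :
    m = Nat.gcd m n * (m / Nat.gcd m n) ∧ Squarefree (m / Nat.gcd m n) ∧
      (m / Nat.gcd m n).Coprime n := by
  have h1 : m = Nat.gcd m n * (m / Nat.gcd m n) :=
    (Nat.mul_div_cancel' (Nat.gcd_dvd_left m n)).symm
  have h2 : Squarefree (Nat.gcd m n * (m / Nat.gcd m n)) := by rw [← h1]; exact hm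
  rw [Nat.squarefree_mul_iff] at h2
  refine ⟨h1, h2.2.2, ?_⟩
  apply Nat.coprime_of_dvd
  intro l hl hlm hln
  have h3 : l ∣ m := by
    rw [h1]
    exact Dvd.dvd.mul_left hlm _
  have h4 : l ∣ Nat.gcd m n := Nat.dvd_gcd h3 hln
  have h5 : l ∣ 1 := by
    rw [← h2.1.gcd_eq_one]
    exact Nat.dvd_gcd h4 hlm
  exact hl.one_lt.ne' (Nat.dvd_one.1 h5)

theorem Dls_norm_prod {ι : Type*} (s : Finset ι) (f : ι → ℂ) (h : ∀ i ∈ s, ‖f i‖ ≤ 1) :
    ‖∏ i ∈ s, f i‖ ≤ 1 := by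
  rw [norm_prod]
  exact Finset.prod_le_one (fun i _ => norm_nonneg _) h

theorem Dls_cs {ι : Type*} (s : Finset ι) (a z : ι → ℂ) (h : ∀ i ∈ s, ‖a i‖ ≤ 1) :
    ‖∑ i ∈ s, a i * z i‖ ^ 2 ≤ (s.card : ℝ) * ∑ i ∈ s, ‖z i‖ ^ 2 := by
  have h1 : ‖∑ i ∈ s, a i * z i‖ ≤ ∑ i ∈ s, ‖z i‖ := by
    refine (norm_sum_le _ _).trans (Finset.sum_le_sum fun i hi => ?_)
    rw [norm_mul]
    exact mul_le_of_le_one_left (norm_nonneg _) (h i hi)
  calc ‖∑ i ∈ s, a i * z i‖ ^ 2 ≤ (∑ i ∈ s, ‖z i‖) ^ 2 :=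
        pow_le_pow_left₀ (norm_nonneg _) h1 2
    _ ≤ _ := sq_sum_le_card_mul_sum_sq

section

variable (e : ℕ) [NeZero e] (K : Type) [Field K] [NumberField K] [IsCyclotomicExtension {e} ℚ K]

theorem Dls_fac (j : ℕ → ℕ) (F : ℕ → 𝓞 K → ℂ) {S : Finset ℕ} (hS : ∀ p ∈ S, Good e p) (ci : ℕ)
    (α : 𝓞 K) (Hi : ℕ → ℂ)
    (hid : ∀ l : ℕ, l.Prime → ¬ l ∣ e → ¬ l ∣ ci → ∏ p ∈ S, om e j p (l : ℤ) = F l α * Hi l)
    {m : ℕ} (hm : Squarefree m) :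
    ∏ p ∈ S, om e j p (m : ℤ) = (∏ p ∈ S, om e j p ((Nat.gcd m (e * ci) : ℕ) : ℤ)) *
      ((∏ l ∈ (m / Nat.gcd m (e * ci)).primeFactors, Hi l) *
        fm K F (m / Nat.gcd m (e * ci)) α) := by
  obtain ⟨h1, h2, h3⟩ := Dls_arith (n := e * ci) hm
  set g := Nat.gcd m (e * ci)
  set m2 := m / g
  have hmz : (m : ℤ) = (g : ℤ) * (m2 : ℤ) := by
    rw [← Nat.cast_mul, ← h1]
  have e1 : ∏ p ∈ S, om e j p (m : ℤ) =
      (∏ p ∈ S, om e j p (g : ℤ)) * ∏ p ∈ S, om e j p (m2 : ℤ) := by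
    rw [← Finset.prod_mul_distrib]
    apply Finset.prod_congr rfl
    intro p hp
    rw [hmz, om_mul (hS p hp)]
  have e2 : ∏ p ∈ S, om e j p (m2 : ℤ) = ∏ l ∈ m2.primeFactors, (F l α * Hi l) := by
    rw [Finset.prod_congr rfl (fun p hp => om_prod (hS p hp) j h2), Finset.prod_comm]
    apply Finset.prod_congr rfl
    intro l hl
    have hlp := Nat.prime_of_mem_primeFactors hl
    have hlm := Nat.dvd_of_mem_primeFactors hl
    have hno : ¬ l ∣ e * ci := by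
      intro h
      have h5 : l ∣ 1 := by
        rw [← h3.gcd_eq_one]
        exact Nat.dvd_gcd hlm h
      exact hlp.one_lt.ne' (Nat.dvd_one.1 h5)
    apply hid l hlp
    · intro h; exact hno (Dvd.dvd.mul_right h _)
    · intro h; exact hno (Dvd.dvd.mul_left h _)
  rw [e1, e2, Finset.prod_mul_distrib]
  unfold fm
  ring

theorem Dls_fiber (j : ℕ → ℕ) (F : ℕ → 𝓞 K → ℂ)
    (hF : ∀ l : ℕ, l.Prime → ¬ l ∣ e → SymProps K l (F l))
    (M Y : ℕ) (hM : 1 ≤ M) (hY : Nat.totient e * M ^ 3 ≤ 2 * Y + 1) (MM : Finset ℕ)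
    (hMM : ∀ m ∈ MM, 1 ≤ m ∧ m ≤ M ∧ Squarefree m) (T : Finset (Finset ℕ))
    (hT : ∀ S ∈ T, ∀ p ∈ S, Good e p) (ci : ℕ) (hci : 1 ≤ ci)
    (x : Finset ℕ → (Fin (Nat.totient e) → ℤ)) (hxB : ∀ S ∈ T, x S ∈ Box e Y)
    (hinj : Set.InjOn x T) (Hi : ℕ → ℂ) (hH : ∀ l, ‖Hi l‖ ≤ 1)
    (hid : ∀ S ∈ T, ∀ l : ℕ, l.Prime → ¬ l ∣ e → ¬ l ∣ ci →
      ∏ p ∈ S, om e j p (l : ℤ) = F l (ofc e K (x S)) * Hi l) (b : ℕ → ℂ) :
    ∑ S ∈ T, ‖∑ m ∈ MM, b m * ∏ p ∈ S, om e j p (m : ℤ)‖ ^ 2 ≤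
      ((e * ci : ℕ) : ℝ) *
        (2 * (2 * (Y : ℝ) + 1) ^ (Nat.totient e) * ∑ m ∈ MM, ‖b m‖ ^ 2) := by
  classical
  set n0 := e * ci with hn0
  have hn0pos : n0 ≠ 0 := Nat.mul_ne_zero (NeZero.ne e) (by omega)
  set Dv := n0.divisors with hDv
  have hmaps : ∀ m ∈ MM, Nat.gcd m n0 ∈ Dv := fun m _ =>
    Nat.mem_divisors.2 ⟨Nat.gcd_dvd_right m n0, hn0pos⟩
  let MG : ℕ → Finset ℕ := fun g => MM.filter (fun m => Nat.gcd m n0 = g)
  let hh : ℕ → ℂ := fun m2 => ∏ l ∈ m2.primeFactors, Hi l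
  have hhn : ∀ m2, ‖hh m2‖ ≤ 1 := fun m2 => Dls_norm_prod _ _ (fun l _ => hH l)
  let Z : ℕ → 𝓞 K → ℂ := fun g α => ∑ m ∈ MG g, b m * (hh (m / g) * fm K F (m / g) α)
  -- the expansion
  have hexp : ∀ S ∈ T, ∑ m ∈ MM, b m * ∏ p ∈ S, om e j p (m : ℤ) =
      ∑ g ∈ Dv, (∏ p ∈ S, om e j p (g : ℤ)) * Z g (ofc e K (x S)) := by
    intro S hS
    rw [← Finset.sum_fiberwise_of_maps_to hmaps]
    apply Finset.sum_congr rfl
    intro g _
    change _ = (∏ p ∈ S, om e j p (g : ℤ)) * ∑ m ∈ MG g, _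
    rw [Finset.mul_sum]
    apply Finset.sum_congr rfl
    intro m hm
    obtain ⟨hm1, hm2⟩ := Finset.mem_filter.1 hm
    have h := Dls_fac e K j F (hT S hS) ci (ofc e K (x S)) Hi (hid S hS) (hMM m hm1).2.2
    rw [← hn0, hm2] at h
    rw [h]
    change _ = _ * (b m * ((∏ l ∈ (m / g).primeFactors, Hi l) * _))
    ring
  have hone : ∀ S ∈ T, ‖∑ m ∈ MM, b m * ∏ p ∈ S, om e j p (m : ℤ)‖ ^ 2 ≤
      (n0 : ℝ) * ∑ g ∈ Dv, ‖Z g (ofc e K (x S))‖ ^ 2 := by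
    intro S hS
    rw [hexp S hS]
    refine (Dls_cs Dv _ _ (fun g _ => Dls_norm_prod _ _ (fun p _ => norm_om_le e j p _))).trans ?_
    apply mul_le_mul_of_nonneg_right _ (Finset.sum_nonneg fun g _ => sq_nonneg _)
    exact_mod_cast Nat.card_divisors_le_self n0
  -- the box
  have hbox : ∀ g ∈ Dv, ∑ S ∈ T, ‖Z g (ofc e K (x S))‖ ^ 2 ≤
      2 * (2 * (Y : ℝ) + 1) ^ (Nat.totient e) * ∑ m ∈ MG g, ‖b m‖ ^ 2 := by
    intro g hg
    have hgpos : 0 < g := Nat.pos_of_mem_divisors hg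
    have hmg : ∀ m ∈ MG g, m = g * (m / g) := by
      intro m hm
      obtain ⟨hm1, hm2⟩ := Finset.mem_filter.1 hm
      have h := (Dls_arith (n := n0) (hMM m hm1).2.2).1
      rw [hm2] at h
      exact h
    have hinj2 : Set.InjOn (fun m => m / g) (MG g) := by
      intro m hm m' hm' h
      rw [hmg m hm, hmg m' hm']
      exact congrArg (fun t => g * t) h
    have h1 : ∑ S ∈ T, ‖Z g (ofc e K (x S))‖ ^ 2 ≤ ∑ y ∈ Box e Y, ‖Z g (ofc e K y)‖ ^ 2 := by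
      rw [← Finset.sum_image (f := fun y => ‖Z g (ofc e K y)‖ ^ 2) hinj]
      apply Finset.sum_le_sum_of_subset_of_nonneg
      · intro y hy
        obtain ⟨S, hS, rfl⟩ := Finset.mem_image.1 hy
        exact hxB S hS
      · intro y _ _
        exact sq_nonneg _
    have h2 : ∀ α : 𝓞 K, Z g α = ∑ m2 ∈ (MG g).image (fun m => m / g),
        (b (g * m2) * hh m2) * fm K F m2 α := by
      intro α
      rw [Finset.sum_image hinj2]
      apply Finset.sum_congr rfl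
      intro m hm
      rw [← hmg m hm]
      ring
    have h3 := box_form e K F hF M Y hM hY ((MG g).image (fun m => m / g)) (by
      intro m2 hm2
      obtain ⟨m, hm, rfl⟩ := Finset.mem_image.1 hm2
      obtain ⟨hm1, hm3⟩ := Finset.mem_filter.1 hm
      obtain ⟨a1, a2, a3⟩ := Dls_arith (n := n0) (hMM m hm1).2.2
      rw [hm3] at a1 a2 a3
      refine ⟨?_, ?_, a2, ?_⟩
      · have h := (hMM m hm1).1
        rw [a1] at h
        rcases Nat.eq_zero_or_pos (m / g) with h0 | h0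
        · rw [h0] at h; simp at h
        · exact h0
      · exact (Nat.div_le_self m g).trans (hMM m hm1).2.1
      · exact Nat.Coprime.coprime_dvd_right (Dvd.intro _ rfl) a3) (fun m2 => b (g * m2) * hh m2)
    calc ∑ S ∈ T, ‖Z g (ofc e K (x S))‖ ^ 2 ≤ ∑ y ∈ Box e Y, ‖Z g (ofc e K y)‖ ^ 2 := h1
      _ = ∑ y ∈ Box e Y, ‖∑ m2 ∈ (MG g).image (fun m => m / g),
            (b (g * m2) * hh m2) * fm K F m2 (ofc e K y)‖ ^ 2 := by
          apply Finset.sum_congr rfl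
          intro y _
          rw [h2]
      _ ≤ _ := h3
      _ ≤ _ := by
          apply mul_le_mul_of_nonneg_left _ (by positivity)
          rw [Finset.sum_image hinj2]
          apply Finset.sum_le_sum
          intro m hm
          rw [← hmg m hm, norm_mul, mul_pow]
          apply mul_le_of_le_one_right (sq_nonneg _)
          exact pow_le_one₀ (norm_nonneg _) (hhn _)
  calc ∑ S ∈ T, ‖∑ m ∈ MM, b m * ∏ p ∈ S, om e j p (m : ℤ)‖ ^ 2
      ≤ ∑ S ∈ T, (n0 : ℝ) * ∑ g ∈ Dv, ‖Z g (ofc e K (x S))‖ ^ 2 := Finset.sum_le_sum hone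
    _ = (n0 : ℝ) * ∑ g ∈ Dv, ∑ S ∈ T, ‖Z g (ofc e K (x S))‖ ^ 2 := by
        rw [← Finset.mul_sum, Finset.sum_comm]
    _ ≤ (n0 : ℝ) * ∑ g ∈ Dv,
          2 * (2 * (Y : ℝ) + 1) ^ (Nat.totient e) * ∑ m ∈ MG g, ‖b m‖ ^ 2 := by
        apply mul_le_mul_of_nonneg_left _ (Nat.cast_nonneg _)
        exact Finset.sum_le_sum hbox
    _ = _ := by
        rw [← Finset.mul_sum, Finset.sum_fiberwise_of_maps_to hmaps]

end

theorem dual_form (e : ℕ) (he : Squarefree e) (he1 : 1 < e) (j : ℕ → ℕ)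
    (hj : ∀ q ∈ e.primeFactors, ¬ q ∣ j q) (M Y : ℕ) (hM : 1 ≤ M)
    (hY : Nat.totient e * M ^ 3 ≤ 2 * Y + 1) (MM : Finset ℕ)
    (hMM : ∀ m ∈ MM, 1 ≤ m ∧ m ≤ M ∧ Squarefree m) (SS : Finset (Finset ℕ))
    (hSS : ∀ S ∈ SS, ∀ p ∈ S, Good e p)
    (hSY : ∀ S ∈ SS, ∏ p ∈ S, p < (Y + 1) ^ (Nat.totient e)) (b : ℕ → ℂ) :
    ∑ S ∈ SS, ‖∑ m ∈ MM, b m * ∏ p ∈ S, om e j p (m : ℤ)‖ ^ 2 ≤
      (Lam e : ℝ) * ((e : ℝ) * (Nat.totient e : ℝ) ^ (Nat.totient e)) *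
        (2 * (2 * (Y : ℝ) + 1) ^ (Nat.totient e)) * ∑ m ∈ MM, ‖b m‖ ^ 2 := by
  classical
  have : NeZero e := ⟨by omega⟩
  obtain ⟨K, iF, iN, iC⟩ := exists_cyc e
  obtain ⟨F, hF, hstr⟩ := structure_thm e K he he1 j hj
  obtain ⟨lab, c, H, x, hlab, hxB, hinj, hc, hH, hid⟩ := hstr SS hSS Y hSY
  have hnn : 0 ≤ 2 * (2 * (Y : ℝ) + 1) ^ (Nat.totient e) * ∑ m ∈ MM, ‖b m‖ ^ 2 :=
    mul_nonneg (by positivity) (Finset.sum_nonneg fun m _ => sq_nonneg _)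
  have hfib : ∀ i ∈ Finset.range (Lam e),
      ∑ S ∈ SS.filter (fun S => lab S = i), ‖∑ m ∈ MM, b m * ∏ p ∈ S, om e j p (m : ℤ)‖ ^ 2 ≤
      ((e : ℝ) * (Nat.totient e : ℝ) ^ (Nat.totient e)) *
        (2 * (2 * (Y : ℝ) + 1) ^ (Nat.totient e) * ∑ m ∈ MM, ‖b m‖ ^ 2) := by
    intro i _
    rcases (SS.filter (fun S => lab S = i)).eq_empty_or_nonempty with h0 | ⟨S0, hS0⟩
    · rw [h0, Finset.sum_empty]
      exact mul_nonneg (by positivity) hnn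
    obtain ⟨hS0a, hS0b⟩ := Finset.mem_filter.1 hS0
    have hci := hc S0 hS0a
    rw [hS0b] at hci
    refine (Dls_fiber e K j F hF M Y hM hY MM hMM (SS.filter (fun S => lab S = i))
      (fun S hS => hSS S (Finset.mem_filter.1 hS).1) (c i) hci.1 x
      (fun S hS => hxB S (Finset.mem_filter.1 hS).1) ?_ (H i) (hH i) ?_ b).trans ?_
    · intro S hS S' hS' h
      obtain ⟨a1, a2⟩ := Finset.mem_filter.1 (Finset.mem_coe.1 hS)
      obtain ⟨b1, b2⟩ := Finset.mem_filter.1 (Finset.mem_coe.1 hS')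
      exact hinj S a1 S' b1 (a2.trans b2.symm) h
    · intro S hS l hl hle hlc
      obtain ⟨a1, a2⟩ := Finset.mem_filter.1 hS
      have h := hid S a1 l hl hle (by rw [a2]; exact hlc)
      rw [a2] at h
      exact h
    · apply mul_le_mul_of_nonneg_right _ hnn
      have h : e * c i ≤ e * (Nat.totient e) ^ (Nat.totient e) := Nat.mul_le_mul_left _ hci.2
      exact_mod_cast h
  rw [← Finset.sum_fiberwise_of_maps_to (g := lab) (t := Finset.range (Lam e))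
    (fun S hS => Finset.mem_range.2 (hlab S hS))]
  refine (Finset.sum_le_sum hfib).trans (le_of_eq ?_)
  rw [Finset.sum_const, Finset.card_range, nsmul_eq_mul]
  ring

end Pool.Agent.ARX
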