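import Mathlib

set_option autoImplicit false

/-!
# ARX module DUA: duality for a finite complex matrix

If `∑_s |∑_m b m A s m|^2 ≤ Δ ∑ |b m|^2` for all `b`, then `∑_m |∑_s c s A s m|^2 ≤ Δ ∑ |c s|^2`:
let `V` be the left side and take `b m = conj (∑_s c s A s m)`; then
`V = ∑_m b m ∑_s c s A s m = ∑_s c s ∑_m b m A s m ≤ (∑ |c s|^2)^(1/2) (Δ V)^(1/2)`.
-/

namespace Pool.Agent.ARX

theorem duality {ι κ : Type*} (I : Finset ι) (J : Finset κ) (A : ι → κ → ℂ) (Δ : ℝ) (hΔ : 0 ≤ Δ)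
    (h : ∀ b : κ → ℂ, ∑ s ∈ I, ‖∑ m ∈ J, b m * A s m‖ ^ 2 ≤ Δ * ∑ m ∈ J, ‖b m‖ ^ 2)
    (c : ι → ℂ) : ∑ m ∈ J, ‖∑ s ∈ I, c s * A s m‖ ^ 2 ≤ Δ * ∑ s ∈ I, ‖c s‖ ^ 2 := by
  set W : κ → ℂ := fun m => ∑ s ∈ I, c s * A s m with hW
  set b : κ → ℂ := fun m => (starRingEnd ℂ) (W m) with hb
  set V : ℝ := ∑ m ∈ J, ‖W m‖ ^ 2 with hV
  have hV0 : 0 ≤ V := Finset.sum_nonneg fun m _ => by positivity
  have hbn : ∑ m ∈ J, ‖b m‖ ^ 2 = V := by
    apply Finset.sum_congr rfl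
    intro m _
    rw [hb]
    simp only
    rw [RCLike.norm_conj]
  have h1 : (V : ℂ) = ∑ s ∈ I, c s * ∑ m ∈ J, b m * A s m := by
    have h2 : (V : ℂ) = ∑ m ∈ J, b m * W m := by
      rw [hV]
      push_cast
      apply Finset.sum_congr rfl
      intro m _
      rw [hb]
      simp only
      rw [mul_comm, Complex.mul_conj, Complex.normSq_eq_norm_sq]
      push_cast
      rfl
    rw [h2, hW]
    simp only [Finset.mul_sum]
    rw [Finset.sum_comm]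
    apply Finset.sum_congr rfl
    intro s _
    apply Finset.sum_congr rfl
    intro m _
    ring
  have h3 : V ≤ ∑ s ∈ I, ‖c s‖ * ‖∑ m ∈ J, b m * A s m‖ := by
    have h4 : ‖(V : ℂ)‖ = V := by
      rw [Complex.norm_real, Real.norm_eq_abs, abs_of_nonneg hV0]
    rw [← h4, h1]
    refine (norm_sum_le _ _).trans ?_
    apply Finset.sum_le_sum
    intro s _
    rw [norm_mul]
  have h5 : V ^ 2 ≤ (∑ s ∈ I, ‖c s‖ ^ 2) * (Δ * V) := by
    calc V ^ 2 ≤ (∑ s ∈ I, ‖c s‖ * ‖∑ m ∈ J, b m * A s m‖) ^ 2 := by gcongr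
      _ ≤ (∑ s ∈ I, ‖c s‖ ^ 2) * ∑ s ∈ I, ‖∑ m ∈ J, b m * A s m‖ ^ 2 :=
          Finset.sum_mul_sq_le_sq_mul_sq _ _ _
      _ ≤ (∑ s ∈ I, ‖c s‖ ^ 2) * (Δ * V) := by
          apply mul_le_mul_of_nonneg_left
          · have := h b
            rwa [hbn] at this
          · exact Finset.sum_nonneg fun s _ => by positivity
  rcases hV0.eq_or_lt with h6 | h6
  · rw [← h6]
    exact mul_nonneg hΔ (Finset.sum_nonneg fun s _ => by positivity)
  · have h7 : V * V ≤ (Δ * ∑ s ∈ I, ‖c s‖ ^ 2) * V := by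
      calc V * V = V ^ 2 := by ring
        _ ≤ _ := h5
        _ = _ := by ring
    exact le_of_mul_le_mul_right h7 h6

end Pool.Agent.ARX
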