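import Mathlib

set_option autoImplicit false

/-!
# ARX module ESY (pure combinatorics)

`(∑_{p∈P} z p)^k` is the sum over `Fin k → P` of `∏ z`; the injective maps give
`k! * ∑_{S ∈ powersetCard k P} ∏_{p∈S} z p`; the non injective ones number at most
`(k (k-1) / 2) |P|^(k-1)`, each term of absolute value at most one.
-/

namespace Pool.Agent.ARX

private lemma esy_rec (P : Finset ℕ) (z : ℕ → ℂ) (k : ℕ) :
    ((k : ℂ) + 1) * ∑ S ∈ P.powersetCard (k + 1), ∏ p ∈ S, z p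
      = ∑ S ∈ P.powersetCard k, ∑ p ∈ P \ S, z p * ∏ q ∈ S, z q := by
  have h1 : ((k : ℂ) + 1) * ∑ S ∈ P.powersetCard (k + 1), ∏ p ∈ S, z p
      = ∑ T ∈ P.powersetCard (k + 1), ∑ p ∈ T, z p * ∏ q ∈ T.erase p, z q := by
    rw [Finset.mul_sum]
    refine Finset.sum_congr rfl fun T hT => ?_
    have hc := (Finset.mem_powersetCard.1 hT).2
    have : ∀ p ∈ T, z p * ∏ q ∈ T.erase p, z q = ∏ q ∈ T, z q := fun p hp =>
      Finset.mul_prod_erase T z hp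
    rw [Finset.sum_congr rfl this, Finset.sum_const, hc, nsmul_eq_mul]
    push_cast
    ring
  rw [h1, Finset.sum_sigma', Finset.sum_sigma']
  refine Finset.sum_bij' (fun x _ => ⟨x.1.erase x.2, x.2⟩) (fun x _ => ⟨insert x.2 x.1, x.2⟩)
    ?_ ?_ ?_ ?_ ?_
  · rintro ⟨T, p⟩ h
    simp only [Finset.mem_sigma, Finset.mem_powersetCard, Finset.mem_sdiff] at h ⊢
    obtain ⟨⟨hT, hc⟩, hp⟩ := h
    refine ⟨⟨(Finset.erase_subset _ _).trans hT, ?_⟩, hT hp, ?_⟩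
    · rw [Finset.card_erase_of_mem hp, hc]; rfl
    · simp
  · rintro ⟨S, p⟩ h
    simp only [Finset.mem_sigma, Finset.mem_powersetCard, Finset.mem_sdiff] at h ⊢
    obtain ⟨⟨hS, hc⟩, hp, hpS⟩ := h
    refine ⟨⟨?_, ?_⟩, by simp⟩
    · intro q hq
      rcases Finset.mem_insert.1 hq with rfl | hq
      · exact hp
      · exact hS hq
    · rw [Finset.card_insert_of_notMem hpS, hc]
  · rintro ⟨T, p⟩ h
    simp only [Finset.mem_sigma, Finset.mem_powersetCard] at h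
    simp [Finset.insert_erase h.2]
  · rintro ⟨S, p⟩ h
    simp only [Finset.mem_sigma, Finset.mem_powersetCard, Finset.mem_sdiff] at h
    simp [Finset.erase_insert h.2.2]
  · rintro ⟨T, p⟩ h
    rfl

private lemma esy_step (P : Finset ℕ) (z : ℕ → ℂ) (k : ℕ) :
    ((k : ℂ) + 1) * ∑ S ∈ P.powersetCard (k + 1), ∏ p ∈ S, z p
      = (∑ p ∈ P, z p) * (∑ S ∈ P.powersetCard k, ∏ p ∈ S, z p)
        - ∑ S ∈ P.powersetCard k, ∑ p ∈ S, z p * ∏ q ∈ S, z q := by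
  rw [esy_rec, eq_sub_iff_add_eq, ← Finset.sum_add_distrib, Finset.mul_sum]
  refine Finset.sum_congr rfl fun S hS => ?_
  rw [Finset.sum_sdiff (Finset.mem_powersetCard.1 hS).1, Finset.sum_mul]

private lemma esy_err (P : Finset ℕ) (z : ℕ → ℂ) (hz : ∀ p ∈ P, ‖z p‖ ≤ 1) (k : ℕ) :
    (k.factorial : ℝ) * ‖∑ S ∈ P.powersetCard k, ∑ p ∈ S, z p * ∏ q ∈ S, z q‖
      ≤ k * (P.card : ℝ) ^ k := by
  have hS : ∀ S ∈ P.powersetCard k, ‖∑ p ∈ S, z p * ∏ q ∈ S, z q‖ ≤ k := by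
    intro S hS
    obtain ⟨hSP, hc⟩ := Finset.mem_powersetCard.1 hS
    have : ∀ p ∈ S, ‖z p * ∏ q ∈ S, z q‖ ≤ 1 := by
      intro p hp
      rw [norm_mul, norm_prod]
      have h1 : ‖z p‖ ≤ 1 := hz p (hSP hp)
      have h2 : ∏ q ∈ S, ‖z q‖ ≤ 1 := Finset.prod_le_one (fun q _ => norm_nonneg _)
        (fun q hq => hz q (hSP hq))
      have h3 : 0 ≤ ∏ q ∈ S, ‖z q‖ := Finset.prod_nonneg fun q _ => norm_nonneg _
      nlinarith [norm_nonneg (z p)]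
    calc ‖∑ p ∈ S, z p * ∏ q ∈ S, z q‖ ≤ ∑ p ∈ S, ‖z p * ∏ q ∈ S, z q‖ := norm_sum_le _ _
      _ ≤ ∑ p ∈ S, (1 : ℝ) := Finset.sum_le_sum this
      _ = k := by simp [hc]
  have h1 : ‖∑ S ∈ P.powersetCard k, ∑ p ∈ S, z p * ∏ q ∈ S, z q‖
      ≤ (P.card.choose k : ℝ) * k := by
    calc _ ≤ ∑ S ∈ P.powersetCard k, ‖∑ p ∈ S, z p * ∏ q ∈ S, z q‖ := norm_sum_le _ _
      _ ≤ ∑ S ∈ P.powersetCard k, (k : ℝ) := Finset.sum_le_sum hS
      _ = _ := by simp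
  have h2 : (k.factorial : ℝ) * (P.card.choose k : ℝ) ≤ (P.card : ℝ) ^ k := by
    have := Nat.descFactorial_eq_factorial_mul_choose P.card k
    have h3 := Nat.descFactorial_le_pow P.card k
    rw [this] at h3
    exact_mod_cast h3
  calc (k.factorial : ℝ) * ‖∑ S ∈ P.powersetCard k, ∑ p ∈ S, z p * ∏ q ∈ S, z q‖
      ≤ (k.factorial : ℝ) * ((P.card.choose k : ℝ) * k) := by gcongr
    _ = k * ((k.factorial : ℝ) * (P.card.choose k : ℝ)) := by ring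
    _ ≤ k * (P.card : ℝ) ^ k := by gcongr

private lemma esy_main (P : Finset ℕ) (z : ℕ → ℂ) (hz : ∀ p ∈ P, ‖z p‖ ≤ 1) (k : ℕ) :
    ‖(∑ p ∈ P, z p) ^ (k + 1)
        - ((k + 1).factorial : ℂ) * ∑ S ∈ P.powersetCard (k + 1), ∏ p ∈ S, z p‖
      ≤ ((k : ℝ) * (k + 1) / 2) * (P.card : ℝ) ^ k := by
  induction k with
  | zero =>
    simp [Finset.powersetCard_one]
  | succ k ih =>
    have hs := esy_step P z (k + 1)
    have he := esy_err P z hz (k + 1)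
    set E1 := ∑ S ∈ P.powersetCard (k + 1), ∏ p ∈ S, z p
    set E2 := ∑ S ∈ P.powersetCard (k + 1 + 1), ∏ p ∈ S, z p
    set R := ∑ S ∈ P.powersetCard (k + 1), ∑ p ∈ S, z p * ∏ q ∈ S, z q
    have hp : ‖∑ p ∈ P, z p‖ ≤ P.card := by
      calc _ ≤ ∑ p ∈ P, ‖z p‖ := norm_sum_le _ _
        _ ≤ ∑ p ∈ P, (1 : ℝ) := Finset.sum_le_sum hz
        _ = _ := by simp
    set p1 := ∑ p ∈ P, z p
    have key : p1 ^ (k + 1 + 1) - ((k + 1 + 1).factorial : ℂ) * E2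
        = p1 * (p1 ^ (k + 1) - ((k + 1).factorial : ℂ) * E1) + ((k + 1).factorial : ℂ) * R := by
      have : ((k + 1 + 1).factorial : ℂ) * E2
          = ((k + 1).factorial : ℂ) * (((((k + 1 : ℕ) : ℂ)) + 1) * E2) := by
        rw [Nat.factorial_succ (k + 1)]
        push_cast
        ring
      rw [this, hs]
      ring
    rw [key]
    calc _ ≤ ‖p1 * (p1 ^ (k + 1) - ((k + 1).factorial : ℂ) * E1)‖
          + ‖((k + 1).factorial : ℂ) * R‖ := norm_add_le _ _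
      _ ≤ (P.card : ℝ) * (((k : ℝ) * (k + 1) / 2) * (P.card : ℝ) ^ k)
          + ((k + 1 : ℕ) : ℝ) * (P.card : ℝ) ^ (k + 1) := by
          refine add_le_add ?_ ?_
          · rw [norm_mul]
            exact mul_le_mul hp ih (norm_nonneg _) (Nat.cast_nonneg _)
          · rw [norm_mul]
            simpa using he
      _ = _ := by
          push_cast
          ring

theorem esym_lower (P : Finset ℕ) (z : ℕ → ℂ) (hz : ∀ p ∈ P, ‖z p‖ ≤ 1) (k : ℕ) (hk : 1 ≤ k)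
    (σ : ℝ) (hσ0 : 0 ≤ σ) (hσ : σ ≤ ‖∑ p ∈ P, z p‖)
    (hσk : (k : ℝ) ^ 2 * (P.card : ℝ) ^ (k - 1) ≤ σ ^ k) :
    σ ^ k / 2 ≤ (k.factorial : ℝ) * ‖∑ S ∈ P.powersetCard k, ∏ p ∈ S, z p‖ := by
  obtain ⟨m, rfl⟩ : ∃ m, k = m + 1 := ⟨k - 1, by omega⟩
  have h := esy_main P z hz m
  have h1 : σ ^ (m + 1) ≤ ‖(∑ p ∈ P, z p) ^ (m + 1)‖ := by
    rw [norm_pow]
    exact pow_le_pow_left₀ hσ0 hσ _
  set E := ∑ S ∈ P.powersetCard (m + 1), ∏ p ∈ S, z p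
  have h2 : ‖(∑ p ∈ P, z p) ^ (m + 1)‖
      ≤ ‖(∑ p ∈ P, z p) ^ (m + 1) - ((m + 1).factorial : ℂ) * E‖
        + ‖((m + 1).factorial : ℂ) * E‖ := by
    have := norm_add_le ((∑ p ∈ P, z p) ^ (m + 1) - ((m + 1).factorial : ℂ) * E)
      (((m + 1).factorial : ℂ) * E)
    simpa using this
  have h3 : ‖((m + 1).factorial : ℂ) * E‖ = ((m + 1).factorial : ℝ) * ‖E‖ := by
    rw [norm_mul]
    simp
  have h4 : ((m : ℝ) * (m + 1) / 2) * (P.card : ℝ) ^ m ≤ σ ^ (m + 1) / 2 := by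
    have h5 : ((m + 1 : ℕ) : ℝ) ^ 2 * (P.card : ℝ) ^ m ≤ σ ^ (m + 1) := by simpa using hσk
    have h6 : (0 : ℝ) ≤ (P.card : ℝ) ^ m := by positivity
    have h7 : (m : ℝ) * (m + 1) ≤ ((m + 1 : ℕ) : ℝ) ^ 2 := by
      push_cast
      nlinarith [(Nat.cast_nonneg m : (0 : ℝ) ≤ m)]
    nlinarith
  rw [h3] at h2
  linarith

end Pool.Agent.ARX
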