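import Pool.Agent.ARX.Def2
import Pool.Agent.ARX.Omp

set_option autoImplicit false

/-!
# ARX module EXN: the exact expansion

For `p ∈ PR b m x` put `G = (p-1).primeFactors.filter (· ≤ η)`.  By `pow_iff_ind` and `ee_sum`, for
`q ∈ G` the indicator of `n` not being a `q`-th power modulo `p` is
`1 - (1/q) ∑_{i<q} ee q (i * ind n) = uu + vv`, where for `q ∤ t`:
`vv = -(1/q) ∑_{i=1}^{q-1} ee q (i * ind n)`, `uu = 1 - 1/q`, and for `q ∣ t`, `vv = 0` (then
`ind n = ind b + t ind m = ind b` modulo `q`).  Expand `∏_{q∈G} (uu + vv)` over subsets `T` of `G`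
(`Finset.prod_add`) and `∏_{q∈T} ∑_i` (`Finset.prod_sum`):
`∑_p (indicator - ∏ uu) = ∑_{T ≠ ∅, q ∤ t} ∑_i ± (1/∏T) ∑_{p : T ⊆ G} c(p) om (∏ T) (t i) p m`
with `c(p) = ∏_{q ∈ G \ T} uu * ∏_{q∈T} ee q (i q * ind b)` (zero if `p ∣ b` or `p = 2`), of absolute
value at most one.  The index set (pairs `(T, i)`, `T` a non empty set of primes `≤ η` not dividing
`t`, `i q ∈ [1, q-1]`) does not depend on `m`, `x`; `q ∤ t * i q`.  Primes `p ∣ m` contribute
nothing (`om = 0`).
-/

namespace Pool.Agent.ARX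

theorem ind_one {p : ℕ} (hp : p.Prime) : ind p (1 : ZMod p) ≡ 0 [MOD (p - 1)] := by
  have : Fact p.Prime := ⟨hp⟩
  have h := ind_mul hp (one_ne_zero (α := ZMod p)) (one_ne_zero (α := ZMod p))
  rw [mul_one] at h
  exact (Nat.ModEq.add_left_cancel' (ind p 1) (by simpa using h)).symm

theorem ind_pow {p : ℕ} (hp : p.Prime) {x : ZMod p} (hx : x ≠ 0) (t : ℕ) :
    ind p (x ^ t) ≡ t * ind p x [MOD (p - 1)] := by
  have : Fact p.Prime := ⟨hp⟩
  induction t with
  | zero => simpa using ind_one hp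
  | succ t ih =>
    rw [pow_succ, add_mul, one_mul]
    exact (ind_mul hp (pow_ne_zero t hx) hx).trans (ih.add_right _)

/-- the coefficients of the expansion of the local factor -/
noncomputable def ww (p q i : ℕ) : ℂ :=
  if q ∣ p - 1 then (if i = 0 then 1 - 1 / (q : ℂ) else -(1 / (q : ℂ)))
  else (if i = 0 then 1 else 0)

theorem norm_ww_le (p q i : ℕ) : ‖ww p q i‖ ≤ 1 := by
  have h1 : (0 : ℝ) ≤ 1 / (q : ℝ) := by positivity
  have h2 : 1 / (q : ℝ) ≤ 1 := by
    rcases Nat.eq_zero_or_pos q with rfl | hq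
    · simp
    · rw [div_le_one (by exact_mod_cast hq)]
      exact_mod_cast hq
  unfold ww
  split_ifs
  · have : (1 - 1 / (q : ℂ)) = ((1 - 1 / (q : ℝ) : ℝ) : ℂ) := by push_cast; rfl
    rw [this, Complex.norm_real, Real.norm_eq_abs, abs_le]
    constructor <;> linarith
  · have : -(1 / (q : ℂ)) = ((-(1 / (q : ℝ)) : ℝ) : ℂ) := by push_cast; rfl
    rw [this, Complex.norm_real, Real.norm_eq_abs, abs_le]
    constructor <;> linarith
  · simp
  · simp

theorem ee_zero {q : ℕ} (hq : 1 ≤ q) : ee q 0 = 1 := (ee_eq_one_iff hq).2 (dvd_zero q)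

open Classical in
theorem sum_ww {p q : ℕ} (hp : p.Prime) (hq : q.Prime) {x : ZMod p} (hx : x ≠ 0) :
    ∑ i ∈ Finset.range q, ww p q i * ee q (i * ind p x) =
      if q ∣ p - 1 then (if ∃ y : ZMod p, y ^ q = x then 0 else 1) else 1 := by
  have h0 : ∑ i ∈ Finset.range q, (if i = 0 then (1 : ℂ) else 0) * ee q (i * ind p x) = 1 := by
    rw [Finset.sum_eq_single 0]
    · rw [if_pos rfl, zero_mul, ee_zero hq.one_lt.le, one_mul]
    · intro i _ hi
      rw [if_neg hi, zero_mul]
    · intro h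
      exact absurd (Finset.mem_range.2 hq.pos) h
  by_cases hd : q ∣ p - 1
  · rw [if_pos hd]
    have h1 : ∀ i ∈ Finset.range q, ww p q i * ee q (i * ind p x) =
        (if i = 0 then (1 : ℂ) else 0) * ee q (i * ind p x) - (1 / (q : ℂ)) * ee q (i * ind p x) := by
      intro i _
      unfold ww
      rw [if_pos hd]
      split_ifs <;> ring
    rw [Finset.sum_congr rfl h1, Finset.sum_sub_distrib, h0, ← Finset.mul_sum,
      ee_sum hq.one_lt.le]
    have hq0 : (q : ℂ) ≠ 0 := by exact_mod_cast hq.ne_zero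
    have h2 := pow_iff_ind hp hd hq.one_lt.le hx
    by_cases h3 : ∃ y : ZMod p, y ^ q = x
    · rw [if_pos h3, if_pos (h2.1 h3), one_div, inv_mul_cancel₀ hq0, sub_self]
    · rw [if_neg h3, if_neg (fun h => h3 (h2.2 h)), mul_zero, sub_zero]
  · rw [if_neg hd]
    have h1 : ∀ i ∈ Finset.range q, ww p q i * ee q (i * ind p x) =
        (if i = 0 then (1 : ℂ) else 0) * ee q (i * ind p x) := by
      intro i _
      unfold ww
      rw [if_neg hd]
    rw [Finset.sum_congr rfl h1, h0]

/-- the primes `q ≤ η` not dividing `t` -/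
def BB (t η : ℕ) : Finset ℕ := (Finset.range (η + 1)).filter (fun q => q.Prime ∧ ¬ q ∣ t)

theorem mem_BB {t η q : ℕ} : q ∈ BB t η ↔ q ≤ η ∧ q.Prime ∧ ¬ q ∣ t := by
  simp [BB]

/-- extension by zero -/
noncomputable def xg {t η : ℕ} (g : BB t η → ℕ) (q : ℕ) : ℕ := by
  classical
  exact if h : q ∈ BB t η then g ⟨q, h⟩ else 0

theorem xg_coe {t η : ℕ} (g : BB t η → ℕ) (q : BB t η) : xg g q = g q := by
  classical
  unfold xg
  rw [dif_pos q.2]

/-- the support -/
noncomputable def TT {t η : ℕ} (g : BB t η → ℕ) : Finset ℕ := (BB t η).filter (fun q => xg g q ≠ 0)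

theorem prime_of_mem_TT {t η : ℕ} {g : BB t η → ℕ} {q : ℕ} (h : q ∈ TT g) : q.Prime :=
  (mem_BB.1 (Finset.mem_filter.1 h).1).2.1

theorem primeFactors_TT {t η : ℕ} (g : BB t η → ℕ) : (∏ q ∈ TT g, q).primeFactors = TT g :=
  Nat.primeFactors_prod fun _ h => prime_of_mem_TT h

theorem squarefree_TT {t η : ℕ} (g : BB t η → ℕ) : Squarefree (∏ q ∈ TT g, q) := by
  refine Finset.squarefree_prod_of_pairwise_isCoprime (fun p hp q hq hpq => ?_)
    (fun p hp => (prime_of_mem_TT hp).squarefree)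
  exact Nat.coprime_iff_isRelPrime.1 ((Nat.coprime_primes (prime_of_mem_TT hp)
    (prime_of_mem_TT hq)).2 hpq)

/-- the factor for the primes dividing `t` -/
noncomputable def Dp (b : ℤ) (t η p : ℕ) : ℂ :=
  ∏ q ∈ ((p - 1).primeFactors.filter (fun q => q ≤ η)).filter (fun q => q ∣ t), (uu b t p q : ℂ)

theorem norm_Dp_le (b : ℤ) (t η p : ℕ) : ‖Dp b t η p‖ ≤ 1 := by
  unfold Dp
  rw [norm_prod]
  refine Finset.prod_le_one (fun _ _ => norm_nonneg _) fun q hq => ?_
  rw [Complex.norm_real]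
  unfold uu
  rw [if_pos (Finset.mem_filter.1 hq).2]
  split_ifs <;> simp

open Classical in
theorem ind_eq_prod {b : ℤ} {t η m x p : ℕ} (hp : p ∈ PR b m x) :
    (if ∀ q : ℕ, q.Prime → q ≤ η → q ∣ p - 1 →
      ¬ ∃ y : ZMod p, y ^ q = ((b * (m : ℤ) ^ t : ℤ) : ZMod p) then (1 : ℂ) else 0) =
      Dp b t η p * ∏ q ∈ BB t η, (if q ∣ p - 1 then
        (if ∃ y : ZMod p, y ^ q = ((b * (m : ℤ) ^ t : ℤ) : ZMod p) then (0 : ℂ) else 1) else 1) := by
  simp only [PR, Finset.mem_filter, Finset.mem_range] at hp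
  obtain ⟨_, hpp, hp2, hbm⟩ := hp
  have hfact : Fact p.Prime := ⟨hpp⟩
  have hp1 : p - 1 ≠ 0 := by
    have := hpp.two_le
    omega
  have hm0 : ((m : ℤ) : ZMod p) ≠ 0 := by
    rw [Ne, ZMod.intCast_zmod_eq_zero_iff_dvd]
    exact fun h => hbm (h.mul_left b)
  set n : ZMod p := ((b * (m : ℤ) ^ t : ℤ) : ZMod p) with hn
  have h1 : (if ∀ q : ℕ, q.Prime → q ≤ η → q ∣ p - 1 → ¬ ∃ y : ZMod p, y ^ q = n then (1 : ℂ)
      else 0) = ∏ q ∈ (p - 1).primeFactors.filter (fun q => q ≤ η),
        (if ∃ y : ZMod p, y ^ q = n then (0 : ℂ) else 1) := by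
    split_ifs with h
    · symm
      refine Finset.prod_eq_one fun q hq => ?_
      rw [Finset.mem_filter, Nat.mem_primeFactors] at hq
      rw [if_neg (h q hq.1.1 hq.2 hq.1.2.1)]
    · push Not at h
      obtain ⟨q, h1, h2, h3, h4⟩ := h
      symm
      refine Finset.prod_eq_zero (i := q) ?_ (if_pos h4)
      rw [Finset.mem_filter, Nat.mem_primeFactors]
      exact ⟨⟨h1, h3, hp1⟩, h2⟩
  rw [h1, ← Finset.prod_filter_mul_prod_filter_not _ (fun q => q ∣ t)]
  congr 1
  · unfold Dp
    refine Finset.prod_congr rfl fun q hq => ?_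
    have hqt : q ∣ t := (Finset.mem_filter.1 hq).2
    unfold uu
    rw [if_pos hqt]
    have h2 : (∃ y : ZMod p, y ^ q = n) ↔ ∃ y : ZMod p, y ^ q = (b : ZMod p) := by
      obtain ⟨s, rfl⟩ := hqt
      have hn' : n = (b : ZMod p) * (((m : ℤ) : ZMod p) ^ s) ^ q := by
        rw [hn]
        push_cast
        rw [← pow_mul, mul_comm s q]
      constructor
      · rintro ⟨y, hy⟩
        refine ⟨y / (((m : ℤ) : ZMod p) ^ s), ?_⟩
        rw [div_pow, hy, hn', mul_div_cancel_right₀ _ (pow_ne_zero _ (pow_ne_zero _ hm0))]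
      · rintro ⟨y, hy⟩
        exact ⟨y * (((m : ℤ) : ZMod p) ^ s), by rw [mul_pow, hy, hn']⟩
    by_cases h3 : ∃ y : ZMod p, y ^ q = n
    · rw [if_pos h3, if_pos (h2.1 h3)]
      simp
    · rw [if_neg h3, if_neg (fun h => h3 (h2.2 h))]
      simp
  · refine Eq.trans ?_ (Finset.prod_filter (fun q => q ∣ p - 1) _)
    refine Finset.prod_congr ?_ fun q _ => ?_
    · ext q
      simp only [Finset.mem_filter, Nat.mem_primeFactors, mem_BB]
      tauto
    · by_cases h : ∃ y : ZMod p, y ^ q = n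
      · rw [if_pos h, if_pos h]
      · rw [if_neg h, if_neg h]

theorem main_eq_prod {b : ℤ} {t η m x p : ℕ} (hp : p ∈ PR b m x) :
    ((∏ q ∈ (p - 1).primeFactors.filter (fun q => q ≤ η), uu b t p q : ℝ) : ℂ) =
      Dp b t η p * ∏ q ∈ BB t η, ww p q 0 := by
  classical
  simp only [PR, Finset.mem_filter, Finset.mem_range] at hp
  obtain ⟨_, hpp, hp2, hbm⟩ := hp
  have hp1 : p - 1 ≠ 0 := by
    have := hpp.two_le
    omega
  rw [← Finset.prod_filter_mul_prod_filter_not _ (fun q => q ∣ t)]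
  push_cast
  unfold Dp
  congr 1
  have h1 : ∀ q ∈ BB t η, ww p q 0 = if q ∣ p - 1 then 1 - 1 / (q : ℂ) else 1 := by
    intro q _
    unfold ww
    rw [if_pos rfl, if_pos rfl]
  rw [Finset.prod_congr rfl h1, ← Finset.prod_filter]
  refine Finset.prod_congr ?_ fun q hq => ?_
  · ext q
    simp only [Finset.mem_filter, Nat.mem_primeFactors, mem_BB]
    tauto
  · unfold uu
    simp only [Finset.mem_filter, mem_BB] at hq
    rw [if_neg hq.1.2.2]
    push_cast
    rfl

/-- the local factor at `q` of the term `g` -/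
theorem term_eq {b : ℤ} {t p q i m : ℕ} (hpp : p.Prime) (hq : q.Prime)
    (hb : ((b : ℤ) : ZMod p) ≠ 0) (hm : ((m : ℤ) : ZMod p) ≠ 0) :
    ww p q i * ee q (i * ind p ((b * (m : ℤ) ^ t : ℤ) : ZMod p)) =
      ww p q i * ee q (i * ind p (b : ZMod p)) * ee q (t * i * ind p ((m : ℤ) : ZMod p)) := by
  have hfact : Fact p.Prime := ⟨hpp⟩
  have hq1 := hq.one_lt.le
  by_cases hi : i = 0
  · subst hi
    simp [ee_zero hq1]
  by_cases hd : q ∣ p - 1
  · rw [mul_assoc, ← ee_add]
    congr 1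
    apply ee_modEq
    have h1 : ind p ((b * (m : ℤ) ^ t : ℤ) : ZMod p) ≡
        ind p (b : ZMod p) + t * ind p ((m : ℤ) : ZMod p) [MOD (p - 1)] := by
      have : ((b * (m : ℤ) ^ t : ℤ) : ZMod p) = (b : ZMod p) * ((m : ℤ) : ZMod p) ^ t := by
        push_cast
        rfl
      rw [this]
      exact (ind_mul hpp hb (pow_ne_zero t hm)).trans ((ind_pow hpp hm t).add_left _)
    have h2 := (h1.of_dvd hd).mul_left i
    have h3 : i * (ind p (b : ZMod p) + t * ind p ((m : ℤ) : ZMod p)) =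
        i * ind p (b : ZMod p) + t * i * ind p ((m : ℤ) : ZMod p) := by ring
    rwa [h3] at h2
  · unfold ww
    rw [if_neg hd, if_neg hi]
    simp

open Classical in
theorem prod_BB_eq {t η p : ℕ} (hpp : p.Prime) {n : ZMod p} (hn0 : n ≠ 0) :
    ∏ q ∈ BB t η, (if q ∣ p - 1 then (if ∃ y : ZMod p, y ^ q = n then (0 : ℂ) else 1) else 1) =
      ∏ q : BB t η, ∑ i ∈ Finset.range q, ww p q i * ee q (i * ind p n) := by
  rw [← Finset.prod_coe_sort (BB t η)]
  refine Finset.prod_congr rfl fun q _ => ?_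
  rw [sum_ww hpp (mem_BB.1 q.2).2.1 hn0]

theorem enum {ι : Type*} [Inhabited ι] (S : Finset ι) : ∃ φ : ℕ → ι,
    (∀ s, s < S.card → φ s ∈ S) ∧
      ∀ f : ι → ℝ, ∑ s ∈ Finset.range S.card, f (φ s) = ∑ g ∈ S, f g := by
  classical
  refine ⟨fun s => if h : s < S.card then (S.equivFin.symm ⟨s, h⟩ : ι) else default, ?_, ?_⟩
  · intro s hs
    simp only [dif_pos hs]
    exact (S.equivFin.symm ⟨s, hs⟩).2
  · intro f
    rw [Finset.sum_range, ← Finset.sum_coe_sort S]
    refine Fintype.sum_equiv S.equivFin.symm _ _ fun i => ?_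
    simp

theorem expansion (t : ℕ) (ht : 1 ≤ t) (η : ℕ) :
    ∃ (r : ℕ) (ed : ℕ → ℕ) (jd : ℕ → ℕ → ℕ),
      (∀ s, s < r → 1 < ed s ∧ Squarefree (ed s) ∧ (∀ q ∈ (ed s).primeFactors, ¬ q ∣ jd s q)) ∧
      ∀ b : ℤ, b ≠ 0 → ∃ cd : ℕ → ℕ → ℂ, (∀ s p, ‖cd s p‖ ≤ 1) ∧
      ∀ m x : ℕ, 1 ≤ m → |cnt b t η m x - mnt b t η m x| ≤
        ∑ s ∈ Finset.range r,
          ‖∑ p ∈ (Finset.range (x + 1)).filter (fun p : ℕ => p.Prime ∧ ed s ∣ p - 1),
            cd s p * om (ed s) (jd s) p (m : ℤ)‖ := by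
  classical
  let S : Finset (BB t η → ℕ) := (Fintype.piFinset fun q : BB t η => Finset.range q).erase 0
  obtain ⟨φ, hφ, hφs⟩ := enum S
  let ed : (BB t η → ℕ) → ℕ := fun g => ∏ q ∈ TT g, q
  let jd : (BB t η → ℕ) → ℕ → ℕ := fun g q => t * xg g q
  refine ⟨S.card, fun s => ed (φ s), fun s => jd (φ s), ?_, ?_⟩
  · intro s hs
    have hg := hφ s hs
    set g := φ s
    rw [Finset.mem_erase, Fintype.mem_piFinset] at hg
    obtain ⟨q, hq⟩ : ∃ q, g q ≠ 0 := by
      by_contra h
      push Not at h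
      exact hg.1 (funext h)
    have hqT : (q : ℕ) ∈ TT g := by
      rw [TT, Finset.mem_filter, xg_coe]
      exact ⟨q.2, hq⟩
    refine ⟨?_, squarefree_TT g, ?_⟩
    · have h1 : (q : ℕ) ∣ ed g := Finset.dvd_prod_of_mem _ hqT
      have h2 := (squarefree_TT g).ne_zero
      exact lt_of_lt_of_le (prime_of_mem_TT hqT).one_lt (Nat.le_of_dvd (Nat.pos_of_ne_zero h2) h1)
    · intro r hr hd
      change r ∈ (∏ q ∈ TT g, q).primeFactors at hr
      rw [primeFactors_TT] at hr
      have hr' := hr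
      rw [TT, Finset.mem_filter, mem_BB] at hr
      obtain ⟨⟨h1, h2, h3⟩, h4⟩ := hr
      rcases (h2.dvd_mul).1 hd with h5 | h5
      · exact h3 h5
      · have hr2 : r ∈ BB t η := (Finset.mem_filter.1 hr').1
        have h6 : xg g r = g ⟨r, hr2⟩ := xg_coe g ⟨r, hr2⟩
        have h7 := Finset.mem_range.1 (hg.2 ⟨r, hr2⟩)
        rw [h6] at h4 h5
        exact absurd (Nat.le_of_dvd (Nat.pos_of_ne_zero h4) h5) (not_le.2 h7)
  · intro b hb
    let cd : (BB t η → ℕ) → ℕ → ℂ := fun g p => if p = 2 ∨ (p : ℤ) ∣ b then 0 else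
      Dp b t η p * ((∏ q : BB t η, ww p q (g q)) * ∏ q : BB t η, ee q (g q * ind p (b : ZMod p)))
    refine ⟨fun s => cd (φ s), ?_, ?_⟩
    · intro s p
      simp only [cd]
      split_ifs with h
      · simp
      · rw [norm_mul, norm_mul, norm_prod, norm_prod]
        have h1 : ∏ q : BB t η, ‖ww p q (φ s q)‖ ≤ 1 :=
          Finset.prod_le_one (fun _ _ => norm_nonneg _) fun q _ => norm_ww_le _ _ _
        have h2 : ∏ q : BB t η, ‖ee q (φ s q * ind p (b : ZMod p))‖ = 1 :=
          Finset.prod_eq_one fun q _ => norm_ee _ _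
        rw [h2, mul_one]
        exact mul_le_one₀ (norm_Dp_le _ _ _ _) (Finset.prod_nonneg fun _ _ => norm_nonneg _) h1
    · intro m x hm
      rw [hφs (fun g => ‖∑ p ∈ (Finset.range (x + 1)).filter (fun p : ℕ => p.Prime ∧ ed g ∣ p - 1),
              cd g p * om (ed g) (jd g) p (m : ℤ)‖)]
      have key : ((cnt b t η m x - mnt b t η m x : ℝ) : ℂ) =
          ∑ g ∈ S, ∑ p ∈ (Finset.range (x + 1)).filter (fun p : ℕ => p.Prime ∧ ed g ∣ p - 1),
              cd g p * om (ed g) (jd g) p (m : ℤ) := by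
        have hc : ((cnt b t η m x : ℝ) : ℂ) = ∑ p ∈ PR b m x,
            (if ∀ q : ℕ, q.Prime → q ≤ η → q ∣ p - 1 →
              ¬ ∃ y : ZMod p, y ^ q = ((b * (m : ℤ) ^ t : ℤ) : ZMod p) then (1 : ℂ) else 0) := by
          unfold cnt
          rw [Finset.card_filter]
          push_cast
          refine Finset.sum_congr rfl fun p _ => ?_
          split_ifs <;> simp
        have hm' : ((mnt b t η m x : ℝ) : ℂ) = ∑ p ∈ PR b m x,
            ((∏ q ∈ (p - 1).primeFactors.filter (fun q => q ≤ η), uu b t p q : ℝ) : ℂ) := by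
          unfold mnt
          push_cast
          rfl
        rw [Complex.ofReal_sub, hc, hm', ← Finset.sum_sub_distrib]
        have h1 : ∀ p ∈ PR b m x, ((if ∀ q : ℕ, q.Prime → q ≤ η → q ∣ p - 1 →
              ¬ ∃ y : ZMod p, y ^ q = ((b * (m : ℤ) ^ t : ℤ) : ZMod p) then (1 : ℂ) else 0) -
            ((∏ q ∈ (p - 1).primeFactors.filter (fun q => q ≤ η), uu b t p q : ℝ) : ℂ)) =
            ∑ g ∈ S, Dp b t η p * ∏ q : BB t η, (ww p q (g q) *
              ee q (g q * ind p ((b * (m : ℤ) ^ t : ℤ) : ZMod p))) := by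
          intro p hp
          rw [ind_eq_prod hp, main_eq_prod hp, ← mul_sub, ← Finset.mul_sum]
          congr 1
          simp only [PR, Finset.mem_filter, Finset.mem_range] at hp
          obtain ⟨_, hpp, hp2, hbm⟩ := hp
          have hfact : Fact p.Prime := ⟨hpp⟩
          have hn0 : ((b * (m : ℤ) ^ t : ℤ) : ZMod p) ≠ 0 := by
            have hb0 : ((b : ℤ) : ZMod p) ≠ 0 := by
              rw [Ne, ZMod.intCast_zmod_eq_zero_iff_dvd]
              exact fun h => hbm (h.mul_right _)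
            have hm0 : ((m : ℤ) : ZMod p) ≠ 0 := by
              rw [Ne, ZMod.intCast_zmod_eq_zero_iff_dvd]
              exact fun h => hbm (h.mul_left b)
            rw [Int.cast_mul, Int.cast_pow]
            exact mul_ne_zero hb0 (pow_ne_zero _ hm0)
          rw [prod_BB_eq hpp hn0, Finset.prod_univ_sum]
          have h3 : (0 : BB t η → ℕ) ∈ Fintype.piFinset fun q : BB t η => Finset.range q := by
            rw [Fintype.mem_piFinset]
            intro q
            exact Finset.mem_range.2 (mem_BB.1 q.2).2.1.pos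
          rw [← Finset.add_sum_erase _ _ h3]
          have h4 : ∏ q : BB t η, (ww p q ((0 : BB t η → ℕ) q) *
              ee q ((0 : BB t η → ℕ) q * ind p ((b * (m : ℤ) ^ t : ℤ) : ZMod p))) =
              ∏ q ∈ BB t η, ww p q 0 := by
            rw [← Finset.prod_coe_sort (BB t η)]
            refine Finset.prod_congr rfl fun q _ => ?_
            rw [Pi.zero_apply, zero_mul, ee_zero (mem_BB.1 q.2).2.1.one_lt.le, mul_one]
          rw [h4, add_sub_cancel_left]
        rw [Finset.sum_congr rfl h1, Finset.sum_comm]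
        refine Finset.sum_congr rfl fun g hg => ?_
        unfold PR
        rw [Finset.sum_filter, Finset.sum_filter]
        refine Finset.sum_congr rfl fun p _ => ?_
        by_cases hpp : p.Prime
        swap
        · rw [if_neg (fun h => hpp h.1), if_neg (fun h => hpp h.1)]
        have hfact : Fact p.Prime := ⟨hpp⟩
        by_cases hp2 : p = 2
        · rw [if_neg (fun h => h.2.1 hp2)]
          simp only [cd]
          rw [if_pos (Or.inl hp2), zero_mul, ite_self]
        by_cases hpb : (p : ℤ) ∣ b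
        · rw [if_neg (fun h => h.2.2 (hpb.mul_right _))]
          simp only [cd]
          rw [if_pos (Or.inr hpb), zero_mul, ite_self]
        by_cases hpm : (p : ℤ) ∣ (m : ℤ)
        · rw [if_neg (fun h => h.2.2 (hpm.mul_left _))]
          have : om (ed g) (jd g) p (m : ℤ) = 0 := by
            unfold om
            rw [if_pos ((ZMod.intCast_zmod_eq_zero_iff_dvd _ _).2 hpm)]
          rw [this, mul_zero, ite_self]
        have hbm : ¬ ((p : ℤ) ∣ b * m) := fun h =>
          (((Nat.prime_iff_prime_int.1 hpp).dvd_mul).1 h).elim hpb hpm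
        rw [if_pos ⟨hpp, hp2, hbm⟩]
        have hb0 : ((b : ℤ) : ZMod p) ≠ 0 := by
          rw [Ne, ZMod.intCast_zmod_eq_zero_iff_dvd]
          exact hpb
        have hm0 : ((m : ℤ) : ZMod p) ≠ 0 := by
          rw [Ne, ZMod.intCast_zmod_eq_zero_iff_dvd]
          exact hpm
        have h5 : ∏ q : BB t η, (ww p q (g q) *
              ee q (g q * ind p ((b * (m : ℤ) ^ t : ℤ) : ZMod p))) =
            ((∏ q : BB t η, ww p q (g q)) * ∏ q : BB t η, ee q (g q * ind p (b : ZMod p))) *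
              ∏ q : BB t η, ee q (t * g q * ind p ((m : ℤ) : ZMod p)) := by
          rw [← Finset.prod_mul_distrib, ← Finset.prod_mul_distrib]
          refine Finset.prod_congr rfl fun q _ => ?_
          exact term_eq hpp (mem_BB.1 q.2).2.1 hb0 hm0
        rw [h5]
        by_cases hed : ed g ∣ p - 1
        · rw [if_pos ⟨hpp, hed⟩]
          simp only [cd]
          rw [if_neg (by tauto), mul_assoc, mul_assoc, mul_assoc]
          congr 1
          congr 1
          congr 1
          unfold om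
          rw [if_neg hm0]
          change _ = ∏ q ∈ (∏ q ∈ TT g, q).primeFactors, _
          rw [primeFactors_TT, TT, Finset.prod_filter, ← Finset.prod_coe_sort (BB t η)]
          refine Finset.prod_congr rfl fun q _ => ?_
          simp only [jd, xg_coe]
          split_ifs with h
          · rfl
          · rw [not_not.1 h, mul_zero, zero_mul, ee_zero (mem_BB.1 q.2).2.1.one_lt.le]
        · rw [if_neg (fun h => hed h.2)]
          have h6 : ∃ q : BB t η, g q ≠ 0 ∧ ¬ (q : ℕ) ∣ p - 1 := by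
            by_contra h
            push Not at h
            apply hed
            refine Finset.prod_primes_dvd _ (fun q hq => (prime_of_mem_TT hq).prime) fun q hq => ?_
            have hq2 : q ∈ BB t η := (Finset.mem_filter.1 hq).1
            have hq3 := (Finset.mem_filter.1 hq).2
            refine h ⟨q, hq2⟩ ?_
            rw [← xg_coe g ⟨q, hq2⟩]
            exact hq3
          obtain ⟨q, hq1, hq2⟩ := h6
          have h7 : ∏ q : BB t η, ww p q (g q) = 0 := by
            refine Finset.prod_eq_zero (Finset.mem_univ q) ?_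
            unfold ww
            rw [if_neg hq2, if_neg hq1]
          rw [h7, zero_mul, zero_mul, mul_zero]
      have h2 : |cnt b t η m x - mnt b t η m x| = ‖((cnt b t η m x - mnt b t η m x : ℝ) : ℂ)‖ := by
        rw [Complex.norm_real, Real.norm_eq_abs]
      rw [h2, key]
      exact norm_sum_le _ _

end Pool.Agent.ARX
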