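import Pool.Agent.ARX.Asm
import Pool.Agent.Helper6.ArtinAssembly

set_option autoImplicit false

/-!
# ARX module FIN: all scales

`Pool.Agent.Helper6.scale_reduction` reduces all `x` of the range to the scales
`scl lam j = ⌊lam^j⌋`.  `prm n` is monotone (`artinP_mono`; `prm = artinP`).  For `N` large all
scales with `lam^(j+1) ≥ exp((log N)^(1-τ))`, `lam^j ≤ lam N^A` lie in the range of `one_scale`
for the slightly larger parameters (`τ' = τ/2`... i.e. take `τ_final = τ/2`: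
`exp((log N)^(1-τ/2)) / lam ≥ exp((log N)^(1-τ))`; and `A+1` in the place of `A`).  There are at
most `(A log N)/log lam + 3` scales, each with at most `N^(δ/2)` exceptions.
`|prm/π - δ0| ≤ |prm - mnf|/π + |mnf/π - δ0|`.
-/

namespace Pool.Agent.ARX

open Filter Topology

private lemma prm_eq (n : ℤ) : prm n = Pool.Agent.Helper6.artinP n := by
  funext x
  unfold prm Pool.Agent.Helper6.artinP
  rfl

private lemma tendsto_log_rpow {s : ℝ} (hs : 0 < s) :
    Tendsto (fun N : ℕ => (Real.log N) ^ s) atTop atTop :=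
  (tendsto_rpow_atTop hs).comp (Real.tendsto_log_atTop.comp tendsto_natCast_atTop_atTop)

private lemma gap {τ τ0 lam : ℝ} (h0 : 0 < τ) (h1 : τ < τ0) (h2 : τ0 < 1) (hlam : 1 < lam) :
    ∀ᶠ N : ℕ in atTop, Real.exp ((Real.log N) ^ (1 - τ0)) + 1 ≤
      Real.exp ((Real.log N) ^ (1 - τ)) / lam := by
  have ha : Tendsto (fun N : ℕ => (Real.log N) ^ (1 - τ0)) atTop atTop :=
    tendsto_log_rpow (by linarith)
  have hb : Tendsto (fun N : ℕ => (Real.log N) ^ (τ0 - τ)) atTop atTop :=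
    tendsto_log_rpow (by linarith)
  filter_upwards [ha.eventually_ge_atTop 0, ha.eventually_ge_atTop (Real.log (2 * lam)),
    hb.eventually_ge_atTop 2, eventually_ge_atTop 3] with N h3 h4 h5 h6
  have hN : (1 : ℝ) < N := by exact_mod_cast (by omega : 1 < N)
  have hlog : 0 < Real.log N := Real.log_pos hN
  have e1 : (Real.log N) ^ (1 - τ) = (Real.log N) ^ (1 - τ0) * (Real.log N) ^ (τ0 - τ) := by
    rw [← Real.rpow_add hlog]; congr 1; ring
  have e2 : (Real.log N) ^ (1 - τ0) + Real.log (2 * lam) ≤ (Real.log N) ^ (1 - τ) := by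
    rw [e1]; nlinarith
  have e3 := Real.exp_le_exp.mpr e2
  rw [Real.exp_add, Real.exp_log (by linarith)] at e3
  have e4 : (1 : ℝ) ≤ Real.exp ((Real.log N) ^ (1 - τ0)) := Real.one_le_exp h3
  rw [le_div_iff₀ (by linarith)]
  nlinarith

/-- UNIFORM VERSION: for all `b` with the property `G b`, `|b| ≤ N`. -/
theorem all_scales (t : ℕ) (ht : 1 ≤ t) (G : ℤ → Prop) (δ0 : ℝ) (h0 : 0 ≤ δ0) (h2 : δ0 ≤ 2)
    (hmain : ∀ ε' τ' : ℝ, 0 < ε' → 0 < τ' → τ' < 1 → ∃ N₁ : ℕ, ∀ N : ℕ, N₁ ≤ N → ∀ b : ℤ, G b →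
      b ≠ 0 → b.natAbs ≤ N → ∀ x : ℕ, Real.exp ((Real.log N) ^ (1 - τ')) ≤ x →
      |mnf b t x / Nat.primeCounting x - δ0| ≤ ε')
    (A δ ε : ℝ) (hA : 0 < A) (hδ : 0 < δ) (hε : 0 < ε) :
    ∃ τ : ℝ, 0 < τ ∧ τ < 1 ∧ ∃ N₀ : ℕ, ∀ N : ℕ, N₀ ≤ N → ∀ b : ℤ, G b → b ≠ 0 → b.natAbs ≤ N →
      ∀ MM : Finset ℕ, (∀ m ∈ MM, 1 ≤ m ∧ m ≤ N ∧ Squarefree m) →
      (∀ m ∈ MM, ∃ x : ℕ, Real.exp ((Real.log N) ^ (1 - τ)) ≤ x ∧ (x : ℝ) ≤ (N : ℝ) ^ A ∧
        ε < |prm (b * (m : ℤ) ^ t) x / Nat.primeCounting x - δ0|) →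
      (MM.card : ℝ) ≤ (N : ℝ) ^ δ := by
  classical
  obtain ⟨lam, hlam, ε', hε', j₁, hred⟩ :=
    Pool.Agent.Helper6.scale_reduction δ0 h0 h2 ε hε
  obtain ⟨τ0, hτ0, hτ08, hone0⟩ :=
    one_scale t ht (A + 1) (δ / 2) (ε' / 2) (by linarith) (by linarith) (by linarith)
  obtain ⟨N₁, hone⟩ := hone0 τ0 hτ0 le_rfl
  obtain ⟨N₂, hmn⟩ := hmain (ε' / 2) τ0 (by linarith) hτ0 (by linarith)
  have hlamlog : 0 < Real.log lam := Real.log_pos hlam
  have hscl := Pool.Agent.Helper6.scl_tendsto hlam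
  obtain ⟨j₂, hj₂⟩ := eventually_atTop.mp (hscl.eventually_ge_atTop 2)
  refine ⟨τ0 / 2, by linarith, by linarith, ?_⟩
  have hgap := gap (τ := τ0 / 2) (τ0 := τ0) (lam := lam) (by linarith) (by linarith)
    (by linarith) hlam
  have hbig := tendsto_log_rpow (s := 1 - τ0 / 2) (by linarith)
  have hbig1 := hbig.eventually_ge_atTop (((max j₁ j₂ : ℕ) : ℝ) * Real.log lam)
  -- number of scales
  have hcnt : ∀ᶠ N : ℕ in atTop, A * Real.log N / Real.log lam + 3 ≤ (N : ℝ) ^ (δ / 2) := by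
    have h3 : (fun x : ℝ => Real.log x) =o[atTop] fun x : ℝ => x ^ (δ / 2) :=
      isLittleO_log_rpow_atTop (by linarith)
    have h4 := h3.bound (show 0 < Real.log lam / (2 * (A + 1)) by positivity)
    have h5 := tendsto_natCast_atTop_atTop (R := ℝ) |>.eventually h4
    have h6 : Tendsto (fun N : ℕ => (N : ℝ) ^ (δ / 2)) atTop atTop :=
      (tendsto_rpow_atTop (by linarith)).comp tendsto_natCast_atTop_atTop
    filter_upwards [h5, h6.eventually_ge_atTop 6, eventually_ge_atTop 1] with N h7 h8 h9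
    have hN : (1 : ℝ) ≤ N := by exact_mod_cast h9
    have hlogN : 0 ≤ Real.log N := Real.log_nonneg hN
    rw [Real.norm_of_nonneg hlogN, Real.norm_of_nonneg (by positivity)] at h7
    have h10 : A * Real.log N / Real.log lam ≤ (N : ℝ) ^ (δ / 2) / 2 := by
      rw [div_le_iff₀ hlamlog]
      calc A * Real.log N ≤ A * (Real.log lam / (2 * (A + 1)) * (N : ℝ) ^ (δ / 2)) := by gcongr
        _ = (A / (A + 1)) * ((N : ℝ) ^ (δ / 2) / 2 * Real.log lam) := by field_simp
        _ ≤ 1 * ((N : ℝ) ^ (δ / 2) / 2 * Real.log lam) := by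
            apply mul_le_mul_of_nonneg_right _ (by positivity)
            rw [div_le_one (by linarith)]; linarith
        _ = _ := one_mul _
    linarith
  obtain ⟨N₀, hN₀⟩ := eventually_atTop.mp ((hgap.and hbig1).and (hcnt.and
    (((eventually_ge_atTop N₁).and (eventually_ge_atTop N₂)).and
      ((tendsto_natCast_atTop_atTop (R := ℝ)).eventually_ge_atTop lam))))
  refine ⟨N₀, ?_⟩
  intro N hN b hGb hb hbN MM hMM hbad
  obtain ⟨⟨g1, g2⟩, g3, ⟨g4, g4'⟩, g5⟩ := hN₀ N hN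
  have hN1 : (1 : ℝ) < N := lt_of_lt_of_le hlam g5
  have hN0 : (0 : ℝ) < N := by linarith
  have hlogN : 0 < Real.log N := Real.log_pos hN1
  set y : ℝ := (Real.log N) ^ (1 - τ0 / 2) with hy
  have hy0 : 0 ≤ y := by positivity
  set j₀ : ℕ := ⌊y / Real.log lam⌋₊ with hj₀
  set J : ℕ := ⌊A * Real.log N / Real.log lam⌋₊ with hJ
  have hj₀max : max j₁ j₂ ≤ j₀ := by
    apply Nat.le_floor
    rw [le_div_iff₀ hlamlog]
    exact g2
  have hj₀1 : lam ^ j₀ ≤ Real.exp y := by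
    have h3 : (j₀ : ℝ) ≤ y / Real.log lam := Nat.floor_le (by positivity)
    rw [le_div_iff₀ hlamlog] at h3
    calc lam ^ j₀ = Real.exp ((j₀ : ℝ) * Real.log lam) := by
          rw [mul_comm, Real.exp_mul, Real.exp_log (by linarith), Real.rpow_natCast]
      _ ≤ Real.exp y := Real.exp_le_exp.mpr h3
  have hj₀2 : Real.exp y / lam ≤ lam ^ j₀ := by
    have h3 : y / Real.log lam < (j₀ : ℝ) + 1 := Nat.lt_floor_add_one _
    rw [div_lt_iff₀ hlamlog] at h3
    rw [div_le_iff₀ (by linarith)]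
    calc Real.exp y ≤ Real.exp (((j₀ : ℝ) + 1) * Real.log lam) := Real.exp_le_exp.mpr h3.le
      _ = lam ^ (j₀ + 1) := by
          rw [mul_comm, Real.exp_mul, Real.exp_log (by linarith)]
          have : ((j₀ : ℝ) + 1) = ((j₀ + 1 : ℕ) : ℝ) := by push_cast; ring
          rw [this, Real.rpow_natCast]
      _ = lam ^ j₀ * lam := pow_succ _ _
  have hJ1 : (N : ℝ) ^ A < lam ^ (J + 1) := by
    have h3 : A * Real.log N / Real.log lam < (J : ℝ) + 1 := Nat.lt_floor_add_one _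
    rw [div_lt_iff₀ hlamlog] at h3
    calc (N : ℝ) ^ A = Real.exp (A * Real.log N) := by
          rw [Real.rpow_def_of_pos hN0, mul_comm]
      _ < Real.exp (((J : ℝ) + 1) * Real.log lam) := Real.exp_lt_exp.mpr h3
      _ = lam ^ (J + 1) := by
          rw [mul_comm, Real.exp_mul, Real.exp_log (by linarith)]
          have : ((J : ℝ) + 1) = ((J + 1 : ℕ) : ℝ) := by push_cast; ring
          rw [this, Real.rpow_natCast]
  have hJ2 : lam ^ (J + 1) ≤ (N : ℝ) ^ (A + 1) := by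
    have h3 : (J : ℝ) ≤ A * Real.log N / Real.log lam := Nat.floor_le (by positivity)
    rw [le_div_iff₀ hlamlog] at h3
    have h4 : lam ^ J ≤ (N : ℝ) ^ A := by
      calc lam ^ J = Real.exp ((J : ℝ) * Real.log lam) := by
            rw [mul_comm, Real.exp_mul, Real.exp_log (by linarith), Real.rpow_natCast]
        _ ≤ Real.exp (A * Real.log N) := Real.exp_le_exp.mpr h3
        _ = (N : ℝ) ^ A := by rw [Real.rpow_def_of_pos hN0, mul_comm]
    calc lam ^ (J + 1) = lam ^ J * lam := pow_succ _ _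
      _ ≤ (N : ℝ) ^ A * N := by gcongr
      _ = (N : ℝ) ^ (A + 1) := by rw [Real.rpow_add hN0, Real.rpow_one]
  -- the bad sets at the scales
  set F : ℕ → Finset ℕ := fun j => MM.filter (fun m => ε' <
    |prm (b * (m : ℤ) ^ t) (Pool.Agent.Helper6.scl lam j) /
      Nat.primeCounting (Pool.Agent.Helper6.scl lam j) - δ0|) with hF
  have hcover : MM ⊆ (Finset.Icc j₀ (J + 1)).biUnion F := by
    intro m hm
    obtain ⟨x, hx1, hx2, hx3⟩ := hbad m hm
    by_contra hcon
    rw [Finset.mem_biUnion] at hcon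
    push Not at hcon
    have h3 := hred j₀ ((le_max_left _ _).trans hj₀max) (prm (b * (m : ℤ) ^ t))
      (by rw [prm_eq]; exact Pool.Agent.Helper6.artinP_mono _)
      (by intro z; rw [prm_eq]; exact Pool.Agent.Helper6.artinP_nonneg _ _) J (by
        intro j hj1 hj2
        have h4 := hcon j (Finset.mem_Icc.mpr ⟨hj1, hj2⟩)
        rw [hF, Finset.mem_filter] at h4
        push Not at h4
        exact h4 hm) x (hj₀1.trans hx1) (lt_of_le_of_lt hx2 hJ1)
    linarith
  have hFj : ∀ j ∈ Finset.Icc j₀ (J + 1), ((F j).card : ℝ) ≤ (N : ℝ) ^ (δ / 2) := by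
    intro j hj
    rw [Finset.mem_Icc] at hj
    obtain ⟨hj1, hj2⟩ := hj
    set x : ℕ := Pool.Agent.Helper6.scl lam j with hx
    have hx2 : 2 ≤ x := hj₂ j ((le_max_right _ _).trans (hj₀max.trans hj1))
    have hpi := Pool.Agent.Helper6.primeCounting_pos hx2
    have hxlow : Real.exp ((Real.log N) ^ (1 - τ0)) ≤ x := by
      have h3 : lam ^ j₀ ≤ lam ^ j := pow_le_pow_right₀ hlam.le hj1
      have h4 : lam ^ j < (x : ℝ) + 1 := by
        rw [hx]; unfold Pool.Agent.Helper6.scl; exact Nat.lt_floor_add_one _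
      have h5 := g1
      linarith
    have hmx := hmn N g4' b hGb hb hbN x hxlow
    apply hone N g4 b hb hbN x hxlow
    · have h3 : lam ^ j ≤ lam ^ (J + 1) := pow_le_pow_right₀ hlam.le hj2
      have h4 : (x : ℝ) ≤ lam ^ j := by
        rw [hx]; unfold Pool.Agent.Helper6.scl
        exact Nat.floor_le (by positivity)
      linarith
    · intro m hm
      exact hMM m (Finset.mem_filter.mp hm).1
    · intro m hm
      have h3 := (Finset.mem_filter.mp hm).2
      have h4 := hmx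
      by_contra hcon
      push Not at hcon
      have h5 : |prm (b * (m : ℤ) ^ t) x / Nat.primeCounting x -
          mnf b t x / Nat.primeCounting x| ≤ ε' / 2 := by
        rw [← sub_div, abs_div, abs_of_pos hpi, div_le_iff₀ hpi]
        exact hcon
      have h6 : |prm (b * (m : ℤ) ^ t) x / Nat.primeCounting x - δ0| ≤
          |prm (b * (m : ℤ) ^ t) x / Nat.primeCounting x - mnf b t x / Nat.primeCounting x| +
          |mnf b t x / Nat.primeCounting x - δ0| := abs_sub_le _ _ _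
      linarith
  calc (MM.card : ℝ) ≤ (((Finset.Icc j₀ (J + 1)).biUnion F).card : ℝ) := by
        exact_mod_cast Finset.card_le_card hcover
    _ ≤ ((∑ j ∈ Finset.Icc j₀ (J + 1), (F j).card : ℕ) : ℝ) := by
        exact_mod_cast Finset.card_biUnion_le
    _ = ∑ j ∈ Finset.Icc j₀ (J + 1), ((F j).card : ℝ) := by push_cast; rfl
    _ ≤ ∑ j ∈ Finset.Icc j₀ (J + 1), (N : ℝ) ^ (δ / 2) := Finset.sum_le_sum hFj
    _ = ((Finset.Icc j₀ (J + 1)).card : ℝ) * (N : ℝ) ^ (δ / 2) := by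
        rw [Finset.sum_const, nsmul_eq_mul]
    _ ≤ (N : ℝ) ^ (δ / 2) * (N : ℝ) ^ (δ / 2) := by
        apply mul_le_mul_of_nonneg_right _ (by positivity)
        have h3 : (J : ℝ) ≤ A * Real.log N / Real.log lam := Nat.floor_le (by positivity)
        have h4 : ((Finset.Icc j₀ (J + 1)).card : ℝ) ≤ (J : ℝ) + 2 := by
          rw [Nat.card_Icc]
          exact_mod_cast (by omega : J + 1 + 1 - j₀ ≤ J + 2)
        linarith
    _ = (N : ℝ) ^ δ := by
        rw [← Real.rpow_add hN0]; congr 1; ring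

end Pool.Agent.ARX
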