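import Pool.Agent.ARX.Idl

set_option autoImplicit false

/-!
# ARX module GAU: the Gauss sum congruence

`l` a prime, `l ≠ p`, `l ∤ e`; `κ : 𝓞 K → k`, `k` a field of characteristic `l`; `q` a prime
dividing `e`; `f = orderOf (l : ZMod q)`.

Embed `k` in its algebraic closure (the statement can be checked there).  Let
`χ : MulChar (ZMod p) k̄` be `x ↦ κ(chiO q p x)` (of order `q` because `κ(zt)^(e/q)` is a primitive
root of unity of order `q`: `l ∤ e`), and `ψ` a primitive additive character of `ZMod p`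
(`AddChar.FiniteField.primitiveChar` or `ZMod` with a primitive `p`-th root of unity in `k̄`,
`l ≠ p`), `g = gaussSum χ ψ`.
* `g ^ q = κ(Phi q p)`: Mathlib `gaussSum_pow_eq_prod_jacobiSum`.
* `g ^ (l ^ f) = χ(l ^ f)⁻¹ g`: iterate `gaussSum_frob` (`g(χ,ψ)^l = g(χ^l, ψ^l)`), with
  `χ ^ (l ^ f) = χ` (`l ^ f = 1` modulo `q`) and `gaussSum_mulShift`.
* `g ≠ 0` (`gaussSum_ne_zero_of_nontrivial`), so `(g^q)^((l^f-1)/q) = g^(l^f - 1) = χ(l)^(-f)`.
(Checked numerically in 614 cases.)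
-/

namespace Pool.Agent.ARX

open NumberField

variable (e : ℕ) [NeZero e] (K : Type) [Field K] [NumberField K] [IsCyclotomicExtension {e} ℚ K]

theorem Gau_range {p : ℕ} [NeZero p] {R : Type*} [AddCommMonoid R] (F : ZMod p → R) :
    ∑ a ∈ Finset.range p, F (a : ZMod p) = ∑ x : ZMod p, F x := by
  refine Finset.sum_bij (fun a _ => (a : ZMod p)) (fun _ _ => Finset.mem_univ _) ?_ ?_
    (fun _ _ => rfl)
  · intro a ha b hb h
    rw [Finset.mem_range] at ha hb
    rw [ZMod.natCast_eq_natCast_iff'] at h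
    rwa [Nat.mod_eq_of_lt ha, Nat.mod_eq_of_lt hb] at h
  · intro x _
    exact ⟨x.val, Finset.mem_range.2 (ZMod.val_lt x), ZMod.natCast_zmod_val x⟩

/-- `κ zt` is a primitive root of unity in characteristic prime to `e`. -/
theorem Gau_kappa_prim {l : ℕ} (hl : l.Prime) (hle : ¬ l ∣ e) {k : Type} [Field k] [CharP k l]
    (κ : 𝓞 K →+* k) : IsPrimitiveRoot (κ (zt e K)) e := by
  have he : (e : k) ≠ 0 := by
    rw [Ne, CharP.cast_eq_zero_iff k l]
    exact hle
  have : NeZero (e : k) := ⟨he⟩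
  have h1 := (zt_prim e K).isRoot_cyclotomic (NeZero.pos e)
  rw [← Polynomial.isRoot_cyclotomic_iff, ← Polynomial.map_cyclotomic e κ]
  exact h1.map

theorem Gau_w_prim {q : ℕ} (hq : q.Prime) (hqe : q ∣ e) {k : Type} [Field k] {z : k}
    (hz : IsPrimitiveRoot z e) : IsPrimitiveRoot (z ^ (e / q)) q :=
  hz.pow (NeZero.pos e) (Nat.div_mul_cancel hqe).symm

/-- The character with values in `k`. -/
theorem Gau_char {q p : ℕ} (hq : q.Prime) (hqe : q ∣ e) (hp : Good e p) {k : Type} [Field k]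
    (κ : 𝓞 K →+* k) (hk : IsPrimitiveRoot (κ (zt e K)) e) :
    ∃ χ : MulChar (ZMod p) k, (∀ x, χ x = κ (chiO e K q p x)) ∧ orderOf χ = q := by
  classical
  have : Fact p.Prime := ⟨hp.1⟩
  set w : k := κ (zt e K) ^ (e / q) with hw
  have hwp : IsPrimitiveRoot w q := Gau_w_prim e hq hqe hk
  have hqp : q ∣ p - 1 := hqe.trans hp.2
  have h0 : κ (chiO e K q p 0) = 0 := by
    unfold chiO
    rw [if_pos rfl, map_zero]
  have h1 : ∀ {x : ZMod p}, x ≠ 0 → κ (chiO e K q p x) = w ^ ind p x := by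
    intro x hx
    unfold chiO
    rw [if_neg hx, map_pow, hw, ← pow_mul]
  have hmod : ∀ {a b : ℕ}, a ≡ b [MOD (p - 1)] → w ^ a = w ^ b := by
    intro a b hab
    have h2 : a ≡ b [MOD q] := hab.of_dvd hqp
    rw [pow_eq_pow_mod a hwp.pow_eq_one, pow_eq_pow_mod b hwp.pow_eq_one, h2]
  let f : ZMod p →* k :=
    { toFun := fun x => κ (chiO e K q p x)
      map_one' := by
        rw [h1 one_ne_zero]
        have h3 := ind_mul hp.1 (one_ne_zero (α := ZMod p)) (one_ne_zero (α := ZMod p))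
        rw [mul_one] at h3
        have h4 := hmod h3
        rw [pow_add] at h4
        have h5 : w ^ ind p (1 : ZMod p) ≠ 0 := pow_ne_zero _ (hwp.ne_zero hq.ne_zero)
        have h6 : w ^ ind p (1 : ZMod p) * 1 = w ^ ind p (1 : ZMod p) * w ^ ind p (1 : ZMod p) := by
          rw [mul_one]; exact h4
        exact (mul_left_cancel₀ h5 h6).symm
      map_mul' := by
        intro x y
        rcases eq_or_ne x 0 with hx | hx
        · rw [hx, zero_mul, h0, zero_mul]
        rcases eq_or_ne y 0 with hy | hy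
        · rw [hy, mul_zero, h0, mul_zero]
        rw [h1 hx, h1 hy, h1 (mul_ne_zero hx hy), ← pow_add]
        exact hmod (ind_mul hp.1 hx hy) }
  let χ : MulChar (ZMod p) k :=
    { f with
      map_nonunit' := by
        intro a ha
        have ha0 : a = 0 := by
          by_contra hne
          exact ha (Ne.isUnit hne)
        rw [ha0]
        exact h0 }
  have hχ : ∀ x, χ x = κ (chiO e K q p x) := fun x => rfl
  refine ⟨χ, hχ, ?_⟩
  have hqf : Fact q.Prime := ⟨hq⟩
  refine orderOf_eq_prime ?_ ?_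
  · refine MulChar.ext fun a => ?_
    rw [MulChar.pow_apply_coe, MulChar.one_apply_coe, hχ, h1 a.ne_zero, ← pow_mul, mul_comm,
      pow_mul, hwp.pow_eq_one, one_pow]
  · intro hone
    have hg : gen p ≠ 0 := gen_ne_zero hp.1
    have h3 : χ (gen p) = 1 := by
      rw [hone]
      exact MulChar.one_apply (Ne.isUnit hg)
    rw [hχ, h1 hg] at h3
    -- the index of the generator is 1 modulo p - 1
    have h4 : gen p ^ ind p (gen p) = gen p ^ 1 := by
      rw [ind_spec hp.1 hg, pow_one]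
    have h5 : (Units.mk0 (gen p) hg) ^ ind p (gen p) = (Units.mk0 (gen p) hg) ^ 1 := by
      apply Units.ext
      simpa using h4
    have h6 := pow_eq_pow_iff_modEq.1 h5
    rw [← orderOf_units, Units.val_mk0, (gen_spec hp.1).1] at h6
    rw [hmod h6, pow_one] at h3
    exact hwp.ne_one hq.one_lt h3

/-- The statement over an algebraically closed field. -/
theorem Gau_closed {q l p : ℕ} (hq : q.Prime) (hqe : q ∣ e) (hp : Good e p) (hl : l.Prime)
    (hle : ¬ l ∣ e) (hlp : l ≠ p) {k : Type} [Field k] [IsAlgClosed k] [CharP k l]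
    (κ : 𝓞 K →+* k) :
    κ (Phi e K q p) ^ ((l ^ orderOf (l : ZMod q) - 1) / q) *
      κ (zt e K) ^ ((e / q) * (orderOf (l : ZMod q) * ind p (l : ZMod p))) = 1 := by
  classical
  have : Fact p.Prime := ⟨hp.1⟩
  have : Fact l.Prime := ⟨hl⟩
  have hk := Gau_kappa_prim e K hl hle κ
  obtain ⟨χ, hχ, hord⟩ := Gau_char e K hq hqe hp κ hk
  have hpk : (p : k) ≠ 0 := by
    rw [Ne, CharP.cast_eq_zero_iff k l, Nat.prime_dvd_prime_iff_eq hl hp.1]
    exact hlp
  have : NeZero (p : k) := ⟨hpk⟩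
  obtain ⟨ζ, hζ⟩ := HasEnoughRootsOfUnity.exists_primitiveRoot k p
  obtain ⟨ψ, hψ⟩ : ∃ ψ : AddChar (ZMod p) k, ψ.IsPrimitive :=
    ⟨_, AddChar.zmodChar_primitive_of_primitive_root p hζ⟩
  set f := orderOf (l : ZMod q) with hf
  have hχ1 : χ ≠ 1 := by
    intro h
    rw [h, orderOf_one] at hord
    exact hq.one_lt.ne hord
  -- the Gauss sum
  have hg0 : gaussSum χ ψ ≠ 0 := by
    refine gaussSum_ne_zero_of_nontrivial ?_ hχ1 hψ
    rw [ZMod.card]
    exact hpk
  have hgq : gaussSum χ ψ ^ q = κ (Phi e K q p) := by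
    have h := gaussSum_pow_eq_prod_jacobiSum (χ := χ) (ψ := ψ) (by rw [hord]; exact hq.two_le) hψ
    rw [hord, ZMod.card] at h
    rw [h]
    unfold Phi
    rw [map_mul, map_mul, map_natCast, hχ, map_prod]
    congr 1
    refine Finset.prod_congr rfl fun i hi => ?_
    have hi0 : i ≠ 0 := by
      have := (Finset.mem_Ico.1 hi).1
      omega
    rw [map_sum, jacobiSum]
    rw [← Gau_range (fun x : ZMod p => χ x * (χ ^ i) (1 - x))]
    refine Finset.sum_congr rfl fun a _ => ?_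
    rw [map_mul, map_pow, MulChar.pow_apply' χ hi0, hχ, hχ]
  have hfrob : ∀ n : ℕ, gaussSum χ ψ ^ (l ^ n) = gaussSum (χ ^ (l ^ n)) (ψ ^ (l ^ n)) := by
    intro n
    induction n with
    | zero => simp
    | succ n ih =>
      rw [pow_succ, pow_mul, ih, gaussSum_frob l, ← pow_mul, ← pow_mul]
  have hlq : ((l ^ f : ℕ) : ZMod q) = ((1 : ℕ) : ZMod q) := by
    push_cast
    exact pow_orderOf_eq_one _
  have hlq' : l ^ f ≡ 1 [MOD q] := (ZMod.natCast_eq_natCast_iff _ _ _).1 hlq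
  have hone : 1 ≤ l ^ f := Nat.one_le_pow _ _ hl.pos
  have hqd : q ∣ l ^ f - 1 := (Nat.modEq_iff_dvd' hone).1 hlq'.symm
  have hχf : χ ^ (l ^ f) = χ := by
    have h1 : χ ^ q = 1 := by rw [← hord]; exact pow_orderOf_eq_one _
    obtain ⟨m, hm⟩ := hqd
    have h2 : l ^ f = q * m + 1 := by omega
    rw [h2, pow_succ, pow_mul, h1, one_pow, one_mul]
  have hlp0 : (l : ZMod p) ≠ 0 := by
    rw [Ne, ZMod.natCast_eq_zero_iff, Nat.prime_dvd_prime_iff_eq hp.1 hl]
    exact fun h => hlp h.symm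
  have hmain : χ ((l : ZMod p) ^ f) * gaussSum χ ψ ^ (l ^ f) = gaussSum χ ψ := by
    rw [hfrob f, hχf, AddChar.pow_mulShift]
    have h3 := gaussSum_mulShift χ ψ (Units.mk0 ((l : ZMod p) ^ f) (pow_ne_zero _ hlp0))
    rw [Units.val_mk0] at h3
    rw [Nat.cast_pow]
    exact h3
  have hmain2 : χ ((l : ZMod p) ^ f) * gaussSum χ ψ ^ (l ^ f - 1) = 1 := by
    have h4 : gaussSum χ ψ ^ (l ^ f) = gaussSum χ ψ ^ (l ^ f - 1) * gaussSum χ ψ := by
      rw [← pow_succ, Nat.sub_add_cancel hone]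
    rw [h4, ← mul_assoc] at hmain
    have h5 : (χ ((l : ZMod p) ^ f) * gaussSum χ ψ ^ (l ^ f - 1)) * gaussSum χ ψ =
        1 * gaussSum χ ψ := by rw [one_mul]; exact hmain
    exact mul_right_cancel₀ hg0 h5
  rw [← hgq, ← pow_mul, Nat.mul_div_cancel' hqd, mul_comm, ← hmain2]
  congr 1
  rw [map_pow, hχ]
  unfold chiO
  rw [if_neg hlp0, map_pow, ← pow_mul]
  congr 1
  ring

theorem gauss_symbol {q l p : ℕ} (hq : q.Prime) (hqe : q ∣ e) (hp : Good e p) (hl : l.Prime)
    (hle : ¬ l ∣ e) (hlp : l ≠ p) {k : Type} [Field k] [CharP k l] (κ : 𝓞 K →+* k) :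
    κ (Phi e K q p) ^ ((l ^ orderOf (l : ZMod q) - 1) / q) *
      κ (zt e K) ^ ((e / q) * (orderOf (l : ZMod q) * ind p (l : ZMod p))) = 1 := by
  have : CharP (AlgebraicClosure k) l :=
    charP_of_injective_algebraMap (algebraMap k (AlgebraicClosure k)).injective l
  have h := Gau_closed e K hq hqe hp hl hle hlp ((algebraMap k (AlgebraicClosure k)).comp κ)
  apply (algebraMap k (AlgebraicClosure k)).injective
  rw [map_mul, map_pow, map_pow, map_one]
  exact h

/-- the case `l = p` -/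
theorem gauss_symbol_self {q p : ℕ} {k : Type} [Field k] [CharP k p] (κ : 𝓞 K →+* k) :
    κ (Phi e K q p) = 0 := by
  unfold Phi
  rw [map_mul, map_mul, map_natCast, CharP.cast_eq_zero, mul_zero, zero_mul]

end Pool.Agent.ARX
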