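import Pool.Agent.ARX.Def2

set_option autoImplicit false

/-!
# ARX module GLS: the larger sieve on k-fold products

`E` finite set of non zero integers, `|n| ≤ N`; `P` a finite set of primes.  For `p ∈ P` let
`H_p` be the set of `n ∈ E` which are non zero `q p`-th powers modulo `p` (`q p ∣ p - 1`).

Lower bound: the k-fold products of elements of `H_p` are non zero `q p`-th powers modulo `p`;
there are `(p-1)/(q p)` such residues, so by Cauchy-Schwarz the number of pairs `(u, v)` of maps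
`Fin k → E` with `∏ u = ∏ v` modulo `p` is at least `|H_p|^(2k) (q p)/(p-1)`.

Upper bound: exchange the sums.  For a pair with `∏ u ≠ ∏ v` the primes `p ∈ P` dividing
`∏ u - ∏ v` satisfy `∑ log p ≤ log |∏ u - ∏ v| ≤ log (2 N^k)`
(`Finset.prod_primes_dvd`); for a pair with `∏ u = ∏ v` (at most `|E|^k R` pairs) use
`∑_{p∈P} log p`.
-/

namespace Pool.Agent.ARX

open Finset in
theorem card_powres {p q : ℕ} [Fact p.Prime] (hq : q ∣ p - 1) (S : Finset (ZMod p))
    (hS : ∀ z ∈ S, z ≠ 0 ∧ ∃ y : ZMod p, y ^ q = z) : S.card * q ≤ p - 1 := by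
  classical
  have hp : p.Prime := Fact.out
  have hp1 : 0 < p - 1 := Nat.sub_pos_of_lt hp.one_lt
  have h1 : Nat.card (powMonoidHom q : (ZMod p)ˣ →* (ZMod p)ˣ).range * q = p - 1 := by
    have h2 := Subgroup.card_mul_index (powMonoidHom q : (ZMod p)ˣ →* (ZMod p)ˣ).range
    rw [IsCyclic.index_powMonoidHom_range, Nat.card_eq_fintype_card (α := (ZMod p)ˣ),
      ZMod.card_units, Nat.gcd_eq_right hq] at h2
    exact h2
  have h3 : S.card ≤ Nat.card (powMonoidHom q : (ZMod p)ˣ →* (ZMod p)ˣ).range := by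
    let f : (powMonoidHom q : (ZMod p)ˣ →* (ZMod p)ˣ).range → ZMod p := fun u => (u.1 : ZMod p)
    have h4 : S ⊆ univ.image f := by
      intro z hz
      obtain ⟨h0, y, hy⟩ := hS z hz
      by_cases hy0 : y = 0
      · have hq0 : q ≠ 0 := by
          rintro rfl
          rw [zero_dvd_iff] at hq
          omega
        exact absurd (by rw [← hy, hy0, zero_pow hq0]) h0
      · refine mem_image.2 ⟨⟨(Units.mk0 y hy0) ^ q, Units.mk0 y hy0, rfl⟩, mem_univ _, ?_⟩
        change (((Units.mk0 y hy0) ^ q : (ZMod p)ˣ) : ZMod p) = z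
        rw [Units.val_pow_eq_pow_val, Units.val_mk0, hy]
    refine (card_le_card h4).trans (card_image_le.trans ?_)
    rw [Nat.card_eq_fintype_card, card_univ]
  calc S.card * q ≤ _ := Nat.mul_le_mul_right q h3
    _ = p - 1 := h1

open Finset in
/-- Cauchy-Schwarz for the fibres of a map -/
theorem card_sq_le {α β : Type*} [DecidableEq β] (S : Finset α) (T : Finset β) (f : α → β)
    (h : ∀ a ∈ S, f a ∈ T) :
    (S.card : ℝ) ^ 2 ≤ T.card * ((S ×ˢ S).filter (fun w => f w.1 = f w.2)).card := by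
  classical
  have h1 : (S.card : ℝ) = ∑ b ∈ T, (({a ∈ S | f a = b} : Finset α).card : ℝ) := by
    rw [card_eq_sum_card_fiberwise (f := f) (t := T) (fun a ha => h a ha)]
    push_cast
    rfl
  have h2 : (((S ×ˢ S).filter (fun w => f w.1 = f w.2)).card : ℝ) =
      ∑ b ∈ T, (({a ∈ S | f a = b} : Finset α).card : ℝ) ^ 2 := by
    rw [card_eq_sum_card_fiberwise (f := fun w : α × α => f w.1) (t := T)
      (fun w hw => h w.1 (mem_product.1 (mem_filter.1 hw).1).1)]
    push_cast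
    refine sum_congr rfl fun b _ => ?_
    rw [pow_two, ← Nat.cast_mul, ← card_product]
    congr 1
    congr 1
    ext ⟨u, v⟩
    simp only [mem_filter, mem_product]
    constructor
    · rintro ⟨⟨⟨hu, hv⟩, he⟩, hb⟩
      exact ⟨⟨hu, hb⟩, hv, he ▸ hb⟩
    · rintro ⟨⟨hu, hb⟩, hv, hb'⟩
      exact ⟨⟨⟨hu, hv⟩, hb.trans hb'.symm⟩, hb⟩
  rw [h2, h1]
  exact sq_sum_le_card_mul_sum_sq

theorem larger_sieve_products (E : Finset ℤ) (N : ℕ) (hN : 1 ≤ N)
    (hE : ∀ n ∈ E, n ≠ 0 ∧ n.natAbs ≤ N) (k : ℕ) (hk : 1 ≤ k) (P : Finset ℕ) (q : ℕ → ℕ)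
    (hP : ∀ p ∈ P, p.Prime ∧ 1 ≤ q p ∧ q p ∣ p - 1) (R : ℕ)
    (hR : ∀ m : ℤ, m ≠ 0 → m.natAbs ≤ N ^ k →
      ((Fintype.piFinset (fun _ : Fin k => E)).filter (fun v => ∏ i, v i = m)).card ≤ R)
    (t : ℕ → ℝ) (ht0 : ∀ p ∈ P, 0 ≤ t p)
    (ht : ∀ p ∈ P, t p ≤ ((hpow E (q p) p).card : ℝ)) :
    ∑ p ∈ P, Real.log p * (t p ^ (2 * k) * (q p : ℝ) / ((p : ℝ) - 1)) ≤
      (E.card : ℝ) ^ (2 * k) * (k * Real.log N + Real.log 2) +
        (E.card : ℝ) ^ k * R * ∑ p ∈ P, Real.log p := by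
  classical
  set F := Fintype.piFinset (fun _ : Fin k => E) with hF
  have hFc : (F.card : ℝ) = (E.card : ℝ) ^ k := by
    rw [hF, Fintype.card_piFinset]
    simp
  let W : ℕ → Finset ((Fin k → ℤ) × (Fin k → ℤ)) := fun p => (F ×ˢ F).filter
    (fun w => ((∏ i, w.1 i : ℤ) : ZMod p) = ((∏ i, w.2 i : ℤ) : ZMod p))
  have hlog : ∀ p ∈ P, 0 ≤ Real.log (p : ℝ) := fun p hp =>
    Real.log_nonneg (by exact_mod_cast (hP p hp).1.one_lt.le)
  have lower : ∀ p ∈ P, t p ^ (2 * k) * (q p : ℝ) / ((p : ℝ) - 1) ≤ ((W p).card : ℝ) := by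
    intro p hp
    obtain ⟨hpp, hq1, hq⟩ := hP p hp
    have : Fact p.Prime := ⟨hpp⟩
    let H := hpow E (q p) p
    let HF := Fintype.piFinset (fun _ : Fin k => H)
    let f : (Fin k → ℤ) → ZMod p := fun u => ((∏ i, u i : ℤ) : ZMod p)
    let T : Finset (ZMod p) := HF.image f
    have hHc : (HF.card : ℝ) = (H.card : ℝ) ^ k := by
      rw [Fintype.card_piFinset]
      simp
    have hT : T.card * q p ≤ p - 1 := by
      refine card_powres hq T fun z hz => ?_
      obtain ⟨u, hu, rfl⟩ := Finset.mem_image.1 hz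
      have hu' : ∀ i, ((u i : ℤ) : ZMod p) ≠ 0 ∧ ∃ y : ZMod p, y ^ q p = ((u i : ℤ) : ZMod p) :=
        fun i => by
          have h1 : u i ∈ H := Fintype.mem_piFinset.1 hu i
          simp only [H, hpow, Finset.mem_filter] at h1
          exact h1.2
      have hfu : f u = ∏ i, ((u i : ℤ) : ZMod p) := by
        simp only [f]
        push_cast
        rfl
      choose hne y hy using hu'
      rw [hfu]
      refine ⟨Finset.prod_ne_zero_iff.2 fun i _ => hne i, ∏ i, y i, ?_⟩
      rw [← Finset.prod_pow]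
      exact Finset.prod_congr rfl fun i _ => hy i
    have hCS := card_sq_le HF T f (fun a ha => Finset.mem_image_of_mem f ha)
    have hsub : ((HF ×ˢ HF).filter (fun w => f w.1 = f w.2)).card ≤ (W p).card := by
      refine Finset.card_le_card ?_
      intro w hw
      simp only [W, Finset.mem_filter, Finset.mem_product, HF, hF, Fintype.mem_piFinset, H, hpow]
        at hw ⊢
      exact ⟨⟨fun i => (hw.1.1 i).1, fun i => (hw.1.2 i).1⟩, hw.2⟩
    have hp1 : (0 : ℝ) < (p : ℝ) - 1 := by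
      have : (1 : ℝ) < p := by exact_mod_cast hpp.one_lt
      linarith
    have hT' : (T.card : ℝ) * q p ≤ (p : ℝ) - 1 := by
      have h2 : ((T.card * q p : ℕ) : ℝ) ≤ ((p - 1 : ℕ) : ℝ) := by exact_mod_cast hT
      rw [Nat.cast_sub hpp.one_lt.le] at h2
      push_cast at h2
      exact h2
    rw [div_le_iff₀ hp1]
    have h3 : t p ^ (2 * k) ≤ (HF.card : ℝ) ^ 2 := by
      rw [hHc, ← pow_mul, mul_comm k 2]
      exact pow_le_pow_left₀ (ht0 p hp) (ht p hp) _
    calc t p ^ (2 * k) * (q p : ℝ) ≤ (HF.card : ℝ) ^ 2 * q p :=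
          mul_le_mul_of_nonneg_right h3 (Nat.cast_nonneg _)
      _ ≤ (T.card * ((HF ×ˢ HF).filter (fun w => f w.1 = f w.2)).card) * q p :=
          mul_le_mul_of_nonneg_right hCS (Nat.cast_nonneg _)
      _ = (T.card * q p) * ((HF ×ˢ HF).filter (fun w => f w.1 = f w.2)).card := by ring
      _ ≤ ((p : ℝ) - 1) * (W p).card := by
          refine mul_le_mul hT' (by exact_mod_cast hsub) (Nat.cast_nonneg _) hp1.le
      _ = (W p).card * ((p : ℝ) - 1) := mul_comm _ _
  have hmem : ∀ u ∈ F, ∀ i, u i ∈ E := fun u hu => Fintype.mem_piFinset.1 hu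
  have hne : ∀ u ∈ F, (∏ i, u i) ≠ 0 := fun u hu =>
    Finset.prod_ne_zero_iff.2 fun i _ => (hE _ (hmem u hu i)).1
  have habs : ∀ u ∈ F, (∏ i, u i).natAbs ≤ N ^ k := by
    intro u hu
    have h0 : (∏ i, u i).natAbs = ∏ i, (u i).natAbs := map_prod Int.natAbsHom _ _
    rw [h0]
    calc ∏ i, (u i).natAbs ≤ ∏ _i : Fin k, N :=
          Finset.prod_le_prod' fun i _ => (hE _ (hmem u hu i)).2
      _ = N ^ k := by simp
  -- the inner sum for a pair
  have inner : ∀ w ∈ F ×ˢ F, ∑ p ∈ P, (if ((∏ i, w.1 i : ℤ) : ZMod p) =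
      ((∏ i, w.2 i : ℤ) : ZMod p) then Real.log (p : ℝ) else 0) ≤
      (k * Real.log N + Real.log 2) +
        (if (∏ i, w.1 i) = ∏ i, w.2 i then ∑ p ∈ P, Real.log (p : ℝ) else 0) := by
    intro w hw
    obtain ⟨hu, hv⟩ := Finset.mem_product.1 hw
    have hpos : 0 ≤ k * Real.log N + Real.log 2 := by
      have := Real.log_nonneg (x := N) (by exact_mod_cast hN)
      have := Real.log_nonneg (x := 2) (by norm_num)
      positivity
    by_cases he : (∏ i, w.1 i) = ∏ i, w.2 i
    · rw [if_pos he]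
      have : ∑ p ∈ P, (if ((∏ i, w.1 i : ℤ) : ZMod p) =
          ((∏ i, w.2 i : ℤ) : ZMod p) then Real.log (p : ℝ) else 0) ≤
          ∑ p ∈ P, Real.log (p : ℝ) := by
        refine Finset.sum_le_sum fun p hp => ?_
        split_ifs
        · exact le_rfl
        · exact hlog p hp
      linarith
    · rw [if_neg he, add_zero, ← Finset.sum_filter]
      set Dd := ((∏ i, w.1 i) - ∏ i, w.2 i).natAbs with hDd
      have hD0 : Dd ≠ 0 := by
        rw [hDd, Int.natAbs_ne_zero]
        exact sub_ne_zero.2 he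
      set Q := P.filter (fun p : ℕ => ((∏ i, w.1 i : ℤ) : ZMod p) =
        ((∏ i, w.2 i : ℤ) : ZMod p)) with hQ
      have hdvd : ∏ p ∈ Q, p ∣ Dd := by
        refine Finset.prod_primes_dvd Dd (fun p hp => ?_) (fun p hp => ?_)
        · exact Nat.prime_iff.1 (hP p (Finset.mem_filter.1 hp).1).1
        · have h1 := (Finset.mem_filter.1 hp).2
          rw [hDd, ← Int.natCast_dvd]
          rw [ZMod.intCast_eq_intCast_iff_dvd_sub] at h1
          rw [← dvd_neg, neg_sub]
          exact h1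
      have hle : ∏ p ∈ Q, p ≤ 2 * N ^ k := by
        refine (Nat.le_of_dvd (Nat.pos_of_ne_zero hD0) hdvd).trans ?_
        have := Int.natAbs_sub_le (∏ i, w.1 i) (∏ i, w.2 i)
        have h1 := habs _ hu
        have h2 := habs _ hv
        omega
      have hQ0 : ∀ p ∈ Q, (p : ℝ) ≠ 0 := fun p hp => by
        exact_mod_cast (hP p (Finset.mem_filter.1 hp).1).1.ne_zero
      rw [← Real.log_prod hQ0]
      have hN0 : (N : ℝ) ≠ 0 := by
        have : N ≠ 0 := by omega
        exact_mod_cast this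
      calc Real.log (∏ p ∈ Q, (p : ℝ)) ≤ Real.log (2 * (N : ℝ) ^ k) := by
            refine Real.log_le_log ?_ ?_
            swap
            · have h1 : ((∏ p ∈ Q, p : ℕ) : ℝ) ≤ ((2 * N ^ k : ℕ) : ℝ) := by exact_mod_cast hle
              push_cast at h1
              exact h1
            refine Finset.prod_pos fun p hp => ?_
            exact_mod_cast (hP p (Finset.mem_filter.1 hp).1).1.pos
        _ = k * Real.log N + Real.log 2 := by
            rw [Real.log_mul two_ne_zero (pow_ne_zero _ hN0), Real.log_pow]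
            ring
  -- number of pairs with equal products
  have hpairs : (((F ×ˢ F).filter (fun w => (∏ i, w.1 i) = ∏ i, w.2 i)).card : ℝ) ≤
      (E.card : ℝ) ^ k * R := by
    have h1 : ((F ×ˢ F).filter (fun w => (∏ i, w.1 i) = ∏ i, w.2 i)).card ≤ F.card * R := by
      rw [Finset.card_eq_sum_card_fiberwise (f := fun w : (Fin k → ℤ) × (Fin k → ℤ) => w.1)
        (t := F) (fun w hw => (Finset.mem_product.1 (Finset.mem_filter.1 hw).1).1)]
      rw [← smul_eq_mul]
      refine Finset.sum_le_card_nsmul _ _ _ fun u hu => ?_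
      refine le_trans ?_ (hR (∏ i, u i) (hne u hu) (habs u hu))
      refine Finset.card_le_card_of_injOn (fun w => w.2) ?_ ?_
      · intro w hw
        simp only [Finset.coe_filter, Finset.mem_filter, Finset.mem_product, Set.mem_ofPred_eq] at hw ⊢
        obtain ⟨⟨⟨_, h2⟩, h3⟩, h4⟩ := hw
        rw [← h4]
        exact ⟨h2, h3.symm⟩
      · intro w hw w' hw' h
        simp only [Finset.coe_filter, Set.mem_ofPred_eq] at hw hw'
        exact Prod.ext (hw.2.trans hw'.2.symm) h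
    calc (((F ×ˢ F).filter (fun w => (∏ i, w.1 i) = ∏ i, w.2 i)).card : ℝ) ≤
        ((F.card * R : ℕ) : ℝ) := by exact_mod_cast h1
      _ = (E.card : ℝ) ^ k * R := by push_cast; rw [hFc]
  calc ∑ p ∈ P, Real.log p * (t p ^ (2 * k) * (q p : ℝ) / ((p : ℝ) - 1))
      ≤ ∑ p ∈ P, Real.log p * ((W p).card : ℝ) :=
        Finset.sum_le_sum fun p hp => mul_le_mul_of_nonneg_left (lower p hp) (hlog p hp)
    _ = ∑ p ∈ P, ∑ w ∈ F ×ˢ F, (if ((∏ i, w.1 i : ℤ) : ZMod p) =
          ((∏ i, w.2 i : ℤ) : ZMod p) then Real.log (p : ℝ) else 0) := by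
        refine Finset.sum_congr rfl fun p _ => ?_
        rw [← Finset.sum_filter, Finset.sum_const, nsmul_eq_mul, mul_comm]
    _ = ∑ w ∈ F ×ˢ F, ∑ p ∈ P, (if ((∏ i, w.1 i : ℤ) : ZMod p) =
          ((∏ i, w.2 i : ℤ) : ZMod p) then Real.log (p : ℝ) else 0) := Finset.sum_comm
    _ ≤ ∑ w ∈ F ×ˢ F, ((k * Real.log N + Real.log 2) +
        (if (∏ i, w.1 i) = ∏ i, w.2 i then ∑ p ∈ P, Real.log (p : ℝ) else 0)) :=
        Finset.sum_le_sum inner
    _ = (E.card : ℝ) ^ (2 * k) * (k * Real.log N + Real.log 2) +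
        (((F ×ˢ F).filter (fun w => (∏ i, w.1 i) = ∏ i, w.2 i)).card : ℝ) *
          ∑ p ∈ P, Real.log (p : ℝ) := by
        rw [Finset.sum_add_distrib, Finset.sum_const, nsmul_eq_mul, ← Finset.sum_filter,
          Finset.sum_const, nsmul_eq_mul, Finset.card_product]
        push_cast
        rw [hFc, two_mul k, pow_add]
    _ ≤ _ := by
        have h1 : 0 ≤ ∑ p ∈ P, Real.log (p : ℝ) := Finset.sum_nonneg hlog
        have := mul_le_mul_of_nonneg_right hpairs h1
        linarith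

end Pool.Agent.ARX
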