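import Pool.Agent.ARX.Cyc

set_option autoImplicit false

/-!
# ARX module IDL: the degree one prime ideals

`p` is a prime with `e ∣ p - 1`; `r = gen p ^ ((p-1)/e)` is a primitive root of unity of order `e`
in `ZMod p` (`orderOf (gen p) = p - 1`, `gen_spec`).

* `gen_spec`: `ZMod p` has a generator (`IsCyclic (ZMod p)ˣ`); unfold `gen`.
* `ind_spec`: `gen p ^ ind p x = x` for `x ≠ 0`.
* `good_hom`: `exists_hom` gives a homomorphism; unfold `PI`.
* `PI_absNorm`: quotient by the kernel of a surjection onto `ZMod p` has `p` elements.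
-/

namespace Pool.Agent.ARX

open NumberField

theorem gen_spec {p : ℕ} (hp : p.Prime) :
    orderOf (gen p) = p - 1 ∧ ∀ x : ZMod p, x ≠ 0 → ∃ k : ℕ, gen p ^ k = x := by
  classical
  have : Fact p.Prime := ⟨hp⟩
  have h : ∃ g : ZMod p, orderOf g = p - 1 ∧ ∀ x : ZMod p, x ≠ 0 → ∃ k : ℕ, g ^ k = x := by
    obtain ⟨g, hg⟩ := IsCyclic.exists_generator (α := (ZMod p)ˣ)
    refine ⟨(g : ZMod p), ?_, ?_⟩
    · rw [orderOf_units, orderOf_eq_card_of_forall_mem_zpowers hg, Nat.card_eq_fintype_card,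
        ZMod.card_units]
    · intro x hx
      have h1 := hg (Units.mk0 x hx)
      rw [← mem_powers_iff_mem_zpowers] at h1
      obtain ⟨k, hk⟩ := h1
      refine ⟨k, ?_⟩
      have := congrArg (fun u : (ZMod p)ˣ => (u : ZMod p)) hk
      simpa using this
  have h2 : gen p = h.choose := by
    unfold gen
    rw [dif_pos h]
  rw [h2]
  exact h.choose_spec

theorem ind_spec {p : ℕ} (hp : p.Prime) {x : ZMod p} (hx : x ≠ 0) : gen p ^ ind p x = x := by
  classical
  have h := (gen_spec hp).2 x hx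
  unfold ind
  rw [dif_pos h]
  exact Nat.find_spec h

theorem gen_ne_zero {p : ℕ} (hp : p.Prime) : gen p ≠ 0 := by
  have : Fact p.Prime := ⟨hp⟩
  intro h0
  obtain ⟨k, hk⟩ := (gen_spec hp).2 (-1) (neg_ne_zero.2 one_ne_zero)
  have h1 := (gen_spec hp).1
  rw [h0] at h1 hk
  rw [orderOf_zero] at h1
  have := hp.two_le
  omega

theorem ind_mul {p : ℕ} (hp : p.Prime) {x y : ZMod p} (hx : x ≠ 0) (hy : y ≠ 0) :
    ind p (x * y) ≡ ind p x + ind p y [MOD (p - 1)] := by
  have : Fact p.Prime := ⟨hp⟩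
  have hg := gen_ne_zero hp
  have h1 : gen p ^ ind p (x * y) = gen p ^ (ind p x + ind p y) := by
    rw [pow_add, ind_spec hp hx, ind_spec hp hy, ind_spec hp (mul_ne_zero hx hy)]
  have h2 : (Units.mk0 (gen p) hg) ^ ind p (x * y) = (Units.mk0 (gen p) hg) ^ (ind p x + ind p y) := by
    apply Units.ext
    simpa using h1
  have h3 := pow_eq_pow_iff_modEq.1 h2
  rwa [← orderOf_units, Units.val_mk0, (gen_spec hp).1] at h3

theorem gen_pow_prim {e p : ℕ} (hp : Good e p) :
    IsPrimitiveRoot (gen p ^ ((p - 1) / e)) e := by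
  have h1 : IsPrimitiveRoot (gen p) (p - 1) := by
    rw [← (gen_spec hp.1).1]
    exact IsPrimitiveRoot.orderOf (gen p)
  have h2 := hp.1.two_le
  exact h1.pow (by omega) (Nat.div_mul_cancel hp.2).symm

variable (e : ℕ) [NeZero e] (K : Type) [Field K] [NumberField K] [IsCyclotomicExtension {e} ℚ K]

theorem good_hom {p : ℕ} (hp : Good e p) : ∃ f : 𝓞 K →+* ZMod p,
    f (zt e K) = gen p ^ ((p - 1) / e) ∧ PI e K p = RingHom.ker f ∧ Function.Surjective f := by
  classical
  have : Fact p.Prime := ⟨hp.1⟩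
  have h : ∃ f : 𝓞 K →+* ZMod p, f (zt e K) = gen p ^ ((p - 1) / e) :=
    exists_hom e K _ (gen_pow_prim hp)
  refine ⟨h.choose, h.choose_spec, ?_, ZMod.ringHom_surjective _⟩
  unfold PI
  rw [dif_pos h]

theorem PI_prime {p : ℕ} (hp : Good e p) (b : (ZMod e)ˣ) :
    (Ideal.comap (sig e K b) (PI e K p)).IsPrime ∧ (PI e K p).IsPrime := by
  have : Fact p.Prime := ⟨hp.1⟩
  obtain ⟨f, _, h2, _⟩ := good_hom e K hp
  have h3 : (PI e K p).IsPrime := by
    rw [h2]
    exact RingHom.ker_isPrime f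
  exact ⟨h3.comap _, h3⟩

theorem PI_absNorm {p : ℕ} (hp : Good e p) : Ideal.absNorm (PI e K p) = p := by
  obtain ⟨f, _, h2, h3⟩ := good_hom e K hp
  rw [h2, Ideal.absNorm_apply, Submodule.cardQuot_apply,
    Nat.card_congr (RingHom.quotientKerEquivOfSurjective h3).toEquiv, Nat.card_zmod]

end Pool.Agent.ARX
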