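import Pool.Agent.ARX.Idl

set_option autoImplicit false

/-!
# ARX module IDP: the factorisation of `p`

* `absNorm_comap_sig`: `sig b` is a ring automorphism (inverse `sig b⁻¹`), so the quotients by
  `comap (sig b) I` and `I` are isomorphic.
* `PI_ne`: let `f` be the homomorphism of `good_hom`.  `comap (sig b) PI` is the kernel of
  `f.comp (sig b)`.  Two ring homomorphisms to `ZMod p` with the same kernel are equal,
  and `f (sig b zt) = r ^ b.val`, `r = gen p ^ ((p-1)/e)` of order `e`, so `b = b'`.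
* `PI_coprime`: distinct maximal ideals are coprime.
* `PI_prod`: the product of the pairwise coprime prime ideals contains `p`, hence divides `(p)`;
  both sides have absolute norm `p ^ φ(e)` (`IsCyclotomicExtension.Rat.finrank`), so they are equal
  (write `span {p} = (∏ ..) * J`, then `absNorm J = 1`, so `J = ⊤`).
-/

namespace Pool.Agent.ARX

open NumberField

variable (e : ℕ) [NeZero e] (K : Type) [Field K] [NumberField K] [IsCyclotomicExtension {e} ℚ K]

theorem idp_sig_surjective (b : (ZMod e)ˣ) : Function.Surjective (sig e K b) := fun y =>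
  ⟨sig e K b⁻¹ y, (sig_inv_apply e K b y).1⟩

theorem absNorm_comap_sig (b : (ZMod e)ˣ) (I : Ideal (𝓞 K)) :
    Ideal.absNorm (Ideal.comap (sig e K b) I) = Ideal.absNorm I := by
  rw [Ideal.absNorm_eq_index, Ideal.absNorm_eq_index]
  have h : (Ideal.comap (sig e K b) I).toAddSubgroup =
      (Submodule.toAddSubgroup I).comap (sig e K b).toAddMonoidHom := by
    ext x
    rfl
  rw [h]
  exact AddSubgroup.index_comap_of_surjective _ (idp_sig_surjective e K b)

theorem idp_hom_eq {R : Type*} [CommRing R] {p : ℕ} [NeZero p] (f g : R →+* ZMod p)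
    (h : RingHom.ker f = RingHom.ker g) : f = g := by
  ext x
  have h1 : x - ((f x).val : R) ∈ RingHom.ker f := by
    rw [RingHom.mem_ker, map_sub, map_natCast, ZMod.natCast_zmod_val, sub_self]
  rw [h, RingHom.mem_ker, map_sub, map_natCast, ZMod.natCast_zmod_val, sub_eq_zero] at h1
  exact h1.symm

omit [NeZero e] in
theorem idp_order {p : ℕ} (hp : Good e p) : IsPrimitiveRoot (gen p ^ ((p - 1) / e)) e := by
  have h1 : IsPrimitiveRoot (gen p) (p - 1) := by
    rw [← (gen_spec hp.1).1]
    exact IsPrimitiveRoot.orderOf _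
  have h2 : 0 < p - 1 := Nat.sub_pos_of_lt hp.1.one_lt
  exact h1.pow h2 (Nat.div_mul_cancel hp.2).symm

theorem PI_ne {p : ℕ} (hp : Good e p) {b b' : (ZMod e)ˣ} (h : b ≠ b') :
    Ideal.comap (sig e K b) (PI e K p) ≠ Ideal.comap (sig e K b') (PI e K p) := by
  have : NeZero p := ⟨hp.1.ne_zero⟩
  obtain ⟨f, hf, hk, _⟩ := good_hom e K hp
  intro hc
  apply h
  have h1 : RingHom.ker (f.comp (sig e K b)) = RingHom.ker (f.comp (sig e K b')) := by
    rw [hk] at hc
    exact hc
  have h2 := congrArg (fun g : 𝓞 K →+* ZMod p => g (zt e K)) (idp_hom_eq _ _ h1)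
  simp only [RingHom.comp_apply, sig_zt, map_pow, hf] at h2
  have h3 := (idp_order e hp).pow_inj (ZMod.val_lt _) (ZMod.val_lt _) h2
  exact Units.ext (ZMod.val_injective e h3)

theorem PI_coprime {p : ℕ} (hp : Good e p) {b b' : (ZMod e)ˣ} (h : b ≠ b') :
    IsCoprime (Ideal.comap (sig e K b) (PI e K p)) (Ideal.comap (sig e K b') (PI e K p)) := by
  have hne : ∀ c : (ZMod e)ˣ, Ideal.comap (sig e K c) (PI e K p) ≠ ⊥ := by
    intro c hc
    have h1 := absNorm_comap_sig e K c (PI e K p)
    rw [hc, Ideal.absNorm_bot, PI_absNorm e K hp] at h1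
    exact hp.1.ne_zero h1.symm
  have hm : ∀ c : (ZMod e)ˣ, (Ideal.comap (sig e K c) (PI e K p)).IsMaximal := fun c =>
    Ideal.IsPrime.isMaximal (PI_prime e K hp c).1 (hne c)
  rw [Ideal.isCoprime_iff_sup_eq]
  exact Ideal.IsMaximal.coprime_of_ne (hm b) (hm b') (PI_ne e K hp h)

theorem PI_prod {p : ℕ} (hp : Good e p) :
    Ideal.span {(p : 𝓞 K)} = ∏ b : (ZMod e)ˣ, Ideal.comap (sig e K b) (PI e K p) := by
  obtain ⟨f, hf, hk, _⟩ := good_hom e K hp
  have h1 : ∏ b : (ZMod e)ˣ, Ideal.comap (sig e K b) (PI e K p) ∣ Ideal.span {(p : 𝓞 K)} := by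
    refine Finset.prod_dvd_of_coprime ?_ ?_
    · intro b _ b' _ hb
      exact PI_coprime e K hp hb
    · intro b _
      rw [Ideal.dvd_span_singleton, Ideal.mem_comap, map_natCast, hk, RingHom.mem_ker, map_natCast,
        CharP.cast_eq_zero]
  obtain ⟨J, hJ⟩ := h1
  have h2 : Ideal.absNorm (Ideal.span {(p : 𝓞 K)}) = p ^ Nat.totient e := by
    rw [Ideal.absNorm_span_natCast, NumberField.RingOfIntegers.rank,
      IsCyclotomicExtension.Rat.finrank e K]
  have h3 : Ideal.absNorm (∏ b : (ZMod e)ˣ, Ideal.comap (sig e K b) (PI e K p)) =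
      p ^ Nat.totient e := by
    rw [map_prod, Finset.prod_congr rfl fun b _ => absNorm_comap_sig e K b _, Finset.prod_const,
      PI_absNorm e K hp, Finset.card_univ, ZMod.card_units_eq_totient]
  have h4 := congrArg Ideal.absNorm hJ
  rw [map_mul, h2, h3] at h4
  have h5 : 0 < p ^ Nat.totient e := pow_pos hp.1.pos _
  have h6 : Ideal.absNorm J = 1 := by
    have : p ^ Nat.totient e * 1 = p ^ Nat.totient e * Ideal.absNorm J := by rw [mul_one]; exact h4
    exact (Nat.eq_of_mul_eq_mul_left h5 this).symm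
  rw [Ideal.absNorm_eq_one_iff] at h6
  rw [hJ, h6, Ideal.mul_top]

end Pool.Agent.ARX
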