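import Pool.Agent.ARX.Idl

set_option autoImplicit false

/-!
# ARX module JSM: Jacobi sums in the prime ideals

`Jac q p i = ∑_a chi(a) chi(1-a)^i`.

* `pow_sum_zero`: in `ZMod p`, `∑_a a^u (1-a)^v = 0` when `1 ≤ u`, `u + v < p - 1`
  (expand `(1-a)^v`, `FiniteField.sum_pow_lt_card_sub_one` and `∑_a a^w = 0` for
  `0 ≤ w < p - 1`).
* `jac_mem`: let `f` be the homomorphism of `good_hom`.  `f(sig b (chi a)) =
  a ^ (((p-1)/q) * b.val)` for `a ≠ 0`, and `a ^ (p-1) = 1`, so the exponent can be replaced by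
  `((p-1)/q) * (b.val % q)`; similarly `sig b (chi(1-a))^i` becomes `(1-a)^(((p-1)/q) * ((b.val * i) % q))`.
  Both residues are between `1` and `q - 1`.  If their sum is `< q` the total degree is
  `< p - 1` and the sum vanishes by `pow_sum_zero`.
-/

namespace Pool.Agent.ARX

open NumberField

variable (e : ℕ) [NeZero e] (K : Type) [Field K] [NumberField K] [IsCyclotomicExtension {e} ℚ K]

/-- The Jacobi sum `J(chi, chi^i)`. -/
noncomputable def Jac (q p i : ℕ) : 𝓞 K :=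
  ∑ a ∈ Finset.range p, chiO e K q p (a : ZMod p) * (chiO e K q p (1 - (a : ZMod p))) ^ i

theorem Jsm_range {p : ℕ} [NeZero p] {R : Type*} [AddCommMonoid R] (F : ZMod p → R) :
    ∑ a ∈ Finset.range p, F (a : ZMod p) = ∑ x : ZMod p, F x := by
  refine Finset.sum_bij (fun a _ => (a : ZMod p)) (fun _ _ => Finset.mem_univ _) ?_ ?_
    (fun _ _ => rfl)
  · intro a ha b hb h
    rw [Finset.mem_range] at ha hb
    rw [ZMod.natCast_eq_natCast_iff'] at h
    rwa [Nat.mod_eq_of_lt ha, Nat.mod_eq_of_lt hb] at h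
  · intro x _
    exact ⟨x.val, Finset.mem_range.2 (ZMod.val_lt x), ZMod.natCast_zmod_val x⟩

theorem pow_sum_zero {p : ℕ} (hp : p.Prime) {u v : ℕ} (hu : 1 ≤ u) (h : u + v < p - 1) :
    ∑ a ∈ Finset.range p, (a : ZMod p) ^ u * (1 - (a : ZMod p)) ^ v = 0 := by
  haveI : Fact p.Prime := ⟨hp⟩
  haveI : NeZero p := ⟨hp.ne_zero⟩
  rw [Jsm_range (fun x : ZMod p => x ^ u * (1 - x) ^ v)]
  have h1 : ∀ x : ZMod p, x ^ u * (1 - x) ^ v =
      ∑ k ∈ Finset.range (v + 1), ((-1) ^ k * (v.choose k : ZMod p)) * x ^ (u + k) := by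
    intro x
    have : (1 - x) = -x + 1 := by ring
    rw [this, add_pow, Finset.mul_sum]
    apply Finset.sum_congr rfl
    intro k _
    rw [neg_pow x k, one_pow, pow_add]
    ring
  simp only [h1]
  rw [Finset.sum_comm]
  apply Finset.sum_eq_zero
  intro k hk
  rw [Finset.mem_range] at hk
  rw [← Finset.mul_sum, FiniteField.sum_pow_lt_card_sub_one (K := ZMod p) (u + k)
    (by rw [ZMod.card]; omega), mul_zero]

theorem Jsm_chi {q p : ℕ} (hq : q.Prime) (hqe : q ∣ e) (hp : Good e p) (b : (ZMod e)ˣ)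
    (f : 𝓞 K →+* ZMod p) (hf : f (zt e K) = gen p ^ ((p - 1) / e)) {x : ZMod p} (hx : x ≠ 0) :
    f (sig e K b (chiO e K q p x)) = x ^ (((p - 1) / q) * (b : ZMod e).val) := by
  unfold chiO
  rw [if_neg hx, map_pow, map_pow, sig_zt, map_pow, hf]
  conv_rhs => rw [← ind_spec hp.1 hx]
  rw [← pow_mul, ← pow_mul, ← pow_mul]
  congr 1
  have he : 0 < e := Nat.pos_of_ne_zero (NeZero.ne e)
  obtain ⟨m, hm⟩ := hp.2
  obtain ⟨k, hk⟩ := hqe
  have hq0 := hq.pos
  have hk0 : 0 < k := by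
    rcases Nat.eq_zero_or_pos k with h | h
    · rw [h] at hk
      omega
    · exact h
  have e1 : (p - 1) / e = m := by
    rw [hm]
    exact Nat.mul_div_cancel_left m he
  have e2 : e / q = k := by
    rw [hk]
    exact Nat.mul_div_cancel_left k hq0
  have e3 : (p - 1) / q = k * m := by
    rw [hm, hk, mul_assoc]
    exact Nat.mul_div_cancel_left _ hq0
  rw [e1, e2, e3]
  ring

theorem Jsm_red {p q : ℕ} (hp : p.Prime) (hqp : q ∣ p - 1) {x : ZMod p} (hx : x ≠ 0) (n : ℕ) :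
    x ^ (((p - 1) / q) * n) = x ^ (((p - 1) / q) * (n % q)) := by
  haveI : Fact p.Prime := ⟨hp⟩
  have h1 : x ^ (p - 1) = 1 := ZMod.pow_card_sub_one_eq_one hx
  conv_lhs => rw [← Nat.mod_add_div n q, mul_add, pow_add]
  have h2 : (p - 1) / q * (q * (n / q)) = (p - 1) * (n / q) := by
    rw [← mul_assoc, Nat.div_mul_cancel hqp]
  rw [h2, pow_mul x (p - 1), h1, one_pow, mul_one]

/-- If `<b> + <b i> < q` then `J(chi, chi^i)` lies in `sig_b^{-1}(PI)`. -/
theorem jac_mem {q p : ℕ} (hq : q.Prime) (hqe : q ∣ e) (hp : Good e p) {i : ℕ}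
    (hi : i ∈ Finset.Ico 1 (q - 1)) (b : (ZMod e)ˣ)
    (h : (b : ZMod e).val % q + ((b : ZMod e).val * i) % q < q) :
    Jac e K q p i ∈ Ideal.comap (sig e K b) (PI e K p) := by
  haveI : Fact p.Prime := ⟨hp.1⟩
  obtain ⟨f, hf, hker, -⟩ := good_hom e K hp
  rw [Ideal.mem_comap, hker, RingHom.mem_ker]
  rw [Finset.mem_Ico] at hi
  have hqp : q ∣ p - 1 := hqe.trans hp.2
  have hp1 : 0 < p - 1 := by
    have := hp.1.two_le
    omega
  have hm : 0 < (p - 1) / q := Nat.div_pos (Nat.le_of_dvd hp1 hqp) hq.pos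
  have hcop : Nat.Coprime (b : ZMod e).val e := ZMod.val_coe_unit_coprime b
  have hbq : ¬ q ∣ (b : ZMod e).val := by
    intro hd
    have := Nat.dvd_gcd hd hqe
    rw [hcop] at this
    exact hq.one_lt.ne' (Nat.dvd_one.1 this)
  have hiq : ¬ q ∣ i := fun hd => by
    have := Nat.le_of_dvd (by omega) hd
    omega
  have hu : 1 ≤ (b : ZMod e).val % q := Nat.one_le_iff_ne_zero.2 fun h0 =>
    hbq (Nat.dvd_of_mod_eq_zero h0)
  have hv : 1 ≤ ((b : ZMod e).val * i) % q := Nat.one_le_iff_ne_zero.2 fun h0 => by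
    rcases (hq.dvd_mul).1 (Nat.dvd_of_mod_eq_zero h0) with h1 | h1
    · exact hbq h1
    · exact hiq h1
  set m := (p - 1) / q with hmdef
  set u := (b : ZMod e).val % q with hudef
  set v := ((b : ZMod e).val * i) % q with hvdef
  have hA : ∀ x : ZMod p, f (sig e K b (chiO e K q p x)) = x ^ (m * u) := by
    intro x
    by_cases hx : x = 0
    · rw [hx, zero_pow (by positivity)]
      unfold chiO
      rw [if_pos rfl, map_zero, map_zero]
    · rw [Jsm_chi e K hq hqe hp b f hf hx, Jsm_red hp.1 hqp hx]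
  have hB : ∀ x : ZMod p, f (sig e K b (chiO e K q p x)) ^ i = x ^ (m * v) := by
    intro x
    by_cases hx : x = 0
    · rw [hx, zero_pow (by positivity)]
      unfold chiO
      rw [if_pos rfl, map_zero, map_zero, zero_pow (by omega)]
    · rw [Jsm_chi e K hq hqe hp b f hf hx, ← pow_mul, mul_assoc, Jsm_red hp.1 hqp hx]
  unfold Jac
  rw [map_sum, map_sum]
  rw [← pow_sum_zero hp.1 (u := m * u) (v := m * v) (Nat.one_le_iff_ne_zero.2 (by positivity)) ?_]
  · apply Finset.sum_congr rfl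
    intro a _
    rw [map_mul, map_mul, map_pow, map_pow, hA, hB]
  · have h1 : m * u + m * v = m * (u + v) := by ring
    have h2 : m * q = p - 1 := Nat.div_mul_cancel hqp
    rw [h1, ← h2]
    exact Nat.mul_lt_mul_of_pos_left h hm

end Pool.Agent.ARX
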