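import Pool.Agent.ARX.Jsm

set_option autoImplicit false

/-!
# ARX module JSN: absolute value of the Jacobi sums

* `jac_norm`: `J * sig (-1) J = p`: `sig (-1) (chiO x) = chiO(x)⁻¹` (root of unity), and
  `jacobiSum_mul_jacobiSum_inv` in the field `K` (map `𝓞 K → K`); `x ↦ chiO e K q p x` is a
  multiplicative character of order `q` (as `gen p` has index one modulo `q`); `chi`, `chi^i`,
  `chi^(i+1)` are non trivial for `1 ≤ i ≤ q - 2`; `∑_{a ∈ range p}` is the sum over `ZMod p`.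
* `chiO_neg_one`: `chiO (-1)` is a power of `zt`, and `sig (-1) zt = zt⁻¹`.
-/

namespace Pool.Agent.ARX

open NumberField

variable (e : ℕ) [NeZero e] (K : Type) [Field K] [NumberField K] [IsCyclotomicExtension {e} ℚ K]

private theorem jsn_pow_congr {m n : ℕ} (h : m ≡ n [MOD e]) : zt e K ^ m = zt e K ^ n :=
  pow_eq_pow_of_modEq h (zt_prim e K).pow_eq_one

private theorem jsn_gen_ne {p : ℕ} (hp : p.Prime) : gen p ≠ 0 := by
  have : Fact p.Prime := ⟨hp⟩
  intro h
  have h1 := (gen_spec hp).1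
  rw [h] at h1
  have h2 : (0 : ZMod p) ^ orderOf (0 : ZMod p) = 1 := pow_orderOf_eq_one _
  rw [h1, zero_pow (by have := hp.two_le; omega)] at h2
  exact zero_ne_one h2

private theorem jsn_ind_one {p : ℕ} (hp : p.Prime) : p - 1 ∣ ind p 1 := by
  have : Fact p.Prime := ⟨hp⟩
  rw [← (gen_spec hp).1]
  exact orderOf_dvd_of_pow_eq_one (ind_spec hp one_ne_zero)

private theorem jsn_ind_gen {p : ℕ} (hp : p.Prime) : ind p (gen p) ≡ 1 [MOD (p - 1)] := by
  have : Fact p.Prime := ⟨hp⟩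
  have h := ind_spec hp (jsn_gen_ne hp)
  rw [← (gen_spec hp).1]
  have h2 : gen p ^ ind p (gen p) = gen p ^ 1 := by rw [h, pow_one]
  have hu : IsUnit (gen p) := isUnit_iff_ne_zero.2 (jsn_gen_ne hp)
  obtain ⟨u, hu⟩ := hu
  rw [← hu, orderOf_units]
  apply pow_eq_pow_iff_modEq.1
  apply Units.ext
  rw [Units.val_pow_eq_pow_val, Units.val_pow_eq_pow_val, hu]
  exact h2

private theorem jsn_chi_ne {q p : ℕ} {x : ZMod p} (hx : x ≠ 0) :
    chiO e K q p x = zt e K ^ ((e / q) * ind p x) := by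
  unfold chiO
  rw [if_neg hx]

private theorem jsn_chi_zero {q p : ℕ} : chiO e K q p 0 = 0 := by
  unfold chiO
  rw [if_pos rfl]

/-- the character with values in `K` -/
private noncomputable def jsn_chi {p : ℕ} (q : ℕ) (hp : Good e p) : MulChar (ZMod p) K := by
  classical
  have : Fact p.Prime := ⟨hp.1⟩
  exact
  { toFun := fun x => algebraMap (𝓞 K) K (chiO e K q p x)
    map_one' := by
      rw [jsn_chi_ne e K one_ne_zero]
      have h : (e / q) * ind p 1 ≡ 0 [MOD e] :=
        (Nat.modEq_zero_iff_dvd).2 (Dvd.dvd.mul_left (hp.2.trans (jsn_ind_one hp.1)) _)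
      rw [jsn_pow_congr e K h, pow_zero, map_one]
    map_mul' := by
      intro x y
      rcases eq_or_ne x 0 with hx | hx
      · rw [hx, zero_mul, jsn_chi_zero, map_zero, zero_mul]
      rcases eq_or_ne y 0 with hy | hy
      · rw [hy, mul_zero, jsn_chi_zero, map_zero, mul_zero]
      rw [jsn_chi_ne e K hx, jsn_chi_ne e K hy, jsn_chi_ne e K (mul_ne_zero hx hy), ← map_mul,
        ← pow_add, ← mul_add]
      congr 1
      apply jsn_pow_congr
      exact ((ind_mul hp.1 hx hy).of_dvd hp.2).mul_left _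
    map_nonunit' := by
      intro x hx
      have h0 : x = 0 := by
        by_contra h
        exact hx (isUnit_iff_ne_zero.2 h)
      rw [h0, jsn_chi_zero, map_zero] }

private theorem jsn_chi_apply {p : ℕ} (q : ℕ) (hp : Good e p) (x : ZMod p) :
    jsn_chi e K q hp x = algebraMap (𝓞 K) K (chiO e K q p x) := rfl

private theorem jsn_chi_pow_ne {q p : ℕ} (hq : q.Prime) (hqe : q ∣ e) (hp : Good e p) {i : ℕ}
    (hi : ¬ q ∣ i) : (jsn_chi e K q hp) ^ i ≠ 1 := by
  have : Fact p.Prime := ⟨hp.1⟩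
  intro h
  have hi0 : i ≠ 0 := by
    rintro rfl
    exact hi (dvd_zero q)
  have hu : IsUnit (gen p) := isUnit_iff_ne_zero.2 (jsn_gen_ne hp.1)
  have h1 : ((jsn_chi e K q hp) ^ i) (gen p) = 1 := by
    rw [h]
    exact MulChar.one_apply hu
  rw [MulChar.pow_apply' _ hi0, jsn_chi_apply, jsn_chi_ne e K (jsn_gen_ne hp.1), ← map_pow,
    ← pow_mul] at h1
  have h2 : zt e K ^ (e / q * ind p (gen p) * i) = 1 := by
    apply RingOfIntegers.coe_injective
    rw [h1, map_one]
  have h3 : e / q * ind p (gen p) * i ≡ e / q * 1 * i [MOD e] :=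
    (((jsn_ind_gen hp.1).of_dvd hp.2).mul_left _).mul_right _
  rw [jsn_pow_congr e K h3, mul_one] at h2
  have h4 : e ∣ e / q * i := (zt_prim e K).dvd_of_pow_eq_one _ h2
  obtain ⟨m, hm⟩ := hqe
  have hm0 : 0 < m := by
    rcases Nat.eq_zero_or_pos m with h0 | h0
    · rw [h0, mul_zero] at hm
      exact absurd hm (NeZero.ne e)
    · exact h0
  have h5 : e / q = m := by
    rw [hm, Nat.mul_div_cancel_left _ hq.pos]
  rw [h5, hm, mul_comm q m] at h4
  exact hi ((Nat.mul_dvd_mul_iff_left hm0).1 h4)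

private theorem jsn_conj_zt : sig e K (-1) (zt e K) * zt e K = 1 := by
  rw [sig_zt, ← pow_succ]
  have h6 : ((((-1 : (ZMod e)ˣ) : ZMod e).val + 1 : ℕ) : ZMod e) = 0 := by
    push_cast
    rw [ZMod.natCast_zmod_val]
    simp
  obtain ⟨c, hc⟩ := (ZMod.natCast_eq_zero_iff _ _).1 h6
  rw [hc, pow_mul, (zt_prim e K).pow_eq_one, one_pow]

private theorem jsn_conj_chi {q p : ℕ} {x : ZMod p} (hx : x ≠ 0) :
    sig e K (-1) (chiO e K q p x) * chiO e K q p x = 1 := by
  rw [jsn_chi_ne e K hx, map_pow, ← mul_pow, jsn_conj_zt, one_pow]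

private theorem jsn_conj_chi_inv {p : ℕ} (q : ℕ) (hp : Good e p) (x : ZMod p) :
    algebraMap (𝓞 K) K (sig e K (-1) (chiO e K q p x)) = (jsn_chi e K q hp)⁻¹ x := by
  have : Fact p.Prime := ⟨hp.1⟩
  rw [MulChar.inv_apply_eq_inv', jsn_chi_apply]
  rcases eq_or_ne x 0 with hx | hx
  · rw [hx, jsn_chi_zero, map_zero, map_zero, inv_zero]
  · have h := congrArg (algebraMap (𝓞 K) K) (jsn_conj_chi e K (q := q) hx)
    rw [map_mul, map_one] at h
    exact eq_inv_of_mul_eq_one_left h

private theorem jsn_sum_range {p : ℕ} [NeZero p] {M : Type*} [AddCommMonoid M] (f : ZMod p → M) :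
    ∑ a ∈ Finset.range p, f (a : ZMod p) = ∑ x : ZMod p, f x := by
  refine Finset.sum_nbij' (fun a => (a : ZMod p)) (fun x => x.val) ?_ ?_ ?_ ?_ ?_
  · intro a _
    exact Finset.mem_univ _
  · intro x _
    exact Finset.mem_range.2 (ZMod.val_lt x)
  · intro a ha
    exact ZMod.val_natCast_of_lt (Finset.mem_range.1 ha)
  · intro x _
    exact ZMod.natCast_zmod_val x
  · intro a _
    rfl

theorem jac_norm {q p : ℕ} (hq : q.Prime) (hqe : q ∣ e) (hp : Good e p) {i : ℕ}
    (hi : i ∈ Finset.Ico 1 (q - 1)) :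
    Jac e K q p i * sig e K (-1) (Jac e K q p i) = (p : 𝓞 K) := by
  have : Fact p.Prime := ⟨hp.1⟩
  rw [Finset.mem_Ico] at hi
  have hi0 : i ≠ 0 := by omega
  have h1 : jsn_chi e K q hp ≠ 1 := by
    have h := jsn_chi_pow_ne e K hq hqe hp (i := 1)
      (fun h => by have := Nat.le_of_dvd (by omega) h; have := hq.two_le; omega)
    rwa [pow_one] at h
  have h2 : (jsn_chi e K q hp) ^ i ≠ 1 := jsn_chi_pow_ne e K hq hqe hp
    (fun h => by have := Nat.le_of_dvd (by omega) h; omega)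
  have h3 : jsn_chi e K q hp * (jsn_chi e K q hp) ^ i ≠ 1 := by
    rw [← pow_succ']
    exact jsn_chi_pow_ne e K hq hqe hp
      (fun h => by have := Nat.le_of_dvd (by omega) h; omega)
  have hchar : ringChar K ≠ ringChar (ZMod p) := by
    rw [ZMod.ringChar_zmod_n, ringChar.eq_zero]
    exact (hp.1.ne_zero).symm
  have key := jacobiSum_mul_jacobiSum_inv hchar h1 h2 h3
  rw [ZMod.card] at key
  apply RingOfIntegers.coe_injective
  rw [map_mul, map_natCast, ← key]
  congr 1
  · unfold Jac jacobiSum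
    rw [map_sum, jsn_sum_range (fun x => (algebraMap (𝓞 K) K)
      (chiO e K q p x * chiO e K q p (1 - x) ^ i))]
    apply Finset.sum_congr rfl
    intro x _
    rw [map_mul, map_pow, MulChar.pow_apply' _ hi0, jsn_chi_apply, jsn_chi_apply]
  · unfold Jac jacobiSum
    rw [map_sum, map_sum, jsn_sum_range (fun x => (algebraMap (𝓞 K) K)
      (sig e K (-1) (chiO e K q p x * chiO e K q p (1 - x) ^ i)))]
    apply Finset.sum_congr rfl
    intro x _
    rw [map_mul, map_pow, map_mul, map_pow, ← inv_pow, MulChar.pow_apply' _ hi0,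
      jsn_conj_chi_inv e K q hp, jsn_conj_chi_inv e K q hp]

/-- `chi(-1)` is a root of unity. -/
theorem chiO_neg_one {q p : ℕ} (hq : q.Prime) (hqe : q ∣ e) (hp : Good e p) :
    chiO e K q p (-1) * sig e K (-1) (chiO e K q p (-1)) = 1 := by
  have : Fact p.Prime := ⟨hp.1⟩
  rw [mul_comm]
  exact jsn_conj_chi e K (neg_ne_zero.2 one_ne_zero)

end Pool.Agent.ARX
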