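import Pool.Agent.ARX.Jsn
import Pool.Agent.ARX.Idp
import Pool.Agent.ARX.Cex

set_option autoImplicit false

/-!
# ARX module JSP: the ideal of a Jacobi sum

`J = Jac q p i`, `1 ≤ i ≤ q - 2`.  Put `B = {b : <b> + <b i> < q}` (residues modulo `q`).
* For `b ∈ B`, `J ∈ comap (sig b) PI` (`jac_mem`).
* For `b ∉ B`: `<b> + <b i> ≠ q` (`residue_ne`), so it is `> q`, and
  `<-b> + <-b i> = 2 q - (<b> + <b i>) < q`; so `-b ∈ B`, i.e. `J ∈ comap (sig (-b)) PI`, i.e.
  `sig (-1) J ∈ comap (sig b) PI`.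
* Hence `∏_{b ∈ B} P_b ∣ (J)` and `∏_{b ∉ B} P_b ∣ (sig (-1) J)` (pairwise coprime, `PI_coprime`),
  and `(J) (sig(-1) J) = (p) = ∏_b P_b` (`jac_norm`, `PI_prod`) forces equality
  `(J) = ∏_{b ∈ B} P_b` (cancellation in a Dedekind domain).
-/

namespace Pool.Agent.ARX

open NumberField

variable (e : ℕ) [NeZero e] (K : Type) [Field K] [NumberField K] [IsCyclotomicExtension {e} ℚ K]

omit [NeZero e] in
private theorem jsp_unit {q : ℕ} (hq : q.Prime) (hqe : q ∣ e) (b : (ZMod e)ˣ) :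
    1 ≤ (b : ZMod e).val % q := by
  have h1 : Nat.Coprime (b : ZMod e).val e := ZMod.val_coe_unit_coprime b
  by_contra h
  have h2 : (b : ZMod e).val % q = 0 := by omega
  have h3 : q ∣ (b : ZMod e).val := Nat.dvd_of_mod_eq_zero h2
  have h4 : q ∣ 1 := by
    rw [← h1]
    exact Nat.dvd_gcd h3 hqe
  exact hq.one_lt.ne' (Nat.dvd_one.1 h4)

private theorem jsp_neg {q : ℕ} (hqe : q ∣ e) (b : (ZMod e)ˣ) :
    q ∣ ((-b : (ZMod e)ˣ) : ZMod e).val + (b : ZMod e).val := by
  refine hqe.trans ?_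
  rw [← ZMod.natCast_eq_zero_iff]
  push_cast
  rw [ZMod.natCast_zmod_val, ZMod.natCast_zmod_val]
  simp

private theorem jsp_res {q c c' i : ℕ} (hq : q.Prime) (hc : 1 ≤ c % q) (hc' : q ∣ c' + c)
    (hi : i ∈ Finset.Ico 1 (q - 1)) (h : ¬ (c % q + (c * i) % q < q)) :
    c' % q + (c' * i) % q < q := by
  obtain ⟨h1, h2⟩ := residue_ne hq c hc hi
  have hq0 := hq.pos
  have h3 : c % q < q := Nat.mod_lt _ hq0
  have h4 : (c * i) % q < q := Nat.mod_lt _ hq0
  have h5 : (c' + c) % q = 0 := Nat.mod_eq_zero_of_dvd hc'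
  have h6 : (c' * i + c * i) % q = 0 := by
    rw [← add_mul]
    exact Nat.mod_eq_zero_of_dvd (hc'.mul_right i)
  have h7 : c' % q = q - c % q := by
    have h8 : c' % q < q := Nat.mod_lt _ hq0
    rw [Nat.add_mod] at h5
    have h9 : q ∣ c' % q + c % q := Nat.dvd_of_mod_eq_zero h5
    obtain ⟨k, hk⟩ := h9
    have hk1 : k = 1 := by
      rcases k with _ | _ | k
      · omega
      · rfl
      · nlinarith
    rw [hk1] at hk
    omega
  have h10 : (c' * i) % q = q - (c * i) % q := by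
    have h8 : (c' * i) % q < q := Nat.mod_lt _ hq0
    rw [Nat.add_mod] at h6
    have h9 : q ∣ (c' * i) % q + (c * i) % q := Nat.dvd_of_mod_eq_zero h6
    obtain ⟨k, hk⟩ := h9
    have hk1 : k = 1 := by
      rcases k with _ | _ | k
      · omega
      · rfl
      · nlinarith
    rw [hk1] at hk
    omega
  rw [h7, h10]
  omega

private theorem jsp_sig_neg (b : (ZMod e)ˣ) :
    sig e K (-b) = (sig e K b).comp (sig e K (-1)) := by
  have h : -b = b * (-1) := by
    rw [mul_neg, mul_one]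
  rw [h]
  exact sig_mul e K b (-1)

private theorem jsp_mem {q p : ℕ} (hq : q.Prime) (hqe : q ∣ e) (hp : Good e p) {i : ℕ}
    (hi : i ∈ Finset.Ico 1 (q - 1)) (b : (ZMod e)ˣ)
    (h4 : ((-b : (ZMod e)ˣ) : ZMod e).val % q + (((-b : (ZMod e)ˣ) : ZMod e).val * i) % q < q) :
    sig e K (-1) (Jac e K q p i) ∈ Ideal.comap (sig e K b) (PI e K p) := by
  have h5 := jac_mem e K hq hqe hp hi (-b) h4
  rw [Ideal.mem_comap] at h5
  rw [jsp_sig_neg, RingHom.comp_apply] at h5
  rw [Ideal.mem_comap]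
  exact h5

private theorem jsp_aux {R : Type*} [CommRing R] [IsDedekindDomain R] {ι : Type*} [Fintype ι]
    (C : ι → Prop) [DecidablePred C] (P : ι → Ideal R) (J J' : R)
    (hcop : ∀ b b', b ≠ b' → IsCoprime (P b) (P b'))
    (hJ : ∀ b, C b → J ∈ P b) (hJ' : ∀ b, ¬ C b → J' ∈ P b)
    (hprod : Ideal.span {J * J'} = ∏ b, P b) (hne : ∏ b, P b ≠ 0) :
    Ideal.span {J} = ∏ b ∈ Finset.univ.filter C, P b := by
  have h1 : ∏ b ∈ Finset.univ.filter C, P b ∣ Ideal.span {J} := by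
    apply Finset.prod_dvd_of_coprime
    · intro b _ b' _ hbb
      exact hcop b b' hbb
    · intro b hb
      rw [Ideal.dvd_iff_le, Ideal.span_singleton_le_iff_mem]
      exact hJ b (Finset.mem_filter.1 hb).2
  have h2 : ∏ b ∈ Finset.univ.filter (fun b => ¬ C b), P b ∣ Ideal.span {J'} := by
    apply Finset.prod_dvd_of_coprime
    · intro b _ b' _ hbb
      exact hcop b b' hbb
    · intro b hb
      rw [Ideal.dvd_iff_le, Ideal.span_singleton_le_iff_mem]
      exact hJ' b (Finset.mem_filter.1 hb).2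
  have h3 : Ideal.span {J} * Ideal.span {J'} =
      (∏ b ∈ Finset.univ.filter C, P b) * ∏ b ∈ Finset.univ.filter (fun b => ¬ C b), P b := by
    rw [Ideal.span_singleton_mul_span_singleton, hprod, Finset.prod_filter_mul_prod_filter_not]
  rw [← Finset.prod_filter_mul_prod_filter_not Finset.univ C] at hne
  obtain ⟨X, hX⟩ := h1
  obtain ⟨Y, hY⟩ := h2
  have h4 : X * Y = 1 := by
    rw [hX, hY] at h3
    apply mul_left_cancel₀ hne
    rw [mul_one]
    refine Eq.trans ?_ h3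
    exact mul_mul_mul_comm _ _ _ _
  have h5 : X = 1 := by
    have h6 : X * Y ≤ X := Ideal.mul_le_left
    rw [h4, Ideal.one_eq_top] at h6
    rw [Ideal.one_eq_top]
    exact top_le_iff.1 h6
  rw [hX, h5, mul_one]

theorem jac_span {q p : ℕ} (hq : q.Prime) (hqe : q ∣ e) (hp : Good e p) {i : ℕ}
    (hi : i ∈ Finset.Ico 1 (q - 1)) :
    Ideal.span {Jac e K q p i} =
      ∏ b ∈ Finset.univ.filter (fun b : (ZMod e)ˣ =>
        (b : ZMod e).val % q + ((b : ZMod e).val * i) % q < q),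
        Ideal.comap (sig e K b) (PI e K p) := by
  apply jsp_aux _ _ _ (sig e K (-1) (Jac e K q p i))
  · intro b b' hbb
    exact PI_coprime e K hp hbb
  · intro b hb
    exact jac_mem e K hq hqe hp hi b hb
  · intro b hb
    exact jsp_mem e K hq hqe hp hi b
      (jsp_res hq (jsp_unit e hq hqe b) (jsp_neg e hqe b) hi hb)
  · rw [jac_norm e K hq hqe hp hi, PI_prod e K hp]
  · rw [← PI_prod e K hp]
    intro h
    rw [Ideal.zero_eq_bot, Ideal.span_singleton_eq_bot] at h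
    exact hp.1.ne_zero (by exact_mod_cast h)

end Pool.Agent.ARX
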