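import Pool.Agent.ARX.Idl

set_option autoImplicit false

/-!
# ARX module SHT: short vectors and the norm bound

* `short_vector`: the `(Y+1)^φ(e)` vectors with coordinates in `[0, Y]` are mapped to
  `(p : S) → ZMod p` by `x ↦ (f_p(ofc x))_p`; the target has `∏_{p∈S} p < (Y+1)^φ(e)` elements, so two
  vectors have the same image; take the difference.
* `norm_bound`: `Algebra.norm_eq_prod_embeddings`: each embedding of `ofc x` has absolute value at
  most `φ(e) Y`.
-/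

namespace Pool.Agent.ARX

open NumberField

variable (e : ℕ) [NeZero e] (K : Type) [Field K] [NumberField K] [IsCyclotomicExtension {e} ℚ K]

theorem short_vector (S : Finset ℕ) (hS : ∀ p ∈ S, Good e p) (Y : ℕ)
    (hY : ∏ p ∈ S, p < (Y + 1) ^ (Nat.totient e)) :
    ∃ x : Fin (Nat.totient e) → ℤ, x ≠ 0 ∧ (∀ i, |x i| ≤ (Y : ℤ)) ∧
      ∀ p ∈ S, ofc e K x ∈ PI e K p := by
  classical
  have h1 : ∀ p ∈ S, ∃ F : 𝓞 K → ℕ, (∀ a, F a < p) ∧ ∀ a b, F a = F b → a - b ∈ PI e K p := by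
    intro p hp
    obtain ⟨f, -, hf2, -⟩ := good_hom e K (hS p hp)
    have hp0 : NeZero p := ⟨(hS p hp).1.ne_zero⟩
    refine ⟨fun a => (f a).val, fun a => ZMod.val_lt _, fun a b hab => ?_⟩
    rw [hf2, RingHom.mem_ker, map_sub, ZMod.val_injective p hab, sub_self]
  choose! F hF1 hF2 using h1
  set g : (Fin (Nat.totient e) → Fin (Y + 1)) → (∀ p ∈ S, ℕ) := fun x p _ =>
    F p (ofc e K (fun i => ((x i : ℕ) : ℤ))) with hg
  have hcard : (S.pi fun p => Finset.range p).card <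
      (Finset.univ : Finset (Fin (Nat.totient e) → Fin (Y + 1))).card := by
    rw [Finset.card_pi, Finset.card_univ, Fintype.card_fun, Fintype.card_fin, Fintype.card_fin]
    simpa using hY
  obtain ⟨x, -, y, -, hxy, hgxy⟩ := Finset.exists_ne_map_eq_of_card_lt_of_maps_to hcard
    (f := g) (fun x _ => by
      simp only [Finset.mem_coe, Finset.mem_pi, Finset.mem_range]
      intro p hp
      exact hF1 p hp _)
  refine ⟨fun i => ((x i : ℕ) : ℤ) - ((y i : ℕ) : ℤ), ?_, ?_, ?_⟩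
  · intro h0
    apply hxy
    funext i
    have := congrFun h0 i
    simp only [Pi.zero_apply] at this
    apply Fin.ext
    omega
  · intro i
    have h2 := (x i).isLt
    have h3 := (y i).isLt
    rw [abs_le]
    beta_reduce
    omega
  · intro p hp
    have h2 : g x p hp = g y p hp := by rw [hgxy]
    have h3 := hF2 p hp _ _ h2
    have h4 : ofc e K (fun i => ((x i : ℕ) : ℤ) - ((y i : ℕ) : ℤ)) =
        ofc e K (fun i => ((x i : ℕ) : ℤ)) - ofc e K (fun i => ((y i : ℕ) : ℤ)) := by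
      unfold ofc
      rw [← Finset.sum_sub_distrib]
      refine Finset.sum_congr rfl fun i _ => ?_
      push_cast
      ring
    rw [h4]
    exact h3

theorem norm_bound (x : Fin (Nat.totient e) → ℤ) (Y : ℕ) (hx : ∀ i, |x i| ≤ (Y : ℤ)) :
    (Algebra.norm ℤ (ofc e K x)).natAbs ≤ (Nat.totient e * Y) ^ (Nat.totient e) := by
  have h1 : ∀ σ : K →ₐ[ℚ] ℂ, ‖σ ((ofc e K x : 𝓞 K) : K)‖ ≤ (Nat.totient e * Y : ℝ) := by
    intro σ
    have h2 : ((ofc e K x : 𝓞 K) : K) = ∑ i, (x i : K) * ((zt e K : 𝓞 K) : K) ^ (i : ℕ) := by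
      unfold ofc
      push_cast
      rfl
    have hz : ‖σ ((zt e K : 𝓞 K) : K)‖ = 1 := by
      refine Complex.norm_eq_one_of_pow_eq_one (n := e) ?_ (NeZero.ne e)
      have h5 : ((zt e K : 𝓞 K) : K) ^ e = 1 := by
        exact_mod_cast congrArg (fun t : 𝓞 K => (t : K)) (zt_prim e K).pow_eq_one
      rw [← map_pow, h5, map_one]
    rw [h2, map_sum]
    refine (norm_sum_le _ _).trans ?_
    have h3 : ∀ i ∈ (Finset.univ : Finset (Fin (Nat.totient e))),
        ‖σ ((x i : K) * ((zt e K : 𝓞 K) : K) ^ (i : ℕ))‖ ≤ (Y : ℝ) := by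
      intro i _
      rw [map_mul, map_pow, norm_mul, norm_pow, hz, one_pow, mul_one, map_intCast,
        Complex.norm_intCast]
      exact_mod_cast hx i
    refine (Finset.sum_le_card_nsmul _ _ _ h3).trans ?_
    simp
  have h2 : ((Algebra.norm ℤ (ofc e K x) : ℤ) : ℂ) = ∏ σ : K →ₐ[ℚ] ℂ, σ ((ofc e K x : 𝓞 K) : K) := by
    rw [← Algebra.norm_eq_prod_embeddings ℚ ℂ, ← Algebra.coe_norm_int]
    simp
  have h3 : (((Algebra.norm ℤ (ofc e K x)).natAbs : ℕ) : ℝ) ≤
      ((Nat.totient e * Y : ℕ) : ℝ) ^ (Nat.totient e) := by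
    have h4 : (((Algebra.norm ℤ (ofc e K x)).natAbs : ℕ) : ℝ) =
        ‖((Algebra.norm ℤ (ofc e K x) : ℤ) : ℂ)‖ := by
      rw [Complex.norm_intCast, Nat.cast_natAbs]
      simp
    rw [h4, h2, norm_prod]
    have h5 : Fintype.card (K →ₐ[ℚ] ℂ) = Nat.totient e := by
      rw [AlgHom.card ℚ K ℂ]
      exact IsCyclotomicExtension.finrank K (Polynomial.cyclotomic.irreducible_rat (NeZero.pos e))
    calc ∏ σ : K →ₐ[ℚ] ℂ, ‖σ ((ofc e K x : 𝓞 K) : K)‖
        ≤ ∏ _σ : K →ₐ[ℚ] ℂ, (Nat.totient e * Y : ℝ) :=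
          Finset.prod_le_prod (fun _ _ => norm_nonneg _) fun σ _ => h1 σ
      _ = _ := by rw [Finset.prod_const, Finset.card_univ, h5]; push_cast; ring
  exact_mod_cast h3

end Pool.Agent.ARX
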