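import Pool.Agent.ARX.Stk
import Pool.Agent.ARX.Abs
import Pool.Agent.ARX.Sht
import Pool.Agent.ARX.Idp

set_option autoImplicit false

/-!
# ARX module LAB: the cofactor ideal

`S` a finite set of good primes, `α ≠ 0` in all `PI p`, `p ∈ S`.
The ideals `PI p`, `p ∈ S`, are pairwise coprime primes, so `∏_{p∈S} PI p` divides `(α)`:
`(α) = (∏ PI p) * C`.  Norms: `|norm α| = (∏ p) * absNorm C`.
`ThetaI` is multiplicative and `ThetaI q (span {α}) = span {Theta q α}` (`comap (sig b) (span {α}) =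
span {sig b⁻¹ α}`), so by `stickelberger` `(Theta q α) = (∏ Phi q p) * ThetaI q C`; hence
`Theta q α = (∏ Phi q p) * γ q` with `span {γ q} = ThetaI q C`.
`γ q * sig(-1) (γ q) = (absNorm C)^q` from `phi_abs`, `theta_abs'`.
`absNorm (ThetaI q C) = (absNorm C) ^ (∑_b ex e q b)` (`absNorm_comap_sig`), so a prime `l` not
dividing `absNorm C` does not divide `norm (γ q)`.
-/

namespace Pool.Agent.ARX

open NumberField

variable (e : ℕ) [NeZero e] (K : Type) [Field K] [NumberField K] [IsCyclotomicExtension {e} ℚ K]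

lemma lab_comap (b : (ZMod e)ˣ) (I : Ideal (𝓞 K)) :
    Ideal.comap (sig e K b) I = Ideal.map (sig e K b⁻¹) I := by
  apply le_antisymm
  · intro x hx
    rw [Ideal.mem_comap] at hx
    have h1 := (sig_inv_apply e K b x).2
    rw [← h1]
    exact Ideal.mem_map_of_mem _ hx
  · rw [Ideal.map_le_iff_le_comap]
    intro y hy
    rw [Ideal.mem_comap, Ideal.mem_comap, (sig_inv_apply e K b y).1]
    exact hy

lemma lab_ThetaI_mul (q : ℕ) (I J : Ideal (𝓞 K)) :
    ThetaI e K q (I * J) = ThetaI e K q I * ThetaI e K q J := by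
  unfold ThetaI
  rw [← Finset.prod_mul_distrib]
  refine Finset.prod_congr rfl fun b _ => ?_
  rw [lab_comap, lab_comap, lab_comap, Ideal.map_mul, mul_pow]

lemma lab_ThetaI_one (q : ℕ) : ThetaI e K q 1 = 1 := by
  unfold ThetaI
  refine Finset.prod_eq_one fun b _ => ?_
  rw [Ideal.one_eq_top, Ideal.comap_top, ← Ideal.one_eq_top, one_pow]

lemma lab_ThetaI_prod (q : ℕ) (S : Finset ℕ) (f : ℕ → Ideal (𝓞 K)) :
    ThetaI e K q (∏ p ∈ S, f p) = ∏ p ∈ S, ThetaI e K q (f p) := by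
  classical
  induction S using Finset.induction_on with
  | empty => rw [Finset.prod_empty, Finset.prod_empty, lab_ThetaI_one]
  | insert a s ha ih => rw [Finset.prod_insert ha, Finset.prod_insert ha, lab_ThetaI_mul, ih]

lemma lab_ThetaI_span (q : ℕ) (α : 𝓞 K) :
    ThetaI e K q (Ideal.span {α}) = Ideal.span {Theta e K q α} := by
  unfold ThetaI Theta
  rw [← Ideal.prod_span_singleton]
  refine Finset.prod_congr rfl fun b _ => ?_
  rw [lab_comap, Ideal.map_span, Set.image_singleton, Ideal.span_singleton_pow]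

lemma lab_absNorm_ThetaI (q : ℕ) (C : Ideal (𝓞 K)) :
    Ideal.absNorm (ThetaI e K q C) = Ideal.absNorm C ^ (∑ b : (ZMod e)ˣ, ex e q b) := by
  unfold ThetaI
  rw [map_prod, ← Finset.prod_pow_eq_pow_sum]
  refine Finset.prod_congr rfl fun b _ => ?_
  rw [map_pow, absNorm_comap_sig]

lemma lab_mem_PI {p : ℕ} (hp : Good e p) : (p : 𝓞 K) ∈ PI e K p := by
  obtain ⟨f, -, hf, -⟩ := good_hom e K hp
  rw [hf, RingHom.mem_ker, map_natCast]
  exact ZMod.natCast_self p

lemma lab_coprime {p p' : ℕ} (hp : Good e p) (hp' : Good e p') (h : p ≠ p') :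
    IsCoprime (PI e K p) (PI e K p') := by
  rw [Ideal.isCoprime_iff_exists]
  have h1 : IsCoprime (p : ℤ) (p' : ℤ) :=
    Nat.isCoprime_iff_coprime.mpr ((Nat.coprime_primes hp.1 hp'.1).mpr h)
  obtain ⟨a, b, hab⟩ := h1
  refine ⟨(a : 𝓞 K) * (p : 𝓞 K), Ideal.mul_mem_left _ _ (lab_mem_PI e K hp),
    (b : 𝓞 K) * (p' : 𝓞 K), Ideal.mul_mem_left _ _ (lab_mem_PI e K hp'), ?_⟩
  exact_mod_cast congrArg (fun t : ℤ => (t : 𝓞 K)) hab

theorem cofactor (S : Finset ℕ) (hS : ∀ p ∈ S, Good e p) (α : 𝓞 K) (hα : α ≠ 0)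
    (h : ∀ p ∈ S, α ∈ PI e K p) :
    ∃ (C : Ideal (𝓞 K)) (γ : ℕ → 𝓞 K), 1 ≤ Ideal.absNorm C ∧
      (Algebra.norm ℤ α).natAbs = (∏ p ∈ S, p) * Ideal.absNorm C ∧
      (∀ q ∈ e.primeFactors, Theta e K q α = (∏ p ∈ S, Phi e K q p) * γ q ∧
        Ideal.span {γ q} = ThetaI e K q C ∧
        γ q * sig e K (-1) (γ q) = ((Ideal.absNorm C : ℕ) : 𝓞 K) ^ q) ∧
      (∀ q ∈ e.primeFactors, ∀ l : ℕ, l.Prime → ¬ l ∣ Ideal.absNorm C →
        ¬ (l : ℤ) ∣ Algebra.norm ℤ (γ q)) := by
  classical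
  have h1 : ∏ p ∈ S, PI e K p ∣ Ideal.span {α} := by
    refine Finset.prod_dvd_of_coprime ?_ fun p hp => ?_
    · intro p hp p' hp' hne
      exact lab_coprime e K (hS p hp) (hS p' hp') hne
    · rw [Ideal.dvd_span_singleton]
      exact h p hp
  obtain ⟨C, hC⟩ := h1
  have hnorm : (Algebra.norm ℤ α).natAbs = (∏ p ∈ S, p) * Ideal.absNorm C := by
    rw [← Ideal.absNorm_span_singleton, hC, map_mul, map_prod]
    congr 1
    exact Finset.prod_congr rfl fun p hp => PI_absNorm e K (hS p hp)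
  have hC1 : 1 ≤ Ideal.absNorm C := by
    rw [Nat.one_le_iff_ne_zero]
    intro h0
    rw [h0, mul_zero, Int.natAbs_eq_zero] at hnorm
    exact hα (Algebra.norm_eq_zero_iff.mp hnorm)
  have hγ : ∀ q, ∃ γ : 𝓞 K, q ∈ e.primeFactors →
      Theta e K q α = (∏ p ∈ S, Phi e K q p) * γ ∧ Ideal.span {γ} = ThetaI e K q C := by
    intro q
    by_cases hq : q ∈ e.primeFactors
    · have hqp := Nat.prime_of_mem_primeFactors hq
      have hqe := Nat.dvd_of_mem_primeFactors hq
      have h2 : Ideal.span {Theta e K q α} =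
          Ideal.span {∏ p ∈ S, Phi e K q p} * ThetaI e K q C := by
        rw [← lab_ThetaI_span, hC, lab_ThetaI_mul, lab_ThetaI_prod,
          ← Ideal.prod_span_singleton]
        congr 1
        exact Finset.prod_congr rfl fun p hp => (stickelberger e K hqp hqe (hS p hp)).symm
      have h3 : Theta e K q α ∈ Ideal.span {∏ p ∈ S, Phi e K q p} := by
        have h4 : Ideal.span {Theta e K q α} ≤ Ideal.span {∏ p ∈ S, Phi e K q p} := by
          rw [h2]; exact Ideal.mul_le_left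
        exact h4 (Ideal.mem_span_singleton_self (Theta e K q α))
      rw [Ideal.mem_span_singleton] at h3
      obtain ⟨γ, hγ⟩ := h3
      refine ⟨γ, fun _ => ⟨hγ, ?_⟩⟩
      have h5 : Theta e K q α ≠ 0 := by
        unfold Theta
        rw [Finset.prod_ne_zero_iff]
        intro b _
        apply pow_ne_zero
        intro h6
        apply hα
        have h7 := (sig_inv_apply e K b α).1
        rw [← h7, h6, map_zero]
      have h8 : Ideal.span {∏ p ∈ S, Phi e K q p} ≠ (0 : Ideal (𝓞 K)) := by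
        rw [Ideal.zero_eq_bot, Ne, Ideal.span_singleton_eq_bot]
        intro h9
        rw [h9, zero_mul] at hγ
        exact h5 hγ
      refine mul_left_cancel₀ h8 ?_
      rw [← h2, hγ, Ideal.span_singleton_mul_span_singleton]
    · exact ⟨0, fun h => absurd h hq⟩
  choose γ hγ using hγ
  refine ⟨C, γ, hC1, hnorm, fun q hq => ⟨(hγ q hq).1, (hγ q hq).2, ?_⟩, fun q hq l hl hlC hdvd => ?_⟩
  · have hqp := Nat.prime_of_mem_primeFactors hq
    have hqe := Nat.dvd_of_mem_primeFactors hq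
    have h2 := theta_abs' e K hqp hqe α
    rw [(hγ q hq).1, hnorm] at h2
    rw [map_mul, map_prod] at h2
    have h3 : ∏ p ∈ S, Phi e K q p * sig e K (-1) (Phi e K q p) =
        ((∏ p ∈ S, p : ℕ) : 𝓞 K) ^ q := by
      push_cast
      rw [← Finset.prod_pow]
      exact Finset.prod_congr rfl fun p hp => phi_abs e K hqp hqe (hS p hp)
    rw [Finset.prod_mul_distrib] at h3
    have h4 : ((∏ p ∈ S, p : ℕ) : 𝓞 K) ^ q ≠ 0 := by
      apply pow_ne_zero
      rw [Nat.cast_ne_zero, Finset.prod_ne_zero_iff]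
      exact fun p hp => (hS p hp).1.ne_zero
    apply mul_left_cancel₀ h4
    rw [← mul_pow, ← Nat.cast_mul, ← h2]
    linear_combination (-(γ q * sig e K (-1) (γ q))) * h3
  · have h2 : (Algebra.norm ℤ (γ q)).natAbs =
        Ideal.absNorm C ^ (∑ b : (ZMod e)ˣ, ex e q b) := by
      rw [← Ideal.absNorm_span_singleton, (hγ q hq).2, lab_absNorm_ThetaI]
    have h3 : l ∣ (Algebra.norm ℤ (γ q)).natAbs := Int.natCast_dvd.mp hdvd
    rw [h2] at h3
    exact hlC (hl.dvd_of_dvd_pow h3)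

end Pool.Agent.ARX
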