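import Pool.Agent.ARX.Dls
import Pool.Agent.ARX.Esy
import Pool.Agent.ARX.Dua

set_option autoImplicit false

/-!
# ARX module LSF: the large values bound

For `m ∈ MM` apply `esym_lower` to `z p = c p * om e j p m`, `σ`: with
`E_m = ∑_{S ∈ powersetCard k P} (∏_{p∈S} c p) ∏_{p∈S} om e j p m` we have `σ^k / 2 ≤ k! |E_m|`.
`dual_form` with `SS = powersetCard k P` (`∏ S ≤ x^k < (Y+1)^D`) and `duality` give
`∑_m |E_m|^2 ≤ Δ ∑_S |c_S|^2 ≤ Δ (|P| choose k) ≤ Δ |P|^k / k!`,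
`Δ = Lam e * (e D^D) * (2 (2Y+1)^D)`.  So `|MM| σ^(2k) / 4 ≤ k!^2 Δ |P|^k / k!`.
-/

namespace Pool.Agent.ARX

theorem large_values (e : ℕ) (he : Squarefree e) (he1 : 1 < e) (j : ℕ → ℕ)
    (hj : ∀ q ∈ e.primeFactors, ¬ q ∣ j q) (M Y x k : ℕ) (hM : 1 ≤ M) (hk : 1 ≤ k)
    (hY : Nat.totient e * M ^ 3 ≤ 2 * Y + 1) (hxY : x ^ k < (Y + 1) ^ (Nat.totient e))
    (P : Finset ℕ) (hP : ∀ p ∈ P, Good e p ∧ p ≤ x) (c : ℕ → ℂ) (hc : ∀ p, ‖c p‖ ≤ 1)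
    (σ : ℝ) (hσ0 : 0 ≤ σ) (hσk : (k : ℝ) ^ 2 * (P.card : ℝ) ^ (k - 1) ≤ σ ^ k)
    (MM : Finset ℕ) (hMM : ∀ m ∈ MM, 1 ≤ m ∧ m ≤ M ∧ Squarefree m)
    (hbad : ∀ m ∈ MM, σ ≤ ‖∑ p ∈ P, c p * om e j p (m : ℤ)‖) :
    (MM.card : ℝ) * σ ^ (2 * k) ≤
      8 * (k.factorial : ℝ) * (P.card : ℝ) ^ k * (Lam e : ℝ) *
        ((e : ℝ) * (Nat.totient e : ℝ) ^ (Nat.totient e)) *
        (2 * (Y : ℝ) + 1) ^ (Nat.totient e) := by
  set Δ : ℝ := (Lam e : ℝ) * ((e : ℝ) * (Nat.totient e : ℝ) ^ (Nat.totient e)) *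
    (2 * (2 * (Y : ℝ) + 1) ^ (Nat.totient e)) with hΔ
  have hΔ0 : 0 ≤ Δ := by positivity
  have hdual : ∀ b : ℕ → ℂ, ∑ S ∈ P.powersetCard k,
      ‖∑ m ∈ MM, b m * ∏ p ∈ S, om e j p (m : ℤ)‖ ^ 2 ≤ Δ * ∑ m ∈ MM, ‖b m‖ ^ 2 := by
    intro b
    refine dual_form e he he1 j hj M Y hM hY MM hMM (P.powersetCard k) ?_ ?_ b
    · intro S hS p hp
      exact (hP p ((Finset.mem_powersetCard.1 hS).1 hp)).1
    · intro S hS
      obtain ⟨hSP, hcS⟩ := Finset.mem_powersetCard.1 hS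
      calc ∏ p ∈ S, p ≤ ∏ _p ∈ S, x :=
            Finset.prod_le_prod (fun _ _ => Nat.zero_le _) fun p hp => (hP p (hSP hp)).2
        _ = x ^ k := by rw [Finset.prod_const, hcS]
        _ < _ := hxY
  have hd := duality (P.powersetCard k) MM (fun S m => ∏ p ∈ S, om e j p (m : ℤ)) Δ hΔ0 hdual
    (fun S => ∏ p ∈ S, c p)
  have hcS : ∑ S ∈ P.powersetCard k, ‖∏ p ∈ S, c p‖ ^ 2 ≤ (P.card.choose k : ℝ) := by
    calc ∑ S ∈ P.powersetCard k, ‖∏ p ∈ S, c p‖ ^ 2 ≤ ∑ _S ∈ P.powersetCard k, (1 : ℝ) := by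
          refine Finset.sum_le_sum fun S _ => ?_
          refine pow_le_one₀ (norm_nonneg _) ?_
          rw [norm_prod]
          exact Finset.prod_le_one (fun _ _ => norm_nonneg _) fun p _ => hc p
      _ = _ := by simp
  have hlow : ∀ m ∈ MM, σ ^ (2 * k) ≤ 4 * (k.factorial : ℝ) ^ 2 *
      ‖∑ S ∈ P.powersetCard k, (∏ p ∈ S, c p) * ∏ p ∈ S, om e j p (m : ℤ)‖ ^ 2 := by
    intro m hm
    have hz : ∀ p ∈ P, ‖c p * om e j p (m : ℤ)‖ ≤ 1 := by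
      intro p _
      rw [norm_mul]
      exact mul_le_one₀ (hc p) (norm_nonneg _) (norm_om_le e j p m)
    have h := esym_lower P (fun p => c p * om e j p (m : ℤ)) hz k hk σ hσ0 (hbad m hm) hσk
    simp only [Finset.prod_mul_distrib] at h
    have h2 := pow_le_pow_left₀ (by positivity) h 2
    have h3 : (σ ^ k / 2) ^ 2 = σ ^ (2 * k) / 4 := by
      rw [div_pow, ← pow_mul, mul_comm k 2]; norm_num
    rw [h3, mul_pow] at h2
    linarith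
  have hsum : (MM.card : ℝ) * σ ^ (2 * k) ≤ 4 * (k.factorial : ℝ) ^ 2 *
      ∑ m ∈ MM, ‖∑ S ∈ P.powersetCard k, (∏ p ∈ S, c p) * ∏ p ∈ S, om e j p (m : ℤ)‖ ^ 2 := by
    rw [← nsmul_eq_mul, ← Finset.sum_const, Finset.mul_sum]
    exact Finset.sum_le_sum hlow
  have hfac : (k.factorial : ℝ) * (P.card.choose k : ℝ) ≤ (P.card : ℝ) ^ k := by
    have h3 := Nat.descFactorial_le_pow P.card k
    rw [Nat.descFactorial_eq_factorial_mul_choose] at h3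
    exact_mod_cast h3
  calc (MM.card : ℝ) * σ ^ (2 * k) ≤ _ := hsum
    _ ≤ 4 * (k.factorial : ℝ) ^ 2 * (Δ * (P.card.choose k : ℝ)) :=
        mul_le_mul_of_nonneg_left (hd.trans (mul_le_mul_of_nonneg_left hcS hΔ0)) (by positivity)
    _ = 4 * (k.factorial : ℝ) * Δ * ((k.factorial : ℝ) * (P.card.choose k : ℝ)) := by ring
    _ ≤ 4 * (k.factorial : ℝ) * Δ * (P.card : ℝ) ^ k :=
        mul_le_mul_of_nonneg_left hfac (by positivity)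
    _ = _ := by rw [hΔ]; ring

end Pool.Agent.ARX
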