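import Pool.Agent.ARX.Def2
import Pool.Agent.Helper6.ArtinAssembly
import Pool.Agent.Helper7.ArtinMain
import Pool.Agent.Helper8.ArtinAllD

set_option autoImplicit false

/-!
# ARX module MLT: the limits of the main terms

`t = 1`: `∏_{q ∣ p-1} (1 - 1/q) = φ(p-1)/(p-1)` (`Nat.totient_mul_prod_primeFactors`-type), so
`mnf b 1 x = artinEC x` and the limit is `CA` (`main_CA`).
`t = 2`: for `p ∤ 2 b`: `q = 2` divides `t`, `uu b 2 p 2 = 1` if `b` is not a square modulo `p`, else
`0`, i.e. `(1 - (b/p))/2`; the other factors are `1 - 1/q`; so the product is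
`φ(p-1)/(p-1) (1 - (b/p))`.  The primes `p ∣ b` are finitely many.  Limit: `main_term`.
-/

namespace Pool.Agent.ARX

open Filter Topology

theorem mnf_one (b : ℤ) (x : ℕ) : mnf b 1 x = Pool.Agent.Helper8.ArtinC.artinEC x := by
  unfold mnf Pool.Agent.Helper8.ArtinC.artinEC
  refine Finset.sum_congr rfl fun p hp => ?_
  obtain ⟨_, hp1, hp2⟩ := Finset.mem_filter.1 hp
  have h2 := hp1.two_le
  rw [Pool.Agent.Helper7.totient_div_eq_prod (by omega : p - 1 ≠ 0)]
  refine Finset.prod_congr rfl fun q hq => ?_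
  unfold uu
  rw [if_neg]
  exact (Nat.prime_of_mem_primeFactors hq).not_dvd_one

/-- the local product for `t = 2`, `p` not dividing `b` -/
private lemma uu_two_prod {b : ℤ} {p : ℕ} (hp : p.Prime) (hp2 : p ≠ 2) (hb : ¬ ((p : ℤ) ∣ b)) :
    ∏ q ∈ (p - 1).primeFactors, uu b 2 p q =
      ((Nat.totient (p - 1) : ℝ) / ((p - 1 : ℕ) : ℝ)) * (1 - (jacobiSym b p : ℝ)) := by
  have h2 := hp.two_le
  have hodd : p % 2 = 1 := hp.eq_two_or_odd.resolve_left hp2
  have hmem : 2 ∈ (p - 1).primeFactors := by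
    rw [Nat.mem_primeFactors]
    exact ⟨Nat.prime_two, by omega, by omega⟩
  rw [Pool.Agent.Helper7.totient_div_eq_prod (by omega : p - 1 ≠ 0),
    ← Finset.mul_prod_erase _ _ hmem, ← Finset.mul_prod_erase _ (fun q : ℕ => (1 - 1 / (q : ℝ))) hmem]
  have hrest : ∏ q ∈ (p - 1).primeFactors.erase 2, uu b 2 p q =
      ∏ q ∈ (p - 1).primeFactors.erase 2, (1 - 1 / (q : ℝ)) := by
    refine Finset.prod_congr rfl fun q hq => ?_
    obtain ⟨hq2, hq1⟩ := Finset.mem_erase.1 hq
    unfold uu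
    rw [if_neg]
    intro h
    exact hq2 ((Nat.prime_dvd_prime_iff_eq (Nat.prime_of_mem_primeFactors hq1) Nat.prime_two).1 h)
  rw [hrest]
  have hkey : uu b 2 p 2 = (1 - 1 / ((2 : ℕ) : ℝ)) * (1 - (jacobiSym b p : ℝ)) := by
    haveI : Fact p.Prime := ⟨hp⟩
    have hb0 : (b : ZMod p) ≠ 0 := by
      intro h
      exact hb ((ZMod.intCast_zmod_eq_zero_iff_dvd b p).1 h)
    unfold uu
    rw [if_pos (dvd_refl 2), ← jacobiSym.legendreSym.to_jacobiSym]
    split_ifs with h
    · obtain ⟨y, hy⟩ := h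
      have : legendreSym p b = 1 := (legendreSym.eq_one_iff p hb0).2 ⟨y, by rw [← hy, sq]⟩
      rw [this]; norm_num
    · have : legendreSym p b = -1 := by
        rw [legendreSym.eq_neg_one_iff]
        rintro ⟨y, hy⟩
        exact h ⟨y, by rw [hy, sq]⟩
      rw [this]; norm_num
  rw [hkey]
  ring

theorem mnf_two {b : ℤ} (hb : Squarefree b) (hb4 : b % 4 = 1) :
    Tendsto (fun x : ℕ => mnf b 2 x / Nat.primeCounting x) atTop
      (𝓝 ((1 - ((ArithmeticFunction.moebius b.natAbs : ℤ) : ℝ) *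
        ∏ q ∈ b.natAbs.primeFactors, (1 / ((q : ℝ) ^ 2 - (q : ℝ) - 1))) *
        ∏' p : Nat.Primes, (1 - 1 / (((p : ℕ) : ℝ) * (((p : ℕ) : ℝ) - 1))))) := by
  classical
  have hb0 : b ≠ 0 := by rintro rfl; omega
  have hmain := Pool.Agent.Helper7.main_term hb hb4
  have hpi : Tendsto (fun x : ℕ => (Nat.primeCounting x : ℝ)) atTop atTop :=
    tendsto_natCast_atTop_atTop.comp Nat.tendsto_primeCounting
  have h0 : Tendsto (fun x : ℕ => ((b.natAbs.primeFactors.card : ℝ)) / (Nat.primeCounting x : ℝ))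
      atTop (𝓝 0) := hpi.const_div_atTop _
  set L := ((1 - ((ArithmeticFunction.moebius b.natAbs : ℤ) : ℝ) *
        ∏ q ∈ b.natAbs.primeFactors, (1 / ((q : ℝ) ^ 2 - (q : ℝ) - 1))) *
        ∏' p : Nat.Primes, (1 - 1 / (((p : ℕ) : ℝ) * (((p : ℕ) : ℝ) - 1)))) with hL
  set S : ℕ → ℝ := fun x => ∑ p ∈ (Finset.range (x + 1)).filter (fun p => p.Prime ∧ p ≠ 2),
      ((Nat.totient (p - 1) : ℝ) / ((p - 1 : ℕ) : ℝ)) * (1 - (jacobiSym b p : ℝ)) with hS
  have hdiff : ∀ x : ℕ, |mnf b 2 x - S x| ≤ (b.natAbs.primeFactors.card : ℝ) := by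
    intro x
    simp only [hS, mnf]
    rw [← Finset.sum_sub_distrib]
    have hle : ∀ p ∈ (Finset.range (x + 1)).filter (fun p : ℕ => p.Prime ∧ p ≠ 2),
        |(∏ q ∈ (p - 1).primeFactors, uu b 2 p q) -
          ((Nat.totient (p - 1) : ℝ) / ((p - 1 : ℕ) : ℝ)) * (1 - (jacobiSym b p : ℝ))| ≤
          if p ∈ b.natAbs.primeFactors then (1 : ℝ) else 0 := by
      intro p hp
      obtain ⟨_, hp1, hp2⟩ := Finset.mem_filter.1 hp
      have h2 := hp1.two_le
      haveI : Fact p.Prime := ⟨hp1⟩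
      by_cases hpb : (p : ℤ) ∣ b
      · have hmem : p ∈ b.natAbs.primeFactors := by
          rw [Nat.mem_primeFactors]
          exact ⟨hp1, Int.natCast_dvd.1 hpb, Int.natAbs_ne_zero.2 hb0⟩
        rw [if_pos hmem]
        have hbz : (b : ZMod p) = 0 := (ZMod.intCast_zmod_eq_zero_iff_dvd b p).2 hpb
        have hmem2 : 2 ∈ (p - 1).primeFactors := by
          have hodd : p % 2 = 1 := hp1.eq_two_or_odd.resolve_left hp2
          rw [Nat.mem_primeFactors]
          exact ⟨Nat.prime_two, by omega, by omega⟩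
        have hz : ∏ q ∈ (p - 1).primeFactors, uu b 2 p q = 0 := by
          refine Finset.prod_eq_zero hmem2 ?_
          unfold uu
          rw [if_pos (dvd_refl 2), if_pos]
          exact ⟨0, by rw [hbz]; simp⟩
        have hj : jacobiSym b p = 0 := by
          rw [← jacobiSym.legendreSym.to_jacobiSym]
          exact (legendreSym.eq_zero_iff p b).2 hbz
        rw [hz, hj]
        have hbd := Pool.Agent.Helper8.ArtinC.mainC_bounds p
        rw [abs_le]
        constructor
        · push_cast; linarith [hbd.2]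
        · push_cast; linarith [hbd.1]
      · rw [uu_two_prod hp1 hp2 hpb, sub_self, abs_zero]
        split_ifs <;> norm_num
    refine (Finset.abs_sum_le_sum_abs _ _).trans ((Finset.sum_le_sum hle).trans ?_)
    rw [← Finset.sum_filter, Finset.sum_const, nsmul_eq_mul, mul_one]
    exact_mod_cast Finset.card_le_card (fun p hp => (Finset.mem_filter.1 hp).2)
  have hd : Tendsto (fun x : ℕ => mnf b 2 x / Nat.primeCounting x - S x / Nat.primeCounting x)
      atTop (𝓝 0) := by
    refine squeeze_zero_norm (fun x => ?_) h0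
    rw [← sub_div, Real.norm_eq_abs, abs_div, Nat.abs_cast]
    exact div_le_div_of_nonneg_right (hdiff x) (Nat.cast_nonneg _)
  have := hd.add hmain
  rw [zero_add] at this
  refine this.congr fun x => ?_
  simp only [hS]
  ring

end Pool.Agent.ARX
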