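import Pool.Agent.ARX.Frb

set_option autoImplicit false

/-!
# ARX module NTC: an element with prescribed reductions

`l` a prime not dividing `e`, `κ : 𝓞 K → k` with `k` a field of characteristic `l`; `κ(zt)` is a
primitive root of unity of order `e`.
* `range_field`: let `F = orderOf (l : ZMod e)`.  Every `g = κ α` satisfies `g ^ (l^F) = g`
  (`kappa_frob` iterated); and there is `g` in the range with `g ≠ 0`, `g^((l^F-1)/q) ≠ 1`: the range
  is a finite integral domain (integral over `ZMod l`, generated by `κ(zt)`), i.e. a finite field,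
  with `l ^ F'` elements, `κ(zt)^(l^F') = κ(zt)` gives `F ∣ F'`, and `F' ≤ F` by the first statement
  (at most `l^F` roots); its unit group is cyclic of order `l^F - 1`, divisible by `q`.
* `prescribed`: for `g` in the range there is `β` with `κ β = g` and `κ (sig b β) = 1` for all `b`
  which are not powers of `l` modulo `e`.  The kernels of `κ` and `κ.comp (sig b)` are maximal ideals
  (finite fields), and they are different if `b` is not a power of `l`: if the kernels agree, then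
  `κ.comp (sig b) = ι.comp κ` with an automorphism `ι` of the range (a power of the Frobenius), so
  `κ(zt)^b = κ(zt)^(l^i)` and `b = l^i` modulo `e`.  Chinese remainder theorem for
  `ker κ` and the intersection of the other kernels.  (Or the polynomial argument:
  `M = cyclotomic / minpoly(κ zt)` over `ZMod l`.)
-/

namespace Pool.Agent.ARX

open NumberField

variable (e : ℕ) [NeZero e] (K : Type) [Field K] [NumberField K] [IsCyclotomicExtension {e} ℚ K]

open Polynomial in
theorem ntc_prim {l : ℕ} (hle : ¬ l ∣ e) {k : Type} [Field k] [CharP k l]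
    (κ : 𝓞 K →+* k) : IsPrimitiveRoot (κ (zt e K)) e := by
  have hne : NeZero ((e : ℕ) : k) := ⟨fun h => hle ((CharP.cast_eq_zero_iff k l e).1 h)⟩
  rw [← isRoot_cyclotomic_iff, ← map_cyclotomic e κ]
  exact IsRoot.map ((zt_prim e K).isRoot_cyclotomic (Nat.pos_of_ne_zero (NeZero.ne e)))

theorem ntc_pow {l : ℕ} (hl : l.Prime) (hle : ¬ l ∣ e) {k : Type} [Field k] [CharP k l]
    (κ : 𝓞 K →+* k) (α : 𝓞 K) : κ α ^ (l ^ orderOf (l : ZMod e)) = κ α := by
  have hc : Nat.Coprime l e := (Nat.Prime.coprime_iff_not_dvd hl).2 hle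
  have hu' : ((ZMod.unitOfCoprime l hc : (ZMod e)ˣ) : ZMod e) = (l : ZMod e) :=
    ZMod.coe_unitOfCoprime l hc
  rw [← frb_iter e K hl (ZMod.unitOfCoprime l hc) hu' κ]
  have h1 : (ZMod.unitOfCoprime l hc) ^ orderOf (l : ZMod e) = 1 := by
    ext
    rw [Units.val_pow_eq_pow_val, hu', pow_orderOf_eq_one, Units.val_one]
  rw [h1, sig_one, RingHom.id_apply]

theorem ntc_order_pos {l : ℕ} (hl : l.Prime) (hle : ¬ l ∣ e) : 0 < orderOf (l : ZMod e) := by
  have hc : Nat.Coprime l e := (Nat.Prime.coprime_iff_not_dvd hl).2 hle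
  have hu' : ((ZMod.unitOfCoprime l hc : (ZMod e)ˣ) : ZMod e) = (l : ZMod e) :=
    ZMod.coe_unitOfCoprime l hc
  rw [← hu', orderOf_units]
  exact orderOf_pos _

theorem ntc_int {l : ℕ} (hl : l.Prime) {k : Type} [Field k] [CharP k l] (c : k)
    (hc : c ^ l = c) : ∃ n : ℤ, (n : k) = c := by
  haveI : Fact l.Prime := ⟨hl⟩
  have h := (Subfield.mem_bot_iff_pow_eq_self k l (x := c)).2 hc
  exact (mem_bot_iff_intCast l k).1 h

open Polynomial in
/-- an element in the kernel of `κ`, not in the kernels of `κ ∘ sig c` -/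
theorem ntc_elt {l : ℕ} (hl : l.Prime) (hle : ¬ l ∣ e) {k : Type} [Field k] [CharP k l]
    (κ : 𝓞 K →+* k) : ∃ m0 : 𝓞 K, κ m0 = 0 ∧
      ∀ c : (ZMod e)ˣ, (∀ i : ℕ, (c : ZMod e) ≠ (l : ZMod e) ^ i) → κ (sig e K c m0) ≠ 0 := by
  haveI : Fact l.Prime := ⟨hl⟩
  set z := κ (zt e K) with hz
  have hzp : IsPrimitiveRoot z e := ntc_prim e K hle κ
  have hF0 := ntc_order_pos e hl hle
  set F := orderOf (l : ZMod e) with hF
  set P : k[X] := ∏ i ∈ Finset.range F, (X - C (z ^ (l ^ i))) with hP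
  have hzF : z ^ (l ^ F) = z := ntc_pow e K hl hle κ (zt e K)
  have hmap : P.map (frobenius k l) = P := by
    have h1 : P.map (frobenius k l) = ∏ i ∈ Finset.range F, (X - C (z ^ (l ^ (i + 1)))) := by
      rw [hP, Polynomial.map_prod]
      refine Finset.prod_congr rfl fun i _ => ?_
      rw [Polynomial.map_sub, map_X, map_C, frobenius_def, ← pow_mul, ← pow_succ]
    have h2 := Finset.prod_range_succ (fun i => (X - C (z ^ (l ^ i)) : k[X])) F
    have h3 := Finset.prod_range_succ' (fun i => (X - C (z ^ (l ^ i)) : k[X])) F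
    rw [h2] at h3
    rw [h1]
    simp only [hzF, pow_zero, pow_one] at h3
    exact (mul_right_cancel₀ (X_sub_C_ne_zero z) h3).symm
  have hlift : P ∈ lifts (Int.castRingHom k) := by
    rw [lifts_iff_coeff_lifts]
    intro j
    have h1 : (P.coeff j) ^ l = P.coeff j := by
      have := congrArg (fun f : k[X] => f.coeff j) hmap
      simpa [coeff_map, frobenius_def] using this
    obtain ⟨n, hn⟩ := ntc_int hl (P.coeff j) h1
    exact ⟨n, by simpa using hn⟩
  obtain ⟨P1, hP1⟩ := (mem_lifts P).1 hlift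
  have hev : ∀ f : 𝓞 K →+* k, f (P1.eval₂ (Int.castRingHom (𝓞 K)) (zt e K)) =
      ∏ i ∈ Finset.range F, (f (zt e K) - z ^ (l ^ i)) := by
    intro f
    rw [hom_eval₂]
    have h1 : f.comp (Int.castRingHom (𝓞 K)) = Int.castRingHom k := RingHom.ext_int _ _
    rw [h1, ← eval_map, hP1, hP, eval_prod]
    refine Finset.prod_congr rfl fun i _ => ?_
    rw [eval_sub, eval_X, eval_C]
  refine ⟨P1.eval₂ (Int.castRingHom (𝓞 K)) (zt e K), ?_, ?_⟩
  · rw [hev κ]
    apply Finset.prod_eq_zero (Finset.mem_range.2 hF0)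
    rw [pow_zero, pow_one, sub_self]
  · intro c hc
    have h1 := hev (κ.comp (sig e K c))
    rw [RingHom.comp_apply] at h1
    rw [h1, Finset.prod_ne_zero_iff]
    intro i _ h2
    rw [RingHom.comp_apply, sig_zt, map_pow, sub_eq_zero, ← hz] at h2
    rw [hz, ← frb_pow_mod e K (l ^ i) κ, ← hz] at h2
    have h3 := hzp.pow_inj (ZMod.val_lt _) (Nat.mod_lt _ (Nat.pos_of_ne_zero (NeZero.ne e))) h2
    apply hc i
    have h4 : (c : ZMod e) = (((c : ZMod e).val : ℕ) : ZMod e) := (ZMod.natCast_zmod_val _).symm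
    rw [h4, h3, ZMod.natCast_mod]
    push_cast
    rfl

theorem range_field {q l : ℕ} (hq : q.Prime) (hqe : q ∣ e) (hl : l.Prime) (hle : ¬ l ∣ e)
    {k : Type} [Field k] [CharP k l] (κ : 𝓞 K →+* k) :
    (∀ α : 𝓞 K, κ α ^ (l ^ orderOf (l : ZMod e)) = κ α) ∧
      ∃ α : 𝓞 K, κ α ≠ 0 ∧ κ α ^ ((l ^ orderOf (l : ZMod e) - 1) / q) ≠ 1 := by
  classical
  refine ⟨ntc_pow e K hl hle κ, ?_⟩
  haveI : Fact l.Prime := ⟨hl⟩
  have hF0 := ntc_order_pos e hl hle
  set F := orderOf (l : ZMod e) with hF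
  have hlF : 2 ≤ l ^ F := le_trans hl.two_le (Nat.le_self_pow hF0.ne' l)
  -- the range is finite
  have hfin : Finite κ.range := by
    have hne : (Polynomial.X ^ (l ^ F) - Polynomial.X : Polynomial k) ≠ 0 :=
      FiniteField.X_pow_card_sub_X_ne_zero k (by omega)
    have hsub : (κ.range : Set k) ⊆
        ((Polynomial.X ^ (l ^ F) - Polynomial.X : Polynomial k).roots.toFinset : Set k) := by
      rintro _ ⟨α, rfl⟩
      rw [Finset.mem_coe, Multiset.mem_toFinset, Polynomial.mem_roots hne]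
      have h1 := ntc_pow e K hl hle κ α
      rw [← hF] at h1
      simp [Polynomial.IsRoot, h1]
    exact (Set.Finite.subset (Finset.finite_toSet _) hsub).to_subtype
  letI : Fintype κ.range := Fintype.ofFinite _
  letI fR : Field κ.range := Fintype.fieldOfDomain κ.range
  haveI : CharP κ.range l := by
    refine ⟨fun n => ?_⟩
    rw [← CharP.cast_eq_zero_iff k l n]
    constructor
    · intro h
      have := congrArg (fun x : κ.range => (x : k)) h
      simpa using this
    · intro h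
      apply Subtype.ext
      simpa using h
  obtain ⟨n, -, hn⟩ := FiniteField.card κ.range l
  set zR : κ.range := ⟨κ (zt e K), ⟨zt e K, rfl⟩⟩ with hzR
  have hzp : IsPrimitiveRoot zR e := by
    have h1 : IsPrimitiveRoot (κ.range.subtype zR) e := ntc_prim e K hle κ
    exact (IsPrimitiveRoot.map_iff_of_injective Subtype.val_injective).1 h1
  have he0 : 0 < e := Nat.pos_of_ne_zero (NeZero.ne e)
  obtain ⟨g, hg⟩ := IsCyclic.exists_generator (α := (κ.range)ˣ)
  have hcard : Nat.card (κ.range)ˣ = l ^ (n : ℕ) - 1 := by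
    rw [Nat.card_units, Nat.card_eq_fintype_card, hn]
  have hed : e ∣ l ^ (n : ℕ) - 1 := by
    rw [← hcard]
    have h1 : IsPrimitiveRoot (hzp.isUnit he0.ne').unit e := by
      exact (IsPrimitiveRoot.coe_units_iff).1 (by simpa using hzp)
    rw [h1.eq_orderOf]
    exact orderOf_dvd_natCard _
  have hln : 1 ≤ l ^ (n : ℕ) := Nat.one_le_pow _ _ hl.pos
  have hFn : F ∣ n := by
    apply orderOf_dvd_of_pow_eq_one
    have h1 : ((l ^ (n : ℕ) : ℕ) : ZMod e) = ((1 : ℕ) : ZMod e) := by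
      rw [eq_comm, ZMod.natCast_eq_natCast_iff]
      exact (Nat.modEq_iff_dvd' hln).2 hed
    push_cast at h1
    exact h1
  have hFle : F ≤ n := Nat.le_of_dvd n.pos hFn
  have hpow : l ^ F ≤ l ^ (n : ℕ) := Nat.pow_le_pow_right hl.pos hFle
  have hgF : e ∣ l ^ F - 1 := by
    have h1 : ((l ^ F : ℕ) : ZMod e) = ((1 : ℕ) : ZMod e) := by
      push_cast
      exact pow_orderOf_eq_one _
    rw [eq_comm, ZMod.natCast_eq_natCast_iff] at h1
    exact (Nat.modEq_iff_dvd' (by omega)).1 h1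
  obtain ⟨α, hα⟩ := (g : κ.range).2
  refine ⟨α, ?_, ?_⟩
  · rw [hα]
    intro h
    exact g.ne_zero (Subtype.ext h)
  · rw [hα]
    intro h
    have h1 : g ^ ((l ^ F - 1) / q) = 1 := by
      apply Units.ext
      apply Subtype.ext
      simpa using h
    have h2 := orderOf_dvd_of_pow_eq_one h1
    rw [orderOf_eq_card_of_forall_mem_zpowers hg, hcard] at h2
    have h3 : 0 < (l ^ F - 1) / q := by
      apply Nat.div_pos _ hq.pos
      exact Nat.le_of_dvd (by omega) (hqe.trans hgF)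
    have h4 := Nat.le_of_dvd h3 h2
    have h5 : (l ^ F - 1) / q < l ^ F - 1 := Nat.div_lt_self (by omega) hq.one_lt
    omega

theorem prescribed {l : ℕ} (hl : l.Prime) (hle : ¬ l ∣ e) {k : Type} [Field k] [CharP k l]
    (κ : 𝓞 K →+* k) (α : 𝓞 K) :
    ∃ β : 𝓞 K, κ β = κ α ∧ ∀ b : (ZMod e)ˣ, (∀ i : ℕ, (b : ZMod e) ≠ (l : ZMod e) ^ i) →
      κ (sig e K b β) = 1 := by
  classical
  obtain ⟨m0, hm0, hm1⟩ := ntc_elt e K hl hle κ
  have hF0 := ntc_order_pos e hl hle
  set B : Finset (ZMod e)ˣ := Finset.univ.filter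
    (fun b : (ZMod e)ˣ => ∀ i : ℕ, (b : ZMod e) ≠ (l : ZMod e) ^ i) with hB
  set m : 𝓞 K := ∏ b ∈ B, sig e K b⁻¹ m0 with hm
  have hinv : ∀ b ∈ B, ∀ i : ℕ, ((b⁻¹ : (ZMod e)ˣ) : ZMod e) ≠ (l : ZMod e) ^ i := by
    intro b hb i hi
    rw [hB, Finset.mem_filter] at hb
    apply hb.2 ((orderOf (l : ZMod e) - 1) * i)
    have h1 : (b : ZMod e) * (l : ZMod e) ^ i = 1 := by
      rw [← hi, ← Units.val_mul, mul_inv_cancel, Units.val_one]
    have h2 : (l : ZMod e) ^ ((orderOf (l : ZMod e) - 1) * i) * (l : ZMod e) ^ i = 1 := by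
      rw [← pow_add]
      have : (orderOf (l : ZMod e) - 1) * i + i = orderOf (l : ZMod e) * i := by
        obtain ⟨F', hF'⟩ : ∃ F', orderOf (l : ZMod e) = F' + 1 := ⟨_, (Nat.succ_pred_eq_of_pos hF0).symm⟩
        rw [hF', Nat.add_sub_cancel]
        ring
      rw [this, pow_mul, pow_orderOf_eq_one, one_pow]
    calc (b : ZMod e) = (b : ZMod e) * ((l : ZMod e) ^ ((orderOf (l : ZMod e) - 1) * i) *
          (l : ZMod e) ^ i) := by rw [h2, mul_one]
      _ = (l : ZMod e) ^ ((orderOf (l : ZMod e) - 1) * i) * ((b : ZMod e) * (l : ZMod e) ^ i) := by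
          ring
      _ = _ := by rw [h1, mul_one]
  have hκm : κ m ≠ 0 := by
    rw [hm, map_prod, Finset.prod_ne_zero_iff]
    intro b hb
    exact hm1 _ (hinv b hb)
  have hκb : ∀ b ∈ B, κ (sig e K b m) = 0 := by
    intro b hb
    rw [hm, map_prod, map_prod]
    apply Finset.prod_eq_zero hb
    rw [(sig_inv_apply e K b m0).1, hm0]
  have h1 : κ m ^ (l ^ orderOf (l : ZMod e) - 1) = 1 := by
    have h2 := ntc_pow e K hl hle κ m
    have h3 : l ^ orderOf (l : ZMod e) = (l ^ orderOf (l : ZMod e) - 1) + 1 := by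
      have := Nat.one_le_pow (orderOf (l : ZMod e)) l hl.pos
      omega
    rw [h3, pow_succ] at h2
    have h4 : κ m ^ (l ^ orderOf (l : ZMod e) - 1) * κ m = 1 * κ m := by rw [h2, one_mul]
    exact mul_right_cancel₀ hκm h4
  have h5 : l ^ orderOf (l : ZMod e) - 1 ≠ 0 := by
    have : 2 ≤ l ^ orderOf (l : ZMod e) := le_trans hl.two_le (Nat.le_self_pow hF0.ne' l)
    omega
  refine ⟨1 + (α - 1) * m ^ (l ^ orderOf (l : ZMod e) - 1), ?_, ?_⟩
  · rw [map_add, map_mul, map_pow, h1, map_sub, map_one, mul_one]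
    ring
  · intro b hb
    rw [map_add, map_add, map_mul, map_mul, map_pow, map_pow,
      hκb b (Finset.mem_filter.2 ⟨Finset.mem_univ _, hb⟩), zero_pow h5, mul_zero, map_one, map_one,
      add_zero]

end Pool.Agent.ARX
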