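import Mathlib

set_option autoImplicit false

/-!
# ARX module NTE (pure arithmetic): the exponent

`q` prime, `q ∤ l`, `f = orderOf (l : ZMod q)`, `F = f * w`, `w ≥ 1`.  Split `i = i0 + f t`, `i0 < f`,
`t < w` (`Finset.sum_range`-type reindexing, e.g. induction on `w`):
`∑_{i<F} l^(F-i) (q - l^i % q) = ∑_{i0<f} l^(f-i0) (q - l^i0 % q) * ∑_{t<w} l^(F - f - f t)`
`= S * (l^F - 1)/(l^f - 1)`, because `l^i % q` depends only on `i` modulo `f`.  Multiply by
`(l^f - 1)/q` (`q ∣ l^f - 1`): `((l^F - 1)/q) * S`.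
`S = ∑ l^(f-i0) (q - l^i0 % q)` is `- f l^f = - f` modulo `q`, and `q ∤ f` (`f ∣ q - 1`, `f ≥ 1`).
-/

namespace Pool.Agent.ARX

theorem exponent_arith {q l : ℕ} (hq : q.Prime) (hl : ¬ q ∣ l) (hl1 : 2 ≤ l) (w : ℕ) (hw : 1 ≤ w) :
    ∃ S : ℕ, ¬ q ∣ S ∧
      (∑ i ∈ Finset.range (orderOf (l : ZMod q) * w),
        l ^ (orderOf (l : ZMod q) * w - i) * (q - l ^ i % q)) *
        ((l ^ orderOf (l : ZMod q) - 1) / q) =
      ((l ^ (orderOf (l : ZMod q) * w) - 1) / q) * S := by
  have : Fact q.Prime := ⟨hq⟩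
  have hl0 : (l : ZMod q) ≠ 0 := by
    rwa [Ne, ZMod.natCast_eq_zero_iff]
  set f := orderOf (l : ZMod q) with hf
  have hlf : (l : ZMod q) ^ f = 1 := pow_orderOf_eq_one _
  have hfd : f ∣ q - 1 := orderOf_dvd_of_pow_eq_one (ZMod.pow_card_sub_one_eq_one hl0)
  have hq1 : 0 < q - 1 := Nat.sub_pos_of_lt hq.one_lt
  have hf0 : 0 < f := Nat.pos_of_dvd_of_pos hfd hq1
  have hfq : ¬ q ∣ f := by
    intro h
    have h1 := Nat.le_of_dvd hf0 h
    have h2 := Nat.le_of_dvd hq1 hfd
    omega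
  have hone : 1 ≤ l ^ f := Nat.one_le_pow _ _ (by omega)
  have hdvd : q ∣ l ^ f - 1 := by
    rw [← ZMod.natCast_eq_zero_iff, Nat.cast_sub hone, Nat.cast_pow, hlf, Nat.cast_one, sub_self]
  obtain ⟨m, hm⟩ := hdvd
  set S := ∑ i ∈ Finset.range f, l ^ (f - i) * (q - l ^ i % q) with hS
  -- periodicity
  have hper : ∀ v i : ℕ, l ^ (f * v + i) % q = l ^ i % q := by
    intro v i
    have h : ((l ^ (f * v + i) : ℕ) : ZMod q) = ((l ^ i : ℕ) : ZMod q) := by
      push_cast
      rw [pow_add, pow_mul, hlf, one_pow, one_mul]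
    exact (ZMod.natCast_eq_natCast_iff' _ _ _).1 h
  -- geometric factors
  have hgeo : ∀ v : ℕ, ∃ g : ℕ, l ^ (f * v) - 1 = g * (l ^ f - 1) ∧
      ∑ i ∈ Finset.range (f * v), l ^ (f * v - i) * (q - l ^ i % q) = S * g := by
    intro v
    induction v with
    | zero => exact ⟨0, by simp, by simp⟩
    | succ v ih =>
      obtain ⟨g, hg1, hg2⟩ := ih
      refine ⟨l ^ f * g + 1, ?_, ?_⟩
      · have h1 : 1 ≤ l ^ (f * v) := Nat.one_le_pow _ _ (by omega)
        have h2 : l ^ (f * v) = g * (l ^ f - 1) + 1 := by omega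
        have h3 : l ^ (f * (v + 1)) = l ^ f * l ^ (f * v) := by
          rw [mul_add, mul_one, pow_add, mul_comm]
        obtain ⟨y, hy⟩ := Nat.exists_eq_add_of_le hone
        rw [h3, h2, hy, Nat.add_sub_cancel_left]
        apply Nat.sub_eq_of_eq_add
        ring
      · have h1 : f * (v + 1) = f * v + f := by ring
        rw [h1, Finset.sum_range_add]
        have h2 : ∑ i ∈ Finset.range (f * v), l ^ (f * v + f - i) * (q - l ^ i % q) =
            l ^ f * (S * g) := by
          rw [← hg2, Finset.mul_sum]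
          refine Finset.sum_congr rfl (fun i hi => ?_)
          have hi' := Finset.mem_range.1 hi
          rw [show f * v + f - i = f + (f * v - i) by omega, pow_add, mul_assoc]
        have h3 : ∑ i ∈ Finset.range f, l ^ (f * v + f - (f * v + i)) *
            (q - l ^ (f * v + i) % q) = S := by
          rw [hS]
          refine Finset.sum_congr rfl (fun i hi => ?_)
          rw [hper, Nat.add_sub_add_left]
        rw [h2, h3]
        ring
  obtain ⟨g, hg1, hg2⟩ := hgeo w
  refine ⟨S, ?_, ?_⟩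
  · intro h
    have h1 : ((S : ℕ) : ZMod q) = 0 := (ZMod.natCast_eq_zero_iff _ _).2 h
    have h2 : ((S : ℕ) : ZMod q) = - (f : ZMod q) := by
      rw [hS]
      push_cast
      have h3 : ∀ i ∈ Finset.range f, (l : ZMod q) ^ (f - i) * ((q - l ^ i % q : ℕ) : ZMod q) =
          - 1 := by
        intro i hi
        have hi' := Finset.mem_range.1 hi
        rw [Nat.cast_sub (Nat.mod_lt _ hq.pos).le, ZMod.natCast_self, ZMod.natCast_mod,
          Nat.cast_pow, zero_sub, mul_neg, ← pow_add, Nat.sub_add_cancel hi'.le, hlf]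
      rw [Finset.sum_congr rfl h3, Finset.sum_const, Finset.card_range, nsmul_eq_mul]
      ring
    rw [h2, neg_eq_zero, ZMod.natCast_eq_zero_iff] at h1
    exact hfq h1
  · rw [hg2, hg1, hm, Nat.mul_div_cancel_left m hq.pos,
      show g * (q * m) = q * (g * m) by ring, Nat.mul_div_cancel_left _ hq.pos]
    ring

end Pool.Agent.ARX
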