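import Pool.Agent.ARX.Ntc
import Pool.Agent.ARX.Nte

set_option autoImplicit false

/-!
# ARX module NTR: non triviality of the symbol

`f = orderOf (l : ZMod q)`, `F = orderOf (l : ZMod e) = f * w` (the order modulo `q` divides the
order modulo `e`).  Take `α` from `range_field`, `g = κ α`, and `β` from `prescribed`: `κ β = g`,
`κ (sig b β) = 1` if `b` is not a power of `l` modulo `e`.
`Theta q β = ∏_b (sig b⁻¹ β)^(ex b)`; only `b = l^i`, `0 ≤ i < F` contribute (these are distinct,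
and `b⁻¹` is a power of `l` iff `b` is).  `κ(sig (l^i)⁻¹ β) = g ^ (l ^ (F - i))`: raise to the power
`l^i` (`kappa_frob` iterated) and use injectivity of the Frobenius, `g^(l^F) = g`.  `ex e q (l^i)
= q - (l^i % q)` (as `q ∣ e`).  So `κ(Theta q β) = g ^ (∑_{i<F} l^(F-i) (q - l^i % q))`, which is not
zero; raise to `(l^f - 1)/q` and use `exponent_arith`:
`κ(Theta q β)^((l^f-1)/q) = (g^((l^F-1)/q))^S`; `h = g^((l^F-1)/q)` satisfies `h^q = 1`, `h ≠ 1`, so
`h^S ≠ 1` for `q ∤ S`.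
-/

namespace Pool.Agent.ARX

open NumberField

variable (e : ℕ) [NeZero e] (K : Type) [Field K] [NumberField K] [IsCyclotomicExtension {e} ℚ K]

theorem Ntr_kappa_pow {l : ℕ} (hl : l.Prime) (u : (ZMod e)ˣ) (hu : (u : ZMod e) = (l : ZMod e))
    {k : Type} [Field k] [CharP k l] (κ : 𝓞 K →+* k) (α : 𝓞 K) (j : ℕ) :
    κ (sig e K (u ^ j) α) = κ α ^ (l ^ j) := by
  induction j with
  | zero => rw [pow_zero, sig_one, pow_zero, pow_one]; rfl
  | succ j ih =>
    rw [pow_succ', sig_mul, RingHom.comp_apply, kappa_frob e K hl u hu κ, ih, ← pow_mul, pow_succ]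

theorem Ntr_ex {q l : ℕ} (hqe : q ∣ e) (u : (ZMod e)ˣ) (hu : (u : ZMod e) = (l : ZMod e))
    (i : ℕ) : ex e q (u ^ i) = q - l ^ i % q := by
  unfold ex
  have h1 : ((u ^ i : (ZMod e)ˣ) : ZMod e) = ((l ^ i : ℕ) : ZMod e) := by
    push_cast
    rw [hu]
  rw [h1, ZMod.val_natCast, Nat.mod_mod_of_dvd _ hqe]

theorem Ntr_theta {q l : ℕ} (hqe : q ∣ e) (hl : l.Prime)
    (u : (ZMod e)ˣ) (hu : (u : ZMod e) = (l : ZMod e))
    {k : Type} [Field k] [CharP k l] (κ : 𝓞 K →+* k) (β : 𝓞 K)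
    (hβ : ∀ b : (ZMod e)ˣ, (∀ i : ℕ, (b : ZMod e) ≠ (l : ZMod e) ^ i) → κ (sig e K b β) = 1) :
    κ (Theta e K q β) = κ β ^ (∑ i ∈ Finset.range (orderOf u),
        l ^ (orderOf u - i) * (q - l ^ i % q)) := by
  classical
  have hF : 0 < orderOf u := orderOf_pos u
  unfold Theta
  rw [map_prod]
  have hinj : ∀ i ∈ Finset.range (orderOf u), ∀ j ∈ Finset.range (orderOf u),
      u ^ i = u ^ j → i = j := by
    intro i hi j hj h
    exact pow_injOn_Iio_orderOf (Set.mem_Iio.2 (Finset.mem_range.1 hi))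
      (Set.mem_Iio.2 (Finset.mem_range.1 hj)) h
  rw [← Finset.prod_subset (Finset.subset_univ ((Finset.range (orderOf u)).image (fun i => u ^ i)))]
  · rw [Finset.prod_image (fun i hi j hj h => hinj i hi j hj h), ← Finset.prod_pow_eq_pow_sum]
    refine Finset.prod_congr rfl fun i hi => ?_
    rw [Finset.mem_range] at hi
    have h1 : (u ^ i)⁻¹ = u ^ (orderOf u - i) := by
      rw [inv_eq_iff_mul_eq_one, ← pow_add, Nat.add_sub_cancel' hi.le, pow_orderOf_eq_one]
    rw [map_pow, h1, Ntr_kappa_pow e K hl u hu κ, Ntr_ex e hqe u hu, pow_mul]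
  · intro b _ hb
    have h1 : ∀ i : ℕ, ((b⁻¹ : (ZMod e)ˣ) : ZMod e) ≠ (l : ZMod e) ^ i := by
      intro i h
      apply hb
      have h2 : b⁻¹ = u ^ i := by
        ext
        rw [h, Units.val_pow_eq_pow_val, hu]
      have h3 : b ∈ Subgroup.zpowers u := by
        have : b = (u ^ i)⁻¹ := by rw [← h2, inv_inv]
        rw [this]
        exact Subgroup.inv_mem _ (Subgroup.npow_mem_zpowers u i)
      rw [← mem_powers_iff_mem_zpowers, mem_powers_iff_mem_range_orderOf] at h3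
      exact h3
    rw [map_pow, hβ _ h1, one_pow]

theorem nontrivial_symbol {q l : ℕ} (hq : q.Prime) (hqe : q ∣ e) (hl : l.Prime) (hle : ¬ l ∣ e)
    {k : Type} [Field k] [CharP k l] (κ : 𝓞 K →+* k) :
    ∃ β : 𝓞 K, κ (Theta e K q β) ≠ 0 ∧
      κ (Theta e K q β) ^ ((l ^ orderOf (l : ZMod q) - 1) / q) ≠ 1 := by
  have hcop : Nat.Coprime l e := (Nat.Prime.coprime_iff_not_dvd hl).2 hle
  let u : (ZMod e)ˣ := ZMod.unitOfCoprime l hcop
  have hu : (u : ZMod e) = (l : ZMod e) := ZMod.coe_unitOfCoprime l hcop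
  have hF : orderOf u = orderOf (l : ZMod e) := by rw [← hu, orderOf_units]
  have hFpos : 0 < orderOf u := orderOf_pos u
  obtain ⟨h1, α, hα0, hα1⟩ := range_field e K hq hqe hl hle κ
  obtain ⟨β, hβ, hβ'⟩ := prescribed e K hl hle κ α
  have hdvd : orderOf (l : ZMod q) ∣ orderOf u := by
    rw [hF]
    have := orderOf_map_dvd (ZMod.castHom hqe (ZMod q)).toMonoidHom (l : ZMod e)
    simpa using this
  obtain ⟨w, hw⟩ := hdvd
  have hw1 : 1 ≤ w := by
    rcases Nat.eq_zero_or_pos w with h | h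
    · rw [h, mul_zero] at hw; omega
    · exact h
  have hql : ¬ q ∣ l := by
    intro h
    rw [(Nat.prime_dvd_prime_iff_eq hq hl).1 h] at hqe
    exact hle hqe
  obtain ⟨S, hS, hE⟩ := exponent_arith hq hql hl.two_le w hw1
  have hth := Ntr_theta e K (q := q) hqe hl u hu κ β hβ'
  rw [hβ] at hth
  refine ⟨β, ?_, ?_⟩
  · rw [hth]
    exact pow_ne_zero _ hα0
  · rw [hth, ← pow_mul, hw, hE, pow_mul, ← hw, hF]
    intro hcon
    apply hα1
    -- q divides l^F - 1
    have hqd : q ∣ l ^ orderOf (l : ZMod e) - 1 := by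
      refine hqe.trans ?_
      have h2 : ((l ^ orderOf (l : ZMod e) : ℕ) : ZMod e) = ((1 : ℕ) : ZMod e) := by
        push_cast
        exact pow_orderOf_eq_one _
      rw [ZMod.natCast_eq_natCast_iff] at h2
      exact (Nat.modEq_iff_dvd' (Nat.one_le_pow _ _ hl.pos)).1 h2.symm
    have h3 : (κ α ^ ((l ^ orderOf (l : ZMod e) - 1) / q)) ^ q = 1 := by
      rw [← pow_mul, Nat.div_mul_cancel hqd]
      have h4 := h1 α
      have h5 : κ α ^ (l ^ orderOf (l : ZMod e) - 1) * κ α = 1 * κ α := by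
        rw [← pow_succ, Nat.sub_add_cancel (Nat.one_le_pow _ _ hl.pos), one_mul]
        exact h4
      exact mul_right_cancel₀ hα0 h5
    have h6 := orderOf_dvd_of_pow_eq_one h3
    have h7 := orderOf_dvd_of_pow_eq_one hcon
    have h8 := Nat.dvd_gcd h6 h7
    rw [(Nat.Prime.coprime_iff_not_dvd hq).2 hS] at h8
    exact orderOf_eq_one_iff.1 (Nat.dvd_one.1 h8)

end Pool.Agent.ARX
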