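import Pool.Agent.ARX.Sym
import Pool.Agent.ARX.Bxc

set_option autoImplicit false

/-!
# ARX module ORT: near orthogonality

`m ≠ m'` squarefree, prime to `e`, `≥ 1`.  `G(x) = f_m(ofc x) * conj f_{m'}(ofc x)`,
`f_m(α) = ∏_{l ∣ m} F l α`.  One of them, say `m`, has a prime factor `l` not dividing `m'` (in the
other case take conjugates).  `M0 = m m'`; `G` is periodic modulo `M0`
(`ofc` is additive, each prime of `m m'` divides `M0`), `|G| ≤ 1`.  Complete sum: choose `β0` with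
`F l β0 ≠ 0, 1`, an integer `t` with `t = 1` modulo `l`, `t = 0` modulo `M0 / l` (coprime, because
`l` divides `m m'` exactly once) and `β = 1 + t (β0 - 1)`.  Then `β = β0` modulo `l` and `β = 1`
modulo every other prime factor of `M0`, so `g(β α) = F l β0 * g(α)` for `g(α) = f_m conj f_m'`, all
`α`.  Multiplication by `β` permutes the residues modulo `M0` because `F l' β ≠ 0` for all primes
`l' ∣ M0`, i.e. `norm β` is prime to `M0` (and `β` divides its norm).  So the complete sum `W`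
satisfies `W = F l β0 * W`, `W = 0`.
Then `box_sum` with `D = φ(e)`.
-/

namespace Pool.Agent.ARX

open NumberField

variable (e : ℕ) [NeZero e] (K : Type) [Field K] [NumberField K] [IsCyclotomicExtension {e} ℚ K]

/-- The product of the symbols over the primes dividing `m`. -/
noncomputable def fm (F : ℕ → 𝓞 K → ℂ) (m : ℕ) (α : 𝓞 K) : ℂ := ∏ l ∈ m.primeFactors, F l α

theorem ort_ofc_add (x y : Fin (Nat.totient e) → ℤ) :
    ofc e K (x + y) = ofc e K x + ofc e K y := by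
  unfold ofc
  rw [← Finset.sum_add_distrib]
  refine Finset.sum_congr rfl fun i _ => ?_
  simp only [Pi.add_apply, Int.cast_add]
  ring

theorem ort_ofc_smul (n : ℤ) (y : Fin (Nat.totient e) → ℤ) :
    ofc e K (n • y) = (n : 𝓞 K) * ofc e K y := by
  unfold ofc
  rw [Finset.mul_sum]
  refine Finset.sum_congr rfl fun i _ => ?_
  simp only [Pi.smul_apply, smul_eq_mul, Int.cast_mul]
  ring

omit [NumberField K] in
theorem ort_one [NumberField K] {l : ℕ} {F : 𝓞 K → ℂ} (h : SymProps K l F) : F 1 = 1 := by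
  obtain ⟨hmul, -, -, -, β, hβ, -⟩ := h
  have h1 : F β = F β * F 1 := by rw [← hmul, mul_one]
  have h2 : F β * (F 1 - 1) = 0 := by rw [mul_sub, ← h1]; ring
  rcases mul_eq_zero.mp h2 with h3 | h3
  · exact absurd h3 hβ
  · exact sub_eq_zero.mp h3

theorem ort_per {l : ℕ} {F : 𝓞 K → ℂ} (h : SymProps K l F) (n : ℕ) (hn : l ∣ n) (α β : 𝓞 K) :
    F (α + (n : 𝓞 K) * β) = F α := by
  obtain ⟨k, rfl⟩ := hn
  have := h.2.1 α ((k : 𝓞 K) * β)
  rw [← this]
  congr 1
  push_cast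
  ring

theorem ort_fm_per {F : ℕ → 𝓞 K → ℂ} {m : ℕ} (hF : ∀ l ∈ m.primeFactors, SymProps K l (F l))
    (n : ℕ) (hn : m ∣ n) (α β : 𝓞 K) : fm K F m (α + (n : 𝓞 K) * β) = fm K F m α := by
  unfold fm
  refine Finset.prod_congr rfl fun l hl => ?_
  exact ort_per K (hF l hl) n ((Nat.dvd_of_mem_primeFactors hl).trans hn) α β

theorem ort_fm_le {F : ℕ → 𝓞 K → ℂ} {m : ℕ} (hF : ∀ l ∈ m.primeFactors, SymProps K l (F l))
    (α : 𝓞 K) : ‖fm K F m α‖ ≤ 1 := by
  unfold fm
  rw [norm_prod]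
  exact Finset.prod_le_one (fun l _ => norm_nonneg _) fun l hl => (hF l hl).2.2.1 α

/-- the complete sum of a function of the residue modulo `M0` -/
theorem ort_complete (M0 : ℕ) (hM0 : 1 ≤ M0) (g : 𝓞 K → ℂ)
    (hper : ∀ α γ : 𝓞 K, g (α + (M0 : 𝓞 K) * γ) = g α) (β : 𝓞 K) (c : ℂ) (hc : c ≠ 1)
    (hβ : IsCoprime (Algebra.norm ℤ β) (M0 : ℤ)) (hg : ∀ α, g (β * α) = c * g α) :
    ∑ x ∈ Fintype.piFinset (fun _ : Fin (Nat.totient e) => Finset.Ico (0 : ℤ) (M0 : ℤ)),
      g (ofc e K x) = 0 := by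
  classical
  have hM0' : (0 : ℤ) < M0 := by exact_mod_cast hM0
  set I : Ideal (𝓞 K) := Ideal.span {(M0 : 𝓞 K)} with hI
  let gb : 𝓞 K ⧸ I → ℂ := Quotient.lift (fun α : 𝓞 K => g α) (by
    intro a b hab
    have h1 : a - b ∈ I := by
      have := (Submodule.quotientRel_def I).mp hab
      exact this
    rw [hI, Ideal.mem_span_singleton] at h1
    obtain ⟨γ, hγ⟩ := h1
    have : a = b + (M0 : 𝓞 K) * γ := by rw [← hγ]; ring
    show g a = g b
    rw [this]
    exact hper b γ)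
  have hgb : ∀ α : 𝓞 K, gb (Ideal.Quotient.mk I α) = g α := fun α => rfl
  set T := Fintype.piFinset (fun _ : Fin (Nat.totient e) => Finset.Ico (0 : ℤ) (M0 : ℤ)) with hT
  have hmemT : ∀ x, x ∈ T ↔ ∀ i, 0 ≤ x i ∧ x i < M0 := by
    intro x
    rw [hT, Fintype.mem_piFinset]
    simp only [Finset.mem_Ico]
  -- injectivity
  have hinj : ∀ x ∈ T, ∀ y ∈ T,
      Ideal.Quotient.mk I (ofc e K x) = Ideal.Quotient.mk I (ofc e K y) → x = y := by
    intro x hx y hy hxy
    rw [Ideal.Quotient.eq, hI, Ideal.mem_span_singleton] at hxy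
    obtain ⟨γ, hγ⟩ := hxy
    obtain ⟨z, rfl⟩ := (ofc_bijective e K).2 γ
    have h1 : ofc e K x = ofc e K (y + (M0 : ℤ) • z) := by
      rw [ort_ofc_add, ort_ofc_smul]
      push_cast
      rw [← hγ]; ring
    have h2 := (ofc_bijective e K).1 h1
    rw [hmemT] at hx hy
    funext i
    have h3 : x i = y i + M0 * z i := by
      have := congrFun h2 i
      simpa using this
    have hx' := hx i
    have hy' := hy i
    have h4 : z i = 0 := by
      by_contra hz
      rcases lt_or_gt_of_ne hz with hz | hz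
      · have : M0 * z i ≤ - M0 := by nlinarith
        omega
      · have : (M0 : ℤ) ≤ M0 * z i := by nlinarith
        omega
    rw [h3, h4]; ring
  have hsurj : ∀ r : 𝓞 K ⧸ I, ∃ x ∈ T, Ideal.Quotient.mk I (ofc e K x) = r := by
    intro r
    obtain ⟨α, rfl⟩ := Ideal.Quotient.mk_surjective r
    obtain ⟨z, rfl⟩ := (ofc_bijective e K).2 α
    refine ⟨fun i => z i % M0, ?_, ?_⟩
    · rw [hmemT]
      intro i
      exact ⟨Int.emod_nonneg _ hM0'.ne', Int.emod_lt_of_pos _ hM0'⟩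
    · rw [Ideal.Quotient.eq, hI, Ideal.mem_span_singleton]
      have h1 : z = (fun i => z i % M0) + (M0 : ℤ) • (fun i => z i / M0) := by
        funext i
        simp only [Pi.add_apply, Pi.smul_apply, smul_eq_mul]
        exact (Int.emod_add_mul_ediv _ _).symm
      refine ⟨- ofc e K (fun i => z i / M0), ?_⟩
      have h2 : ofc e K z = ofc e K (fun i => z i % M0) +
          (M0 : 𝓞 K) * ofc e K (fun i => z i / M0) := by
        conv_lhs => rw [h1, ort_ofc_add, ort_ofc_smul]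
        push_cast
        rfl
      rw [h2]; ring
  haveI : Finite (𝓞 K ⧸ I) := by
    apply Finite.of_surjective (fun x : T => Ideal.Quotient.mk I (ofc e K x.1))
    intro r
    obtain ⟨x, hx, h⟩ := hsurj r
    exact ⟨⟨x, hx⟩, h⟩
  haveI : Fintype (𝓞 K ⧸ I) := Fintype.ofFinite _
  have hsum : ∑ x ∈ T, g (ofc e K x) = ∑ r : 𝓞 K ⧸ I, gb r := by
    refine Finset.sum_bij (fun x _ => Ideal.Quotient.mk I (ofc e K x)) ?_ ?_ ?_ ?_
    · intro x _; exact Finset.mem_univ _
    · intro x hx y hy h; exact hinj x hx y hy h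
    · intro r _
      obtain ⟨x, hx, h⟩ := hsurj r
      exact ⟨x, hx, h⟩
    · intro x _; rw [hgb]
  -- β is a unit
  have hunit : ∃ γ : 𝓞 K, Ideal.Quotient.mk I β * Ideal.Quotient.mk I γ = 1 := by
    have h1 : β ∣ ((Algebra.norm ℤ β : ℤ) : 𝓞 K) := by
      have h2 := Ideal.absNorm_mem (Ideal.span {β} : Ideal (𝓞 K))
      rw [Ideal.absNorm_span_singleton, Ideal.mem_span_singleton] at h2
      rcases Int.natAbs_eq (Algebra.norm ℤ β) with h3 | h3
      · rw [h3]
        push_cast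
        simpa using h2
      · rw [h3]
        push_cast
        simpa using h2
    obtain ⟨δ, hδ⟩ := h1
    obtain ⟨u, v, huv⟩ := hβ
    refine ⟨(u : 𝓞 K) * δ, ?_⟩
    rw [← map_mul, ← map_one (Ideal.Quotient.mk I), Ideal.Quotient.eq, hI,
      Ideal.mem_span_singleton]
    refine ⟨-(v : 𝓞 K), ?_⟩
    have h4 : (u : 𝓞 K) * ((Algebra.norm ℤ β : ℤ) : 𝓞 K) + (v : 𝓞 K) * (M0 : 𝓞 K) = 1 := by
      have := congrArg (Int.cast : ℤ → 𝓞 K) huv
      push_cast at this
      exact this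
    rw [hδ] at h4
    linear_combination h4
  obtain ⟨γ, hγ⟩ := hunit
  have hbij : Function.Bijective (fun r : 𝓞 K ⧸ I => Ideal.Quotient.mk I β * r) := by
    constructor
    · intro r s hrs
      have hrs' : Ideal.Quotient.mk I β * r = Ideal.Quotient.mk I β * s := hrs
      have : Ideal.Quotient.mk I γ * (Ideal.Quotient.mk I β * r) =
        Ideal.Quotient.mk I γ * (Ideal.Quotient.mk I β * s) := by rw [hrs']
      rw [← mul_assoc, ← mul_assoc, mul_comm (Ideal.Quotient.mk I γ), hγ, one_mul, one_mul] at this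
      exact this
    · intro r
      refine ⟨Ideal.Quotient.mk I γ * r, ?_⟩
      show Ideal.Quotient.mk I β * (Ideal.Quotient.mk I γ * r) = r
      rw [← mul_assoc, hγ, one_mul]
  have hW : ∑ r : 𝓞 K ⧸ I, gb r = c * ∑ r : 𝓞 K ⧸ I, gb r := by
    rw [Finset.mul_sum]
    rw [← (Equiv.ofBijective _ hbij).sum_comp gb]
    refine Finset.sum_congr rfl fun r _ => ?_
    obtain ⟨α, rfl⟩ := Ideal.Quotient.mk_surjective r
    show gb (Ideal.Quotient.mk I β * Ideal.Quotient.mk I α) = c * gb (Ideal.Quotient.mk I α)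
    rw [← map_mul, hgb, hgb, hg]
  rw [hsum]
  have h5 : (1 - c) * ∑ r : 𝓞 K ⧸ I, gb r = 0 := by
    linear_combination hW
  rcases mul_eq_zero.mp h5 with h6 | h6
  · exact absurd (sub_eq_zero.mp h6).symm hc
  · exact h6

theorem ort_core (F : ℕ → 𝓞 K → ℂ) (hF : ∀ l : ℕ, l.Prime → ¬ l ∣ e → SymProps K l (F l))
    {m m' : ℕ} (hm : Squarefree m) (hm' : Squarefree m') (hme : m.Coprime e)
    (hme' : m'.Coprime e) (l : ℕ) (hl : l.Prime) (hlm : l ∣ m) (hlm' : ¬ l ∣ m') (Y : ℕ) :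
    ‖∑ x ∈ Box e Y, fm K F m (ofc e K x) * (starRingEnd ℂ) (fm K F m' (ofc e K x))‖ ≤
      (Nat.totient e : ℝ) * ((m : ℝ) * m') * (2 * (Y : ℝ) + 1) ^ (Nat.totient e - 1) := by
  classical
  have hFm : ∀ l ∈ m.primeFactors, SymProps K l (F l) := by
    intro p hp
    have hpp := Nat.prime_of_mem_primeFactors hp
    refine hF p hpp fun h => ?_
    exact hpp.one_lt.ne' (Nat.dvd_one.mp (hme ▸ Nat.dvd_gcd (Nat.dvd_of_mem_primeFactors hp) h))
  have hFm' : ∀ l ∈ m'.primeFactors, SymProps K l (F l) := by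
    intro p hp
    have hpp := Nat.prime_of_mem_primeFactors hp
    refine hF p hpp fun h => ?_
    exact hpp.one_lt.ne' (Nat.dvd_one.mp (hme' ▸ Nat.dvd_gcd (Nat.dvd_of_mem_primeFactors hp) h))
  have hm0 : m ≠ 0 := hm.ne_zero
  have hm0' : m' ≠ 0 := hm'.ne_zero
  have hlF : SymProps K l (F l) := hFm l (Nat.mem_primeFactors.mpr ⟨hl, hlm, hm0⟩)
  obtain ⟨β0, hβ0, hβ1⟩ := hlF.2.2.2.2
  obtain ⟨k, hk⟩ := hlm
  have hlk : ¬ l ∣ k := by
    intro h
    obtain ⟨k', rfl⟩ := h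
    have : IsUnit l := hm l ⟨k', by rw [hk]; ring⟩
    exact hl.one_lt.ne' (Nat.isUnit_iff.mp this)
  have hcop : Nat.Coprime l (k * m') := by
    apply Nat.Coprime.mul_right
    · exact (Nat.Prime.coprime_iff_not_dvd hl).mpr hlk
    · exact (Nat.Prime.coprime_iff_not_dvd hl).mpr hlm'
  obtain ⟨t, ht1, ht0⟩ := Nat.chineseRemainder hcop 1 0
  -- t ≡ 1 mod l, t ≡ 0 mod k m'
  have ht0' : k * m' ∣ t := (Nat.modEq_zero_iff_dvd).mp ht0
  have ht1' : (l : ℤ) ∣ (t : ℤ) - 1 := by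
    have := (Nat.modEq_iff_dvd.mp ht1.symm)
    simpa using this
  set β : 𝓞 K := 1 + (t : 𝓞 K) * (β0 - 1) with hβdef
  have hFlβ : F l β = F l β0 := by
    obtain ⟨s, hs⟩ := ht1'
    have h1 : β = β0 + (l : 𝓞 K) * ((s : 𝓞 K) * (β0 - 1)) := by
      have h2 : (t : 𝓞 K) = 1 + (l : 𝓞 K) * (s : 𝓞 K) := by
        have h3 : (t : ℤ) = 1 + l * s := by linarith
        have := congrArg (Int.cast : ℤ → 𝓞 K) h3
        push_cast at this
        exact this
      rw [hβdef, h2]; ring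
    rw [h1]
    exact hlF.2.1 _ _
  have hFpβ : ∀ p : ℕ, p ∣ t → SymProps K p (F p) → F p β = 1 := by
    intro p hp hS
    rw [hβdef, ort_per K hS t hp, ort_one K hS]
  have hmk : ∀ p ∈ m.primeFactors, p ≠ l → p ∣ t := by
    intro p hp hpl
    have hpp := Nat.prime_of_mem_primeFactors hp
    have h1 : p ∣ l * k := hk ▸ Nat.dvd_of_mem_primeFactors hp
    rcases (Nat.Prime.dvd_mul hpp).mp h1 with h2 | h2
    · exact absurd ((Nat.prime_dvd_prime_iff_eq hpp hl).mp h2) hpl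
    · exact (h2.trans (Dvd.intro _ rfl)).trans ht0'
  have hmk' : ∀ p ∈ m'.primeFactors, p ∣ t := by
    intro p hp
    exact ((Nat.dvd_of_mem_primeFactors hp).trans (Dvd.intro_left _ rfl)).trans ht0'
  have hlmem : l ∈ m.primeFactors := Nat.mem_primeFactors.mpr ⟨hl, ⟨k, hk⟩, hm0⟩
  set g : 𝓞 K → ℂ := fun α => fm K F m α * (starRingEnd ℂ) (fm K F m' α) with hg
  have hfmβ : fm K F m β = F l β0 := by
    unfold fm
    rw [← hFlβ]
    refine Finset.prod_eq_single l ?_ ?_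
    · intro p hp hpl
      exact hFpβ p (hmk p hp hpl) (hFm p hp)
    · intro h; exact absurd hlmem h
  have hfmβ' : fm K F m' β = 1 := by
    unfold fm
    exact Finset.prod_eq_one fun p hp => hFpβ p (hmk' p hp) (hFm' p hp)
  have hfm_mul : ∀ (n : ℕ), (∀ l ∈ n.primeFactors, SymProps K l (F l)) → ∀ α β : 𝓞 K,
      fm K F n (α * β) = fm K F n α * fm K F n β := by
    intro n hn α β
    unfold fm
    rw [← Finset.prod_mul_distrib]
    exact Finset.prod_congr rfl fun p hp => (hn p hp).1 α β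
  have hgβ : ∀ α, g (β * α) = F l β0 * g α := by
    intro α
    simp only [hg]
    rw [hfm_mul m hFm, hfm_mul m' hFm', hfmβ, hfmβ', one_mul]
    ring
  have hper : ∀ α γ : 𝓞 K, g (α + ((m * m' : ℕ) : 𝓞 K) * γ) = g α := by
    intro α γ
    simp only [hg]
    rw [ort_fm_per K hFm _ (Dvd.intro _ rfl), ort_fm_per K hFm' _ (Dvd.intro_left _ rfl)]
  have hnorm : IsCoprime (Algebra.norm ℤ β) ((m * m' : ℕ) : ℤ) := by
    rw [Int.isCoprime_iff_gcd_eq_one, Int.gcd_comm]
    have : Nat.Coprime (m * m') (Algebra.norm ℤ β).natAbs := by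
      apply Nat.coprime_of_dvd
      intro p hpp hpm hpn
      have hpn' : (p : ℤ) ∣ Algebra.norm ℤ β := Int.natCast_dvd.mpr hpn
      rcases (Nat.Prime.dvd_mul hpp).mp hpm with h | h
      · have hp : p ∈ m.primeFactors := Nat.mem_primeFactors.mpr ⟨hpp, h, hm0⟩
        have h0 := ((hFm p hp).2.2.2.1 β).mpr hpn'
        by_cases hpl : p = l
        · subst hpl
          rw [hFlβ] at h0
          exact hβ0 h0
        · rw [hFpβ p (hmk p hp hpl) (hFm p hp)] at h0
          exact one_ne_zero h0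
      · have hp : p ∈ m'.primeFactors := Nat.mem_primeFactors.mpr ⟨hpp, h, hm0'⟩
        have h0 := ((hFm' p hp).2.2.2.1 β).mpr hpn'
        rw [hFpβ p (hmk' p hp) (hFm' p hp)] at h0
        exact one_ne_zero h0
    exact this
  have hM0 : 1 ≤ m * m' := Nat.pos_of_ne_zero (mul_ne_zero hm0 hm0')
  have h0 := ort_complete e K (m * m') hM0 g hper β (F l β0) hβ1 hnorm hgβ
  have hD : 1 ≤ Nat.totient e := Nat.totient_pos.mpr (Nat.pos_of_ne_zero (NeZero.ne e))
  have hb := box_sum hD (m * m') hM0 (fun x => g (ofc e K x)) (fun x => by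
    simp only [hg]
    rw [norm_mul, RCLike.norm_conj]
    exact mul_le_one₀ (ort_fm_le K hFm _) (norm_nonneg _) (ort_fm_le K hFm' _))
    (fun x y => by
      show g (ofc e K (x + ((m * m' : ℕ) : ℤ) • y)) = g (ofc e K x)
      rw [ort_ofc_add, ort_ofc_smul]
      have := hper (ofc e K x) (ofc e K y)
      rw [← this, Int.cast_natCast]) h0 Y
  have h7 : ((m * m' : ℕ) : ℝ) = (m : ℝ) * m' := by push_cast; ring
  rw [h7] at hb
  exact hb

theorem near_orth (F : ℕ → 𝓞 K → ℂ) (hF : ∀ l : ℕ, l.Prime → ¬ l ∣ e → SymProps K l (F l))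
    {m m' : ℕ} (hm : Squarefree m) (hm' : Squarefree m') (hme : m.Coprime e)
    (hme' : m'.Coprime e) (hne : m ≠ m') (Y : ℕ) :
    ‖∑ x ∈ Box e Y, fm K F m (ofc e K x) * (starRingEnd ℂ) (fm K F m' (ofc e K x))‖ ≤
      (Nat.totient e : ℝ) * ((m : ℝ) * m') * (2 * (Y : ℝ) + 1) ^ (Nat.totient e - 1) := by
  have hex : (∃ l : ℕ, l.Prime ∧ l ∣ m ∧ ¬ l ∣ m') ∨ (∃ l : ℕ, l.Prime ∧ l ∣ m' ∧ ¬ l ∣ m) := by
    by_contra hcon
    push Not at hcon
    apply hne
    rw [← Nat.prod_primeFactors_of_squarefree hm, ← Nat.prod_primeFactors_of_squarefree hm']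
    have : m.primeFactors = m'.primeFactors := by
      ext p
      rw [Nat.mem_primeFactors, Nat.mem_primeFactors]
      constructor
      · rintro ⟨h1, h2, -⟩
        exact ⟨h1, hcon.1 p h1 h2, hm'.ne_zero⟩
      · rintro ⟨h1, h2, -⟩
        exact ⟨h1, hcon.2 p h1 h2, hm.ne_zero⟩
    rw [this]
  rcases hex with ⟨l, hl, h1, h2⟩ | ⟨l, hl, h1, h2⟩
  · exact ort_core e K F hF hm hm' hme hme' l hl h1 h2 Y
  · have h3 := ort_core e K F hF hm' hm hme' hme l hl h1 h2 Y
    have h4 : ∑ x ∈ Box e Y, fm K F m (ofc e K x) * (starRingEnd ℂ) (fm K F m' (ofc e K x)) =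
        (starRingEnd ℂ) (∑ x ∈ Box e Y,
          fm K F m' (ofc e K x) * (starRingEnd ℂ) (fm K F m (ofc e K x))) := by
      rw [map_sum]
      refine Finset.sum_congr rfl fun x _ => ?_
      rw [map_mul, Complex.conj_conj]
      ring
    rw [h4, RCLike.norm_conj]
    calc _ ≤ _ := h3
      _ = _ := by ring

end Pool.Agent.ARX
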