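import Pool.Agent.ARX.Fin
import Pool.Agent.ARX.Mlt

set_option autoImplicit false

/-!
# ARX: the main terms in the uniform form
-/

namespace Pool.Agent.ARX

open Filter Classical Topology Pool.Agent.Helper6 Pool.Agent.Helper8.ArtinLS
  Pool.Agent.Helper8.ArtinC

/-- the lower end of the range tends to infinity faster than any power of `log N` -/
lemma exp_large (τ : ℝ) (hτ1 : τ < 1) (B : ℝ) :
    ∀ᶠ N : ℕ in atTop, B ≤ Real.exp ((Real.log N) ^ (1 - τ)) := by
  have h1 : Tendsto (fun N : ℕ => Real.exp ((Real.log N) ^ (1 - τ))) atTop atTop := by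
    apply Real.tendsto_exp_atTop.comp
    apply (tendsto_rpow_atTop (by linarith)).comp
    exact Real.tendsto_log_atTop.comp tendsto_natCast_atTop_atTop
  exact h1.eventually_ge_atTop B

lemma log_small (τ : ℝ) (hτ1 : τ < 1) (ε' : ℝ) (hε : 0 < ε') :
    ∀ᶠ N : ℕ in atTop, Real.log N ≤ ε' * Real.exp ((Real.log N) ^ (1 - τ) / 2) := by
  have hlog : Tendsto (fun N : ℕ => Real.log N) atTop atTop :=
    Real.tendsto_log_atTop.comp tendsto_natCast_atTop_atTop
  -- with `y = (log N)^(1-τ)`: `y^(1/(1-τ)) = o(exp (y/2))`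
  have h1 : Tendsto (fun y : ℝ => y ^ (1 / (1 - τ)) * Real.exp (-(1/2) * y)) atTop (𝓝 0) :=
    tendsto_rpow_mul_exp_neg_mul_atTop_nhds_zero _ _ (by norm_num)
  have h2 : Tendsto (fun N : ℕ => (Real.log N) ^ (1 - τ)) atTop atTop :=
    (tendsto_rpow_atTop (by linarith)).comp hlog
  have h3 := (h1.comp h2).eventually (gt_mem_nhds hε)
  filter_upwards [h3, hlog.eventually_ge_atTop 0] with N h4 h5
  simp only [Function.comp_apply] at h4
  rw [← Real.rpow_mul h5, mul_one_div_cancel (by linarith), Real.rpow_one] at h4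
  have h6 : Real.exp (-(1/2) * (Real.log N) ^ (1 - τ)) * Real.exp ((Real.log N) ^ (1 - τ) / 2) = 1 := by
    rw [← Real.exp_add]; simp; ring
  have h7 : 0 < Real.exp ((Real.log N) ^ (1 - τ) / 2) := Real.exp_pos _
  calc Real.log N = Real.log N * (Real.exp (-(1/2) * (Real.log N) ^ (1 - τ)) *
        Real.exp ((Real.log N) ^ (1 - τ) / 2)) := by rw [h6, mul_one]
    _ = (Real.log N * Real.exp (-(1/2) * (Real.log N) ^ (1 - τ))) *
        Real.exp ((Real.log N) ^ (1 - τ) / 2) := by ring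
    _ ≤ ε' * Real.exp ((Real.log N) ^ (1 - τ) / 2) := by
        apply mul_le_mul_of_nonneg_right h4.le h7.le

lemma primeFactors_card_le {b N : ℕ} (hb : b ≠ 0) (h : b ≤ N) :
    (b.primeFactors.card : ℝ) ≤ 2 * Real.log N := by
  have h1 : 2 ^ b.primeFactors.card ≤ b := by
    calc 2 ^ b.primeFactors.card = ∏ _p ∈ b.primeFactors, 2 := by rw [Finset.prod_const]
      _ ≤ ∏ p ∈ b.primeFactors, p := by
          apply Finset.prod_le_prod' 
          intro p hp
          exact (Nat.prime_of_mem_primeFactors hp).two_le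
      _ ≤ b := Nat.le_of_dvd (Nat.pos_of_ne_zero hb) (Nat.prod_primeFactors_dvd b)
  have h2 : ((2:ℝ)) ^ b.primeFactors.card ≤ N := by exact_mod_cast h1.trans h
  have h3 := Real.log_le_log (by positivity) h2
  rw [Real.log_pow] at h3
  have h4 := Real.log_two_gt_d9
  have h5 : (0:ℝ) ≤ b.primeFactors.card := Nat.cast_nonneg _
  nlinarith

lemma main_one (ε' τ' : ℝ) (hε : 0 < ε') (hτ : 0 < τ') (hτ1 : τ' < 1) :
    ∃ N₁ : ℕ, ∀ N : ℕ, N₁ ≤ N → ∀ b : ℤ, True → b ≠ 0 → b.natAbs ≤ N → ∀ x : ℕ,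
      Real.exp ((Real.log N) ^ (1 - τ')) ≤ x → |mnf b 1 x / Nat.primeCounting x - CA| ≤ ε' := by
  have h1 : ∀ᶠ x : ℕ in atTop, |artinEC x / Nat.primeCounting x - CA| < ε' := by
    have := (main_CA.sub_const CA).abs
    simp only [sub_self, abs_zero] at this
    exact this.eventually (gt_mem_nhds hε)
  obtain ⟨X, hX⟩ := eventually_atTop.mp h1
  obtain ⟨N₁, hN₁⟩ := eventually_atTop.mp (exp_large τ' hτ1 X)
  refine ⟨N₁, fun N hN b _ _ _ x hx => ?_⟩
  rw [mnf_one]
  apply (hX x _).le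
  exact_mod_cast (hN₁ N hN).trans hx

lemma mnf_two_compare (b : ℤ) (hb : b ≠ 0) (k : ℤ) (hk : k ≠ 0) (x : ℕ) :
    |mnf (b * k ^ 2) 2 x - mnf b 2 x| ≤ ((b * k ^ 2).natAbs.primeFactors.card : ℝ) := by
  unfold mnf
  rw [← Finset.sum_sub_distrib]
  refine (Finset.abs_sum_le_sum_abs _ _).trans ?_
  have huu : ∀ (b : ℤ) (p q : ℕ), q.Prime → 0 ≤ uu b 2 p q ∧ uu b 2 p q ≤ 1 := by
    intro b p q hq
    have hq1 : (1:ℝ) ≤ q := by exact_mod_cast hq.one_le
    unfold uu
    split_ifs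
    · exact ⟨le_rfl, zero_le_one⟩
    · exact ⟨zero_le_one, le_rfl⟩
    · constructor
      · rw [sub_nonneg, div_le_one (by linarith)]; exact hq1
      · have : 0 ≤ 1 / (q:ℝ) := by positivity
        linarith
  have hprod : ∀ (b : ℤ) (p : ℕ), 0 ≤ ∏ q ∈ (p - 1).primeFactors, uu b 2 p q ∧
      ∏ q ∈ (p - 1).primeFactors, uu b 2 p q ≤ 1 := by
    intro b p
    constructor
    · exact Finset.prod_nonneg fun q hq => (huu b p q (Nat.prime_of_mem_primeFactors hq)).1
    · exact Finset.prod_le_one (fun q hq => (huu b p q (Nat.prime_of_mem_primeFactors hq)).1)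
        fun q hq => (huu b p q (Nat.prime_of_mem_primeFactors hq)).2
  have hterm : ∀ p ∈ (Finset.range (x + 1)).filter (fun p : ℕ => p.Prime ∧ p ≠ 2),
      |∏ q ∈ (p - 1).primeFactors, uu (b * k ^ 2) 2 p q - ∏ q ∈ (p - 1).primeFactors, uu b 2 p q| ≤
        if p ∈ (b * k ^ 2).natAbs.primeFactors then 1 else 0 := by
    intro p hp
    rw [Finset.mem_filter] at hp
    obtain ⟨_, hpp, _⟩ := hp
    split_ifs with h
    · rw [abs_le]
      constructor <;> linarith [(hprod (b * k ^ 2) p).1, (hprod (b * k ^ 2) p).2, (hprod b p).1, (hprod b p).2]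
    · have hk' : ((k : ℤ) : ZMod p) ≠ 0 := by
        intro h0
        apply h
        rw [Nat.mem_primeFactors]
        refine ⟨hpp, ?_, ?_⟩
        · rw [ZMod.intCast_zmod_eq_zero_iff_dvd] at h0
          apply Int.natCast_dvd.mp
          exact Dvd.dvd.mul_left (Dvd.dvd.pow h0 two_ne_zero) _
        · simp [hb, hk]
      haveI : Fact p.Prime := ⟨hpp⟩
      rw [Finset.prod_congr rfl (g := fun q => uu b 2 p q), sub_self, abs_zero]
      intro q hq
      unfold uu
      by_cases hq2 : q ∣ 2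
      · rw [if_pos hq2, if_pos hq2]
        have hqp := Nat.prime_of_mem_primeFactors hq
        have : q = 2 := (Nat.prime_dvd_prime_iff_eq hqp Nat.prime_two).1 hq2
        subst this
        congr 1
        rw [eq_iff_iff]
        constructor
        · rintro ⟨y, hy⟩
          refine ⟨y / (k : ZMod p), ?_⟩
          rw [div_pow, hy]
          push_cast
          field_simp
        · rintro ⟨y, hy⟩
          refine ⟨y * (k : ZMod p), ?_⟩
          rw [mul_pow, hy]
          push_cast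
          rfl
      · rw [if_neg hq2, if_neg hq2]
  refine (Finset.sum_le_sum hterm).trans ?_
  rw [← Finset.sum_filter, Finset.sum_const, nsmul_eq_mul, mul_one]
  have : ((Finset.range (x + 1)).filter (fun p : ℕ => p.Prime ∧ p ≠ 2)).filter
      (fun p => p ∈ (b * k ^ 2).natAbs.primeFactors) ⊆ (b * k ^ 2).natAbs.primeFactors := by
    intro p hp
    exact (Finset.mem_filter.1 hp).2
  exact_mod_cast Finset.card_le_card this

lemma sqrt_le_pi {x : ℕ} (hx : 65536 ≤ x) : Real.sqrt x ≤ Nat.primeCounting x := by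
  have hx' : (65536:ℝ) ≤ x := by exact_mod_cast hx
  have h1 := div_log_le_pi (show 4 ≤ x by omega)
  have hx0 : (0:ℝ) < x := by linarith
  have hlogx : 0 < Real.log x := Real.log_pos (by linarith)
  set s : ℝ := Real.sqrt x with hs
  have hs0 : 0 < s := Real.sqrt_pos.2 hx0
  have hss : s * s = x := Real.mul_self_sqrt hx0.le
  have hs64 : 256 ≤ s := by
    rw [hs]; apply Real.le_sqrt_of_sq_le; norm_num; linarith
  set u : ℝ := Real.sqrt s with hu
  have hu0 : 0 < u := Real.sqrt_pos.2 hs0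
  have huu : u * u = s := Real.mul_self_sqrt hs0.le
  have hu16 : 16 ≤ u := by
    rw [hu]; apply Real.le_sqrt_of_sq_le; norm_num; linarith
  have hlog : Real.log x = 4 * Real.log u := by
    rw [← hss, ← huu, Real.log_mul (by positivity) (by positivity),
      Real.log_mul (by positivity) (by positivity)]; ring
  have h2 : Real.log u ≤ 3 + u / 16 - 1 := by
    have h3 := Real.log_le_sub_one_of_pos (show 0 < u / 16 by positivity)
    rw [Real.log_div hu0.ne' (by norm_num)] at h3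
    have h4 : Real.log 16 = 4 * Real.log 2 := by
      rw [show (16:ℝ) = 2 ^ 4 by norm_num, Real.log_pow]; norm_num
    have h5 := Real.log_two_lt_d9
    linarith
  have h3 : 10 * Real.log x ≤ s := by
    rw [hlog, ← huu]; nlinarith
  have h4 : s ≤ x / Real.log x / 10 := by
    rw [div_div, le_div_iff₀ (by positivity)]
    calc s * (Real.log x * 10) ≤ s * s := by
          apply mul_le_mul_of_nonneg_left _ hs0.le; linarith
      _ = x := hss
  linarith

lemma main_two {b₀ : ℤ} (hb : Squarefree b₀) (hb4 : b₀ % 4 = 1) (ε' τ' : ℝ) (hε : 0 < ε')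
    (hτ1 : τ' < 1) :
    ∃ N₁ : ℕ, ∀ N : ℕ, N₁ ≤ N → ∀ b : ℤ, (∃ k : ℤ, b = b₀ * k ^ 2) → b ≠ 0 → b.natAbs ≤ N →
      ∀ x : ℕ, Real.exp ((Real.log N) ^ (1 - τ')) ≤ x →
      |mnf b 2 x / Nat.primeCounting x - dlt b₀| ≤ ε' := by
  have h1 : ∀ᶠ x : ℕ in atTop, |mnf b₀ 2 x / Nat.primeCounting x - dlt b₀| < ε' / 2 := by
    have h0 : Tendsto (fun x : ℕ => mnf b₀ 2 x / Nat.primeCounting x) atTop (𝓝 (dlt b₀)) :=
      mnf_two hb hb4
    have := (h0.sub_const (dlt b₀)).abs
    simp only [sub_self, abs_zero] at this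
    exact this.eventually (gt_mem_nhds (by positivity))
  obtain ⟨X, hX⟩ := eventually_atTop.mp h1
  obtain ⟨N₁, hN₁⟩ := eventually_atTop.mp ((exp_large τ' hτ1 (max X 65536)).and
    (log_small τ' hτ1 (ε' / 4) (by positivity)))
  refine ⟨N₁, fun N hN b hbk hb0 hbN x hx => ?_⟩
  obtain ⟨k, rfl⟩ := hbk
  obtain ⟨h2, h3⟩ := hN₁ N hN
  have hk : k ≠ 0 := by rintro rfl; simp at hb0
  have hxX : max X 65536 ≤ x := by exact_mod_cast h2.trans hx
  have h4 := hX x ((le_max_left _ _).trans hxX)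
  have hx6 : 65536 ≤ x := (le_max_right _ _).trans hxX
  have h5 := mnf_two_compare b₀ hb.ne_zero k hk x
  have h6 := primeFactors_card_le (Int.natAbs_ne_zero.2 hb0) hbN
  have h7 := sqrt_le_pi hx6
  have hpi : (0:ℝ) < Nat.primeCounting x := by
    have : 0 < Real.sqrt x := Real.sqrt_pos.2 (by exact_mod_cast (by omega : 0 < x))
    linarith
  have h8 : Real.exp ((Real.log N) ^ (1 - τ') / 2) ≤ Real.sqrt x := by
    apply Real.le_sqrt_of_sq_le
    rw [← Real.exp_nat_mul]
    calc Real.exp (((2 : ℕ) : ℝ) * ((Real.log N) ^ (1 - τ') / 2)) = Real.exp ((Real.log N) ^ (1 - τ')) := by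
          congr 1; push_cast; ring
      _ ≤ x := hx
  have h9 : |mnf (b₀ * k ^ 2) 2 x - mnf b₀ 2 x| ≤ ε' / 2 * Nat.primeCounting x := by
    calc _ ≤ ((b₀ * k ^ 2).natAbs.primeFactors.card : ℝ) := h5
      _ ≤ 2 * Real.log N := h6
      _ ≤ 2 * (ε' / 4 * Real.exp ((Real.log N) ^ (1 - τ') / 2)) := by linarith
      _ ≤ 2 * (ε' / 4 * Nat.primeCounting x) := by gcongr; linarith
      _ = _ := by ring
  have h10 : mnf (b₀ * k ^ 2) 2 x / Nat.primeCounting x - dlt b₀ =
      (mnf (b₀ * k ^ 2) 2 x - mnf b₀ 2 x) / Nat.primeCounting x +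
        (mnf b₀ 2 x / Nat.primeCounting x - dlt b₀) := by ring
  rw [h10]
  calc _ ≤ |(mnf (b₀ * k ^ 2) 2 x - mnf b₀ 2 x) / Nat.primeCounting x| +
        |mnf b₀ 2 x / Nat.primeCounting x - dlt b₀| := abs_add_le _ _
    _ ≤ ε' / 2 + ε' / 2 := by
        apply add_le_add _ h4.le
        rw [abs_div, abs_of_pos hpi, div_le_iff₀ hpi]
        exact h9
    _ = ε' := by ring

end Pool.Agent.ARX
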