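import Pool.Agent.ARX.Jsp

set_option autoImplicit false

/-!
# ARX module STK: Stickelberger for primes of degree one

`(Phi) = (chi(-1)) (p) ∏_i (J_i)`, `chi(-1)` is a unit (`chiO_neg_one`), `(p) = ∏_b P_b`
(`PI_prod`), `(J_i) = ∏_{b ∈ B_i} P_b` (`jac_span`).  Exchange the products: the exponent of `P_b`
is `1 + #{i ∈ [1, q-2] : <b> + <b i> < q} = q - <b>` (`card_exponent` with `c = b.val`; `b.val % q`
is at least one because `b` is a unit modulo `e` and `q ∣ e`).
-/

namespace Pool.Agent.ARX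

open NumberField

variable (e : ℕ) [NeZero e] (K : Type) [Field K] [NumberField K] [IsCyclotomicExtension {e} ℚ K]

theorem stickelberger {q p : ℕ} (hq : q.Prime) (hqe : q ∣ e) (hp : Good e p) :
    Ideal.span {Phi e K q p} = ThetaI e K q (PI e K p) := by
  classical
  have hpf : Fact p.Prime := ⟨hp.1⟩
  have hP : Phi e K q p = chiO e K q p (-1) * (p : 𝓞 K) *
    ∏ i ∈ Finset.Ico 1 (q - 1), Jac e K q p i := rfl
  have hunit : IsUnit (chiO e K q p (-1)) := by
    have h1 : (-1 : ZMod p) ≠ 0 := neg_ne_zero.2 one_ne_zero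
    unfold chiO
    rw [if_neg h1]
    apply IsUnit.pow
    have h2 : zt e K ^ e = 1 :=
      ((IsCyclotomicExtension.zeta_spec e ℚ K).toInteger_isPrimitiveRoot).pow_eq_one
    exact IsUnit.of_pow_eq_one h2 (NeZero.ne e)
  rw [hP, ← Ideal.span_singleton_mul_span_singleton, ← Ideal.span_singleton_mul_span_singleton,
    ← Ideal.prod_span_singleton, Ideal.span_singleton_eq_top.2 hunit, Ideal.top_mul,
    PI_prod e K hp, Finset.prod_congr rfl (fun i hi => jac_span e K hq hqe hp hi)]
  simp_rw [Finset.prod_filter]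
  rw [Finset.prod_comm, ← Finset.prod_mul_distrib]
  unfold ThetaI
  apply Finset.prod_congr rfl
  intro b _
  rw [← Finset.prod_filter, Finset.prod_const, ← pow_succ', add_comm]
  congr 1
  unfold ex
  apply card_exponent hq
  rw [Nat.one_le_iff_ne_zero]
  intro h0
  have h1 : q ∣ (b : ZMod e).val := Nat.dvd_of_mod_eq_zero h0
  have h2 := ZMod.val_coe_unit_coprime b
  have h3 : q ∣ 1 := by
    rw [← h2.gcd_eq_one]
    exact Nat.dvd_gcd h1 hqe
  exact hq.one_lt.ne' (Nat.dvd_one.1 h3)

end Pool.Agent.ARX
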