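import Pool.Agent.ARX.Gau
import Pool.Agent.ARX.Ntr

set_option autoImplicit false

/-!
# ARX module SYM: the symbol at a prime `l`

`e` squarefree, `1 < e`, `q ∤ j q` for the primes `q ∣ e`; `l` a prime not dividing `e`.

Let `k = AlgebraicClosure (ZMod l)` and `κ : 𝓞 K → k` with `κ zt` a primitive root of unity of
order `e` (`exists_hom`).  For `q ∣ e` prime let `f = orderOf (l : ZMod q)` (it divides `q - 1`,
so it is prime to `q`), `s_q(x) = x ^ ((l^f-1)/q)`, `w_q = κ(zt)^(e/q)` (order `q`).  For `x` with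
`s_q(x) ∈ ⟨w_q⟩` let `L_q(x) ∈ ZMod q` be the unique `v` with `s_q(x) * w_q^(f v) = 1`;
`L_q(x y) = L_q(x) + L_q(y)`.  By `theta_frob`, `x = κ(Theta q α)` satisfies `x^(l^f) = x`, so if
`x ≠ 0` then `s_q(x)^q = 1` and `L_q(x)` is defined.

`F(α) = 0` if `κ(Theta q α) = 0` for some (equivalently all) `q` (i.e. `l ∣ norm α`), otherwise
`F(α) = ∏_q ee q (j q * L_q(κ(Theta q α)))`.  `F` is multiplicative, periodic modulo `l`
(`theta_period`), of absolute value at most one, and non trivial: take a prime `q ∣ e` and `β` from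
`nontrivial_symbol`: `L_q ≠ 0`, and `F(β)^(e/q) = ee q (j q * L_q * (e/q)) ≠ 1` because
`q ∤ j q * L_q * (e/q)` (the other factors are killed by the exponent `e/q`).

`H(γ) = ∏_q ee q (j q * (q - L_q(κ(γ q))))` (any value if undefined; absolute value one).

Identity.  If `l ∈ S` both sides vanish: `(l : ZMod l) = 0` so `om = 0`, and `κ(Phi q l) = 0`.
If `l ∉ S`: `gauss_symbol` says `L_q(κ(Phi q p)) = ind p l` modulo `q` for `p ∈ S`, so
`L_q(κ(Theta q α)) = ∑_{p∈S} ind p l + L_q(κ(γ q))`, where `κ(γ q) ≠ 0` because `l ∤ norm (γ q)`.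
-/

namespace Pool.Agent.ARX

open NumberField

/-- The properties of the symbol at `l`. -/
def SymProps (K : Type) [Field K] [NumberField K] (l : ℕ) (F : 𝓞 K → ℂ) : Prop :=
  (∀ α β, F (α * β) = F α * F β) ∧ (∀ α β, F (α + (l : 𝓞 K) * β) = F α) ∧ (∀ α, ‖F α‖ ≤ 1) ∧
    (∀ α, F α = 0 ↔ (l : ℤ) ∣ Algebra.norm ℤ α) ∧ (∃ β, F β ≠ 0 ∧ F β ≠ 1)

theorem Sym_ee_norm (q a : ℕ) : ‖ee q a‖ = 1 := by
  unfold ee
  have : (2 * Real.pi * Complex.I * (a : ℂ) / (q : ℂ)) = ((2 * Real.pi * a / q : ℝ) : ℂ) * Complex.I := by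
    push_cast; ring
  rw [this, Complex.norm_exp_ofReal_mul_I]

theorem Sym_ee_ne_zero (q a : ℕ) : ee q a ≠ 0 := Complex.exp_ne_zero _

theorem Sym_ee_add (q a b : ℕ) : ee q (a + b) = ee q a * ee q b := by
  unfold ee
  rw [← Complex.exp_add]
  congr 1
  push_cast
  ring

theorem Sym_ee_pow (q a n : ℕ) : ee q a ^ n = ee q (n * a) := by
  unfold ee
  rw [← Complex.exp_nat_mul]
  congr 1
  push_cast
  ring

theorem Sym_ee_eq_one {q : ℕ} (hq : 0 < q) (a : ℕ) : ee q a = 1 ↔ q ∣ a := by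
  have hq' : (q : ℂ) ≠ 0 := Nat.cast_ne_zero.2 hq.ne'
  unfold ee
  rw [Complex.exp_eq_one_iff]
  constructor
  · rintro ⟨n, hn⟩
    have hpi : (2 * Real.pi * Complex.I : ℂ) ≠ 0 := by
      simp [Real.pi_ne_zero]
    have h1 : (2 * Real.pi * Complex.I : ℂ) * (a / q) = (2 * Real.pi * Complex.I) * n := by
      rw [← mul_div_assoc, hn]; ring
    have h2 := mul_left_cancel₀ hpi h1
    rw [div_eq_iff hq'] at h2
    have h3 : ((a : ℤ) : ℂ) = ((n * q : ℤ) : ℂ) := by
      push_cast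
      exact h2
    have h4 : (a : ℤ) = n * q := by exact_mod_cast h3
    have h5 : (q : ℤ) ∣ (a : ℤ) := ⟨n, by rw [h4]; ring⟩
    exact_mod_cast h5
  · rintro ⟨m, hm⟩
    refine ⟨m, ?_⟩
    rw [hm]
    push_cast
    field_simp

theorem Sym_ee_mod {q : ℕ} (hq : 0 < q) {a b : ℕ} (h : a ≡ b [MOD q]) : ee q a = ee q b := by
  wlog hab : a ≤ b with H
  · exact (H hq h.symm (le_of_not_ge hab)).symm
  have h1 : q ∣ b - a := (Nat.modEq_iff_dvd' hab).1 h
  have h2 : b = a + (b - a) := by omega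
  rw [h2, Sym_ee_add, (Sym_ee_eq_one hq _).2 h1, mul_one]

theorem Sym_ee_sum {ι : Type*} (q : ℕ) (s : Finset ι) (f : ι → ℕ) :
    ee q (∑ i ∈ s, f i) = ∏ i ∈ s, ee q (f i) := by
  classical
  induction s using Finset.induction_on with
  | empty => simp [ee]
  | insert a s ha ih => rw [Finset.sum_insert ha, Finset.prod_insert ha, Sym_ee_add, ih]

section log

variable {k : Type} [Field k]

/-- `v` is the logarithm of `x ^ n` with respect to `w ^ f`, up to sign. -/
def Sym_R (w : k) (n f : ℕ) (x : k) (v : ℕ) : Prop := x ^ n * w ^ (f * v) = 1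

theorem Sym_R_mul {w : k} {n f : ℕ} {x y : k} {a b : ℕ} (hx : Sym_R w n f x a)
    (hy : Sym_R w n f y b) : Sym_R w n f (x * y) (a + b) := by
  unfold Sym_R at *
  rw [mul_pow, mul_add, pow_add]
  calc x ^ n * y ^ n * (w ^ (f * a) * w ^ (f * b)) =
        (x ^ n * w ^ (f * a)) * (y ^ n * w ^ (f * b)) := by ring
    _ = 1 := by rw [hx, hy, one_mul]

theorem Sym_R_prod {ι : Type*} {w : k} {n f : ℕ} (s : Finset ι) (x : ι → k) (v : ι → ℕ)
    (h : ∀ i ∈ s, Sym_R w n f (x i) (v i)) : Sym_R w n f (∏ i ∈ s, x i) (∑ i ∈ s, v i) := by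
  classical
  induction s using Finset.induction_on with
  | empty => simp [Sym_R]
  | insert a s ha ih =>
    rw [Finset.prod_insert ha, Finset.sum_insert ha]
    exact Sym_R_mul (h a (Finset.mem_insert_self _ _))
      (ih fun i hi => h i (Finset.mem_insert_of_mem hi))

theorem Sym_R_unique {w : k} {q n f : ℕ} (hw : IsPrimitiveRoot w q) (hq : 0 < q)
    (hqf : Nat.Coprime q f) {x : k} {a b : ℕ} (ha : Sym_R w n f x a) (hb : Sym_R w n f x b) :
    a ≡ b [MOD q] := by
  wlog hab : a ≤ b with H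
  · exact (H hw hq hqf hb ha (le_of_not_ge hab)).symm
  unfold Sym_R at *
  have hx : x ^ n ≠ 0 := by
    intro h
    rw [h, zero_mul] at ha
    exact zero_ne_one ha
  have h1 : w ^ (f * a) = w ^ (f * b) := mul_left_cancel₀ hx (ha.trans hb.symm)
  have hw0 : w ^ (f * a) ≠ 0 := pow_ne_zero _ (hw.ne_zero hq.ne')
  have h2 : w ^ (f * (b - a)) = 1 := by
    have h3 : f * b = f * a + f * (b - a) := by rw [← mul_add, Nat.add_sub_cancel' hab]
    rw [h3, pow_add] at h1
    have h4 : w ^ (f * a) * w ^ (f * (b - a)) = w ^ (f * a) * 1 := by rw [mul_one]; exact h1.symm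
    exact mul_left_cancel₀ hw0 h4
  have h5 : q ∣ f * (b - a) := hw.dvd_of_pow_eq_one _ h2
  exact (Nat.modEq_iff_dvd' hab).2 (hqf.dvd_of_dvd_mul_left h5)

theorem Sym_R_exists {w : k} {q n f : ℕ} (hw : IsPrimitiveRoot w q) (hq : 0 < q)
    (hqf : Nat.Coprime q f) {x : k} (hx : (x ^ n) ^ q = 1) : ∃ a, Sym_R w n f x a := by
  have : NeZero q := ⟨hq.ne'⟩
  obtain ⟨i, hi, hi2⟩ := hw.eq_pow_of_pow_eq_one hx
  -- choose `a` with `i + f a = 0` modulo `q`
  obtain ⟨a, ha⟩ : ∃ a : ℕ, q ∣ i + f * a := by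
    obtain ⟨g, hg⟩ : ∃ g : ℕ, f * g ≡ 1 [MOD q] := by
      rcases Nat.lt_or_ge 1 q with h | h
      · obtain ⟨g, -, hg⟩ := Nat.exists_mul_mod_eq_one_of_coprime hqf.symm h
        exact ⟨g, by rw [Nat.ModEq, hg, Nat.mod_eq_of_lt h]⟩
      · have : q = 1 := by omega
        exact ⟨0, by rw [this]; exact Nat.modEq_one⟩
    refine ⟨g * ((q - i % q) % q) , ?_⟩
    have h1 : i + f * (g * ((q - i % q) % q)) ≡ i % q + 1 * (q - i % q) [MOD q] := by
      rw [← mul_assoc]
      exact (Nat.mod_modEq i q).symm.add (hg.mul (Nat.mod_modEq _ _))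
    have h2 : i % q + 1 * (q - i % q) = q := by
      have := Nat.mod_lt i hq
      omega
    rw [h2] at h1
    exact (Nat.modEq_zero_iff_dvd.1 (h1.trans (by simp [Nat.ModEq])))
  refine ⟨a, ?_⟩
  unfold Sym_R
  rw [← hi2, ← pow_add]
  obtain ⟨m, hm⟩ := ha
  rw [hm, pow_mul, hw.pow_eq_one, one_pow]

/-- The character value. -/
noncomputable def Sym_chi (w : k) (n f q c : ℕ) (x : k) : ℂ := by
  classical
  exact if h : ∃ a, Sym_R w n f x a then ee q (c * h.choose) else 1

theorem Sym_chi_norm (w : k) (n f q c : ℕ) (x : k) : ‖Sym_chi w n f q c x‖ = 1 := by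
  unfold Sym_chi
  split_ifs with h
  · exact Sym_ee_norm _ _
  · exact norm_one

theorem Sym_chi_eq {w : k} {q n f c : ℕ} (hw : IsPrimitiveRoot w q) (hq : 0 < q)
    (hqf : Nat.Coprime q f) {x : k} {a : ℕ} (ha : Sym_R w n f x a) :
    Sym_chi w n f q c x = ee q (c * a) := by
  have h : ∃ a, Sym_R w n f x a := ⟨a, ha⟩
  unfold Sym_chi
  rw [dif_pos h]
  exact Sym_ee_mod hq ((Sym_R_unique hw hq hqf h.choose_spec ha).mul_left c)

end log

variable (e : ℕ) [NeZero e] (K : Type) [Field K] [NumberField K] [IsCyclotomicExtension {e} ℚ K]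

theorem sym_exists (he : Squarefree e) (he1 : 1 < e) (j : ℕ → ℕ)
    (hj : ∀ q ∈ e.primeFactors, ¬ q ∣ j q) {l : ℕ} (hl : l.Prime) (hle : ¬ l ∣ e) :
    ∃ (F : 𝓞 K → ℂ) (H : (ℕ → 𝓞 K) → ℂ), SymProps K l F ∧ (∀ γ, ‖H γ‖ ≤ 1) ∧
      ∀ S : Finset ℕ, (∀ p ∈ S, Good e p) → ∀ (α : 𝓞 K) (γ : ℕ → 𝓞 K),
        (∀ q ∈ e.primeFactors, Theta e K q α = (∏ p ∈ S, Phi e K q p) * γ q) →
        (∀ q ∈ e.primeFactors, ¬ (l : ℤ) ∣ Algebra.norm ℤ (γ q)) →
        ∏ p ∈ S, om e j p (l : ℤ) = F α * H γ := by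
  classical
  have hlf : Fact l.Prime := ⟨hl⟩
  -- the homomorphism to the algebraic closure
  have hek : ((e : ℕ) : AlgebraicClosure (ZMod l)) ≠ 0 := by
    rw [Ne, CharP.cast_eq_zero_iff (AlgebraicClosure (ZMod l)) l]
    exact hle
  have : NeZero ((e : ℕ) : AlgebraicClosure (ZMod l)) := ⟨hek⟩
  obtain ⟨ζ, hζ⟩ := HasEnoughRootsOfUnity.exists_primitiveRoot (AlgebraicClosure (ZMod l)) e
  obtain ⟨κ, hκ⟩ := exists_hom e K ζ hζ
  have hkz : IsPrimitiveRoot (κ (zt e K)) e := by rw [hκ]; exact hζ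
  -- abbreviations
  set w : ℕ → AlgebraicClosure (ZMod l) := fun q => κ (zt e K) ^ (e / q) with hw
  set f : ℕ → ℕ := fun q => orderOf (l : ZMod q) with hf
  set n : ℕ → ℕ := fun q => (l ^ f q - 1) / q with hn
  have hqp : ∀ q ∈ e.primeFactors, q.Prime := fun q hq => Nat.prime_of_mem_primeFactors hq
  have hqe : ∀ q ∈ e.primeFactors, q ∣ e := fun q hq => Nat.dvd_of_mem_primeFactors hq
  have hwp : ∀ q ∈ e.primeFactors, IsPrimitiveRoot (w q) q := fun q hq =>
    hkz.pow (NeZero.pos e) (Nat.div_mul_cancel (hqe q hq)).symm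
  have hlq : ∀ q ∈ e.primeFactors, (l : ZMod q) ≠ 0 := by
    intro q hq h
    rw [ZMod.natCast_eq_zero_iff, Nat.prime_dvd_prime_iff_eq (hqp q hq) hl] at h
    exact hle (h ▸ hqe q hq)
  have hqf : ∀ q ∈ e.primeFactors, Nat.Coprime q (f q) := by
    intro q hq
    have hqF : Fact q.Prime := ⟨hqp q hq⟩
    have h1 : f q ∣ q - 1 := orderOf_dvd_of_pow_eq_one (ZMod.pow_card_sub_one_eq_one (hlq q hq))
    have h2 : 0 < q - 1 := Nat.sub_pos_of_lt (hqp q hq).one_lt
    have h3 : 0 < f q := Nat.pos_of_dvd_of_pos h1 h2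
    rw [Nat.Prime.coprime_iff_not_dvd (hqp q hq)]
    intro h4
    have h5 := Nat.le_of_dvd h3 h4
    have h6 := Nat.le_of_dvd h2 h1
    omega
  have hone : ∀ q, 1 ≤ l ^ f q := fun q => Nat.one_le_pow _ _ hl.pos
  have hqd : ∀ q ∈ e.primeFactors, q ∣ l ^ f q - 1 := by
    intro q hq
    have h1 : ((l ^ f q : ℕ) : ZMod q) = ((1 : ℕ) : ZMod q) := by
      push_cast
      exact pow_orderOf_eq_one _
    exact (Nat.modEq_iff_dvd' (hone q)).1 ((ZMod.natCast_eq_natCast_iff _ _ _).1 h1).symm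
  -- logarithms exist for nonzero values of Theta
  have hex : ∀ q ∈ e.primeFactors, ∀ α : 𝓞 K, ¬ (l : ℤ) ∣ Algebra.norm ℤ α →
      ∃ a, Sym_R (w q) (n q) (f q) (κ (Theta e K q α)) a := by
    intro q hq α hα
    have h0 : κ (Theta e K q α) ≠ 0 := by
      rw [Ne, theta_eq_zero_iff e K (hqp q hq) (hqe q hq) hl κ α]
      exact hα
    refine Sym_R_exists (hwp q hq) (hqp q hq).pos (hqf q hq) ?_
    rw [← pow_mul]
    have h1 : n q * q = l ^ f q - 1 := Nat.div_mul_cancel (hqd q hq)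
    rw [h1]
    have h2 := theta_frob e K (hqp q hq) (hqe q hq) hl hle κ α
    have h3 : κ (Theta e K q α) ^ (l ^ f q - 1) * κ (Theta e K q α) = 1 * κ (Theta e K q α) := by
      rw [← pow_succ, Nat.sub_add_cancel (hone q), one_mul]
      exact h2
    exact mul_right_cancel₀ h0 h3
  set F : 𝓞 K → ℂ := fun α => if (l : ℤ) ∣ Algebra.norm ℤ α then 0 else
    ∏ q ∈ e.primeFactors, Sym_chi (w q) (n q) (f q) q (j q) (κ (Theta e K q α)) with hF
  set H : (ℕ → 𝓞 K) → ℂ := fun γ =>
    ∏ q ∈ e.primeFactors, (Sym_chi (w q) (n q) (f q) q (j q) (κ (γ q)))⁻¹ with hH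
  have hlp : Prime (l : ℤ) := Nat.prime_iff_prime_int.1 hl
  obtain ⟨q0, hq0⟩ : ∃ q0, q0 ∈ e.primeFactors :=
    Nat.nonempty_primeFactors.2 he1
  have hFne : ∀ α, ¬ (l : ℤ) ∣ Algebra.norm ℤ α → F α =
      ∏ q ∈ e.primeFactors, Sym_chi (w q) (n q) (f q) q (j q) (κ (Theta e K q α)) :=
    fun α hα => if_neg hα
  have hF0 : ∀ α, (l : ℤ) ∣ Algebra.norm ℤ α → F α = 0 := fun α hα => if_pos hα
  have hFnorm : ∀ α, ¬ (l : ℤ) ∣ Algebra.norm ℤ α → ‖F α‖ = 1 := by
    intro α hα
    rw [hFne α hα, norm_prod]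
    exact Finset.prod_eq_one fun q _ => Sym_chi_norm _ _ _ _ _ _
  have hper : ∀ α β : 𝓞 K, ((l : ℤ) ∣ Algebra.norm ℤ (α + (l : 𝓞 K) * β)) ↔
      (l : ℤ) ∣ Algebra.norm ℤ α := by
    intro α β
    rw [← theta_eq_zero_iff e K (hqp q0 hq0) (hqe q0 hq0) hl κ,
      ← theta_eq_zero_iff e K (hqp q0 hq0) (hqe q0 hq0) hl κ, theta_period]
  refine ⟨F, H, ⟨?_, ?_, ?_, ?_, ?_⟩, ?_, ?_⟩
  · -- multiplicativity
    intro α β
    by_cases hα : (l : ℤ) ∣ Algebra.norm ℤ α
    · rw [hF0 α hα, zero_mul, hF0]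
      rw [map_mul]
      exact hα.mul_right _
    by_cases hβ : (l : ℤ) ∣ Algebra.norm ℤ β
    · rw [hF0 β hβ, mul_zero, hF0]
      rw [map_mul]
      exact hβ.mul_left _
    have hαβ : ¬ (l : ℤ) ∣ Algebra.norm ℤ (α * β) := by
      rw [map_mul]
      intro h
      rcases hlp.dvd_or_dvd h with h | h
      · exact hα h
      · exact hβ h
    rw [hFne _ hα, hFne _ hβ, hFne _ hαβ, ← Finset.prod_mul_distrib]
    refine Finset.prod_congr rfl fun q hq => ?_
    obtain ⟨a, ha⟩ := hex q hq α hα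
    obtain ⟨b, hb⟩ := hex q hq β hβ
    have hab := Sym_R_mul ha hb
    rw [← map_mul, ← theta_mul] at hab
    rw [Sym_chi_eq (hwp q hq) (hqp q hq).pos (hqf q hq) ha,
      Sym_chi_eq (hwp q hq) (hqp q hq).pos (hqf q hq) hb,
      Sym_chi_eq (hwp q hq) (hqp q hq).pos (hqf q hq) hab, ← Sym_ee_add, mul_add]
  · -- periodicity
    intro α β
    by_cases hα : (l : ℤ) ∣ Algebra.norm ℤ α
    · rw [hF0 α hα, hF0 _ ((hper α β).2 hα)]
    · rw [hFne α hα, hFne _ (fun h => hα ((hper α β).1 h))]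
      refine Finset.prod_congr rfl fun q _ => ?_
      rw [theta_period]
  · intro α
    by_cases hα : (l : ℤ) ∣ Algebra.norm ℤ α
    · rw [hF0 α hα, norm_zero]
      exact zero_le_one
    · exact (hFnorm α hα).le
  · intro α
    constructor
    · intro h
      by_contra hα
      have := hFnorm α hα
      rw [h, norm_zero] at this
      exact zero_ne_one this
    · exact hF0 α
  · -- non triviality
    obtain ⟨β, hβ0, hβ1⟩ := nontrivial_symbol e K (hqp q0 hq0) (hqe q0 hq0) hl hle κ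
    have hβn : ¬ (l : ℤ) ∣ Algebra.norm ℤ β := by
      rw [← theta_eq_zero_iff e K (hqp q0 hq0) (hqe q0 hq0) hl κ]
      exact hβ0
    refine ⟨β, ?_, ?_⟩
    · intro h
      have := hFnorm β hβn
      rw [h, norm_zero] at this
      exact zero_ne_one this
    · intro h
      have h1 : F β ^ (e / q0) = 1 := by rw [h, one_pow]
      rw [hFne β hβn, ← Finset.prod_pow] at h1
      have h2 : ∀ q ∈ e.primeFactors, q ≠ q0 →
          Sym_chi (w q) (n q) (f q) q (j q) (κ (Theta e K q β)) ^ (e / q0) = 1 := by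
        intro q hq hne
        obtain ⟨a, ha⟩ := hex q hq β hβn
        rw [Sym_chi_eq (hwp q hq) (hqp q hq).pos (hqf q hq) ha, Sym_ee_pow,
          Sym_ee_eq_one (hqp q hq).pos]
        have h3 : q ∣ e / q0 := by
          have h4 : q ∣ q0 * (e / q0) := by
            rw [Nat.mul_div_cancel' (hqe q0 hq0)]
            exact hqe q hq
          rcases ((hqp q hq).dvd_mul).1 h4 with h5 | h5
          · exact absurd ((Nat.prime_dvd_prime_iff_eq (hqp q hq) (hqp q0 hq0)).1 h5) hne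
          · exact h5
        exact h3.mul_right _
      rw [Finset.prod_eq_single q0 (fun q hq hne => h2 q hq hne) (fun h => absurd hq0 h)] at h1
      obtain ⟨a, ha⟩ := hex q0 hq0 β hβn
      rw [Sym_chi_eq (hwp q0 hq0) (hqp q0 hq0).pos (hqf q0 hq0) ha, Sym_ee_pow,
        Sym_ee_eq_one (hqp q0 hq0).pos] at h1
      rcases ((hqp q0 hq0).dvd_mul).1 h1 with h3 | h3
      · -- q0 does not divide e / q0
        have h4 : q0 * q0 ∣ e := by
          obtain ⟨m, hm⟩ := h3
          refine ⟨m, ?_⟩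
          rw [mul_assoc, ← hm, Nat.mul_div_cancel' (hqe q0 hq0)]
        exact (hqp q0 hq0).one_lt.ne' (Nat.isUnit_iff.1 (he q0 h4))
      · rcases ((hqp q0 hq0).dvd_mul).1 h3 with h4 | h4
        · exact hj q0 hq0 h4
        · apply hβ1
          obtain ⟨m, hm⟩ := h4
          have h5 : κ (Theta e K q0 β) ^ n q0 * w q0 ^ (f q0 * a) = 1 := ha
          rw [hm] at h5
          have h6 : w q0 ^ (f q0 * (q0 * m)) = 1 := by
            rw [show f q0 * (q0 * m) = q0 * (f q0 * m) by ring, pow_mul,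
              (hwp q0 hq0).pow_eq_one, one_pow]
          rw [h6, mul_one] at h5
          exact h5
  · intro γ
    rw [hH, norm_prod]
    refine le_of_eq (Finset.prod_eq_one fun q _ => ?_)
    rw [norm_inv, Sym_chi_norm, inv_one]
  · -- the identity
    intro S hS α γ hαγ hγ
    by_cases hlS : l ∈ S
    · have h1 : ∏ p ∈ S, om e j p (l : ℤ) = 0 := by
        refine Finset.prod_eq_zero hlS ?_
        unfold om
        rw [if_pos]
        simp
      have h2 : κ (Theta e K q0 α) = 0 := by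
        rw [hαγ q0 hq0, map_mul, map_prod, Finset.prod_eq_zero hlS (gauss_symbol_self e K κ),
          zero_mul]
      rw [h1, hF0 α ((theta_eq_zero_iff e K (hqp q0 hq0) (hqe q0 hq0) hl κ α).1 h2), zero_mul]
    · have hlp' : ∀ p ∈ S, l ≠ p := fun p hp h => hlS (h ▸ hp)
      have hPhi : ∀ q ∈ e.primeFactors, ∀ p ∈ S,
          Sym_R (w q) (n q) (f q) (κ (Phi e K q p)) (ind p (l : ZMod p)) := by
        intro q hq p hp
        have h := gauss_symbol e K (hqp q hq) (hqe q hq) (hS p hp) hl hle (hlp' p hp) κ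
        unfold Sym_R
        rw [hw, ← pow_mul]
        exact h
      have hγ0 : ∀ q ∈ e.primeFactors, κ (γ q) ≠ 0 := by
        intro q hq h0
        apply hγ q hq
        rw [← CharP.intCast_eq_zero_iff (AlgebraicClosure (ZMod l)) l, ← map_intCast κ,
          norm_eq e K, map_prod]
        refine Finset.prod_eq_zero (Finset.mem_univ 1) ?_
        rw [sig_one]
        exact h0
      have hP0 : ∀ q ∈ e.primeFactors, ∀ p ∈ S, κ (Phi e K q p) ≠ 0 := by
        intro q hq p hp h0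
        have h1 := hPhi q hq p hp
        unfold Sym_R at h1
        have hn0 : n q ≠ 0 := by
          have h3 : n q * q = l ^ f q - 1 := Nat.div_mul_cancel (hqd q hq)
          have h4 : f q ≠ 0 := by
            intro h5
            have := hqf q hq
            rw [h5, Nat.coprime_zero_right] at this
            exact (hqp q hq).one_lt.ne' this
          have h5 : 1 < l ^ f q := Nat.one_lt_pow h4 hl.one_lt
          intro h6
          rw [h6, zero_mul] at h3
          omega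
        rw [h0, zero_pow hn0, zero_mul] at h1
        exact zero_ne_one h1
      have hα : ¬ (l : ℤ) ∣ Algebra.norm ℤ α := by
        rw [← theta_eq_zero_iff e K (hqp q0 hq0) (hqe q0 hq0) hl κ, hαγ q0 hq0, map_mul, map_prod]
        exact mul_ne_zero (Finset.prod_ne_zero_iff.2 fun p hp => hP0 q0 hq0 p hp) (hγ0 q0 hq0)
      rw [hFne α hα, hH, ← Finset.prod_mul_distrib]
      have hL : ∏ p ∈ S, om e j p (l : ℤ) =
          ∏ q ∈ e.primeFactors, ee q (j q * ∑ p ∈ S, ind p (l : ZMod p)) := by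
        have h1 : ∀ p ∈ S, om e j p (l : ℤ) =
            ∏ q ∈ e.primeFactors, ee q (j q * ind p (l : ZMod p)) := by
          intro p hp
          unfold om
          have h2 : ((l : ℤ) : ZMod p) = (l : ZMod p) := Int.cast_natCast l
          rw [h2, if_neg]
          rw [ZMod.natCast_eq_zero_iff, Nat.prime_dvd_prime_iff_eq (hS p hp).1 hl]
          exact fun h => hlp' p hp h.symm
        rw [Finset.prod_congr rfl h1, Finset.prod_comm]
        refine Finset.prod_congr rfl fun q _ => ?_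
        rw [Finset.mul_sum, Sym_ee_sum]
      rw [hL]
      refine Finset.prod_congr rfl fun q hq => ?_
      -- logarithms
      obtain ⟨a, ha⟩ := hex q hq α hα
      set b : ℕ := ∑ p ∈ S, ind p (l : ZMod p) with hb
      have hbR : Sym_R (w q) (n q) (f q) (∏ p ∈ S, κ (Phi e K q p)) b :=
        Sym_R_prod S _ _ (hPhi q hq)
      have hc : Sym_R (w q) (n q) (f q) (κ (γ q)) (a + (q - 1) * b) := by
        have h1 : κ (Theta e K q α) = (∏ p ∈ S, κ (Phi e K q p)) * κ (γ q) := by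
          rw [hαγ q hq, map_mul, map_prod]
        have h2 : (∏ p ∈ S, κ (Phi e K q p)) ^ n q * w q ^ (f q * b) = 1 := hbR
        have h3 : κ (Theta e K q α) ^ n q * w q ^ (f q * a) = 1 := ha
        unfold Sym_R
        have hwq : w q ^ (f q * (q * b)) = 1 := by
          rw [show f q * (q * b) = q * (f q * b) by ring, pow_mul, (hwp q hq).pow_eq_one, one_pow]
        have h4 : f q * (q * b) = f q * b + f q * ((q - 1) * b) := by
          have h5 : q * b = b + (q - 1) * b := by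
            have h6 : q = 1 + (q - 1) := by
              have := (hqp q hq).pos
              omega
            calc q * b = (1 + (q - 1)) * b := by rw [← h6]
              _ = _ := by ring
          rw [h5]; ring
        rw [h4, pow_add] at hwq
        rw [h1, mul_pow] at h3
        have h7 : κ (γ q) ^ n q * w q ^ (f q * (a + (q - 1) * b)) =
            ((∏ p ∈ S, κ (Phi e K q p)) ^ n q * κ (γ q) ^ n q * w q ^ (f q * a)) *
              (w q ^ (f q * b) * w q ^ (f q * ((q - 1) * b))) := by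
          have h8 : κ (γ q) ^ n q * w q ^ (f q * (a + (q - 1) * b)) =
              κ (γ q) ^ n q * w q ^ (f q * a) * w q ^ (f q * ((q - 1) * b)) * 1 := by
            rw [mul_add, pow_add]; ring
          rw [h8, ← h2]; ring
        rw [h7, h3, hwq, one_mul]
      rw [Sym_chi_eq (hwp q hq) (hqp q hq).pos (hqf q hq) ha,
        Sym_chi_eq (hwp q hq) (hqp q hq).pos (hqf q hq) hc]
      rw [eq_mul_inv_iff_mul_eq₀ (Sym_ee_ne_zero _ _), ← Sym_ee_add]
      refine Sym_ee_mod (hqp q hq).pos ?_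
      rw [← mul_add]
      refine Nat.ModEq.mul_left _ ?_
      have h6 : b + (a + (q - 1) * b) = a + q * b := by
        have h7 : q * b = b + (q - 1) * b := by
          have h8 : q = 1 + (q - 1) := by
            have := (hqp q hq).pos
            omega
          calc q * b = (1 + (q - 1)) * b := by rw [← h8]
            _ = _ := by ring
        rw [h7]; ring
      rw [h6]
      exact Nat.add_mul_mod_self_left a q b

end Pool.Agent.ARX
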