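import Pool.Agent.ARX.Cyc

set_option autoImplicit false

/-!
# ARX module UNI: the units of absolute value one

If `γ, γ'` generate the same ideal, `γ' = u γ` with a unit `u`; if moreover
`γ * sig(-1) γ = c = γ' * sig(-1) γ'` with `c ≠ 0` then `u * sig(-1) u = 1`, so `|τ u| = 1` for
every embedding `τ` (`conj_emb`), so `u` is a root of unity
(`NumberField.Embeddings.pow_eq_one_of_norm_eq_one`), i.e. in the torsion of the unit group, which
has order `e` or `2 e` (`IsCyclotomicExtension.Rat.torsionOrder_eq`).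
-/

namespace Pool.Agent.ARX

open NumberField

variable (e : ℕ) [NeZero e] (K : Type) [Field K] [NumberField K] [IsCyclotomicExtension {e} ℚ K]

theorem unit_count (J : Ideal (𝓞 K)) (c : 𝓞 K) (hc : c ≠ 0) (T : Finset (𝓞 K))
    (hT : ∀ γ ∈ T, Ideal.span {γ} = J ∧ γ * sig e K (-1) γ = c) : T.card ≤ 2 * e := by
  classical
  rcases T.eq_empty_or_nonempty with rfl | ⟨γ0, h0⟩
  · simp
  have hg0 : γ0 ≠ 0 := by
    rintro rfl
    apply hc
    rw [← (hT 0 h0).2, zero_mul]
  have key : ∀ γ : T, ∃ u : Units.torsion K, γ0 * ((u : (𝓞 K)ˣ) : 𝓞 K) = γ := by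
    rintro ⟨γ, hγ⟩
    have h1 : Ideal.span {γ0} = Ideal.span {γ} := by rw [(hT γ0 h0).1, (hT γ hγ).1]
    obtain ⟨u, hu⟩ := Ideal.span_singleton_eq_span_singleton.1 h1
    refine ⟨⟨u, ?_⟩, hu⟩
    rw [Units.mem_torsion]
    intro w
    have h2 : (u : 𝓞 K) * sig e K (-1) (u : 𝓞 K) = 1 := by
      have h3 := (hT γ hγ).2
      have h4 := (hT γ0 h0).2
      rw [← hu, map_mul] at h3
      have h5 : c * ((u : 𝓞 K) * sig e K (-1) (u : 𝓞 K)) = c * 1 := by
        rw [mul_one]
        nth_rewrite 1 [← h4]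
        rw [← h3]
        ring
      exact mul_left_cancel₀ hc h5
    set τ : 𝓞 K →+* ℂ := w.embedding.comp (algebraMap (𝓞 K) K) with hτ
    have h6 : τ (u : 𝓞 K) * (starRingEnd ℂ) (τ (u : 𝓞 K)) = 1 := by
      rw [conj_emb e K τ, ← map_mul, h2, map_one]
    rw [Complex.mul_conj] at h6
    have h7 : Complex.normSq (τ (u : 𝓞 K)) = 1 := by exact_mod_cast h6
    have h8 : ‖τ (u : 𝓞 K)‖ = 1 := by
      rw [Complex.normSq_eq_norm_sq] at h7
      have := norm_nonneg (τ (u : 𝓞 K))
      nlinarith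
    rw [← InfinitePlace.norm_embedding_eq]
    exact h8
  choose F hF using key
  have hinj : Function.Injective F := by
    intro a b hab
    apply Subtype.ext
    rw [← hF a, ← hF b, hab]
  have h9 := Nat.card_le_card_of_injective F hinj
  rw [Nat.card_eq_fintype_card, Fintype.card_coe] at h9
  have h10 : Nat.card (Units.torsion K) ≤ 2 * e := by
    have := IsCyclotomicExtension.Rat.torsionOrder_eq (n := e) (K := K)
    unfold Units.torsionOrder at this
    rw [this]
    split_ifs <;> omega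
  exact h9.trans h10

end Pool.Agent.ARX
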