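import Pool.Agent.ARX.Lab
import Pool.Agent.ARX.Uni
import Pool.Agent.ARX.Cnt
import Pool.Agent.ARX.Sym

set_option autoImplicit false

/-!
# ARX module STR: the structure theorem

For each `S ∈ SS` let `Y_S` be the largest natural number with `Y_S^D ≤ ∏ S` (`D = φ(e)`), so
`∏ S < (Y_S+1)^D` and `Y_S ≤ Y`; `x S` from `short_vector`, `α = ofc (x S)`, `C`, `γ` from
`cofactor`; `(∏ S) * absNorm C = |norm α| ≤ (D Y_S)^D ≤ D^D ∏ S`, so `absNorm C ≤ D^D`.
Label: the pair `(C, (γ q)_{q ∈ e.primeFactors})`.  Number of labels: for each `c ≤ D^D` at most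
`D^(log2 (D^D))` ideals (`ideal_count`, `IsCyclotomicExtension.Rat.finrank`), and for each of them
at most `(2e)^#primeFactors` families (`unit_count` with `J = ThetaI q C`,
`c = (absNorm C)^q`).  So at most `Lam e` labels; number them by `lab < Lam e`.
`c (lab S) = absNorm C`, `H (lab S) l = H_l(γ)` from `sym_exists` (choose `F l`, `H_l` for each `l`).
Injectivity: same label and same `x` give the same `C`, the same `α`, so the same product
`∏ S = |norm α| / absNorm C`, and a finite set of primes is determined by its product.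
-/

namespace Pool.Agent.ARX

open NumberField

variable (e : ℕ) [NeZero e] (K : Type) [Field K] [NumberField K] [IsCyclotomicExtension {e} ℚ K]

omit [NeZero e] in
theorem str_floor {D : ℕ} (hD : 1 ≤ D) {N Y : ℕ} (h : N < (Y + 1) ^ D) :
    ∃ y ≤ Y, y ^ D ≤ N ∧ N < (y + 1) ^ D := by
  classical
  refine ⟨Nat.findGreatest (fun y => y ^ D ≤ N) Y, Nat.findGreatest_le Y, ?_, ?_⟩
  · have h0 : (fun y => y ^ D ≤ N) 0 := by
      simp [zero_pow (by omega : D ≠ 0)]
    exact Nat.findGreatest_spec (P := fun y => y ^ D ≤ N) (Nat.zero_le Y) h0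
  · rcases Nat.lt_or_ge (Nat.findGreatest (fun y => y ^ D ≤ N) Y) Y with h1 | h1
    · have h2 := Nat.findGreatest_is_greatest (P := fun y => y ^ D ≤ N)
        (Nat.lt_succ_self (Nat.findGreatest (fun y => y ^ D ≤ N) Y)) h1
      exact not_le.1 h2
    · have h2 : Nat.findGreatest (fun y => y ^ D ≤ N) Y = Y :=
        le_antisymm (Nat.findGreatest_le Y) h1
      rw [h2]
      exact h

/-- The data attached to one set `S`. -/
theorem str_data (S : Finset ℕ) (hS : ∀ p ∈ S, Good e p) (Y : ℕ)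
    (hY : ∏ p ∈ S, p < (Y + 1) ^ (Nat.totient e)) :
    ∃ (x : Fin (Nat.totient e) → ℤ) (C : Ideal (𝓞 K)) (γ : ℕ → 𝓞 K), x ∈ Box e Y ∧
      1 ≤ Ideal.absNorm C ∧ Ideal.absNorm C ≤ (Nat.totient e) ^ (Nat.totient e) ∧
      (∀ q, q ∉ e.primeFactors → γ q = 0) ∧
      (Algebra.norm ℤ (ofc e K x)).natAbs = (∏ p ∈ S, p) * Ideal.absNorm C ∧
      (∀ q ∈ e.primeFactors, Theta e K q (ofc e K x) = (∏ p ∈ S, Phi e K q p) * γ q ∧
        Ideal.span {γ q} = ThetaI e K q C ∧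
        γ q * sig e K (-1) (γ q) = ((Ideal.absNorm C : ℕ) : 𝓞 K) ^ q) ∧
      (∀ q ∈ e.primeFactors, ∀ l : ℕ, l.Prime → ¬ l ∣ Ideal.absNorm C →
        ¬ (l : ℤ) ∣ Algebra.norm ℤ (γ q)) := by
  classical
  have he0 : 0 < e := Nat.pos_of_ne_zero (NeZero.ne e)
  have hD : 1 ≤ Nat.totient e := Nat.totient_pos.2 he0
  obtain ⟨y, hyY, hy1, hy2⟩ := str_floor hD hY
  obtain ⟨x, hx0, hxb, hxP⟩ := short_vector e K S hS y hy2
  have hα : ofc e K x ≠ 0 := by
    intro h
    apply hx0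
    apply (ofc_bijective e K).1
    rw [h]
    simp [ofc]
  obtain ⟨C, γ, h1, h2, h3, h4⟩ := cofactor e K S hS (ofc e K x) hα hxP
  refine ⟨x, C, fun q => if q ∈ e.primeFactors then γ q else 0, ?_, h1, ?_, ?_, h2, ?_, ?_⟩
  · rw [Box, Fintype.mem_piFinset]
    intro i
    have h5 := abs_le.1 (hxb i)
    have h6 : (y : ℤ) ≤ Y := by exact_mod_cast hyY
    rw [Finset.mem_Icc]
    constructor <;> omega
  · have h5 := norm_bound e K x y hxb
    rw [h2, mul_pow] at h5
    have hpos : 0 < ∏ p ∈ S, p := Finset.prod_pos fun p hp => (hS p hp).1.pos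
    have h6 : (∏ p ∈ S, p) * Ideal.absNorm C ≤
        (∏ p ∈ S, p) * (Nat.totient e) ^ (Nat.totient e) := by
      refine h5.trans ?_
      rw [mul_comm]
      exact Nat.mul_le_mul_right _ hy1
    exact Nat.le_of_mul_le_mul_left h6 hpos
  · intro q hq
    exact if_neg hq
  · intro q hq
    simp only [if_pos hq]
    exact h3 q hq
  · intro q hq l hl hlC
    simp only [if_pos hq]
    exact h4 q hq l hl hlC

/-- The number of labels. -/
theorem str_count (T : Finset (Ideal (𝓞 K) × (ℕ → 𝓞 K)))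
    (h1 : ∀ t ∈ T, 1 ≤ Ideal.absNorm t.1)
    (h2 : ∀ t ∈ T, Ideal.absNorm t.1 ≤ (Nat.totient e) ^ (Nat.totient e))
    (h3 : ∀ t ∈ T, ∀ q, q ∉ e.primeFactors → t.2 q = 0)
    (h4 : ∀ t ∈ T, ∀ q ∈ e.primeFactors, Ideal.span {t.2 q} = ThetaI e K q t.1 ∧
        t.2 q * sig e K (-1) (t.2 q) = ((Ideal.absNorm t.1 : ℕ) : 𝓞 K) ^ q) :
    T.card ≤ Lam e := by
  classical
  have he0 : 0 < e := Nat.pos_of_ne_zero (NeZero.ne e)
  have hD : 1 ≤ Nat.totient e := Nat.totient_pos.2 he0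
  have hfin : Module.finrank ℚ K = Nat.totient e := IsCyclotomicExtension.Rat.finrank e K
  set D := Nat.totient e with hDdef
  -- fibres
  have hfib : ∀ C : Ideal (𝓞 K), (T.filter (fun t => t.1 = C)).card ≤
      (2 * e) ^ (e.primeFactors.card) := by
    intro C
    rcases (T.filter (fun t => t.1 = C)).eq_empty_or_nonempty with hem | ⟨t0, ht0⟩
    · rw [hem, Finset.card_empty]
      exact Nat.zero_le _
    rw [Finset.mem_filter] at ht0
    have hCne : Ideal.absNorm C ≠ 0 := by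
      have := h1 t0 ht0.1
      rw [ht0.2] at this
      omega
    set TC := T.filter (fun t => t.1 = C) with hTC
    have hmap : TC.card ≤ (Fintype.piFinset (fun q : e.primeFactors =>
        TC.image (fun t => t.2 (q : ℕ)))).card := by
      refine Finset.card_le_card_of_injOn (fun t => fun q : e.primeFactors => t.2 (q : ℕ)) ?_ ?_
      · intro t ht
        rw [Finset.mem_coe, Fintype.mem_piFinset]
        intro q
        exact Finset.mem_image_of_mem _ (Finset.mem_coe.1 ht)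
      · intro t ht t' ht' h
        have ht1 := Finset.mem_filter.1 (Finset.mem_coe.1 ht)
        have ht1' := Finset.mem_filter.1 (Finset.mem_coe.1 ht')
        apply Prod.ext
        · rw [ht1.2, ht1'.2]
        · funext q
          by_cases hq : q ∈ e.primeFactors
          · exact congrFun h ⟨q, hq⟩
          · rw [h3 t ht1.1 q hq, h3 t' ht1'.1 q hq]
    refine hmap.trans ?_
    rw [Fintype.card_piFinset]
    have hone : ∀ q : e.primeFactors, (TC.image (fun t => t.2 (q : ℕ))).card ≤ 2 * e := by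
      intro q
      refine unit_count e K (ThetaI e K q C) (((Ideal.absNorm C : ℕ) : 𝓞 K) ^ (q : ℕ)) ?_ _ ?_
      · apply pow_ne_zero
        exact_mod_cast hCne
      · intro g hg
        obtain ⟨t, ht, rfl⟩ := Finset.mem_image.1 hg
        have ht1 := Finset.mem_filter.1 ht
        have h5 := h4 t ht1.1 q q.2
        rw [ht1.2] at h5
        exact h5
    refine (Finset.prod_le_prod (fun _ _ => Nat.zero_le _) (fun q _ => hone q)).trans ?_
    rw [Finset.prod_const, Finset.card_univ, Fintype.card_coe]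
  -- number of ideals
  have hid : (T.image Prod.fst).card ≤ (D ^ D + 1) * D ^ (Nat.log 2 (D ^ D)) := by
    have hsub : T.image Prod.fst ⊆ (Finset.range (D ^ D + 1)).biUnion
        (fun c => (T.image Prod.fst).filter (fun C => Ideal.absNorm C = c)) := by
      intro C hC
      obtain ⟨t, ht, rfl⟩ := Finset.mem_image.1 hC
      rw [Finset.mem_biUnion]
      exact ⟨Ideal.absNorm t.1, Finset.mem_range.2 (Nat.lt_succ_of_le (h2 t ht)),
        Finset.mem_filter.2 ⟨hC, rfl⟩⟩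
    refine (Finset.card_le_card hsub).trans (Finset.card_biUnion_le.trans ?_)
    refine (Finset.sum_le_card_nsmul _ _ (D ^ (Nat.log 2 (D ^ D))) ?_).trans ?_
    · intro c hc
      rcases ((T.image Prod.fst).filter (fun C => Ideal.absNorm C = c)).eq_empty_or_nonempty
        with hem | ⟨C, hC⟩
      · rw [hem, Finset.card_empty]
        exact Nat.zero_le _
      · rw [Finset.mem_filter] at hC
        obtain ⟨t, ht, rfl⟩ := Finset.mem_image.1 hC.1
        have hc1 : 1 ≤ c := hC.2 ▸ h1 t ht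
        have hc2 : c ≤ D ^ D := Nat.lt_succ_iff.1 (Finset.mem_range.1 hc)
        refine (ideal_count K c hc1 _ (fun I hI => (Finset.mem_filter.1 hI).2)).trans ?_
        rw [hfin]
        exact Nat.pow_le_pow_right hD (Nat.log_mono_right hc2)
    · rw [Finset.card_range, smul_eq_mul]
  have htot : T.card ≤ (T.image Prod.fst).card * (2 * e) ^ (e.primeFactors.card) := by
    rw [Finset.card_eq_sum_card_image Prod.fst T]
    refine (Finset.sum_le_card_nsmul _ _ _ (fun C _ => hfib C)).trans ?_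
    rw [smul_eq_mul]
  refine htot.trans ?_
  unfold Lam
  rw [← hDdef, ← mul_assoc]
  exact Nat.mul_le_mul_right _ hid

theorem structure_thm (he : Squarefree e) (he1 : 1 < e) (j : ℕ → ℕ)
    (hj : ∀ q ∈ e.primeFactors, ¬ q ∣ j q) :
    ∃ F : ℕ → 𝓞 K → ℂ, (∀ l : ℕ, l.Prime → ¬ l ∣ e → SymProps K l (F l)) ∧
      ∀ (SS : Finset (Finset ℕ)), (∀ S ∈ SS, ∀ p ∈ S, Good e p) → ∀ Y : ℕ,
        (∀ S ∈ SS, ∏ p ∈ S, p < (Y + 1) ^ (Nat.totient e)) →
        ∃ (lab : Finset ℕ → ℕ) (c : ℕ → ℕ) (H : ℕ → ℕ → ℂ)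
          (x : Finset ℕ → (Fin (Nat.totient e) → ℤ)),
          (∀ S ∈ SS, lab S < Lam e) ∧ (∀ S ∈ SS, x S ∈ Box e Y) ∧
          (∀ S ∈ SS, ∀ S' ∈ SS, lab S = lab S' → x S = x S' → S = S') ∧
          (∀ S ∈ SS, 1 ≤ c (lab S) ∧ c (lab S) ≤ (Nat.totient e) ^ (Nat.totient e)) ∧
          (∀ i l, ‖H i l‖ ≤ 1) ∧
          (∀ S ∈ SS, ∀ l : ℕ, l.Prime → ¬ l ∣ e → ¬ l ∣ c (lab S) →
            ∏ p ∈ S, om e j p (l : ℤ) = F l (ofc e K (x S)) * H (lab S) l) := by
  classical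
  have hsym : ∀ l : ℕ, ∃ (F : 𝓞 K → ℂ) (H : (ℕ → 𝓞 K) → ℂ), (∀ γ, ‖H γ‖ ≤ 1) ∧
      (l.Prime → ¬ l ∣ e → SymProps K l F ∧
      ∀ S : Finset ℕ, (∀ p ∈ S, Good e p) → ∀ (α : 𝓞 K) (γ : ℕ → 𝓞 K),
        (∀ q ∈ e.primeFactors, Theta e K q α = (∏ p ∈ S, Phi e K q p) * γ q) →
        (∀ q ∈ e.primeFactors, ¬ (l : ℤ) ∣ Algebra.norm ℤ (γ q)) →
        ∏ p ∈ S, om e j p (l : ℤ) = F α * H γ) := by
    intro l
    by_cases hl : l.Prime ∧ ¬ l ∣ e
    · obtain ⟨F, H, h1, h2, h3⟩ := sym_exists e K he he1 j hj hl.1 hl.2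
      exact ⟨F, H, h2, fun _ _ => ⟨h1, h3⟩⟩
    · refine ⟨fun _ => 0, fun _ => 0, by simp, fun h1 h2 => absurd ⟨h1, h2⟩ hl⟩
  choose F HH hH1 hH2 using hsym
  refine ⟨F, fun l hl hle => (hH2 l hl hle).1, ?_⟩
  intro SS hSS Y hY
  have hdata : ∀ S : Finset ℕ, ∃ (x : Fin (Nat.totient e) → ℤ) (C : Ideal (𝓞 K)) (γ : ℕ → 𝓞 K),
      S ∈ SS → (x ∈ Box e Y ∧
      1 ≤ Ideal.absNorm C ∧ Ideal.absNorm C ≤ (Nat.totient e) ^ (Nat.totient e) ∧
      (∀ q, q ∉ e.primeFactors → γ q = 0) ∧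
      (Algebra.norm ℤ (ofc e K x)).natAbs = (∏ p ∈ S, p) * Ideal.absNorm C ∧
      (∀ q ∈ e.primeFactors, Theta e K q (ofc e K x) = (∏ p ∈ S, Phi e K q p) * γ q ∧
        Ideal.span {γ q} = ThetaI e K q C ∧
        γ q * sig e K (-1) (γ q) = ((Ideal.absNorm C : ℕ) : 𝓞 K) ^ q) ∧
      (∀ q ∈ e.primeFactors, ∀ l : ℕ, l.Prime → ¬ l ∣ Ideal.absNorm C →
        ¬ (l : ℤ) ∣ Algebra.norm ℤ (γ q))) := by
    intro S
    by_cases hS : S ∈ SS
    · obtain ⟨x, C, γ, h⟩ := str_data e K S (hSS S hS) Y (hY S hS)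
      exact ⟨x, C, γ, fun _ => h⟩
    · exact ⟨0, ⊤, 0, fun h => absurd h hS⟩
  choose x C γ hd using hdata
  set T : Finset (Ideal (𝓞 K) × (ℕ → 𝓞 K)) := SS.image (fun S => (C S, γ S)) with hT
  have hmem : ∀ S ∈ SS, (C S, γ S) ∈ T := fun S hS => Finset.mem_image_of_mem _ hS
  have hcard : T.card ≤ Lam e := by
    refine str_count e K T ?_ ?_ ?_ ?_
    · intro t ht
      obtain ⟨S, hS, rfl⟩ := Finset.mem_image.1 ht
      exact (hd S hS).2.1
    · intro t ht
      obtain ⟨S, hS, rfl⟩ := Finset.mem_image.1 ht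
      exact (hd S hS).2.2.1
    · intro t ht
      obtain ⟨S, hS, rfl⟩ := Finset.mem_image.1 ht
      exact (hd S hS).2.2.2.1
    · intro t ht q hq
      obtain ⟨S, hS, rfl⟩ := Finset.mem_image.1 ht
      exact ((hd S hS).2.2.2.2.2.1 q hq).2
  set elt : ℕ → Ideal (𝓞 K) × (ℕ → 𝓞 K) := fun i =>
    if h : i < T.card then (T.equivFin.symm ⟨i, h⟩ : Ideal (𝓞 K) × (ℕ → 𝓞 K)) else (⊤, 0) with helt
  set lab : Finset ℕ → ℕ := fun S =>
    if h : (C S, γ S) ∈ T then (T.equivFin ⟨(C S, γ S), h⟩ : ℕ) else 0 with hlab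
  have hlt : ∀ S ∈ SS, lab S < T.card := by
    intro S hS
    simp only [hlab, dif_pos (hmem S hS)]
    exact (T.equivFin _).2
  have hel : ∀ S ∈ SS, elt (lab S) = (C S, γ S) := by
    intro S hS
    have h1 := hlt S hS
    have h2 : (⟨lab S, h1⟩ : Fin T.card) = T.equivFin ⟨(C S, γ S), hmem S hS⟩ := by
      apply Fin.ext
      simp only [hlab, dif_pos (hmem S hS)]
    simp only [helt, dif_pos h1]
    rw [h2, Equiv.symm_apply_apply]
  refine ⟨lab, fun i => Ideal.absNorm (elt i).1, fun i l => HH l (elt i).2, x,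
    fun S hS => (hlt S hS).trans_le hcard, fun S hS => (hd S hS).1, ?_, ?_,
    fun i l => hH1 l _, ?_⟩
  · intro S hS S' hS' h1 h2
    have h3 : (C S, γ S) = (C S', γ S') := by rw [← hel S hS, ← hel S' hS', h1]
    have h4 : C S = C S' := congrArg Prod.fst h3
    have h5 := (hd S hS).2.2.2.2.1
    have h6 := (hd S' hS').2.2.2.2.1
    rw [← h2, ← h4, h5] at h6
    have h7 : ∏ p ∈ S, p = ∏ p ∈ S', p :=
      Nat.eq_of_mul_eq_mul_right (hd S hS).2.1 h6
    rw [← Nat.primeFactors_prod (fun p hp => (hSS S hS p hp).1), h7,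
      Nat.primeFactors_prod (fun p hp => (hSS S' hS' p hp).1)]
  · intro S hS
    simp only [hel S hS]
    exact ⟨(hd S hS).2.1, (hd S hS).2.2.1⟩
  · intro S hS l hl hle hlc
    simp only [hel S hS] at hlc ⊢
    exact (hH2 l hl hle).2 S (hSS S hS) (ofc e K (x S)) (γ S)
      (fun q hq => ((hd S hS).2.2.2.2.2.1 q hq).1)
      (fun q hq => (hd S hS).2.2.2.2.2.2 q hq l hl hlc)

end Pool.Agent.ARX
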